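import Mathlib

/-!
# Counting in totally complex number fields: definitions (complete)

`TC F n`: `F` is totally complex of degree `n`.  `dd F = |disc F|`, `kap F` the residue of the zeta
function of `F` at `1`.
-/

open scoped NumberField

noncomputable section

namespace H36.QA

/-- `F` is totally complex of degree `n`. -/
def TC (F : Type) [Field F] [NumberField F] (n : ℕ) : Prop :=
  NumberField.IsTotallyComplex F ∧ Module.finrank ℚ F = n

/-- `|disc F|`. -/
def dd (F : Type) [Field F] [NumberField F] : ℝ := |(NumberField.discr F : ℝ)|

/-- The residue of the Dedekind zeta function of `F`. -/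
def kap (F : Type) [Field F] [NumberField F] : ℝ := NumberField.dedekindZeta_residue F

theorem one_le_dd (F : Type) [Field F] [NumberField F] : 1 ≤ dd F := by
  unfold dd
  have h : 1 ≤ |NumberField.discr F| := Int.one_le_abs (NumberField.discr_ne_zero F)
  have h2 : ((1 : ℤ) : ℝ) ≤ ((|NumberField.discr F| : ℤ) : ℝ) := by exact_mod_cast h
  simpa using h2

theorem dd_pos (F : Type) [Field F] [NumberField F] : 0 < dd F :=
  lt_of_lt_of_le one_pos (one_le_dd F)

theorem kap_pos (F : Type) [Field F] [NumberField F] : 0 < kap F :=
  NumberField.dedekindZeta_residue_pos F

/-- The product formula in the totally complex case: the norm is the product of the squares of the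
absolute values. -/
def PN (F : Type) [Field F] [NumberField F] (f : NumberField.InfinitePlace F → ℝ) : ℝ :=
  ∏ w, f w ^ 2

end H36.QA
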