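import Pool.Agent.H36.QA.Latt

/-!
# [H36 QA COV] The covering radius of ideal lattices (90-160 lines)

For totally complex `F` of degree `n` every point of `mixedSpace F` is close to the lattice of the
ideal `𝔞`: distance `^ n` at most `C |disc F|^A N(𝔞)`, with `C, A` depending only on `n`.

1. A primitive element `a ∈ 𝓞 F` with all `w a < √(1 + B²)`, `B ≤ C √(dd F)`:
   `NumberField.mixedEmbedding.exists_primitive_element_lt_of_isComplex` (Mathlib,
   `CanonicalEmbedding/ConvexBody.lean`), with `minkowskiBound F 1 < convexBodyLT'Factor * B`; the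
   Minkowski bound is `volume (fundamental domain) * 2^n = 2^(-n/2) √(dd F) 2^n`
   (`volume_fundamentalDomain_latticeBasis`), and `1 ≤ convexBodyLT'Factor`.
2. `y ∈ 𝔞`, `y ≠ 0`, with `w y < f` for all `w`, where `f^n` is a constant times `N(𝔞) √(dd F)`:
   `exists_ne_zero_mem_ideal_lt` with constant `f`, `convexBodyLT_volume`
   (`∏ w, f ^ mult w = f ^ n`), `volume_fundamentalDomain_fractionalIdealLatticeBasis`.
3. The `n` vectors `mixedEmbedding (y a^i)`, `i < n`, are an `ℝ`-basis of `mixedSpace F`: the real span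
   contains the image of `F` (the `y a^i` are a `ℚ`-basis of `F`: `ℚ⟮a⟯ = ⊤`, power basis), in
   particular the `latticeBasis`, so it is everything; `n` spanning vectors in dimension `n` are a
   basis (`basisOfTopLeSpanOfCardEqFinrank`, `mixedEmbedding.finrank`).
4. For a basis `b` and `x` take the lattice vector `ZSpan.floor b x`; `‖x - floor‖ = ‖fract b x‖ ≤
   ∑ ‖b i‖` (`ZSpan.norm_fract_le`), and `‖b i‖ = max_w w(y a^i) ≤ f (1 + B²)^(n/2)`
   (`norm_le_iff_tc`, `normAtPlace`, `mixedEmbedding` at a complex place is `w.embedding`,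
   `InfinitePlace.norm_embedding_eq`).  The floor is an integral combination of `y a^i ∈ 𝔞`.
5. `(n f (1 + B²)^(n/2))^n ≤ C (dd F)^A N(𝔞)`.
-/

open scoped NumberField nonZeroDivisors
open MeasureTheory NumberField

noncomputable section

namespace H36.QA

open Classical in
/-- an upper bound of the Minkowski bound -/
theorem cov_mink (n : ℕ) (F : Type) [Field F] [NumberField F] (hF : TC F n)
    (I : (FractionalIdeal (𝓞 F)⁰ F)ˣ) :
    mixedEmbedding.minkowskiBound F I ≤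
      ENNReal.ofReal ((FractionalIdeal.absNorm I.1 : ℝ) * (Real.sqrt (dd F) * 2 ^ n)) := by
  unfold mixedEmbedding.minkowskiBound
  rw [mixedEmbedding.volume_fundamentalDomain_fractionalIdealLatticeBasis,
    mixedEmbedding.volume_fundamentalDomain_latticeBasis, mixedEmbedding.finrank, hF.2,
    ENNReal.ofReal_mul (by exact_mod_cast FractionalIdeal.absNorm_nonneg I.1), mul_assoc,
    ENNReal.ofReal_mul (Real.sqrt_nonneg _)]
  have e2 : ((NNReal.sqrt ‖discr F‖₊ : NNReal) : ENNReal) = ENNReal.ofReal (Real.sqrt (dd F)) := by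
    rw [← ENNReal.ofReal_coe_nnreal, Real.coe_sqrt, coe_nnnorm, Int.norm_eq_abs]
    rfl
  have e3 : ENNReal.ofReal ((2 : ℝ) ^ n) = (2 : ENNReal) ^ n := by
    rw [ENNReal.ofReal_pow (by norm_num)]
    norm_num
  rw [e2, e3]
  gcongr
  have h1 : ((2 : ENNReal)⁻¹) ^ InfinitePlace.nrComplexPlaces F ≤ 1 := by
    apply pow_le_one₀ zero_le
    rw [ENNReal.inv_le_one]
    norm_num
  calc (2 : ENNReal)⁻¹ ^ InfinitePlace.nrComplexPlaces F * ENNReal.ofReal (Real.sqrt (dd F))
      ≤ 1 * ENNReal.ofReal (Real.sqrt (dd F)) := by gcongr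
    _ = _ := one_mul _

/-- a primitive element with small absolute values -/
theorem cov_prim (n : ℕ) (F : Type) [Field F] [NumberField F] (hF : TC F n) :
    ∃ a : 𝓞 F, IntermediateField.adjoin ℚ {(a : F)} = ⊤ ∧
      ∀ w : InfinitePlace F, w (a : F) ≤ (2 + 2 ^ n) * dd F := by
  have := hF.1
  obtain ⟨w₀⟩ : Nonempty (InfinitePlace F) := inferInstance
  have hw₀ : w₀.IsComplex := IsTotallyComplex.isComplex w₀
  have hdd := one_le_dd F
  have hsq : Real.sqrt (dd F) ≤ dd F := by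
    rw [Real.sqrt_le_left (by linarith)]
    nlinarith
  obtain ⟨B, hB'⟩ : ∃ B : NNReal, (B : ℝ) = 2 ^ n * dd F + 1 :=
    ⟨⟨2 ^ n * dd F + 1, by positivity⟩, rfl⟩
  have hlt : mixedEmbedding.minkowskiBound F (1 : (FractionalIdeal (𝓞 F)⁰ F)ˣ) <
      mixedEmbedding.convexBodyLT'Factor F * B := by
    refine (cov_mink n F hF 1).trans_lt ?_
    have h1 : ENNReal.ofReal ((FractionalIdeal.absNorm
        ((1 : (FractionalIdeal (𝓞 F)⁰ F)ˣ) : FractionalIdeal (𝓞 F)⁰ F) : ℝ) *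
        (Real.sqrt (dd F) * 2 ^ n)) < (B : ENNReal) := by
      have hBpos : (0 : ℝ) < B := by rw [hB']; positivity
      rw [← ENNReal.ofReal_coe_nnreal]
      rw [ENNReal.ofReal_lt_ofReal_iff hBpos]
      rw [Units.val_one, map_one, hB']
      have : Real.sqrt (dd F) * 2 ^ n ≤ dd F * 2 ^ n := by gcongr
      push_cast
      linarith
    refine h1.trans_le ?_
    calc (B : ENNReal) = 1 * B := (one_mul _).symm
      _ ≤ mixedEmbedding.convexBodyLT'Factor F * B := by
        gcongr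
        exact_mod_cast mixedEmbedding.one_le_convexBodyLT'Factor F
  obtain ⟨a, ha, haw⟩ := mixedEmbedding.exists_primitive_element_lt_of_isComplex F hw₀ hlt
  refine ⟨a, ha, fun w => (haw w).le.trans ?_⟩
  rw [Real.sqrt_le_left (by positivity), hB']
  have h2n : (1 : ℝ) ≤ 2 ^ n := one_le_pow₀ (by norm_num)
  have h3 : 0 ≤ (2 : ℝ) ^ n * dd F := by positivity
  nlinarith

/-- a small nonzero element of an ideal -/
theorem cov_elt (n : ℕ) (F : Type) [Field F] [NumberField F] (hF : TC F n) (𝔞 : Ideal (𝓞 F))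
    (h𝔞 : 𝔞 ≠ ⊥) (f : ℝ) (hf : 0 ≤ f)
    (h : Ideal.absNorm 𝔞 * (Real.sqrt (dd F) * 2 ^ n) < f ^ n) :
    ∃ y ∈ 𝔞, y ≠ 0 ∧ ∀ w : InfinitePlace F, w (y : F) ≤ f := by
  classical
  obtain ⟨g, hg⟩ : ∃ g : NNReal, (g : ℝ) = f := ⟨⟨f, hf⟩, rfl⟩
  set I : (FractionalIdeal (𝓞 F)⁰ F)ˣ :=
    FractionalIdeal.mk0 F ⟨𝔞, mem_nonZeroDivisors_iff_ne_zero.2 h𝔞⟩ with hI
  have hlt : mixedEmbedding.minkowskiBound F I <
      volume (mixedEmbedding.convexBodyLT F (fun _ => g)) := by
    refine (cov_mink n F hF I).trans_lt ?_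
    rw [hI, FractionalIdeal.coe_mk0, FractionalIdeal.coeIdeal_absNorm,
      mixedEmbedding.convexBodyLT_volume]
    have hprod : ∏ w : InfinitePlace F, g ^ w.mult = g ^ n := by
      rw [Finset.prod_pow_eq_pow_sum, InfinitePlace.sum_mult_eq, hF.2]
    rw [hprod]
    have h1 : ENNReal.ofReal (((Ideal.absNorm (((⟨𝔞, mem_nonZeroDivisors_iff_ne_zero.2 h𝔞⟩ :
        (Ideal (𝓞 F))⁰) : Ideal (𝓞 F))) : ℚ) : ℝ) * (Real.sqrt (dd F) * 2 ^ n)) <
        ((g ^ n : NNReal) : ENNReal) := by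
      rw [← ENNReal.ofReal_coe_nnreal, ENNReal.ofReal_lt_ofReal_iff_of_nonneg (by positivity)]
      rw [NNReal.coe_pow, hg]
      exact_mod_cast h
    refine h1.trans_le ?_
    calc ((g ^ n : NNReal) : ENNReal) = 1 * ((g ^ n : NNReal) : ENNReal) := (one_mul _).symm
      _ ≤ _ := by
        gcongr
        exact_mod_cast mixedEmbedding.one_le_convexBodyLTFactor F
  obtain ⟨y, hyI, hy0, hyw⟩ := mixedEmbedding.exists_ne_zero_mem_ideal_lt F I hlt
  rw [hI, FractionalIdeal.coe_mk0] at hyI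
  obtain ⟨α, hα, rfl⟩ := (FractionalIdeal.mem_coeIdeal (𝓞 F)⁰).1 hyI
  refine ⟨α, hα, ?_, fun w => by rw [← hg]; exact (hyw w).le⟩
  rintro rfl
  exact hy0 (map_zero _)

/-- the real span of the images of `y a^i` -/
theorem cov_span (n : ℕ) (F : Type) [Field F] [NumberField F] (hF : TC F n) (a y : 𝓞 F)
    (ha : IntermediateField.adjoin ℚ {(a : F)} = ⊤) (hy : y ≠ 0) :
    ⊤ ≤ Submodule.span ℝ (Set.range (fun i : Fin n =>
      mixedEmbedding F ((y * a ^ (i : ℕ) : 𝓞 F) : F))) := by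
  have hdeg : (minpoly ℚ (a : F)).natDegree = n := by
    rw [(Field.primitive_element_iff_minpoly_natDegree_eq ℚ (a : F)).1 ha, hF.2]
  have hli : LinearIndependent ℚ (fun i : Fin n => (a : F) ^ (i : ℕ)) := by
    have := linearIndependent_pow (K := ℚ) (a : F)
    rw [hdeg] at this
    exact this
  have hy' : (y : F) ≠ 0 := by
    intro h
    apply hy
    exact RingOfIntegers.coe_eq_zero_iff.1 h
  have hli2 : LinearIndependent ℚ (fun i : Fin n => (y : F) * (a : F) ^ (i : ℕ)) := by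
    have h1 := hli.map' (LinearMap.mulLeft ℚ (y : F)) (by
      rw [LinearMap.ker_eq_bot]
      intro u v huv
      exact mul_left_cancel₀ hy' huv)
    exact h1
  have hspan := hli2.span_eq_top_of_card_eq_finrank' (by rw [Fintype.card_fin, hF.2])
  have hall : ∀ z : F, mixedEmbedding F z ∈ Submodule.span ℝ (Set.range (fun i : Fin n =>
      mixedEmbedding F ((y * a ^ (i : ℕ) : 𝓞 F) : F))) := by
    intro z
    have hz : z ∈ Submodule.span ℚ (Set.range (fun i : Fin n => (y : F) * (a : F) ^ (i : ℕ))) := by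
      rw [hspan]
      trivial
    induction hz using Submodule.span_induction with
    | mem x hx =>
      obtain ⟨i, rfl⟩ := hx
      apply Submodule.subset_span
      refine ⟨i, ?_⟩
      simp
    | zero =>
      rw [map_zero]
      exact Submodule.zero_mem _
    | add u v _ _ hu hv =>
      rw [map_add]
      exact Submodule.add_mem _ hu hv
    | smul q u _ hu =>
      rw [map_rat_smul, ← Rat.cast_smul_eq_qsmul ℝ]
      exact Submodule.smul_mem _ _ hu
  rw [← (mixedEmbedding.latticeBasis F).span_eq, Submodule.span_le]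
  rintro _ ⟨i, rfl⟩
  rw [mixedEmbedding.latticeBasis_apply]
  exact hall _

open Classical in
theorem cov_radius (n : ℕ) : ∃ C : ℝ, 1 ≤ C ∧ ∃ A : ℕ,
    ∀ (F : Type) [Field F] [NumberField F], TC F n → ∀ 𝔞 : Ideal (𝓞 F), 𝔞 ≠ ⊥ →
      ∀ x : mixedEmbedding.mixedSpace F, ∃ α ∈ 𝔞,
        ‖x - mixedEmbedding F (α : F)‖ ^ n ≤ C * dd F ^ A * Ideal.absNorm 𝔞 := by
  rcases Nat.eq_zero_or_pos n with hn0 | hn
  · refine ⟨1, le_refl _, 0, fun F _ _ hF => ?_⟩
    exfalso
    have h1 := hF.2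
    have h2 : 0 < Module.finrank ℚ F := Module.finrank_pos
    omega
  have hnn : (1 : ℝ) ≤ (n : ℝ) ^ n := one_le_pow₀ (by exact_mod_cast hn)
  have h2n : (1 : ℝ) ≤ 2 ^ (n + 1) := one_le_pow₀ (by norm_num)
  have h3n : (1 : ℝ) ≤ (2 + 2 ^ n) ^ (n * n) := by
    apply one_le_pow₀
    have : (0 : ℝ) ≤ 2 ^ n := by positivity
    linarith
  refine ⟨(n : ℝ) ^ n * 2 ^ (n + 1) * (2 + 2 ^ n) ^ (n * n), ?_, n * n + 1, ?_⟩
  · exact one_le_mul_of_one_le_of_one_le (one_le_mul_of_one_le_of_one_le hnn h2n) h3n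
  intro F _ _ hF 𝔞 h𝔞 x
  have hdd := one_le_dd F
  have hN : (1 : ℝ) ≤ Ideal.absNorm 𝔞 := by
    have : 1 ≤ Ideal.absNorm 𝔞 := Nat.one_le_iff_ne_zero.2 (by
      rwa [Ne, Ideal.absNorm_eq_zero_iff])
    exact_mod_cast this
  have hsq : Real.sqrt (dd F) ≤ dd F := by
    rw [Real.sqrt_le_left (by linarith)]
    nlinarith
  obtain ⟨a, ha, haw⟩ := cov_prim n F hF
  set T : ℝ := (2 + 2 ^ n) * dd F with hT
  have hT1 : 1 ≤ T := by
    have h1 : (0 : ℝ) < 2 ^ n := by positivity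
    have : (1 : ℝ) ≤ 2 + 2 ^ n := by linarith
    exact one_le_mul_of_one_le_of_one_le this hdd
  set M : ℝ := Ideal.absNorm 𝔞 * (dd F * 2 ^ (n + 1)) with hM
  have hM0 : 0 < M := by positivity
  set f : ℝ := M ^ ((1 : ℝ) / n) with hf
  have hf0 : 0 ≤ f := Real.rpow_nonneg hM0.le _
  have hfn : f ^ n = M := by
    rw [hf, one_div]
    exact Real.rpow_inv_natCast_pow hM0.le (by omega)
  obtain ⟨y, hy𝔞, hy0, hyw⟩ := cov_elt n F hF 𝔞 h𝔞 f hf0 (by
    rw [hfn, hM]
    have h1 : Real.sqrt (dd F) * 2 ^ n ≤ dd F * 2 ^ n := by gcongr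
    have h2 : dd F * 2 ^ n < dd F * 2 ^ (n + 1) := by
      rw [pow_succ]
      have : 0 < dd F * 2 ^ n := by positivity
      nlinarith
    have h3 := h1.trans_lt h2
    have : (0 : ℝ) < Ideal.absNorm 𝔞 := by linarith
    exact mul_lt_mul_of_pos_left h3 this)
  set v : Fin n → mixedEmbedding.mixedSpace F := fun i : Fin n =>
      mixedEmbedding F ((y * a ^ (i : ℕ) : 𝓞 F) : F) with hv
  have hspan := cov_span n F hF a y ha hy0
  set b := basisOfTopLeSpanOfCardEqFinrank v hspan (by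
    rw [Fintype.card_fin, mixedEmbedding.finrank, hF.2]) with hb
  have hbv : ∀ i, b i = v i := fun i => by
    rw [hb, coe_basisOfTopLeSpanOfCardEqFinrank]
  have hvn : ∀ i, ‖v i‖ ≤ f * T ^ n := by
    intro i
    rw [norm_le_iff_tc n F hF _ _ (by positivity)]
    intro w
    have h1 : ‖(v i).2 w‖ = w.1 ((y * a ^ (i : ℕ) : 𝓞 F) : F) := by
      rw [← mixedEmbedding.normAtPlace_apply_of_isComplex w.2, hv,
        mixedEmbedding.normAtPlace_apply]
    rw [h1]
    have h2 : w.1 ((y * a ^ (i : ℕ) : 𝓞 F) : F) = w.1 (y : F) * w.1 (a : F) ^ (i : ℕ) := by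
      rw [← map_pow, ← map_mul]
      simp
    rw [h2]
    have h3 : w.1 (a : F) ^ (i : ℕ) ≤ T ^ (i : ℕ) := by
      gcongr
      exact haw w.1
    have h4 : T ^ (i : ℕ) ≤ T ^ n := pow_le_pow_right₀ hT1 i.2.le
    calc w.1 (y : F) * w.1 (a : F) ^ (i : ℕ) ≤ f * T ^ n := by
          apply mul_le_mul (hyw w.1) (h3.trans h4) (by positivity) hf0
      _ = f * T ^ n := rfl
  obtain ⟨α, hα, hαx⟩ : ∃ α ∈ 𝔞, mixedEmbedding F (α : F) =
      (ZSpan.floor b x : mixedEmbedding.mixedSpace F) := by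
    have hmem : (ZSpan.floor b x : mixedEmbedding.mixedSpace F) ∈
        Submodule.span ℤ (Set.range b) := (ZSpan.floor b x).2
    generalize (ZSpan.floor b x : mixedEmbedding.mixedSpace F) = z at hmem
    induction hmem using Submodule.span_induction with
    | mem x hx =>
      obtain ⟨i, rfl⟩ := hx
      exact ⟨y * a ^ (i : ℕ), 𝔞.mul_mem_right _ hy𝔞, (hbv i).symm⟩
    | zero => exact ⟨0, 𝔞.zero_mem, by simp⟩
    | add u v _ _ hu hv =>
      obtain ⟨α, hα, hα'⟩ := hu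
      obtain ⟨β, hβ, hβ'⟩ := hv
      refine ⟨α + β, 𝔞.add_mem hα hβ, ?_⟩
      rw [← hα', ← hβ', ← map_add]
      simp
    | smul q u _ hu =>
      obtain ⟨α, hα, hα'⟩ := hu
      refine ⟨q * α, 𝔞.mul_mem_left _ hα, ?_⟩
      rw [← hα', ← map_zsmul]
      simp
  refine ⟨α, hα, ?_⟩
  have hnorm : ‖x - mixedEmbedding F (α : F)‖ ≤ n * (f * T ^ n) := by
    rw [hαx]
    calc ‖x - (ZSpan.floor b x : mixedEmbedding.mixedSpace F)‖ ≤ ∑ i, ‖b i‖ :=
          ZSpan.norm_fract_le b x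
      _ ≤ ∑ _i : Fin n, f * T ^ n := by
          apply Finset.sum_le_sum
          intro i _
          rw [hbv i]
          exact hvn i
      _ = n * (f * T ^ n) := by
          rw [Finset.sum_const, Finset.card_univ, Fintype.card_fin, nsmul_eq_mul]
  calc ‖x - mixedEmbedding F (α : F)‖ ^ n ≤ (n * (f * T ^ n)) ^ n := by gcongr
    _ = n ^ n * f ^ n * T ^ (n * n) := by
        rw [mul_pow, mul_pow, ← pow_mul]
        ring
    _ = (n : ℝ) ^ n * 2 ^ (n + 1) * (2 + 2 ^ n) ^ (n * n) * dd F ^ (n * n + 1) *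
          Ideal.absNorm 𝔞 := by
        rw [hfn, hM, hT, mul_pow, pow_succ (dd F)]
        ring

end H36.QA
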