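import Pool.Agent.H38.TD.MertA
import Pool.Agent.H38.TD.MertB

/-!
# [H36 QA ML] The lower bound of Mertens for the places of prime norm (60-100 lines)

`mert_lower` with `w = 0`: `c log z ≤ exp (Lv (fun v : Po E S => nv v.1) (Zs S 0 z))`, the sum over all
places outside `S` of norm `≤ z`.  The places whose norm is not a prime contribute a bounded amount:
`nv v = p^f` with `f ≥ 2` (`nv_pow`), `1 / nv v ≤ 1/p²`, at most `[E:ℚ]` places for every `p`
(`fibre_card`), and `∑ 1/p²` is bounded (`∑_{k ≤ n} 1/k² ≤ 2`).  The places with prime norm are in `T`.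
-/

open scoped NumberField
open H38.ML H38.TD

noncomputable section

namespace H36.QA

/-- the places of composite norm contribute a bounded amount -/
theorem ml_nonprime (E : Type) [Field E] [NumberField E] : ∃ B : ℝ, ∀ s : Finset (Pl E),
    (∀ v ∈ s, ¬ (nv v).Prime) → ∑ v ∈ s, 1 / (nv v : ℝ) ≤ B := by
  classical
  have hsum : Summable (fun n : ℕ => 1 / (n : ℝ) ^ 2) :=
    Real.summable_one_div_nat_pow.2 one_lt_two
  refine ⟨(Module.finrank ℤ (𝓞 E) : ℝ) * ∑' n : ℕ, 1 / (n : ℝ) ^ 2, fun s hs => ?_⟩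
  have h1 : ∀ v ∈ s, 1 / (nv v : ℝ) ≤ 1 / ((nv v).minFac : ℝ) ^ 2 := by
    intro v hv
    obtain ⟨hp, f, hf, he⟩ := nv_pow E v
    have hf2 : 2 ≤ f := by
      rcases Nat.lt_or_ge f 2 with h | h
      · have h2 : f = 1 := by omega
        rw [h2, pow_one] at he
        exact absurd (he ▸ hp) (hs v hv)
      · exact h
    have h3 : (nv v).minFac ^ 2 ≤ nv v := by
      calc (nv v).minFac ^ 2 ≤ (nv v).minFac ^ f := Nat.pow_le_pow_right hp.pos hf2
        _ = nv v := he.symm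
    have h4 : (((nv v).minFac : ℝ)) ^ 2 ≤ (nv v : ℝ) := by exact_mod_cast h3
    have h5 : (0 : ℝ) < ((nv v).minFac : ℝ) ^ 2 := by
      have : (0 : ℝ) < ((nv v).minFac : ℝ) := by exact_mod_cast hp.pos
      positivity
    exact one_div_le_one_div_of_le h5 h4
  calc ∑ v ∈ s, 1 / (nv v : ℝ) ≤ ∑ v ∈ s, 1 / ((nv v).minFac : ℝ) ^ 2 := Finset.sum_le_sum h1
    _ = ∑ p ∈ s.image (fun v => (nv v).minFac), ∑ v ∈ s with (nv v).minFac = p,
          1 / ((nv v).minFac : ℝ) ^ 2 :=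
        (Finset.sum_fiberwise_of_maps_to (fun v hv => Finset.mem_image_of_mem _ hv) _).symm
    _ ≤ ∑ p ∈ s.image (fun v => (nv v).minFac),
          (Module.finrank ℤ (𝓞 E) : ℝ) * (1 / (p : ℝ) ^ 2) := by
        refine Finset.sum_le_sum fun p hp => ?_
        obtain ⟨v, hv, rfl⟩ := Finset.mem_image.1 hp
        have hpr := (nv_pow E v).1
        have hc := fibre_card E (nv v).minFac hpr (s.filter fun u => (nv u).minFac = (nv v).minFac)
          (fun u hu => (Finset.mem_filter.1 hu).2)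
        have hc' : ((s.filter fun u => (nv u).minFac = (nv v).minFac).card : ℝ) ≤
            (Module.finrank ℤ (𝓞 E) : ℝ) := by exact_mod_cast hc
        have h2 : ∑ u ∈ s with (nv u).minFac = (nv v).minFac, 1 / ((nv u).minFac : ℝ) ^ 2 =
            ((s.filter fun u => (nv u).minFac = (nv v).minFac).card : ℝ) *
              (1 / ((nv v).minFac : ℝ) ^ 2) := by
          rw [← nsmul_eq_mul, ← Finset.sum_const]
          refine Finset.sum_congr rfl fun u hu => ?_
          rw [(Finset.mem_filter.1 hu).2]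
        rw [h2]
        exact mul_le_mul_of_nonneg_right hc' (by positivity)
    _ = (Module.finrank ℤ (𝓞 E) : ℝ) * ∑ p ∈ s.image (fun v => (nv v).minFac),
          1 / (p : ℝ) ^ 2 := by rw [Finset.mul_sum]
    _ ≤ (Module.finrank ℤ (𝓞 E) : ℝ) * ∑' n : ℕ, 1 / (n : ℝ) ^ 2 :=
        mul_le_mul_of_nonneg_left (hsum.sum_le_tsum _ fun n _ => by positivity) (by positivity)

theorem mert_prime (E : Type) [Field E] [NumberField E] (S : Set (Pl E)) (hS : S.Finite) :
    ∃ c z₀ : ℝ, 0 < c ∧ 2 ≤ z₀ ∧ ∀ z : ℝ, z₀ ≤ z → ∀ T : Finset (Pl E),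
      (∀ v, v ∉ S → (nv v).Prime → (nv v : ℝ) ≤ z → v ∈ T) →
        c * Real.log z ≤ Real.exp (∑ v ∈ T, 1 / (nv v : ℝ)) := by
  classical
  obtain ⟨c, hc, z₀, h⟩ := mert_lower S hS 0
  obtain ⟨B, hB⟩ := ml_nonprime E
  refine ⟨c / Real.exp B, max 2 z₀, div_pos hc (Real.exp_pos B), le_max_left _ _, ?_⟩
  intro z hz T hT
  have h1 := h z ((le_max_right _ _).trans hz)
  have h2 : Lv (fun v : Po E S => nv v.1) (Zs S 0 z) ≤ ∑ v ∈ T, 1 / (nv v : ℝ) + B := by
    unfold Lv
    have e1 : ∑ v ∈ Zs S 0 z, 1 / (nv v.1 : ℝ) =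
        ∑ v ∈ (Zs S 0 z).image (fun v => v.1), 1 / (nv v : ℝ) :=
      (Finset.sum_image (f := fun v : Pl E => 1 / (nv v : ℝ))
        (fun a _ b _ hab => Subtype.val_injective hab)).symm
    rw [e1, ← Finset.sum_filter_add_sum_filter_not _ (fun v : Pl E => (nv v).Prime)]
    refine add_le_add ?_ ?_
    · refine Finset.sum_le_sum_of_subset_of_nonneg ?_ fun v _ _ => by positivity
      intro v hv
      obtain ⟨hv1, hv2⟩ := Finset.mem_filter.1 hv
      obtain ⟨u, hu, rfl⟩ := Finset.mem_image.1 hv1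
      exact hT u.1 u.2 hv2 ((mem_Zs S 0 z u).1 hu).1
    · exact hB _ fun v hv => (Finset.mem_filter.1 hv).2
  have h3 : Real.exp (Lv (fun v : Po E S => nv v.1) (Zs S 0 z)) ≤
      Real.exp (∑ v ∈ T, 1 / (nv v : ℝ)) * Real.exp B := by
    rw [← Real.exp_add]
    exact Real.exp_le_exp.2 h2
  rw [div_mul_eq_mul_div, div_le_iff₀ (Real.exp_pos B)]
  exact h1.trans h3

end H36.QA
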