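import Pool.Agent.H38.TD.MertA
import Pool.Agent.H38.TD.MertB

/-!
# [H36 QA MU] The upper bound of Mertens for the places of a number field (80-130 lines)

`P = {v | N v ≤ z}` (finite; we may assume `T = P`), `F = ∏_{v ∈ P} (1 + 1/N v) =
∑_{D ⊆ P} ∏_D 1/N`.  `1 + t ≥ exp (t - t²)`, so `F ≥ c₀ exp (∑_P 1/N v)` (`∑ 1/N v²` is bounded:
`merta_sq` in MertA, or `sq_tail (cb_ideals E)`, or `sq_small`).
`D ⊆ P` with `∏_D N ≤ z^b`: the ideals `∏_{v ∈ D} v` are different and of norm `≤ z^b`, so they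
contribute at most `C₁ (1 + b log z)` (`harm_upper (cb_ideals E)`).
`D ⊆ P` with `∏_D N > z^b`: Rankin with `η = 1 / log z`:
`≤ e^(-b) ∏_P (1 + N(v)^η/N v)`, `N(v)^η ≤ 1 + 2 η log N v` (`exp t ≤ 1 + 2 t` for `0 ≤ t ≤ 1`), so it
is `≤ e^(-b) ∏_P (1 + 1/N v) exp (2 η log N v / N v) ≤ e^(-b) C₂ F` (`mert_log`:
`∑_{N v ≤ z} log N v / N v ≤ C log z`, take `S = ∅` and `w = 0`; `Zs` is a set of elements of the
subtype `Po E ∅`).
Choose `b` with `e^(-b) C₂ ≤ 1/2`: `F / 2 ≤ C₁ (1 + b log z)`.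
-/

open scoped NumberField
open H38.ML H38.TD

noncomputable section

namespace H36.QA

theorem mu_exp {t : ℝ} (ht : 0 ≤ t) : Real.exp (t - t ^ 2) ≤ 1 + t := by
  have h1 : 0 < 1 + t := by linarith
  rw [← Real.le_log_iff_exp_le h1]
  have h2 := Real.one_sub_inv_le_log_of_pos h1
  refine le_trans ?_ h2
  have h3 : 1 - (1 + t)⁻¹ = t / (1 + t) := by
    field_simp
    ring
  rw [h3, le_div_iff₀ h1]
  nlinarith [pow_nonneg ht 3]

theorem mu_inj {E : Type} [Field E] [NumberField E] {D D' : Finset (Pl E)}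
    (h : ∏ v ∈ D, v.asIdeal = ∏ v ∈ D', v.asIdeal) : D ⊆ D' := by
  classical
  intro v hv
  have hvp := v.isPrime
  have h1 : v.asIdeal ∣ ∏ w ∈ D', w.asIdeal := by
    rw [← h]
    exact Finset.dvd_prod_of_mem _ hv
  obtain ⟨w, hw, hd⟩ := (Prime.dvd_finsetProd_iff v.prime _).1 h1
  have hwm : w.asIdeal.IsMaximal := w.isMaximal
  have hvm : v.asIdeal.IsMaximal := v.isMaximal
  have h2 : w.asIdeal ≤ v.asIdeal := Ideal.dvd_iff_le.1 hd
  have h3 : w.asIdeal = v.asIdeal := hwm.eq_of_le hvm.ne_top h2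
  have h4 : w = v := IsDedekindDomain.HeightOneSpectrum.ext h3
  rw [← h4]
  exact hw

theorem mert_up (E : Type) [Field E] [NumberField E] : ∃ C : ℝ, 1 ≤ C ∧ ∀ z : ℝ, 2 ≤ z →
    ∀ T : Finset (Pl E), (∀ v ∈ T, (nv v : ℝ) ≤ z) →
      Real.exp (∑ v ∈ T, 1 / (nv v : ℝ)) ≤ C * Real.log z := by
  classical
  obtain ⟨Cq, hCq, hsq⟩ := merta_sq E
  obtain ⟨Ch, hCh, hharm⟩ := harm_upper (cb_ideals E)
  obtain ⟨Cl, hCl, hlog⟩ := mert_log E ∅
  set C2 : ℝ := Real.exp (2 * Cl) with hC2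
  have hC2pos : 0 < C2 := Real.exp_pos _
  set b : ℝ := 2 * C2 with hb
  have hb0 : 0 < b := by positivity
  have hl2 : 0 < Real.log 2 := Real.log_pos (by norm_num)
  refine ⟨max 1 (Real.exp Cq * (2 * Ch * (1 / Real.log 2 + b))), le_max_left _ _,
    fun z hz T hT => ?_⟩
  have hz0 : 0 < z := by linarith
  have hlz2 : Real.log 2 ≤ Real.log z := Real.log_le_log (by norm_num) hz
  have hlz : 0 < Real.log z := by linarith
  have hN0 : ∀ v : Pl E, (0 : ℝ) < nv v := fun v => by exact_mod_cast nv_pos v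
  have hN1 : ∀ v : Pl E, (1 : ℝ) ≤ nv v := fun v => by exact_mod_cast nv_pos v
  set F : ℝ := ∏ v ∈ T, (1 + 1 / (nv v : ℝ)) with hF
  have hF0 : 0 ≤ F := Finset.prod_nonneg fun v _ => by positivity
  have hFs : F = ∑ D ∈ T.powerset, ∏ v ∈ D, 1 / (nv v : ℝ) := Finset.prod_one_add _
  have hg : ∀ D : Finset (Pl E), 0 ≤ ∏ v ∈ D, 1 / (nv v : ℝ) := fun D =>
    Finset.prod_nonneg fun v _ => by positivity
  -- the squares
  have hsqT : ∑ v ∈ T, (1 / (nv v : ℝ)) ^ 2 ≤ Cq := by
    have h1 := hsq (T.image fun v => v.asIdeal) (by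
      intro I hI
      obtain ⟨v, -, rfl⟩ := Finset.mem_image.1 hI
      exact v.ne_bot)
    rw [Finset.sum_image (fun v _ v' _ h => IsDedekindDomain.HeightOneSpectrum.ext h)] at h1
    refine le_trans (le_of_eq ?_) h1
    refine Finset.sum_congr rfl fun v _ => ?_
    rw [div_pow, one_pow]
    rfl
  have hexpF : Real.exp (∑ v ∈ T, 1 / (nv v : ℝ)) ≤ Real.exp Cq * F := by
    have h1 : Real.exp (∑ v ∈ T, (1 / (nv v : ℝ) - (1 / (nv v : ℝ)) ^ 2)) ≤ F := by
      rw [Real.exp_sum]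
      exact Finset.prod_le_prod (fun v _ => (Real.exp_pos _).le)
        fun v _ => mu_exp (div_nonneg zero_le_one (hN0 v).le)
    have h2 : ∑ v ∈ T, 1 / (nv v : ℝ) ≤
        Cq + ∑ v ∈ T, (1 / (nv v : ℝ) - (1 / (nv v : ℝ)) ^ 2) := by
      rw [Finset.sum_sub_distrib]
      linarith
    calc Real.exp (∑ v ∈ T, 1 / (nv v : ℝ))
        ≤ Real.exp (Cq + ∑ v ∈ T, (1 / (nv v : ℝ) - (1 / (nv v : ℝ)) ^ 2)) :=
          Real.exp_le_exp.2 h2
      _ = Real.exp Cq * Real.exp (∑ v ∈ T, (1 / (nv v : ℝ) - (1 / (nv v : ℝ)) ^ 2)) :=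
          Real.exp_add _ _
      _ ≤ Real.exp Cq * F := mul_le_mul_of_nonneg_left h1 (Real.exp_pos _).le
  -- the logarithms
  have hlogT : ∑ v ∈ T, Real.log (nv v) / (nv v : ℝ) ≤ Cl * Real.log z := by
    have h1 := hlog 0 z hz
    have h2 : ∑ v ∈ T, Real.log (nv v) / (nv v : ℝ) ≤
        ∑ v ∈ (Zs (K := E) ∅ 0 z).map (Function.Embedding.subtype _),
          Real.log (nv v) / (nv v : ℝ) := by
      refine Finset.sum_le_sum_of_subset_of_nonneg ?_ fun v _ _ => ?_
      · intro v hv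
        rw [Finset.mem_map]
        exact ⟨⟨v, Set.notMem_empty v⟩, (mem_Zs ∅ 0 z _).2 ⟨hT v hv, hN0 v⟩, rfl⟩
      · exact div_nonneg (Real.log_nonneg (hN1 v)) (hN0 v).le
    rw [Finset.sum_map] at h2
    exact h2.trans h1
  -- the small products
  have hA : ∑ D ∈ T.powerset.filter (fun D => ∏ v ∈ D, (nv v : ℝ) ≤ z ^ b),
      ∏ v ∈ D, 1 / (nv v : ℝ) ≤ Ch * (1 + b * Real.log z) := by
    have hzb : 1 ≤ z ^ b := Real.one_le_rpow (by linarith) hb0.le
    have h1 := hharm (z ^ b) hzb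
    rw [Real.log_rpow hz0] at h1
    refine le_trans ?_ h1
    have h2 : ∀ D ∈ T.powerset.filter (fun D => ∏ v ∈ D, (nv v : ℝ) ≤ z ^ b),
        ∏ v ∈ D, 1 / (nv v : ℝ) =
          (fun I : Ideal (𝓞 E) => 1 / ((Ideal.absNorm I : ℕ) : ℝ)) (∏ v ∈ D, v.asIdeal) := by
      intro D _
      simp only
      rw [merta_norm_prod, Finset.prod_div_distrib, Finset.prod_const_one]
      push_cast
      rfl
    rw [Finset.sum_congr rfl h2]
    rw [← Finset.sum_image (s := T.powerset.filter (fun D => ∏ v ∈ D, (nv v : ℝ) ≤ z ^ b))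
      (g := fun D : Finset (Pl E) => ∏ v ∈ D, v.asIdeal)
      (f := fun I : Ideal (𝓞 E) => 1 / ((Ideal.absNorm I : ℕ) : ℝ))
      (fun D _ D' _ h => (mu_inj h).antisymm (mu_inj h.symm))]
    refine Finset.sum_le_sum_of_subset_of_nonneg ?_ fun I _ _ => by positivity
    intro I hI
    obtain ⟨D, hD, rfl⟩ := Finset.mem_image.1 hI
    rw [Set.Finite.mem_toFinset]
    refine ⟨?_, ?_⟩
    · show ∏ v ∈ D, v.asIdeal ≠ ⊥
      exact Finset.prod_ne_zero_iff.2 fun v _ => v.ne_bot
    · rw [merta_norm_prod]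
      push_cast
      exact (Finset.mem_filter.1 hD).2
  -- the large products
  have hB : ∑ D ∈ T.powerset.filter (fun D => ¬ ∏ v ∈ D, (nv v : ℝ) ≤ z ^ b),
      ∏ v ∈ D, 1 / (nv v : ℝ) ≤ F / 2 := by
    set η : ℝ := 1 / Real.log z with hη
    have hη0 : 0 < η := by positivity
    have h1 : ∀ D ∈ T.powerset.filter (fun D => ¬ ∏ v ∈ D, (nv v : ℝ) ≤ z ^ b),
        ∏ v ∈ D, 1 / (nv v : ℝ) ≤ Real.exp (-b) *
          ∏ v ∈ D, (Real.exp (η * Real.log (nv v)) / (nv v : ℝ)) := by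
      intro D hD
      have h2 : z ^ b < ∏ v ∈ D, (nv v : ℝ) := not_le.1 (Finset.mem_filter.1 hD).2
      have h3 : b * Real.log z ≤ ∑ v ∈ D, Real.log (nv v) := by
        rw [← Real.log_rpow hz0, ← Real.log_prod (fun v _ => (hN0 v).ne')]
        exact Real.log_le_log (Real.rpow_pos_of_pos hz0 b) h2.le
      have h4 : 1 ≤ Real.exp (-b) * ∏ v ∈ D, Real.exp (η * Real.log (nv v)) := by
        rw [← Real.exp_sum, ← Real.exp_add, ← Finset.mul_sum]
        apply Real.one_le_exp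
        have h5 : b ≤ η * ∑ v ∈ D, Real.log (nv v) := by
          calc b = η * (b * Real.log z) := by
                rw [hη]
                field_simp
            _ ≤ η * ∑ v ∈ D, Real.log (nv v) := mul_le_mul_of_nonneg_left h3 hη0.le
        linarith
      calc ∏ v ∈ D, 1 / (nv v : ℝ) = 1 * ∏ v ∈ D, 1 / (nv v : ℝ) := (one_mul _).symm
        _ ≤ (Real.exp (-b) * ∏ v ∈ D, Real.exp (η * Real.log (nv v))) *
            ∏ v ∈ D, 1 / (nv v : ℝ) := mul_le_mul_of_nonneg_right h4 (hg D)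
        _ = Real.exp (-b) * ∏ v ∈ D, (Real.exp (η * Real.log (nv v)) / (nv v : ℝ)) := by
            rw [mul_assoc, ← Finset.prod_mul_distrib]
            congr 1
            refine Finset.prod_congr rfl fun v _ => ?_
            rw [mul_one_div]
    have h6 : ∏ v ∈ T, (1 + Real.exp (η * Real.log (nv v)) / (nv v : ℝ)) ≤ F * C2 := by
      calc ∏ v ∈ T, (1 + Real.exp (η * Real.log (nv v)) / (nv v : ℝ))
          ≤ ∏ v ∈ T, ((1 + 1 / (nv v : ℝ)) *
              Real.exp (2 * η * (Real.log (nv v) / (nv v : ℝ)))) := by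
            refine Finset.prod_le_prod (fun v _ => by positivity) fun v hv => ?_
            set l : ℝ := Real.log (nv v) with hl
            have hl0 : 0 ≤ l := Real.log_nonneg (hN1 v)
            have hl1 : η * l ≤ 1 := by
              rw [hη, one_div, inv_mul_le_iff₀ hlz, mul_one]
              exact Real.log_le_log (hN0 v) (hT v hv)
            have hηl : 0 ≤ η * l := mul_nonneg hη0.le hl0
            have h7 : Real.exp (η * l) ≤ 1 + 2 * (η * l) := by
              have h8 := Real.abs_exp_sub_one_le (x := η * l) (by rw [abs_of_nonneg hηl]; exact hl1)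
              rw [abs_of_nonneg hηl] at h8
              linarith [le_abs_self (Real.exp (η * l) - 1)]
            have hx : 0 < 1 / (nv v : ℝ) := by
              have := hN0 v
              positivity
            have h9 : Real.exp (η * l) / (nv v : ℝ) ≤ 1 / (nv v : ℝ) +
                2 * η * (l / (nv v : ℝ)) := by
              calc Real.exp (η * l) / (nv v : ℝ) ≤ (1 + 2 * (η * l)) / (nv v : ℝ) :=
                    div_le_div_of_nonneg_right h7 (hN0 v).le
                _ = 1 / (nv v : ℝ) + 2 * η * (l / (nv v : ℝ)) := by ring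
            have hy : 0 ≤ 2 * η * (l / (nv v : ℝ)) := by
              have := hN0 v
              positivity
            have h10 := Real.add_one_le_exp (2 * η * (l / (nv v : ℝ)))
            calc 1 + Real.exp (η * l) / (nv v : ℝ)
                ≤ 1 + 1 / (nv v : ℝ) + 2 * η * (l / (nv v : ℝ)) := by linarith
              _ ≤ (1 + 1 / (nv v : ℝ)) * (2 * η * (l / (nv v : ℝ)) + 1) := by nlinarith
              _ ≤ _ := mul_le_mul_of_nonneg_left h10 (by positivity)
        _ = F * Real.exp (2 * η * ∑ v ∈ T, Real.log (nv v) / (nv v : ℝ)) := by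
            rw [Finset.prod_mul_distrib, ← Real.exp_sum, Finset.mul_sum]
        _ ≤ F * C2 := by
            apply mul_le_mul_of_nonneg_left _ hF0
            rw [hC2]
            apply Real.exp_le_exp.2
            calc 2 * η * ∑ v ∈ T, Real.log (nv v) / (nv v : ℝ) ≤ 2 * η * (Cl * Real.log z) :=
                  mul_le_mul_of_nonneg_left hlogT (by positivity)
              _ = 2 * Cl := by
                  rw [hη]
                  field_simp
    calc ∑ D ∈ T.powerset.filter (fun D => ¬ ∏ v ∈ D, (nv v : ℝ) ≤ z ^ b),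
        ∏ v ∈ D, 1 / (nv v : ℝ)
        ≤ ∑ D ∈ T.powerset.filter (fun D => ¬ ∏ v ∈ D, (nv v : ℝ) ≤ z ^ b), Real.exp (-b) *
          ∏ v ∈ D, (Real.exp (η * Real.log (nv v)) / (nv v : ℝ)) := Finset.sum_le_sum h1
      _ ≤ ∑ D ∈ T.powerset, Real.exp (-b) *
          ∏ v ∈ D, (Real.exp (η * Real.log (nv v)) / (nv v : ℝ)) :=
          Finset.sum_le_sum_of_subset_of_nonneg (Finset.filter_subset _ _) fun D _ _ => by
            positivity
      _ = Real.exp (-b) * ∏ v ∈ T, (1 + Real.exp (η * Real.log (nv v)) / (nv v : ℝ)) := by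
          rw [Finset.prod_one_add, Finset.mul_sum]
      _ ≤ Real.exp (-b) * (F * C2) := mul_le_mul_of_nonneg_left h6 (Real.exp_pos _).le
      _ = F * (C2 * Real.exp (-b)) := by ring
      _ ≤ F * (1 / 2) := by
          apply mul_le_mul_of_nonneg_left _ hF0
          have h11 : b ≤ Real.exp b := by linarith [Real.add_one_le_exp b]
          rw [Real.exp_neg, ← div_eq_mul_inv, div_le_iff₀ (Real.exp_pos b)]
          linarith
      _ = F / 2 := by ring
  have hsplit := Finset.sum_filter_add_sum_filter_not T.powerset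
    (fun D => ∏ v ∈ D, (nv v : ℝ) ≤ z ^ b) (fun D => ∏ v ∈ D, 1 / (nv v : ℝ))
  rw [← hFs] at hsplit
  have hF2 : F ≤ 2 * Ch * (1 + b * Real.log z) := by linarith
  have hfin : 1 + b * Real.log z ≤ (1 / Real.log 2 + b) * Real.log z := by
    have : 1 ≤ 1 / Real.log 2 * Real.log z := by
      rw [one_div, inv_mul_eq_div, le_div_iff₀ hl2]
      linarith
    linarith [add_mul (1 / Real.log 2) b (Real.log z)]
  calc Real.exp (∑ v ∈ T, 1 / (nv v : ℝ)) ≤ Real.exp Cq * F := hexpF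
    _ ≤ Real.exp Cq * (2 * Ch * ((1 / Real.log 2 + b) * Real.log z)) := by
        apply mul_le_mul_of_nonneg_left _ (Real.exp_pos _).le
        exact hF2.trans (mul_le_mul_of_nonneg_left hfin (by positivity))
    _ = Real.exp Cq * (2 * Ch * (1 / Real.log 2 + b)) * Real.log z := by ring
    _ ≤ _ := mul_le_mul_of_nonneg_right (le_max_right _ _) hlz.le

end H36.QA
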