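import Pool.Agent.H36.QA.NDefs

/-!
# [H36 QA AOK] The Kummer elements of the first layer (three theorems, 90-150 lines)

For a prime `V ≠ ⊥` of `E` not above `Sb`: `ordAt V (b.a s) = ∑_{v ∈ supp s} (s v).val ordAt V (π v)`
(`ordAt_prod`, `ordAt_pow`), which is `(s v).val` if `V = v` for some `v ∈ supp s` and `0` otherwise.
`aok_of`: a place `v ∈ supp s` has prime norm `p`; `v₀ = v.under (𝓞 K)` has
`absNorm v = absNorm v₀ ^ f`, so `absNorm v₀ = p` too.  If two places of the support lie above the same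
`v₀` they have the same norm `absNorm v₀`, so they are equal (injectivity).  `(s v).val ∈ {1, 2}`.
`gt_prod`: the map `v ↦ v.under (𝓞 K)` is injective on the support and preserves the norm.
`a_inj`: compare the orders at the place `v ∉ S` of prime norm: `3 y + (s v).val = 3 z + (s' v).val`
(also if `v` is not in a support), so `s v = s' v`.
`a_notMem`: order `0`.
-/

open scoped NumberField Pointwise
open H38.ML H38.TD

noncomputable section

namespace H36.QA

variable {K E : Type} [Field K] [NumberField K] [Field E] [NumberField E] [Algebra K E]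
  {Sb : Set (Ideal (𝓞 K))}

/-- A place of prime norm has the same norm as the place below. -/
theorem ak_norm (w : Pl E) (hw : (nv w).Prime) :
    Ideal.absNorm (w.asIdeal.under (𝓞 K)) = nv w := by
  have hwp : w.asIdeal.IsPrime := w.isPrime
  have hv0 : w.asIdeal.under (𝓞 K) ≠ ⊥ := Ideal.under_ne_bot (𝓞 K) w.ne_bot
  have hvp : (w.asIdeal.under (𝓞 K)).IsPrime := inferInstance
  have h3 := Ideal.absNorm_eq_pow_inertiaDeg'_of_liesOver w.asIdeal (w.asIdeal.under (𝓞 K)) hvp hv0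
  have h4 : (nv w).Prime := hw
  unfold nv at h4 ⊢
  rw [eq_comm, h4.pow_eq_iff] at h3
  exact h3.1

theorem ak_a_ne (b : BD K E Sb) (s : b.Pt →₀ ZMod 3) : b.a s ≠ 0 :=
  Finset.prod_ne_zero_iff.2 fun v _ => pow_ne_zero _ (b.π0 v)

theorem ak_ord (b : BD K E Sb) (s : b.Pt →₀ ZMod 3) (V : Ideal (𝓞 E)) :
    ordAt V (b.a s) = ∑ v ∈ s.support, (s v).val * ordAt V (b.π v) := by
  unfold BD.a
  rw [ordAt_prod V _ _ fun v _ => pow_ne_zero _ (b.π0 v)]
  exact Finset.sum_congr rfl fun v _ => ordAt_pow V (b.π0 v) _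

theorem ak_notMem (b : BD K E Sb) (v : b.Pt) : v.1.asIdeal.under (𝓞 K) ∉ Sb := fun h =>
  v.2.1 ((b.hSb v.1).2 h)

theorem ak_ord_at (b : BD K E Sb) (s : b.Pt →₀ ZMod 3) (v : b.Pt) :
    ordAt v.1.asIdeal (b.a s) = (s v).val := by
  rw [ak_ord, Finset.sum_eq_single v]
  · rw [b.πv v, mul_one]
  · intro w _ hw
    rw [b.πw w v.1.asIdeal v.1.isPrime v.1.ne_bot (ak_notMem b v) ?_, mul_zero]
    intro h
    exact hw (Subtype.ext (IsDedekindDomain.HeightOneSpectrum.ext h.symm))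
  · intro h
    rw [Finsupp.notMem_support_iff.1 h]
    simp

theorem ak_ord_other (b : BD K E Sb) (s : b.Pt →₀ ZMod 3) (V : Ideal (𝓞 E)) (hV : V.IsPrime)
    (h0 : V ≠ ⊥) (h1 : V.under (𝓞 K) ∉ Sb) (h2 : ∀ v ∈ s.support, V ≠ v.1.asIdeal) :
    ordAt V (b.a s) = 0 := by
  rw [ak_ord]
  apply Finset.sum_eq_zero
  intro v hv
  rw [b.πw v V hV h0 h1 (h2 v hv), mul_zero]

theorem ak_mem_T (b : BD K E Sb) (s : b.Pt →₀ ZMod 3) (v : Ideal (𝓞 K)) :
    v ∈ b.T s ↔ ∃ w ∈ s.support, w.1.asIdeal.under (𝓞 K) = v := by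
  classical
  unfold BD.T
  rw [Finset.mem_image]

theorem ak_inj (b : BD K E Sb) (s : b.Pt →₀ ZMod 3)
    (hs : Set.InjOn (fun v : b.Pt => nv v.1) (s.support : Set b.Pt)) :
    Set.InjOn (fun v : b.Pt => v.1.asIdeal.under (𝓞 K)) (s.support : Set b.Pt) := by
  intro v hv w hw h
  apply hs hv hw
  have h1 : Ideal.absNorm (v.1.asIdeal.under (𝓞 K)) = Ideal.absNorm (w.1.asIdeal.under (𝓞 K)) :=
    congrArg _ h
  rw [ak_norm v.1 v.2.2, ak_norm w.1 w.2.2] at h1
  exact h1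

theorem aok_of (b : BD K E Sb) (s : b.Pt →₀ ZMod 3)
    (hs : Set.InjOn (fun v : b.Pt => nv v.1) (s.support : Set b.Pt)) :
    AOK E Sb (b.T s : Set (Ideal (𝓞 K))) 3 (b.a s) := by
  refine ⟨ak_a_ne b s, ?_, ?_⟩
  · intro V hV h0 h1 h2
    rw [ak_ord_other b s V hV h0 h1]
    · exact dvd_zero 3
    · intro v hv h
      apply h2
      rw [Finset.mem_coe, ak_mem_T]
      exact ⟨v, hv, by rw [h]⟩
  · intro v hv
    rw [Finset.mem_coe, ak_mem_T] at hv
    obtain ⟨w, hw, rfl⟩ := hv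
    have hwp : w.1.asIdeal.IsPrime := w.1.isPrime
    have hv0 : w.1.asIdeal.under (𝓞 K) ≠ ⊥ := Ideal.under_ne_bot (𝓞 K) w.1.ne_bot
    refine ⟨inferInstance, hv0, ak_notMem b w, w.1.asIdeal, hwp, rfl, ?_, ?_, ?_⟩
    · exact (ak_norm w.1 w.2.2).symm
    · rw [ak_ord_at]
      have h1 : s w ≠ 0 := Finsupp.mem_support_iff.1 hw
      have h2 : (s w).val ≠ 0 := fun h => h1 ((ZMod.val_eq_zero _).1 h)
      have h3 : (s w).val < 3 := ZMod.val_lt _
      omega
    · intro V hV hVv hVne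
      rw [ak_ord_other b s V hV ?_ ?_ ?_]
      · exact dvd_zero 3
      · rintro rfl
        apply hv0
        rw [← hVv]
        exact Ideal.under_bot _ _
      · rw [hVv]
        exact ak_notMem b w
      · intro w' hw' h
        apply hVne
        have h1 : w' = w := by
          apply ak_inj b s hs hw' hw
          show w'.1.asIdeal.under (𝓞 K) = w.1.asIdeal.under (𝓞 K)
          rw [← hVv, h]
        rw [h, h1]

theorem gt_prod (b : BD K E Sb) (s : b.Pt →₀ ZMod 3)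
    (hs : Set.InjOn (fun v : b.Pt => nv v.1) (s.support : Set b.Pt)) :
    ∏ v ∈ b.T s, Ideal.absNorm v = ∏ v ∈ s.support, nv v.1 ∧
      (∀ v ∈ b.T s, (Ideal.absNorm v).Prime) ∧
      (b.T s).image (fun v => Ideal.absNorm v) = s.support.image (fun v => nv v.1) := by
  classical
  refine ⟨?_, ?_, ?_⟩
  · unfold BD.T
    rw [Finset.prod_image (fun x hx y hy h => ak_inj b s hs hx hy h)]
    exact Finset.prod_congr rfl fun v _ => ak_norm v.1 v.2.2
  · intro v hv
    rw [ak_mem_T] at hv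
    obtain ⟨w, hw, rfl⟩ := hv
    rw [ak_norm w.1 w.2.2]
    exact w.2.2
  · ext n
    rw [Finset.mem_image, Finset.mem_image]
    constructor
    · rintro ⟨v, hv, rfl⟩
      rw [ak_mem_T] at hv
      obtain ⟨w, hw, rfl⟩ := hv
      exact ⟨w, hw, (ak_norm w.1 w.2.2).symm⟩
    · rintro ⟨w, hw, rfl⟩
      exact ⟨w.1.asIdeal.under (𝓞 K), (ak_mem_T b s _).2 ⟨w, hw, rfl⟩, ak_norm w.1 w.2.2⟩

theorem a_inj (b : BD K E Sb) (s s' : b.Pt →₀ ZMod 3) (y z : 𝓞 E) (hy : y ≠ 0) (hz : z ≠ 0)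
    (h : y ^ 3 * b.a s = z ^ 3 * b.a s') : s = s' := by
  ext v
  have h1 := congrArg (ordAt v.1.asIdeal) h
  rw [ordAt_mul _ (pow_ne_zero 3 hy) (ak_a_ne b s), ordAt_mul _ (pow_ne_zero 3 hz) (ak_a_ne b s'),
    ordAt_pow _ hy, ordAt_pow _ hz, ak_ord_at, ak_ord_at] at h1
  have h2 : (s v).val < 3 := ZMod.val_lt _
  have h3 : (s' v).val < 3 := ZMod.val_lt _
  have h4 : (s v).val = (s' v).val := by omega
  have h5 : s v = s' v := ZMod.val_injective 3 h4
  rw [h5]

theorem a_notMem (b : BD K E Sb) (s : b.Pt →₀ ZMod 3) (v : b.Pt) (hv : v ∉ s.support) :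
    b.a s ∉ v.1.asIdeal := by
  have hvp : v.1.asIdeal.IsPrime := v.1.isPrime
  rw [← ordAt_eq_zero_iff v.1.asIdeal v.1.ne_bot (ak_a_ne b s), ak_ord_at,
    Finsupp.notMem_support_iff.1 hv]
  simp

end H36.QA
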