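import Pool.Agent.H36.QA.Rank

/-!
# [H36 QA MO] The sum over the good sets (one theorem, 110-170 lines)

Constants: `z₁ ≥ 1` (threshold) and `b ≥ 1` large.  `X` large, `w = X^(1/b)`,
`P = {v | z₁ < N v ≤ w}`, `F = ∏_{v ∈ P} (1 + 3 / N v) = ∑_{T ⊆ P} ∏_{v ∈ T} 3 / N v`.

Lower bound: `1 + t ≥ exp (t - t²)` for `t ≥ 0`, so
`F ≥ exp (3 ∑_{v ∈ P} 1 / N v - 9 ∑ 1 / N v²) ≥ exp (3 ∑_{N v ≤ w} 1 / N v) * const ≥ c₁ (log w)³`
(`h.low`, `h.sq`; the finitely many places with `N v ≤ z₁` contribute a constant).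

The bad `T ⊆ P`:
(i) `N` not injective on `T`: there are `v ≠ v'` in `T` with `N v = N v'`; the sum is at most
`∑_{v ≠ v' ∈ P, N v = N v'} 9 / N v² * ∏_{P \ {v, v'}} (1 + 3/N) ≤ 9 k (∑_{v ∈ P} 1 / N v²) F
≤ 9 k C / z₁ F` (`h.fib`, `h.sq`);
(ii) `∑_{v ∈ T} 1 / N v > ε`: the sum is at most
`(1/ε) ∑_{T ⊆ P} (∑_{v ∈ T} 1 / N v) ∏_T 3 / N = (1/ε) ∑_v (1/N v)(3/N v) ∏_{P \ v} (1 + 3/N)
≤ 3 C / (ε z₁) F`;
(iii) `∏_T N > X = w^b`: at most `C₃ e^(-b) F` (`rankin`).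
Choose `z₁` and `b` such that each of the three is `≤ F / 4`; then the good `T ⊆ P` give
`≥ F / 4 ≥ (c₁ / 4) (log X / b)³`.
(For (i), (ii): for a fixed subset `Q ⊆ P` (one or two elements)
`∑_{Q ⊆ T ⊆ P} ∏_T 3/N = ∏_Q 3/N * ∏_{P \ Q} (1 + 3/N) ≤ ∏_Q 3/N * F`.)
-/

noncomputable section

namespace H36.QA

theorem mo_exp {t : ℝ} (ht : 0 ≤ t) : Real.exp (t - t ^ 2) ≤ 1 + t := by
  have h1 : 0 < 1 + t := by linarith
  rw [← Real.le_log_iff_exp_le h1]
  have h2 := Real.one_sub_inv_le_log_of_pos h1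
  refine le_trans ?_ h2
  have h3 : 1 - (1 + t)⁻¹ = t / (1 + t) := by
    field_simp
    ring
  rw [h3, le_div_iff₀ h1]
  nlinarith [pow_nonneg ht 3]

/-- The sum over the sets containing `Q`. -/
theorem mo_Q {Pt : Type} [DecidableEq Pt] {f : Pt → ℝ} (hf : ∀ v, 0 ≤ f v) (P Q : Finset Pt) :
    ∑ T ∈ P.powerset.filter (fun T => Q ⊆ T), ∏ v ∈ T, f v ≤
      (∏ v ∈ Q, f v) * ∏ v ∈ P, (1 + f v) := by
  rw [Finset.prod_one_add, Finset.mul_sum]
  have h1 : ∑ T ∈ P.powerset.filter (fun T => Q ⊆ T), ∏ v ∈ T, f v =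
      ∑ T ∈ P.powerset.filter (fun T => Q ⊆ T), (∏ v ∈ Q, f v) * ∏ v ∈ T \ Q, f v := by
    refine Finset.sum_congr rfl fun T hT => ?_
    rw [mul_comm, Finset.prod_sdiff (Finset.mem_filter.1 hT).2]
  have h2 : ∑ S ∈ (P.powerset.filter (fun T => Q ⊆ T)).image (fun T => T \ Q),
      (∏ v ∈ Q, f v) * ∏ v ∈ S, f v =
      ∑ T ∈ P.powerset.filter (fun T => Q ⊆ T), (∏ v ∈ Q, f v) * ∏ v ∈ T \ Q, f v := by
    refine Finset.sum_image ?_
    intro T hT T' hT' h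
    have e1 := (Finset.mem_filter.1 (Finset.mem_coe.1 hT)).2
    have e2 := (Finset.mem_filter.1 (Finset.mem_coe.1 hT')).2
    have h' : T \ Q = T' \ Q := h
    rw [← Finset.sdiff_union_of_subset e1, ← Finset.sdiff_union_of_subset e2, h']
  rw [h1, ← h2]
  refine Finset.sum_le_sum_of_subset_of_nonneg ?_ ?_
  · intro S hS
    obtain ⟨T, hT, rfl⟩ := Finset.mem_image.1 hS
    exact Finset.mem_powerset.2 (Finset.sdiff_subset.trans
      (Finset.mem_powerset.1 (Finset.mem_filter.1 hT).1))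
  · intro S _ _
    exact mul_nonneg (Finset.prod_nonneg fun v _ => hf v) (Finset.prod_nonneg fun v _ => hf v)

/-- The general bound: bad sets contain one of the sets `Q i` with weights. -/
theorem mo_bad {Pt ι : Type} [DecidableEq Pt] {f : Pt → ℝ} (hf : ∀ v, 0 ≤ f v) (P : Finset Pt)
    (D : Finset ι) (Q : ι → Finset Pt) (u : ι → ℝ) (hu : ∀ i, 0 ≤ u i)
    (B : Finset (Finset Pt)) (hB : B ⊆ P.powerset)
    (h : ∀ T ∈ B, 1 ≤ ∑ i ∈ D.filter (fun i => Q i ⊆ T), u i) :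
    ∑ T ∈ B, ∏ v ∈ T, f v ≤ (∑ i ∈ D, u i * ∏ v ∈ Q i, f v) * ∏ v ∈ P, (1 + f v) := by
  have hg : ∀ T : Finset Pt, 0 ≤ ∏ v ∈ T, f v := fun T => Finset.prod_nonneg fun v _ => hf v
  calc ∑ T ∈ B, ∏ v ∈ T, f v
      ≤ ∑ T ∈ B, ∑ i ∈ D, (if Q i ⊆ T then u i * ∏ v ∈ T, f v else 0) := by
        refine Finset.sum_le_sum fun T hT => ?_
        rw [← Finset.sum_filter, ← Finset.sum_mul]
        exact le_mul_of_one_le_left (hg T) (h T hT)
    _ ≤ ∑ T ∈ P.powerset, ∑ i ∈ D, (if Q i ⊆ T then u i * ∏ v ∈ T, f v else 0) := by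
        refine Finset.sum_le_sum_of_subset_of_nonneg hB fun T _ _ => ?_
        refine Finset.sum_nonneg fun i _ => ?_
        split_ifs
        · exact mul_nonneg (hu i) (hg T)
        · exact le_rfl
    _ = ∑ i ∈ D, ∑ T ∈ P.powerset, (if Q i ⊆ T then u i * ∏ v ∈ T, f v else 0) :=
        Finset.sum_comm
    _ ≤ ∑ i ∈ D, u i * ((∏ v ∈ Q i, f v) * ∏ v ∈ P, (1 + f v)) := by
        refine Finset.sum_le_sum fun i _ => ?_
        rw [← Finset.sum_filter, ← Finset.mul_sum]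
        exact mul_le_mul_of_nonneg_left (mo_Q hf P (Q i)) (hu i)
    _ = (∑ i ∈ D, u i * ∏ v ∈ Q i, f v) * ∏ v ∈ P, (1 + f v) := by
        rw [Finset.sum_mul]
        refine Finset.sum_congr rfl fun i _ => ?_
        ring

theorem mo_good {Pt : Type} {N : Pt → ℕ} (h : MP Pt N) (ε : ℝ) (hε : 0 < ε) :
    ∃ c : ℝ, 0 < c ∧ ∃ X₀ : ℝ, 2 ≤ X₀ ∧ ∀ X : ℝ, X₀ ≤ X → ∃ Ts : Finset (Finset Pt),
      (∀ T ∈ Ts, GT N ε X T) ∧
        c * Real.log X ^ 3 ≤ ∑ T ∈ Ts, ∏ v ∈ T, 3 / (N v : ℝ) := by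
  classical
  obtain ⟨Cs, hCs, hsq⟩ := h.sq
  obtain ⟨k, hk⟩ := h.fib
  obtain ⟨c0, hc0, z0, hz0, hlow⟩ := h.low
  obtain ⟨C3, hC3, hrank⟩ := rankin h 3 (by norm_num)
  have hN0 : ∀ v, (0 : ℝ) < N v := fun v => by
    have := h.two_le v
    exact_mod_cast (by omega : 0 < N v)
  have hk0 : (0 : ℝ) ≤ k := Nat.cast_nonneg k
  set z1 : ℝ := 1 + 36 * k * Cs + 12 * Cs / ε with hz1def
  have hCs0 : 0 < Cs := by linarith
  have hz1a : 0 ≤ 36 * k * Cs := by positivity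
  have hz1b : 0 ≤ 12 * Cs / ε := by positivity
  have hz1 : 1 ≤ z1 := by linarith
  have hz1pos : 0 < z1 := by linarith
  set b : ℝ := 4 * C3 with hb
  have hb4 : 4 ≤ b := by linarith
  have hb0 : 0 < b := by linarith
  set A1 : Finset Pt := (h.fin z1).toFinset with hA1
  set s1 : ℝ := ∑ v ∈ A1, 1 / (N v : ℝ) with hs1
  set c1 : ℝ := c0 ^ 3 * Real.exp (-(3 * s1) - 9 * Cs) with hc1
  have hc1pos : 0 < c1 := by positivity
  refine ⟨c1 / (4 * b ^ 3), by positivity, z0 ^ b, ?_, fun X hX => ?_⟩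
  · calc (2 : ℝ) ≤ z0 := hz0
      _ = z0 ^ (1 : ℝ) := (Real.rpow_one z0).symm
      _ ≤ z0 ^ b := Real.rpow_le_rpow_of_exponent_le (by linarith) (by linarith)
  have hz0pos : 0 < z0 := by linarith
  have hXpos : 0 < X := lt_of_lt_of_le (Real.rpow_pos_of_pos hz0pos b) hX
  set w : ℝ := X ^ (1 / b) with hw
  have hwb : w ^ b = X := by
    rw [hw, ← Real.rpow_mul hXpos.le, one_div, inv_mul_cancel₀ hb0.ne', Real.rpow_one]
  have hwz0 : z0 ≤ w := by
    have h1 : (z0 ^ b) ^ (1 / b) ≤ X ^ (1 / b) :=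
      Real.rpow_le_rpow (Real.rpow_nonneg hz0pos.le b) hX (by positivity)
    rwa [← Real.rpow_mul hz0pos.le, mul_one_div_cancel hb0.ne', Real.rpow_one] at h1
  have hw2 : 2 ≤ w := hz0.trans hwz0
  have hwpos : 0 < w := by linarith
  have hlogw : Real.log X = b * Real.log w := by
    rw [← hwb, Real.log_rpow hwpos]
  have hlogw0 : 0 ≤ Real.log w := Real.log_nonneg (by linarith)
  set A : Finset Pt := (h.fin w).toFinset with hA
  set P : Finset Pt := A.filter (fun v => z1 < (N v : ℝ)) with hP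
  have hPw : ∀ v ∈ P, (N v : ℝ) ≤ w := by
    intro v hv
    have := (Finset.mem_filter.1 hv).1
    simpa [hA] using this
  have hPz : ∀ v ∈ P, z1 < (N v : ℝ) := fun v hv => (Finset.mem_filter.1 hv).2
  set f : Pt → ℝ := fun v => 3 / (N v : ℝ) with hf
  have hf0 : ∀ v, 0 ≤ f v := fun v => div_nonneg (by norm_num) (hN0 v).le
  have hg : ∀ T : Finset Pt, 0 ≤ ∏ v ∈ T, f v := fun T => Finset.prod_nonneg fun v _ => hf0 v
  set F : ℝ := ∏ v ∈ P, (1 + f v) with hF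
  have hsqP : ∑ v ∈ P, 1 / (N v : ℝ) ^ 2 ≤ Cs / z1 := hsq z1 hz1 P hPz
  have hsqP' : Cs / z1 ≤ Cs := div_le_self hCs0.le hz1
  -- lower bound for F
  have hFlow : c1 * Real.log w ^ 3 ≤ F := by
    have e1 : c0 * Real.log w ≤ Real.exp (∑ v ∈ A, 1 / (N v : ℝ)) :=
      hlow w hwz0 A (fun v hv => by simpa [hA] using hv)
    have e2 : ∑ v ∈ A, 1 / (N v : ℝ) ≤ ∑ v ∈ P, 1 / (N v : ℝ) + s1 := by
      rw [← Finset.sum_filter_add_sum_filter_not A (fun v => z1 < (N v : ℝ))]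
      apply add_le_add le_rfl
      refine Finset.sum_le_sum_of_subset_of_nonneg ?_ fun v _ _ => ?_
      · intro v hv
        have := (Finset.mem_filter.1 hv).2
        simpa [hA1] using not_lt.1 this
      · exact div_nonneg zero_le_one (hN0 v).le
    have e3 : Real.exp (∑ v ∈ P, (f v - f v ^ 2)) ≤ F := by
      rw [Real.exp_sum]
      exact Finset.prod_le_prod (fun v _ => (Real.exp_pos _).le) fun v _ => mo_exp (hf0 v)
    have e4 : 3 * ∑ v ∈ P, 1 / (N v : ℝ) - 9 * Cs ≤ ∑ v ∈ P, (f v - f v ^ 2) := by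
      have e5 : ∑ v ∈ P, (f v - f v ^ 2) =
          3 * ∑ v ∈ P, 1 / (N v : ℝ) - 9 * ∑ v ∈ P, 1 / (N v : ℝ) ^ 2 := by
        rw [Finset.mul_sum, Finset.mul_sum, ← Finset.sum_sub_distrib]
        refine Finset.sum_congr rfl fun v _ => ?_
        rw [hf]
        simp only [div_pow]
        ring
      rw [e5]
      linarith
    have e6 : (c0 * Real.log w) ^ 3 ≤ Real.exp (3 * (∑ v ∈ P, 1 / (N v : ℝ) + s1)) := by
      have e7 : c0 * Real.log w ≤ Real.exp (∑ v ∈ P, 1 / (N v : ℝ) + s1) :=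
        e1.trans (Real.exp_le_exp.2 e2)
      calc (c0 * Real.log w) ^ 3 ≤ Real.exp (∑ v ∈ P, 1 / (N v : ℝ) + s1) ^ 3 :=
            pow_le_pow_left₀ (mul_nonneg hc0.le hlogw0) e7 3
        _ = Real.exp (3 * (∑ v ∈ P, 1 / (N v : ℝ) + s1)) := by
            rw [← Real.exp_nat_mul]
            norm_num
    calc c1 * Real.log w ^ 3 = (c0 * Real.log w) ^ 3 * Real.exp (-(3 * s1) - 9 * Cs) := by
          rw [hc1]
          ring
      _ ≤ Real.exp (3 * (∑ v ∈ P, 1 / (N v : ℝ) + s1)) * Real.exp (-(3 * s1) - 9 * Cs) :=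
          mul_le_mul_of_nonneg_right e6 (Real.exp_pos _).le
      _ = Real.exp (3 * ∑ v ∈ P, 1 / (N v : ℝ) - 9 * Cs) := by
          rw [← Real.exp_add]
          congr 1
          ring
      _ ≤ F := (Real.exp_le_exp.2 e4).trans e3
  have hF0 : 0 ≤ F := Finset.prod_nonneg fun v _ => by linarith [hf0 v]
  -- the bad sets
  set B1 : Finset (Finset Pt) := P.powerset.filter (fun T : Finset Pt => ¬ Set.InjOn N (T : Set Pt)) with hB1
  set B2 := P.powerset.filter (fun T => ε < ∑ v ∈ T, 1 / (N v : ℝ)) with hB2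
  set B3 := P.powerset.filter (fun T => X < ∏ v ∈ T, (N v : ℝ)) with hB3
  have hb1 : ∑ T ∈ B1, ∏ v ∈ T, f v ≤ F / 4 := by
    set D : Finset (Pt × Pt) := (P ×ˢ P).filter (fun q => q.1 ≠ q.2 ∧ N q.1 = N q.2) with hD
    have e1 := mo_bad (ι := Pt × Pt) hf0 P D (fun q => {q.1, q.2}) (fun _ => 1)
      (fun _ => zero_le_one) B1 (Finset.filter_subset _ _) (by
        intro T hT
        obtain ⟨hT1, hT2⟩ := Finset.mem_filter.1 hT
        unfold Set.InjOn at hT2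
        push Not at hT2
        obtain ⟨v, hv, v', hv', hN, hne⟩ := hT2
        have hvP := Finset.mem_powerset.1 hT1 (Finset.mem_coe.1 hv)
        have hvP' := Finset.mem_powerset.1 hT1 (Finset.mem_coe.1 hv')
        have hmem : (v, v') ∈ D.filter (fun q => ({q.1, q.2} : Finset Pt) ⊆ T) := by
          refine Finset.mem_filter.2 ⟨Finset.mem_filter.2 ⟨Finset.mem_product.2 ⟨hvP, hvP'⟩,
            hne, hN⟩, ?_⟩
          intro x hx
          rcases Finset.mem_insert.1 hx with rfl | hx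
          · exact Finset.mem_coe.1 hv
          · rw [Finset.mem_singleton.1 hx]
            exact Finset.mem_coe.1 hv'
        exact Finset.single_le_sum (f := fun _ => (1 : ℝ)) (fun _ _ => zero_le_one) hmem)
    have e2 : ∑ q ∈ D, (1 : ℝ) * ∏ v ∈ ({q.1, q.2} : Finset Pt), f v ≤
        9 * k * ∑ v ∈ P, 1 / (N v : ℝ) ^ 2 := by
      have e3 : ∀ q ∈ D, (1 : ℝ) * ∏ v ∈ ({q.1, q.2} : Finset Pt), f v =
          9 / (N q.1 : ℝ) ^ 2 := by
        intro q hq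
        obtain ⟨_, hne, hN⟩ := Finset.mem_filter.1 hq
        rw [Finset.prod_pair hne, one_mul, hf]
        simp only
        rw [← hN]
        have := (hN0 q.1).ne'
        field_simp
        norm_num
      rw [Finset.sum_congr rfl e3]
      calc ∑ q ∈ D, 9 / (N q.1 : ℝ) ^ 2
          = ∑ v ∈ P, ∑ v' ∈ P, (if v ≠ v' ∧ N v = N v' then 9 / (N v : ℝ) ^ 2 else 0) := by
            rw [hD, Finset.sum_filter, Finset.sum_product]
        _ ≤ ∑ v ∈ P, k * (9 / (N v : ℝ) ^ 2) := by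
            refine Finset.sum_le_sum fun v _ => ?_
            rw [← Finset.sum_filter, Finset.sum_const, nsmul_eq_mul]
            refine mul_le_mul_of_nonneg_right ?_ (by positivity)
            have := hk (N v) (P.filter (fun v' => v ≠ v' ∧ N v = N v'))
              (fun v' hv' => (Finset.mem_filter.1 hv').2.2.symm)
            exact_mod_cast this
        _ = 9 * k * ∑ v ∈ P, 1 / (N v : ℝ) ^ 2 := by
            rw [Finset.mul_sum]
            refine Finset.sum_congr rfl fun v _ => ?_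
            ring
    have e4 : 9 * (k : ℝ) * ∑ v ∈ P, 1 / (N v : ℝ) ^ 2 ≤ 1 / 4 := by
      calc 9 * (k : ℝ) * ∑ v ∈ P, 1 / (N v : ℝ) ^ 2 ≤ 9 * k * (Cs / z1) :=
            mul_le_mul_of_nonneg_left hsqP (by positivity)
        _ = (9 * k * Cs) / z1 := by ring
        _ ≤ 1 / 4 := by
            rw [div_le_iff₀ hz1pos]
            linarith
    calc ∑ T ∈ B1, ∏ v ∈ T, f v
        ≤ (∑ q ∈ D, (1 : ℝ) * ∏ v ∈ ({q.1, q.2} : Finset Pt), f v) * F := e1
      _ ≤ (1 / 4) * F := mul_le_mul_of_nonneg_right (e2.trans e4) hF0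
      _ = F / 4 := by ring
  have hb2 : ∑ T ∈ B2, ∏ v ∈ T, f v ≤ F / 4 := by
    have e1 := mo_bad (ι := Pt) hf0 P P (fun v => {v}) (fun v => (1 / ε) * (1 / (N v : ℝ)))
      (fun v => mul_nonneg (by positivity) (div_nonneg zero_le_one (hN0 v).le)) B2
      (Finset.filter_subset _ _) (by
        intro T hT
        obtain ⟨hT1, hT2⟩ := Finset.mem_filter.1 hT
        have e2 : P.filter (fun v => ({v} : Finset Pt) ⊆ T) = T := by
          ext v
          simp only [Finset.mem_filter, Finset.singleton_subset_iff]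
          exact ⟨fun h => h.2, fun h => ⟨Finset.mem_powerset.1 hT1 h, h⟩⟩
        rw [e2, ← Finset.mul_sum, one_div, inv_mul_eq_div, le_div_iff₀ hε, one_mul]
        exact hT2.le)
    have e2 : ∑ v ∈ P, (1 / ε) * (1 / (N v : ℝ)) * ∏ v' ∈ ({v} : Finset Pt), f v' =
        3 / ε * ∑ v ∈ P, 1 / (N v : ℝ) ^ 2 := by
      rw [Finset.mul_sum]
      refine Finset.sum_congr rfl fun v _ => ?_
      rw [Finset.prod_singleton, hf]
      simp only
      ring
    have e4 : 3 / ε * ∑ v ∈ P, 1 / (N v : ℝ) ^ 2 ≤ 1 / 4 := by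
      calc 3 / ε * ∑ v ∈ P, 1 / (N v : ℝ) ^ 2 ≤ 3 / ε * (Cs / z1) :=
            mul_le_mul_of_nonneg_left hsqP (by positivity)
        _ = (12 * Cs / ε) / z1 / 4 := by ring
        _ ≤ 1 / 4 := by
            have : (12 * Cs / ε) / z1 ≤ 1 := by
              rw [div_le_iff₀ hz1pos]
              linarith
            linarith
    calc ∑ T ∈ B2, ∏ v ∈ T, f v
        ≤ (∑ v ∈ P, (1 / ε) * (1 / (N v : ℝ)) * ∏ v' ∈ ({v} : Finset Pt), f v') * F := e1
      _ ≤ (1 / 4) * F := by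
          rw [e2]
          exact mul_le_mul_of_nonneg_right e4 hF0
      _ = F / 4 := by ring
  have hb3 : ∑ T ∈ B3, ∏ v ∈ T, f v ≤ F / 4 := by
    have e1 := hrank w hw2 b hb0.le P hPw B3 (by
      intro T hT
      obtain ⟨hT1, hT2⟩ := Finset.mem_filter.1 hT
      rw [hwb]
      exact ⟨Finset.mem_powerset.1 hT1, hT2⟩)
    have e2 : C3 * Real.exp (-b) ≤ 1 / 4 := by
      have e3 : b ≤ Real.exp b := by linarith [Real.add_one_le_exp b]
      rw [Real.exp_neg, ← div_eq_mul_inv, div_le_iff₀ (Real.exp_pos b)]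
      linarith
    calc ∑ T ∈ B3, ∏ v ∈ T, f v ≤ C3 * Real.exp (-b) * F := e1
      _ ≤ (1 / 4) * F := mul_le_mul_of_nonneg_right e2 hF0
      _ = F / 4 := by ring
  refine ⟨P.powerset.filter (fun T => GT N ε X T), fun T hT => (Finset.mem_filter.1 hT).2, ?_⟩
  have htot : F = ∑ T ∈ P.powerset, ∏ v ∈ T, f v := Finset.prod_one_add _
  have hsplit := Finset.sum_filter_add_sum_filter_not P.powerset (fun T => GT N ε X T)
    (fun T => ∏ v ∈ T, f v)
  have hcov : ∑ T ∈ P.powerset.filter (fun T => ¬ GT N ε X T), ∏ v ∈ T, f v ≤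
      ∑ T ∈ B1, ∏ v ∈ T, f v + ∑ T ∈ B2, ∏ v ∈ T, f v + ∑ T ∈ B3, ∏ v ∈ T, f v := by
    have e1 : P.powerset.filter (fun T => ¬ GT N ε X T) ⊆ (B1 ∪ B2) ∪ B3 := by
      intro T hT
      obtain ⟨hT1, hT2⟩ := Finset.mem_filter.1 hT
      rw [Finset.mem_union, Finset.mem_union, hB1, hB2, hB3, Finset.mem_filter,
        Finset.mem_filter, Finset.mem_filter]
      by_contra hcon
      apply hT2
      push Not at hcon
      exact ⟨hcon.1.1 hT1, hcon.1.2 hT1, hcon.2 hT1⟩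
    calc ∑ T ∈ P.powerset.filter (fun T => ¬ GT N ε X T), ∏ v ∈ T, f v
        ≤ ∑ T ∈ (B1 ∪ B2) ∪ B3, ∏ v ∈ T, f v :=
          Finset.sum_le_sum_of_subset_of_nonneg e1 fun T _ _ => hg T
      _ ≤ ∑ T ∈ B1 ∪ B2, ∏ v ∈ T, f v + ∑ T ∈ B3, ∏ v ∈ T, f v := by
          have := Finset.sum_union_inter (s₁ := B1 ∪ B2) (s₂ := B3) (f := fun T => ∏ v ∈ T, f v)
          have h0 : 0 ≤ ∑ T ∈ (B1 ∪ B2) ∩ B3, ∏ v ∈ T, f v :=
            Finset.sum_nonneg fun T _ => hg T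
          linarith
      _ ≤ _ := by
          have := Finset.sum_union_inter (s₁ := B1) (s₂ := B2) (f := fun T => ∏ v ∈ T, f v)
          have h0 : 0 ≤ ∑ T ∈ B1 ∩ B2, ∏ v ∈ T, f v := Finset.sum_nonneg fun T _ => hg T
          linarith
  have hfin : F / 4 ≤ ∑ T ∈ P.powerset.filter (fun T => GT N ε X T), ∏ v ∈ T, f v := by
    rw [← htot] at hsplit
    linarith
  refine le_trans ?_ hfin
  rw [hlogw]
  have e9 : c1 / (4 * b ^ 3) * (b * Real.log w) ^ 3 = c1 * Real.log w ^ 3 / 4 := by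
    have := hb0.ne'
    field_simp
  rw [e9]
  linarith

end H36.QA
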