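import Pool.Agent.H36.QA.AvgA
import Pool.Agent.H36.QA.Mo

/-!
# [H36 QA AVG] The average of the residues (90-140 lines)

Let `K(T) = ∑_{s ∈ Sx T, s ≠ 0} kp s ≥ 0`.  `avg_one`: `c 3^|T| ≤ K(T) + C (log X)²` for
`GT N ε X T`.  `K₁ = 2 C / c`.  `Ts` from `mo_good`:
`∑_{T ∈ Ts} ∏_T 3/N ≥ c₁ (log X)³`.
1. The `T ∈ Ts` with `3^|T| < K₁ (log X)²`: `3^|T| = (√3^|T|)² ≤ √K₁ log X √3^|T|`, so they
contribute at most `√K₁ log X ∑ ∏_T √3/N ≤ √K₁ C₂ (log X)^(1 + √3)` (`mt_upper` with `y = √3`),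
which is `≤ (c₁/2) (log X)³` for large `X` because `1 + √3 < 3`.
2. For the others `K(T) ≥ (c/2) 3^|T|`.  So
`∑_{T ∈ Ts} ∏_T (1/N) K(T) ≥ (c/2) (c₁/2) (log X)³` (`K(T) ≥ 0` for the small ones).
3. Interchange: `∑_{T ∈ Ts} ∏_T (1/N) ∑_{s ∈ Sx T, s ≠ 0} kp s
= ∑_s kp s ∏_{supp s} (1/N) ∑_{T ∈ Ts, supp s ⊆ T} ∏_{T \ supp s} 1/N`, and the inner sum is
`≤ C₅ log X` (`mt_upper` with `y = 1`: the map `T ↦ T \ supp s` is injective on the `T ⊇ supp s`, the
products of the norms are `≤ X`).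
4. `S` = the set of all `s ≠ 0` in some `Sx T`, `T ∈ Ts` (`Finset.biUnion`); they satisfy
`GT N ε X s.support` (`GT.subset`).
-/

noncomputable section

namespace H36.QA

theorem avg_pw {ι : Type} (T : Finset ι) (g : ι → ℝ) (y : ℝ) :
    ∏ v ∈ T, y / g v = y ^ T.card * ∏ v ∈ T, 1 / g v := by
  rw [← Finset.prod_const, ← Finset.prod_mul_distrib]
  refine Finset.prod_congr rfl fun v _ => ?_
  rw [mul_one_div]

theorem avg {Pt : Type} {N : Pt → ℕ} (h : MP Pt N) (ε : ℝ) (hε : 0 < ε) (C₁ : ℝ) (hC₁ : 1 ≤ C₁)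
    (A₁ : ℕ) : ∃ c X₀ : ℝ, 0 < c ∧ 2 ≤ X₀ ∧
      ∀ (kp : (Pt →₀ ZMod 3) → ℝ) (Spl : (Pt →₀ ZMod 3) → Pt → Prop), (∀ s, 0 ≤ kp s) →
        GA Spl → KB N ε C₁ A₁ kp Spl → ∀ X : ℝ, X₀ ≤ X → ∃ S : Finset (Pt →₀ ZMod 3),
          (∀ s ∈ S, s ≠ 0 ∧ GT N ε X s.support) ∧
            c * Real.log X ^ 2 ≤ ∑ s ∈ S, kp s * ∏ v ∈ s.support, 1 / (N v : ℝ) := by
  classical
  obtain ⟨c, C, X1, hc, hC, hX1, hone⟩ := avg_one h ε C₁ hC₁ A₁
  obtain ⟨c1, hc1, X2, hX2, hgood⟩ := mo_good h ε hε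
  obtain ⟨C2, hC2, hmt⟩ := mt_upper h (Real.sqrt 3) (Real.sqrt_nonneg 3)
  obtain ⟨C5, hC5, hmt1⟩ := mt_upper h 1 zero_le_one
  set K₁ : ℝ := 2 * C / c + 1 with hK₁
  have hK₁pos : 0 < K₁ := by
    have : 0 ≤ 2 * C / c := by positivity
    linarith
  set M : ℝ := 2 * (Real.sqrt K₁ * C2) / c1 with hM
  have hM0 : 0 ≤ M := by positivity
  refine ⟨c * c1 / (4 * C5), max (max X1 X2) (Real.exp (M ^ 4 + 1)), by positivity,
    hX1.trans ((le_max_left _ _).trans (le_max_left _ _)), ?_⟩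
  intro kp Spl hkp hG hK X hX
  have hXX1 : X1 ≤ X := ((le_max_left _ _).trans (le_max_left _ _)).trans hX
  have hXX2 : X2 ≤ X := ((le_max_right _ _).trans (le_max_left _ _)).trans hX
  have hXexp : Real.exp (M ^ 4 + 1) ≤ X := (le_max_right _ _).trans hX
  have hXpos : 0 < X := lt_of_lt_of_le (Real.exp_pos _) hXexp
  have hX2' : 2 ≤ X := hX1.trans hXX1
  set L : ℝ := Real.log X with hL
  have hLM : M ^ 4 + 1 ≤ L := (Real.le_log_iff_exp_le hXpos).2 hXexp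
  have hM4 : 0 ≤ M ^ 4 := by positivity
  have hL1 : 1 ≤ L := by linarith
  have hL0 : 0 < L := by linarith
  obtain ⟨Ts, hTs, hTsum⟩ := hgood X hXX2
  have hN1 : ∀ v, (1 : ℝ) ≤ (N v : ℝ) := fun v => by
    have := h.two_le v
    exact_mod_cast (by omega : 1 ≤ N v)
  have hN0 : ∀ v, (0 : ℝ) < (N v : ℝ) := fun v => lt_of_lt_of_le one_pos (hN1 v)
  have hg : ∀ T : Finset Pt, 0 ≤ ∏ v ∈ T, 1 / (N v : ℝ) := fun T =>
    Finset.prod_nonneg fun v _ => div_nonneg zero_le_one (hN0 v).le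
  set KT : Finset Pt → ℝ := fun T => ∑ s ∈ (Sx T).filter (fun s => s ≠ 0), kp s with hKT
  have hKT0 : ∀ T, 0 ≤ KT T := fun T => Finset.sum_nonneg fun s _ => hkp s
  have hone' : ∀ T ∈ Ts, c * 3 ^ T.card ≤ KT T + C * L ^ 2 := fun T hT =>
    hone kp Spl hkp hG hK X hXX1 T (hTs T hT)
  -- the small sets
  have hsmall : ∑ T ∈ Ts.filter (fun T => (3 : ℝ) ^ T.card < K₁ * L ^ 2), ∏ v ∈ T, 3 / (N v : ℝ) ≤
      c1 / 2 * L ^ 3 := by
    have e1 : ∀ T ∈ Ts.filter (fun T => (3 : ℝ) ^ T.card < K₁ * L ^ 2),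
        ∏ v ∈ T, 3 / (N v : ℝ) ≤ Real.sqrt K₁ * L * ∏ v ∈ T, Real.sqrt 3 / (N v : ℝ) := by
      intro T hT
      have hT2 := (Finset.mem_filter.1 hT).2
      have e2 : Real.sqrt 3 ^ T.card ≤ Real.sqrt K₁ * L := by
        apply le_of_sq_le_sq _ (by positivity)
        calc (Real.sqrt 3 ^ T.card) ^ 2 = (Real.sqrt 3 ^ 2) ^ T.card := by ring
          _ = 3 ^ T.card := by rw [Real.sq_sqrt (by norm_num)]
          _ ≤ K₁ * L ^ 2 := hT2.le
          _ = (Real.sqrt K₁ * L) ^ 2 := by rw [mul_pow, Real.sq_sqrt hK₁pos.le]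
      rw [avg_pw T (fun v => (N v : ℝ)) 3, avg_pw T (fun v => (N v : ℝ)) (Real.sqrt 3), ← mul_assoc]
      apply mul_le_mul_of_nonneg_right _ (hg T)
      calc (3 : ℝ) ^ T.card = (Real.sqrt 3 ^ 2) ^ T.card := by rw [Real.sq_sqrt (by norm_num)]
        _ = Real.sqrt 3 ^ T.card * Real.sqrt 3 ^ T.card := by ring
        _ ≤ Real.sqrt K₁ * L * Real.sqrt 3 ^ T.card :=
            mul_le_mul_of_nonneg_right e2 (by positivity)
    have e3 := hmt X hX2' (Ts.filter (fun T => (3 : ℝ) ^ T.card < K₁ * L ^ 2))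
      (fun T hT => (hTs T (Finset.mem_filter.1 hT).1).2.2)
    have e4 : L ^ Real.sqrt 3 ≤ L ^ (7 / 4 : ℝ) := by
      apply Real.rpow_le_rpow_of_exponent_le hL1
      rw [Real.sqrt_le_left (by norm_num)]
      norm_num
    have e5 : M ≤ L ^ (1 / 4 : ℝ) := by
      have e6 : (M ^ 4) ^ (1 / 4 : ℝ) ≤ L ^ (1 / 4 : ℝ) :=
        Real.rpow_le_rpow hM4 (by linarith) (by norm_num)
      have e7 : (M ^ 4) ^ (1 / 4 : ℝ) = M := by
        rw [← Real.rpow_natCast, ← Real.rpow_mul hM0]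
        norm_num
      rwa [e7] at e6
    have e8 : L * L ^ (7 / 4 : ℝ) * L ^ (1 / 4 : ℝ) = L ^ 3 := by
      have e9 : L * L ^ (7 / 4 : ℝ) * L ^ (1 / 4 : ℝ) = L ^ (1 : ℝ) * L ^ (7 / 4 : ℝ) *
          L ^ (1 / 4 : ℝ) := by rw [Real.rpow_one]
      rw [e9, ← Real.rpow_add hL0, ← Real.rpow_add hL0, ← Real.rpow_natCast]
      norm_num
    calc ∑ T ∈ Ts.filter (fun T => (3 : ℝ) ^ T.card < K₁ * L ^ 2), ∏ v ∈ T, 3 / (N v : ℝ)
        ≤ ∑ T ∈ Ts.filter (fun T => (3 : ℝ) ^ T.card < K₁ * L ^ 2),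
          Real.sqrt K₁ * L * ∏ v ∈ T, Real.sqrt 3 / (N v : ℝ) := Finset.sum_le_sum e1
      _ = Real.sqrt K₁ * L * ∑ T ∈ Ts.filter (fun T => (3 : ℝ) ^ T.card < K₁ * L ^ 2),
          ∏ v ∈ T, Real.sqrt 3 / (N v : ℝ) := by rw [Finset.mul_sum]
      _ ≤ Real.sqrt K₁ * L * (C2 * L ^ (7 / 4 : ℝ)) := by
          apply mul_le_mul_of_nonneg_left _ (by positivity)
          exact e3.trans (mul_le_mul_of_nonneg_left e4 (by linarith))
      _ = c1 / 2 * (M * (L * L ^ (7 / 4 : ℝ))) := by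
          rw [hM]
          field_simp
      _ ≤ c1 / 2 * (L ^ (1 / 4 : ℝ) * (L * L ^ (7 / 4 : ℝ))) := by
          apply mul_le_mul_of_nonneg_left _ (by positivity)
          exact mul_le_mul_of_nonneg_right e5 (by positivity)
      _ = c1 / 2 * L ^ 3 := by
          rw [← e8]
          ring
  have hsplit := Finset.sum_filter_add_sum_filter_not Ts
    (fun T => (3 : ℝ) ^ T.card < K₁ * L ^ 2) (fun T => ∏ v ∈ T, 3 / (N v : ℝ))
  have hlarge : c1 / 2 * L ^ 3 ≤ ∑ T ∈ Ts.filter (fun T => ¬ (3 : ℝ) ^ T.card < K₁ * L ^ 2),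
      ∏ v ∈ T, 3 / (N v : ℝ) := by
    linarith
  have htwo : c * c1 / 4 * L ^ 3 ≤ ∑ T ∈ Ts, (∏ v ∈ T, 1 / (N v : ℝ)) * KT T := by
    calc c * c1 / 4 * L ^ 3 = c / 2 * (c1 / 2 * L ^ 3) := by ring
      _ ≤ c / 2 * ∑ T ∈ Ts.filter (fun T => ¬ (3 : ℝ) ^ T.card < K₁ * L ^ 2),
          ∏ v ∈ T, 3 / (N v : ℝ) := mul_le_mul_of_nonneg_left hlarge (by positivity)
      _ = ∑ T ∈ Ts.filter (fun T => ¬ (3 : ℝ) ^ T.card < K₁ * L ^ 2),
          (∏ v ∈ T, 1 / (N v : ℝ)) * (c / 2 * 3 ^ T.card) := by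
          rw [Finset.mul_sum]
          refine Finset.sum_congr rfl fun T _ => ?_
          rw [avg_pw T (fun v => (N v : ℝ)) 3]
          ring
      _ ≤ ∑ T ∈ Ts.filter (fun T => ¬ (3 : ℝ) ^ T.card < K₁ * L ^ 2),
          (∏ v ∈ T, 1 / (N v : ℝ)) * KT T := by
          refine Finset.sum_le_sum fun T hT => ?_
          obtain ⟨hT1, hT2⟩ := Finset.mem_filter.1 hT
          have e1 := hone' T hT1
          have e2 : K₁ * L ^ 2 ≤ 3 ^ T.card := not_lt.1 hT2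
          have e3 : C * L ^ 2 ≤ c / 2 * 3 ^ T.card := by
            calc C * L ^ 2 ≤ c / 2 * (K₁ * L ^ 2) := by
                  have e4 : c / 2 * (K₁ * L ^ 2) = C * L ^ 2 + c / 2 * L ^ 2 := by
                    rw [hK₁]
                    field_simp
                  rw [e4]
                  have : 0 ≤ c / 2 * L ^ 2 := by positivity
                  linarith
              _ ≤ c / 2 * 3 ^ T.card := mul_le_mul_of_nonneg_left e2 (by positivity)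
          apply mul_le_mul_of_nonneg_left _ (hg T)
          linarith
      _ ≤ ∑ T ∈ Ts, (∏ v ∈ T, 1 / (N v : ℝ)) * KT T :=
          Finset.sum_le_sum_of_subset_of_nonneg (Finset.filter_subset _ _)
            fun T _ _ => mul_nonneg (hg T) (hKT0 T)
  set S : Finset (Pt →₀ ZMod 3) := Ts.biUnion (fun T => (Sx T).filter (fun s => s ≠ 0)) with hS
  refine ⟨S, ?_, ?_⟩
  · intro s hs
    obtain ⟨T, hT, hsT⟩ := Finset.mem_biUnion.1 hs
    obtain ⟨hs1, hs2⟩ := Finset.mem_filter.1 hsT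
    exact ⟨hs2, (hTs T hT).subset h.two_le ((mem_Sx T s).1 hs1)⟩
  · have hmem : ∀ T ∈ Ts, (Sx T).filter (fun s => s ≠ 0) = S.filter (fun s => s.support ⊆ T) := by
      intro T hT
      ext s
      simp only [Finset.mem_filter, mem_Sx, hS, Finset.mem_biUnion]
      constructor
      · rintro ⟨h1, h2⟩
        exact ⟨⟨T, hT, h1, h2⟩, h1⟩
      · rintro ⟨⟨T', hT', h1, h2⟩, h3⟩
        exact ⟨h3, h2⟩
    have hinner : ∀ s : Pt →₀ ZMod 3, ∑ T ∈ Ts.filter (fun T => s.support ⊆ T),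
        ∏ v ∈ T, 1 / (N v : ℝ) ≤ (∏ v ∈ s.support, 1 / (N v : ℝ)) * (C5 * L) := by
      intro s
      have e1 : ∑ T ∈ Ts.filter (fun T => s.support ⊆ T), ∏ v ∈ T, 1 / (N v : ℝ) =
          (∏ v ∈ s.support, 1 / (N v : ℝ)) * ∑ T ∈ Ts.filter (fun T => s.support ⊆ T),
            ∏ v ∈ T \ s.support, 1 / (N v : ℝ) := by
        rw [Finset.mul_sum]
        refine Finset.sum_congr rfl fun T hT => ?_
        rw [mul_comm, Finset.prod_sdiff (Finset.mem_filter.1 hT).2]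
      have e2 : ∑ U ∈ (Ts.filter (fun T => s.support ⊆ T)).image (fun T => T \ s.support),
          ∏ v ∈ U, 1 / (N v : ℝ) = ∑ T ∈ Ts.filter (fun T => s.support ⊆ T),
            ∏ v ∈ T \ s.support, 1 / (N v : ℝ) := by
        refine Finset.sum_image ?_
        intro T hT T' hT' hh
        have e1 := (Finset.mem_filter.1 (Finset.mem_coe.1 hT)).2
        have e2 := (Finset.mem_filter.1 (Finset.mem_coe.1 hT')).2
        have h' : T \ s.support = T' \ s.support := hh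
        rw [← Finset.sdiff_union_of_subset e1, ← Finset.sdiff_union_of_subset e2, h']
      rw [e1, ← e2]
      apply mul_le_mul_of_nonneg_left _ (hg _)
      have e3 := hmt1 X hX2' ((Ts.filter (fun T => s.support ⊆ T)).image
        (fun T => T \ s.support)) (by
        intro U hU
        obtain ⟨T, hT, rfl⟩ := Finset.mem_image.1 hU
        exact ((hTs T (Finset.mem_filter.1 hT).1).subset h.two_le Finset.sdiff_subset).2.2)
      rwa [Real.rpow_one] at e3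
    have hex : ∑ T ∈ Ts, (∏ v ∈ T, 1 / (N v : ℝ)) * KT T ≤
        (∑ s ∈ S, kp s * ∏ v ∈ s.support, 1 / (N v : ℝ)) * (C5 * L) := by
      calc ∑ T ∈ Ts, (∏ v ∈ T, 1 / (N v : ℝ)) * KT T
          = ∑ T ∈ Ts, ∑ s ∈ S, (if s.support ⊆ T then kp s * ∏ v ∈ T, 1 / (N v : ℝ) else 0) := by
            refine Finset.sum_congr rfl fun T hT => ?_
            rw [hKT]
            simp only
            rw [hmem T hT, Finset.mul_sum, Finset.sum_filter]
            refine Finset.sum_congr rfl fun s _ => ?_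
            split_ifs
            · ring
            · rfl
        _ = ∑ s ∈ S, ∑ T ∈ Ts, (if s.support ⊆ T then kp s * ∏ v ∈ T, 1 / (N v : ℝ) else 0) :=
            Finset.sum_comm
        _ ≤ ∑ s ∈ S, kp s * ((∏ v ∈ s.support, 1 / (N v : ℝ)) * (C5 * L)) := by
            refine Finset.sum_le_sum fun s _ => ?_
            rw [← Finset.sum_filter, ← Finset.mul_sum]
            exact mul_le_mul_of_nonneg_left (hinner s) (hkp s)
        _ = (∑ s ∈ S, kp s * ∏ v ∈ s.support, 1 / (N v : ℝ)) * (C5 * L) := by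
            rw [Finset.sum_mul]
            refine Finset.sum_congr rfl fun s _ => ?_
            ring
    have hfin := htwo.trans hex
    have hC5L : 0 < C5 * L := by positivity
    have e1 : c * c1 / (4 * C5) * L ^ 2 * (C5 * L) = c * c1 / 4 * L ^ 3 := by
      field_simp
    rw [← e1] at hfin
    exact le_of_mul_le_mul_right hfin hC5L

end H36.QA
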