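import Pool.Agent.H36.QA.BDefs

/-!
# [H36 QA MT] The upper bound for sums over sets of places (one theorem, 30-50 lines, only Mathlib
and BDefs)

`P` = the union of all `T ∈ Ts`; `N v ≤ ∏_{v ∈ T} N v ≤ X` for `v ∈ T` (the norms are `≥ 1`).
`∑_{T ∈ Ts} ≤ ∑_{T ⊆ P} ∏_{v ∈ T} y / N v = ∏_{v ∈ P} (1 + y / N v) ≤ exp (y ∑_{v ∈ P} 1 / N v)
= (exp ∑)^y ≤ (C₀ log X)^y` (`h.up`, `Real.mul_rpow`).
-/

noncomputable section

namespace H36.QA

theorem mt_upper {Pt : Type} {N : Pt → ℕ} (h : MP Pt N) (y : ℝ) (hy : 0 ≤ y) :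
    ∃ C : ℝ, 1 ≤ C ∧ ∀ X : ℝ, 2 ≤ X → ∀ Ts : Finset (Finset Pt),
      (∀ T ∈ Ts, ∏ v ∈ T, (N v : ℝ) ≤ X) →
        ∑ T ∈ Ts, ∏ v ∈ T, y / (N v : ℝ) ≤ C * Real.log X ^ y := by
  classical
  obtain ⟨C₀, hC₀, hup⟩ := h.up
  refine ⟨C₀ ^ y, Real.one_le_rpow hC₀ hy, fun X hX Ts hTs => ?_⟩
  have hN1 : ∀ v, (1 : ℝ) ≤ (N v : ℝ) := fun v => by
    have := h.two_le v
    exact_mod_cast (by omega : 1 ≤ N v)
  have hN0 : ∀ v, (0 : ℝ) < (N v : ℝ) := fun v => lt_of_lt_of_le one_pos (hN1 v)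
  have hPX : ∀ v ∈ Ts.biUnion id, (N v : ℝ) ≤ X := by
    intro v hv
    rw [Finset.mem_biUnion] at hv
    obtain ⟨T, hT, hvT⟩ := hv
    refine le_trans ?_ (hTs T hT)
    simp only [id] at hvT
    rw [← Finset.mul_prod_erase T _ hvT]
    have h1 : (1 : ℝ) ≤ ∏ x ∈ T.erase v, (N x : ℝ) := by
      refine Finset.prod_induction _ (fun x : ℝ => 1 ≤ x) (fun a b ha hb => ?_) le_rfl
        (fun v _ => hN1 v)
      nlinarith
    have := hN0 v
    nlinarith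
  have h1 : ∑ T ∈ Ts, ∏ v ∈ T, y / (N v : ℝ) ≤
      ∑ T ∈ (Ts.biUnion id).powerset, ∏ v ∈ T, y / (N v : ℝ) := by
    refine Finset.sum_le_sum_of_subset_of_nonneg (fun T hT => ?_) (fun T _ _ => ?_)
    · rw [Finset.mem_powerset]
      exact Finset.subset_biUnion_of_mem id hT
    · exact Finset.prod_nonneg fun v _ => div_nonneg hy (hN0 v).le
  rw [← Finset.prod_one_add] at h1
  refine h1.trans ?_
  have h2 : ∏ v ∈ Ts.biUnion id, (1 + y / (N v : ℝ)) ≤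
      Real.exp (∑ v ∈ Ts.biUnion id, 1 / (N v : ℝ)) ^ y := by
    rw [← Real.exp_mul, Finset.sum_mul, Real.exp_sum]
    refine Finset.prod_le_prod (fun v _ => ?_) (fun v _ => ?_)
    · have := div_nonneg hy (hN0 v).le
      linarith
    · have h3 := Real.add_one_le_exp (1 / (N v : ℝ) * y)
      have h4 : 1 / (N v : ℝ) * y = y / (N v : ℝ) := by ring
      rw [h4] at h3 ⊢
      linarith
  refine h2.trans ?_
  have hlog : 0 ≤ Real.log X := Real.log_nonneg (by linarith)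
  rw [← Real.mul_rpow (by linarith) hlog]
  exact Real.rpow_le_rpow (Real.exp_pos _).le (hup X hX _ hPX) hy

end H36.QA
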