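import Pool.Agent.H36.QA.Rank
import Pool.Agent.H36.QA.Mt

/-!
# [H36 QA MC] The sum over the sets disjoint from a given set (one theorem, 70-110 lines)

`z = W^a` (`a` a large natural number), `P = {v | N v ≤ z} \ T`,
`F = ∏_{v ∈ P} (1 + 1 / N v) = ∑_{D ⊆ P} ∏_D 1/N ≥ exp (∑_P 1/N - ∑ 1/N²) ≥
exp(∑_{N v ≤ z} 1 / N v) exp(-ε - C) ≥ c₁ log z = c₁ a log W` (`1 + t ≥ exp (t - t²)`, `h.low`,
`h.sq` and `2 ≤ N v` for the sum of the squares, `∑_{v ∈ T} 1/N v ≤ ε`).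
The `D ⊆ P` with `∏_D N ≤ W` contribute at most `C₂ log W` (`mt_upper` with `y = 1`), those with
`∏_D N > z^b` at most `C₃ e^(-b) F ≤ F / 4` (`rankin`, `b` a large natural number).  The others
satisfy `W < ∏_D N ≤ W^(a b)` and give `≥ (3/4) F - C₂ log W ≥ ((3/4) c₁ a - C₂) log W ≥ log W`
if `a` is large.  `k = a b`.
-/

noncomputable section

namespace H36.QA

theorem mc_disj {Pt : Type} {N : Pt → ℕ} (h : MP Pt N) (ε : ℝ) :
    ∃ c : ℝ, 0 < c ∧ ∃ k : ℕ, 1 ≤ k ∧ ∃ W₀ : ℝ, 2 ≤ W₀ ∧ ∀ W : ℝ, W₀ ≤ W → ∀ T : Finset Pt,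
      ∑ v ∈ T, 1 / (N v : ℝ) ≤ ε → ∃ Ds : Finset (Finset Pt),
        (∀ D ∈ Ds, Disjoint D T ∧ W < ∏ v ∈ D, (N v : ℝ) ∧ ∏ v ∈ D, (N v : ℝ) ≤ W ^ k) ∧
          c * Real.log W ≤ ∑ D ∈ Ds, ∏ v ∈ D, 1 / (N v : ℝ) := by
  classical
  obtain ⟨c₀, hc₀, z₀, hz₀, hlow⟩ := h.low
  obtain ⟨Cs, -, hsq⟩ := h.sq
  obtain ⟨C₂, hC₂, hmt⟩ := mt_upper h 1 zero_le_one
  obtain ⟨C₃, hC₃, hrk⟩ := rankin h 1 zero_le_one
  have hN1 : ∀ v, (1 : ℝ) ≤ (N v : ℝ) := fun v => by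
    have := h.two_le v
    exact_mod_cast (by omega : 1 ≤ N v)
  have hN0 : ∀ v, (0 : ℝ) < (N v : ℝ) := fun v => lt_of_lt_of_le one_pos (hN1 v)
  set c₁ : ℝ := c₀ * Real.exp (-ε - Cs) with hc₁
  have hc₁0 : 0 < c₁ := mul_pos hc₀ (Real.exp_pos _)
  obtain ⟨a₀, ha₀⟩ := exists_nat_ge ((4 / 3) * (1 + C₂) / c₁)
  obtain ⟨b₀, hb₀⟩ := exists_nat_ge (Real.log (4 * C₃))
  set a : ℕ := a₀ + 1 with ha
  set b : ℕ := b₀ + 1 with hb
  have ha1 : 1 ≤ a := by omega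
  have hb1 : 1 ≤ b := by omega
  have haC : 1 + C₂ ≤ 3 / 4 * c₁ * (a : ℝ) := by
    rw [div_le_iff₀ hc₁0] at ha₀
    have h1 : (a : ℝ) = a₀ + 1 := by rw [ha]; push_cast; ring
    rw [h1]
    nlinarith
  have hbC : C₃ * Real.exp (-(b : ℝ)) ≤ 1 / 4 := by
    have h1 : Real.log (4 * C₃) ≤ (b : ℝ) := by
      refine hb₀.trans ?_
      rw [hb]
      push_cast
      linarith
    have h2 : 4 * C₃ ≤ Real.exp (b : ℝ) := by
      rw [← Real.exp_log (by linarith : 0 < 4 * C₃)]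
      exact Real.exp_le_exp.2 h1
    rw [Real.exp_neg, ← div_eq_mul_inv, div_le_iff₀ (Real.exp_pos _)]
    linarith
  refine ⟨1, one_pos, a * b, Nat.mul_pos ha1 hb1, z₀, hz₀, fun W hW T hT => ?_⟩
  have hW2 : 2 ≤ W := hz₀.trans hW
  have hW1 : 1 ≤ W := by linarith
  have hlogW : 0 ≤ Real.log W := Real.log_nonneg hW1
  have hWz : W ≤ W ^ a := le_self_pow₀ hW1 (by omega)
  have hz2 : 2 ≤ W ^ a := hW2.trans hWz
  have hlogz : Real.log (W ^ a) = a * Real.log W := Real.log_pow _ _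
  set S : Finset Pt := (h.fin (W ^ a)).toFinset with hS
  have hSm : ∀ v, v ∈ S ↔ (N v : ℝ) ≤ W ^ a := fun v => by
    rw [hS, Set.Finite.mem_toFinset, Set.mem_setOf_eq]
  set P : Finset Pt := S \ T with hP
  have hPz : ∀ v ∈ P, (N v : ℝ) ≤ W ^ a := fun v hv => by
    rw [hP, Finset.mem_sdiff] at hv
    exact (hSm v).1 hv.1
  -- the product
  have hF : c₁ * Real.log (W ^ a) ≤ ∏ v ∈ P, (1 + 1 / (N v : ℝ)) := by
    have h1 : c₀ * Real.log (W ^ a) ≤ Real.exp (∑ v ∈ S, 1 / (N v : ℝ)) :=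
      hlow (W ^ a) (hW.trans hWz) S fun v hv => (hSm v).2 hv
    have h2 : ∑ v ∈ S, 1 / (N v : ℝ) ≤ ∑ v ∈ P, 1 / (N v : ℝ) + ε := by
      have h3 : ∑ v ∈ S, 1 / (N v : ℝ) =
          ∑ v ∈ S \ T, 1 / (N v : ℝ) + ∑ v ∈ S ∩ T, 1 / (N v : ℝ) := by
        rw [← Finset.sum_sdiff (Finset.inter_subset_left : S ∩ T ⊆ S), Finset.sdiff_inter_self_left]
      have h4 : ∑ v ∈ S ∩ T, 1 / (N v : ℝ) ≤ ∑ v ∈ T, 1 / (N v : ℝ) :=
        Finset.sum_le_sum_of_subset_of_nonneg Finset.inter_subset_right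
          fun v _ _ => by positivity
      rw [h3]
      linarith
    have h5 : ∑ v ∈ P, 1 / (N v : ℝ) ^ 2 ≤ Cs := by
      have := hsq 1 le_rfl P fun v _ => by
        have := h.two_le v
        exact_mod_cast (by omega : 1 < N v)
      simpa using this
    have h6 : Real.exp (∑ v ∈ P, 1 / (N v : ℝ) - ∑ v ∈ P, 1 / (N v : ℝ) ^ 2) ≤
        ∏ v ∈ P, (1 + 1 / (N v : ℝ)) := by
      rw [← Finset.sum_sub_distrib, Real.exp_sum]
      refine Finset.prod_le_prod (fun v _ => (Real.exp_pos _).le) fun v _ => ?_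
      have ht : 0 < 1 / (N v : ℝ) := by
        have := hN0 v
        positivity
      have e : 1 / (N v : ℝ) ^ 2 = (1 / (N v : ℝ)) ^ 2 := by ring
      rw [e]
      generalize 1 / (N v : ℝ) = t at ht
      have h7 : 1 - (1 + t)⁻¹ ≤ Real.log (1 + t) := Real.one_sub_inv_le_log_of_pos (by linarith)
      have h8 : t - t ^ 2 ≤ 1 - (1 + t)⁻¹ := by
        have h9 : 1 - (1 + t)⁻¹ = t / (1 + t) := by
          field_simp
          ring
        rw [h9, le_div_iff₀ (by linarith)]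
        nlinarith [pow_pos ht 3]
      calc Real.exp (t - t ^ 2) ≤ Real.exp (Real.log (1 + t)) :=
            Real.exp_le_exp.2 (h8.trans h7)
        _ = 1 + t := Real.exp_log (by linarith)
    refine le_trans ?_ h6
    have h10 : Real.exp (∑ v ∈ S, 1 / (N v : ℝ)) * Real.exp (-ε - Cs) ≤
        Real.exp (∑ v ∈ P, 1 / (N v : ℝ) - ∑ v ∈ P, 1 / (N v : ℝ) ^ 2) := by
      rw [← Real.exp_add]
      exact Real.exp_le_exp.2 (by linarith)
    refine le_trans ?_ h10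
    rw [hc₁]
    have h11 := mul_le_mul_of_nonneg_right h1 (Real.exp_pos (-ε - Cs)).le
    linarith
  -- the three parts
  have hsplit : ∏ v ∈ P, (1 + 1 / (N v : ℝ)) ≤
      ∑ D ∈ P.powerset.filter (fun D => W < ∏ v ∈ D, (N v : ℝ) ∧
        ∏ v ∈ D, (N v : ℝ) ≤ W ^ (a * b)), ∏ v ∈ D, 1 / (N v : ℝ) +
      ∑ D ∈ P.powerset.filter (fun D => ∏ v ∈ D, (N v : ℝ) ≤ W), ∏ v ∈ D, 1 / (N v : ℝ) +
      ∑ D ∈ P.powerset.filter (fun D => W ^ (a * b) < ∏ v ∈ D, (N v : ℝ)),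
        ∏ v ∈ D, 1 / (N v : ℝ) := by
    rw [Finset.prod_one_add, Finset.sum_filter, Finset.sum_filter, Finset.sum_filter,
      ← Finset.sum_add_distrib, ← Finset.sum_add_distrib]
    refine Finset.sum_le_sum fun D _ => ?_
    have h0 : 0 ≤ ∏ v ∈ D, 1 / (N v : ℝ) := Finset.prod_nonneg fun v _ => by positivity
    by_cases h1 : ∏ v ∈ D, (N v : ℝ) ≤ W
    · rw [if_pos h1]
      have h2 : 0 ≤ (if W < ∏ v ∈ D, (N v : ℝ) ∧ ∏ v ∈ D, (N v : ℝ) ≤ W ^ (a * b) then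
          ∏ v ∈ D, 1 / (N v : ℝ) else 0) := by
        split_ifs
        · exact h0
        · exact le_rfl
      have h3 : 0 ≤ (if W ^ (a * b) < ∏ v ∈ D, (N v : ℝ) then
          ∏ v ∈ D, 1 / (N v : ℝ) else 0) := by
        split_ifs
        · exact h0
        · exact le_rfl
      linarith
    · by_cases h2 : ∏ v ∈ D, (N v : ℝ) ≤ W ^ (a * b)
      · rw [if_pos ⟨not_le.1 h1, h2⟩, if_neg h1, if_neg (not_lt.2 h2)]
        linarith
      · rw [if_neg fun h => h2 h.2, if_neg h1, if_pos (not_le.1 h2)]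
        linarith
  have hA : ∑ D ∈ P.powerset.filter (fun D => ∏ v ∈ D, (N v : ℝ) ≤ W),
      ∏ v ∈ D, 1 / (N v : ℝ) ≤ C₂ * Real.log W := by
    have := hmt W hW2 (P.powerset.filter (fun D => ∏ v ∈ D, (N v : ℝ) ≤ W))
      fun D hD => (Finset.mem_filter.1 hD).2
    rwa [Real.rpow_one] at this
  have hB : ∑ D ∈ P.powerset.filter (fun D => W ^ (a * b) < ∏ v ∈ D, (N v : ℝ)),
      ∏ v ∈ D, 1 / (N v : ℝ) ≤ 1 / 4 * ∏ v ∈ P, (1 + 1 / (N v : ℝ)) := by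
    have h1 := hrk (W ^ a) hz2 b (Nat.cast_nonneg b) P hPz
      (P.powerset.filter (fun D => W ^ (a * b) < ∏ v ∈ D, (N v : ℝ))) fun D hD => by
        rw [Finset.mem_filter, Finset.mem_powerset] at hD
        refine ⟨hD.1, ?_⟩
        rw [Real.rpow_natCast, ← pow_mul]
        exact hD.2
    refine h1.trans (mul_le_mul_of_nonneg_right hbC ?_)
    exact Finset.prod_nonneg fun v _ => by positivity
  refine ⟨P.powerset.filter (fun D => W < ∏ v ∈ D, (N v : ℝ) ∧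
    ∏ v ∈ D, (N v : ℝ) ≤ W ^ (a * b)), fun D hD => ?_, ?_⟩
  · rw [Finset.mem_filter, Finset.mem_powerset] at hD
    refine ⟨?_, hD.2⟩
    exact Finset.disjoint_of_subset_left hD.1 Finset.sdiff_disjoint
  · rw [hlogz] at hF
    have h1 : (1 + C₂) * Real.log W ≤ 3 / 4 * c₁ * (a : ℝ) * Real.log W :=
      mul_le_mul_of_nonneg_right haC hlogW
    nlinarith

end H36.QA
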