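import Pool.Agent.H36.QA.AvgD
import Pool.Agent.H36.QA.Mc
import Pool.Agent.H36.QA.Mt

/-!
# [H36 QA AVGA] The average over the subsets of one set `T` (60-100 lines)

`W = X^(A₁ + 1)`, `W' = W^k` (`k, c, W₀` from `mc_disj`); for `X ≥ C₁`, `X ≥ W₀` the conditions
`C₁ X^A₁ ≤ W`, `W₀ ≤ W` hold.  `GT N ε X T`; `Ds` from `mc_disj` (every `D ∈ Ds` is disjoint from
`T`).  For `D ∈ Ds`: `3^|T| ≤ 3^|D| #{s ∈ Sx T | split at D}` (`hG`).  Multiply by `∏_D 1/N` and sum: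
`3^|T| c log W ≤ ∑_{s ∈ Sx T} ∑_{D ∈ Ds, s split at D} ∏_D 3/N`
(`3^|D| ∏_D 1/N = ∏_D 3/N`; interchange of the sums).
The term `s = 0` is at most `∑_{D ∈ Ds} ∏_D 3/N ≤ C₄ (log W')^3` (`mt_upper` with `y = 3`), the terms
`s ≠ 0` are at most `C₁ kp(s) log W'` (`hK`, `GT.subset`: the support of `s` is in `T`, and `D` is
disjoint from it).  `log W' = k (A₁ + 1) log X`, `log W = (A₁ + 1) log X`; divide by
`C₁ k (A₁+1) log X`.
-/

noncomputable section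

namespace H36.QA

open Classical in
theorem avg_one {Pt : Type} {N : Pt → ℕ} (h : MP Pt N) (ε C₁ : ℝ) (hC₁ : 1 ≤ C₁) (A₁ : ℕ) :
    ∃ c C X₀ : ℝ, 0 < c ∧ 0 ≤ C ∧ 2 ≤ X₀ ∧
      ∀ (kp : (Pt →₀ ZMod 3) → ℝ) (Spl : (Pt →₀ ZMod 3) → Pt → Prop), (∀ s, 0 ≤ kp s) →
        GA Spl → KB N ε C₁ A₁ kp Spl → ∀ X : ℝ, X₀ ≤ X → ∀ T : Finset Pt, GT N ε X T →
          c * 3 ^ T.card ≤ (∑ s ∈ (Sx T).filter (fun s => s ≠ 0), kp s) +
            C * Real.log X ^ 2 := by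
  obtain ⟨c₀, hc₀, k, hk, W₀, hW₀, hmc⟩ := mc_disj h ε
  obtain ⟨C₄, hC₄, hmt⟩ := mt_upper h 3 (by norm_num)
  have hk0 : (0 : ℝ) < (k : ℝ) := by exact_mod_cast hk
  have hA0 : (0 : ℝ) < (A₁ : ℝ) + 1 := by positivity
  refine ⟨c₀ / (C₁ * k), C₄ * ((k : ℝ) * (A₁ + 1)) ^ 2 / C₁, max (max 2 C₁) W₀, by positivity,
    by positivity, (le_max_left _ _).trans (le_max_left _ _), ?_⟩
  intro kp Spl hkp hG hK X hX T hT
  have hX2 : 2 ≤ X := ((le_max_left _ _).trans (le_max_left _ _)).trans hX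
  have hXC : C₁ ≤ X := ((le_max_right _ _).trans (le_max_left _ _)).trans hX
  have hXW : W₀ ≤ X := (le_max_right _ _).trans hX
  have hX1 : 1 ≤ X := by linarith
  set W : ℝ := X ^ (A₁ + 1) with hW
  have hXleW : X ≤ W := le_self_pow₀ hX1 (by omega)
  have hW1 : 1 ≤ W := hX1.trans hXleW
  have hCW : C₁ * X ^ A₁ ≤ W := by
    rw [hW, pow_succ']
    exact mul_le_mul_of_nonneg_right hXC (by positivity)
  have hWW : W ≤ W ^ k := le_self_pow₀ hW1 (by omega)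
  have hL0 : 0 < Real.log X := Real.log_pos (by linarith)
  have hlW : Real.log W = (A₁ + 1) * Real.log X := by
    rw [hW, Real.log_pow]
    push_cast
    ring
  have hlW' : Real.log (W ^ k) = k * ((A₁ + 1) * Real.log X) := by
    rw [Real.log_pow, hlW]
  obtain ⟨Ds, hDs, hsum⟩ := hmc W (hXW.trans hXleW) T hT.2.1
  have hN0 : ∀ v, (0 : ℝ) < (N v : ℝ) := fun v => by
    have := h.two_le v
    exact_mod_cast (by omega : 0 < N v)
  -- one set `D`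
  have hD : ∀ D ∈ Ds, (3 : ℝ) ^ T.card * ∏ v ∈ D, 1 / (N v : ℝ) ≤
      ∑ s ∈ Sx T, (if ∀ v ∈ D, Spl s v then ∏ v ∈ D, 3 / (N v : ℝ) else 0) := by
    intro D hDm
    obtain ⟨S, hS, hc⟩ := hG T D (hDs D hDm).1.symm
    have h1 : S.card ≤ ((Sx T).filter fun s => ∀ v ∈ D, Spl s v).card :=
      Finset.card_le_card fun s hs => Finset.mem_filter.2 (hS s hs)
    have h2 : (3 : ℝ) ^ T.card ≤
        3 ^ D.card * (((Sx T).filter fun s => ∀ v ∈ D, Spl s v).card : ℝ) := by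
      exact_mod_cast hc.trans (Nat.mul_le_mul_left _ h1)
    have h3 : (3 : ℝ) ^ D.card * ∏ v ∈ D, 1 / (N v : ℝ) = ∏ v ∈ D, 3 / (N v : ℝ) := by
      rw [← Finset.prod_const, ← Finset.prod_mul_distrib]
      exact Finset.prod_congr rfl fun v _ => by ring
    rw [← Finset.sum_filter, Finset.sum_const, nsmul_eq_mul, ← h3]
    have h4 : 0 ≤ ∏ v ∈ D, 1 / (N v : ℝ) := Finset.prod_nonneg fun v _ => by positivity
    calc (3 : ℝ) ^ T.card * ∏ v ∈ D, 1 / (N v : ℝ)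
        ≤ 3 ^ D.card * (((Sx T).filter fun s => ∀ v ∈ D, Spl s v).card : ℝ) *
          ∏ v ∈ D, 1 / (N v : ℝ) := mul_le_mul_of_nonneg_right h2 h4
      _ = (((Sx T).filter fun s => ∀ v ∈ D, Spl s v).card : ℝ) *
          (3 ^ D.card * ∏ v ∈ D, 1 / (N v : ℝ)) := by ring
  -- the sum over all `D`
  have hall : (3 : ℝ) ^ T.card * (c₀ * Real.log W) ≤
      ∑ s ∈ Sx T, ∑ D ∈ Ds.filter (fun D => ∀ v ∈ D, Spl s v), ∏ v ∈ D, 3 / (N v : ℝ) := by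
    calc (3 : ℝ) ^ T.card * (c₀ * Real.log W)
        ≤ 3 ^ T.card * ∑ D ∈ Ds, ∏ v ∈ D, 1 / (N v : ℝ) :=
          mul_le_mul_of_nonneg_left hsum (by positivity)
      _ = ∑ D ∈ Ds, (3 : ℝ) ^ T.card * ∏ v ∈ D, 1 / (N v : ℝ) := Finset.mul_sum _ _ _
      _ ≤ ∑ D ∈ Ds, ∑ s ∈ Sx T,
          (if ∀ v ∈ D, Spl s v then ∏ v ∈ D, 3 / (N v : ℝ) else 0) := Finset.sum_le_sum hD
      _ = _ := by
          rw [Finset.sum_comm]
          exact Finset.sum_congr rfl fun s _ => (Finset.sum_filter _ _).symm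
  have hz : (0 : Pt →₀ ZMod 3) ∈ Sx T := by
    rw [mem_Sx]
    simp
  rw [← Finset.add_sum_erase _ _ hz, ← Finset.filter_ne'] at hall
  have hzero : ∑ D ∈ Ds.filter (fun D => ∀ v ∈ D, Spl 0 v), ∏ v ∈ D, 3 / (N v : ℝ) ≤
      C₄ * Real.log (W ^ k) ^ 3 := by
    have h1 := hmt (W ^ k) ((hX2.trans hXleW).trans hWW)
      (Ds.filter (fun D => ∀ v ∈ D, Spl 0 v)) fun D hD' =>
        (hDs D (Finset.mem_filter.1 hD').1).2.2
    have h2 : Real.log (W ^ k) ^ (3 : ℝ) = Real.log (W ^ k) ^ 3 := by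
      exact_mod_cast Real.rpow_natCast (Real.log (W ^ k)) 3
    rwa [h2] at h1
  have hother : ∑ s ∈ (Sx T).filter (fun s => s ≠ 0),
      ∑ D ∈ Ds.filter (fun D => ∀ v ∈ D, Spl s v), ∏ v ∈ D, 3 / (N v : ℝ) ≤
      C₁ * Real.log (W ^ k) * ∑ s ∈ (Sx T).filter (fun s => s ≠ 0), kp s := by
    rw [Finset.mul_sum]
    refine Finset.sum_le_sum fun s hs => ?_
    rw [Finset.mem_filter, mem_Sx] at hs
    have h1 := hK s X hs.2 (hT.subset h.two_le hs.1) W (W ^ k) hCW hWW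
      (Ds.filter (fun D => ∀ v ∈ D, Spl s v)) fun D hD' => by
        rw [Finset.mem_filter] at hD'
        have h2 := hDs D hD'.1
        exact ⟨Finset.disjoint_of_subset_right hs.1 h2.1, h2.2.1, h2.2.2, hD'.2⟩
    calc _ ≤ C₁ * kp s * Real.log (W ^ k) := h1
      _ = C₁ * Real.log (W ^ k) * kp s := by ring
  have hfin : (3 : ℝ) ^ T.card * (c₀ * Real.log W) ≤ C₄ * Real.log (W ^ k) ^ 3 +
      C₁ * Real.log (W ^ k) * ∑ s ∈ (Sx T).filter (fun s => s ≠ 0), kp s :=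
    hall.trans (add_le_add hzero hother)
  rw [hlW, hlW'] at hfin
  have hM : 0 < C₁ * (k * ((A₁ + 1) * Real.log X)) := by positivity
  refine le_of_mul_le_mul_left ?_ hM
  calc C₁ * (k * ((A₁ + 1) * Real.log X)) * (c₀ / (C₁ * k) * 3 ^ T.card)
      = (3 : ℝ) ^ T.card * (c₀ * ((A₁ + 1) * Real.log X)) := by
        field_simp
    _ ≤ _ := hfin
    _ = _ := by
        field_simp
        ring

end H36.QA
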