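import Pool.Agent.H36.QA.BDefs

/-!
# The hypotheses of the averaging theorem (complete)

`kp s` is the residue at `1` of the zeta function of the cubic extension attached to `s`, and
`Spl s v` says that `v` splits completely in it.
-/

noncomputable section

namespace H36.QA

/-- The group average: for disjoint `T`, `D` at least `3^(|T| - |D|)` of the `s` with support in `T`
are split at all places of `D`. -/
def GA {Pt : Type} (Spl : (Pt →₀ ZMod 3) → Pt → Prop) : Prop :=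
  ∀ T D : Finset Pt, Disjoint T D → ∃ S : Finset (Pt →₀ ZMod 3),
    (∀ s ∈ S, s ∈ Sx T ∧ ∀ v ∈ D, Spl s v) ∧ 3 ^ T.card ≤ 3 ^ D.card * S.card

/-- The residue controls the number of the sets of split places. -/
def KB {Pt : Type} (N : Pt → ℕ) (ε C₁ : ℝ) (A₁ : ℕ) (kp : (Pt →₀ ZMod 3) → ℝ)
    (Spl : (Pt →₀ ZMod 3) → Pt → Prop) : Prop :=
  ∀ (s : Pt →₀ ZMod 3) (X : ℝ), s ≠ 0 → GT N ε X s.support → ∀ W W' : ℝ, C₁ * X ^ A₁ ≤ W →
    W ≤ W' → ∀ Ds : Finset (Finset Pt), (∀ D ∈ Ds, Disjoint D s.support ∧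
      W < ∏ v ∈ D, (N v : ℝ) ∧ ∏ v ∈ D, (N v : ℝ) ≤ W' ∧ ∀ v ∈ D, Spl s v) →
        ∑ D ∈ Ds, ∏ v ∈ D, 3 / (N v : ℝ) ≤ C₁ * kp s * Real.log W'

end H36.QA
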