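import Mathlib

/-!
# Averaging over the sets of places: definitions (complete)

`MP Pt N`: a set `Pt` of places with norm `N` has the usual properties of Mertens type.
`GT N ε X T`: the good sets `T` of places.  `Sx T`: the functions `s : Pt → ℤ/3` with support in `T`.
-/

noncomputable section

namespace H36.QA

/-- Mertens type properties of a set of places `Pt` with norm `N`. -/
structure MP (Pt : Type) (N : Pt → ℕ) : Prop where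
  two_le : ∀ v, 2 ≤ N v
  fin : ∀ z : ℝ, {v : Pt | (N v : ℝ) ≤ z}.Finite
  low : ∃ c : ℝ, 0 < c ∧ ∃ z₀ : ℝ, 2 ≤ z₀ ∧ ∀ z : ℝ, z₀ ≤ z → ∀ T : Finset Pt,
    (∀ v, (N v : ℝ) ≤ z → v ∈ T) → c * Real.log z ≤ Real.exp (∑ v ∈ T, 1 / (N v : ℝ))
  up : ∃ C : ℝ, 1 ≤ C ∧ ∀ z : ℝ, 2 ≤ z → ∀ T : Finset Pt, (∀ v ∈ T, (N v : ℝ) ≤ z) →
    Real.exp (∑ v ∈ T, 1 / (N v : ℝ)) ≤ C * Real.log z
  lg : ∃ C : ℝ, 1 ≤ C ∧ ∀ z : ℝ, 2 ≤ z → ∀ T : Finset Pt, (∀ v ∈ T, (N v : ℝ) ≤ z) →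
    ∑ v ∈ T, Real.log (N v) / (N v : ℝ) ≤ C * Real.log z
  sq : ∃ C : ℝ, 1 ≤ C ∧ ∀ w : ℝ, 1 ≤ w → ∀ T : Finset Pt, (∀ v ∈ T, w < (N v : ℝ)) →
    ∑ v ∈ T, 1 / (N v : ℝ) ^ 2 ≤ C / w
  fib : ∃ k : ℕ, ∀ (p : ℕ) (T : Finset Pt), (∀ v ∈ T, N v = p) → T.card ≤ k

/-- The good sets of places: different norms, small `∑ 1/N`, product of the norms at most `X`. -/
def GT {Pt : Type} (N : Pt → ℕ) (ε X : ℝ) (T : Finset Pt) : Prop :=
  Set.InjOn N (T : Set Pt) ∧ ∑ v ∈ T, 1 / (N v : ℝ) ≤ ε ∧ ∏ v ∈ T, (N v : ℝ) ≤ X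

theorem GT.subset {Pt : Type} {N : Pt → ℕ} (hN : ∀ v, 2 ≤ N v) {ε X : ℝ} {T T' : Finset Pt}
    (h : GT N ε X T) (hT : T' ⊆ T) : GT N ε X T' := by
  refine ⟨h.1.mono (by exact_mod_cast hT), le_trans ?_ h.2.1, le_trans ?_ h.2.2⟩
  · exact Finset.sum_le_sum_of_subset_of_nonneg hT fun v _ _ => by positivity
  · classical
    rw [← Finset.prod_sdiff hT]
    have h1 : (1 : ℝ) ≤ ∏ v ∈ T \ T', (N v : ℝ) := by
      refine Finset.prod_induction _ (fun x : ℝ => 1 ≤ x) (fun a b ha hb => ?_) le_rfl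
        (fun v _ => ?_)
      · nlinarith
      · have := hN v
        exact_mod_cast (by omega : 1 ≤ N v)
    have h2 : (0 : ℝ) ≤ ∏ v ∈ T', (N v : ℝ) := by positivity
    nlinarith

/-- The functions with support in `T`. -/
def Sx {Pt : Type} (T : Finset Pt) : Finset (Pt →₀ ZMod 3) := by
  classical
  exact T.finsupp fun _ => Finset.univ

theorem mem_Sx {Pt : Type} (T : Finset Pt) (s : Pt →₀ ZMod 3) : s ∈ Sx T ↔ s.support ⊆ T := by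
  classical
  simp [Sx, Finset.mem_finsupp_iff]

theorem card_Sx {Pt : Type} (T : Finset Pt) : (Sx T).card = 3 ^ T.card := by
  classical
  simp [Sx, Finset.card_finsupp, ZMod.card]

end H36.QA
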