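import Mathlib

/-!
# [H36 QA BAD] Bad ideals (three theorems, 120-180 lines, only Mathlib)

`bad_exists`: suppose no bad ideal divides `I`.  Then all primes `Q ∣ I` have prime norm, different
prime factors (with multiplicity) have different norms, and none of the norms is in `T`.  So `N(I)` is
a product of different primes not in `T` (`Ideal.absNorm` of `normalizedFactors I` product,
`Multiset` induction or `Multiset.Nodup`).
The ideals of the first kind over `p`: `N(𝔤) = p^f`, `f ≥ 2`; there are at most `n` primes over `p`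
(`Ideal.card_primesOver_le`-type results, or: the product of all primes containing `p` divides `(p)`
of norm `p^n`; see `fibre_card` in `Pool/Agent/H38/TD/MertB.lean` for a short proof).  Of the second
kind: at most `n²`, of norm `p²`.  Of the third kind: `p ∈ T`, at most `n` of norm `p`.
`bad_sum`: `∑_{p > z} (n + n²)/p² ≤ 2 (n + n²) / z`-type bound (`∑_{k > z} 1/k² ≤ 1/z`, telescoping),
the primes `p` dividing a norm are `> z` because all primes `≤ z` divide `m`.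
`bad_count`: a bad ideal of the first two kinds of norm `≤ Y` lies over `p ≤ √Y`.
(The prime below `𝔤` is `(Ideal.absNorm 𝔤).minFac`; a fibrewise count: `Finset.card_le_mul_card_image`.)
-/

open scoped NumberField

noncomputable section

namespace H36.QA

/-- Ideals which must not divide the conductor: primes whose norm is not a prime number, products of
two primes with the same prime norm, primes with norm in `T`. -/
def Bad (F : Type) [Field F] [NumberField F] (T : Finset ℕ) (𝔤 : Ideal (𝓞 F)) : Prop :=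
  (𝔤.IsPrime ∧ 𝔤 ≠ ⊥ ∧ ¬ (Ideal.absNorm 𝔤).Prime) ∨
  (∃ Q Q' : Ideal (𝓞 F), Q.IsPrime ∧ Q'.IsPrime ∧ (Ideal.absNorm Q).Prime ∧
    Ideal.absNorm Q = Ideal.absNorm Q' ∧ 𝔤 = Q * Q') ∨
  (𝔤.IsPrime ∧ 𝔤 ≠ ⊥ ∧ (Ideal.absNorm 𝔤).Prime ∧ Ideal.absNorm 𝔤 ∈ T)


/-- the primes above `p` -/
def PA (F : Type) [Field F] [NumberField F] (p : ℕ) : Finset (Ideal (𝓞 F)) := by
  classical exact (UniqueFactorizationMonoid.normalizedFactors
    (Ideal.span {((p : ℕ) : 𝓞 F)})).toFinset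

section badaux

variable {F : Type} [Field F] [NumberField F]

theorem ba_span_ne (p : ℕ) (hp : p.Prime) : Ideal.span {((p : ℕ) : 𝓞 F)} ≠ ⊥ := by
  rw [Ne, Ideal.span_singleton_eq_bot]
  exact_mod_cast hp.ne_zero

theorem ba_mem (p : ℕ) (hp : p.Prime) (Q : Ideal (𝓞 F)) :
    Q ∈ PA F p ↔ Q.IsPrime ∧ ((p : ℕ) : 𝓞 F) ∈ Q := by
  classical
  unfold PA
  rw [Multiset.mem_toFinset, Ideal.mem_normalizedFactors_iff (ba_span_ne p hp),
    Ideal.span_singleton_le_iff_mem]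

theorem ba_ne_bot (p : ℕ) (hp : p.Prime) (Q : Ideal (𝓞 F)) (hQ : ((p : ℕ) : 𝓞 F) ∈ Q) :
    Q ≠ ⊥ := by
  rintro rfl
  rw [Ideal.mem_bot] at hQ
  exact hp.ne_zero (by exact_mod_cast hQ)

theorem ba_card (n : ℕ) (hn : Module.finrank ℚ F = n) (p : ℕ) (hp : p.Prime) :
    (PA F p).card ≤ n := by
  classical
  have hspan : Ideal.absNorm (Ideal.span {((p : ℕ) : 𝓞 F)}) = p ^ n := by
    rw [Ideal.absNorm_span_natCast, NumberField.RingOfIntegers.rank, hn]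
  have h1 : ∏ Q ∈ PA F p, Q ∣ Ideal.span {((p : ℕ) : 𝓞 F)} := by
    apply Finset.prod_primes_dvd
    · intro Q hQ
      have h := (ba_mem p hp Q).1 hQ
      exact Ideal.prime_of_isPrime (ba_ne_bot p hp Q h.2) h.1
    · intro Q hQ
      have h := (ba_mem p hp Q).1 hQ
      rw [Ideal.dvd_span_singleton]
      exact h.2
  have h3 : Ideal.absNorm (∏ Q ∈ PA F p, Q) ∣ p ^ n := by
    rw [← hspan]
    exact map_dvd Ideal.absNorm h1
  rw [map_prod] at h3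
  have h4 : p ^ (PA F p).card ≤ ∏ Q ∈ PA F p, Ideal.absNorm Q := by
    rw [← Finset.prod_const]
    apply Finset.prod_le_prod'
    intro Q hQ
    have h := (ba_mem p hp Q).1 hQ
    have h5 : Ideal.absNorm Q ∣ p ^ n := by
      rw [← hspan]
      exact map_dvd Ideal.absNorm (Ideal.dvd_span_singleton.2 h.2)
    obtain ⟨k, _, hk⟩ := (Nat.dvd_prime_pow hp).1 h5
    have hk0 : k ≠ 0 := by
      rintro rfl
      rw [pow_zero, Ideal.absNorm_eq_one_iff] at hk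
      exact h.1.ne_top hk
    rw [hk]
    exact Nat.le_self_pow hk0 p
  have h5 := h4.trans (Nat.le_of_dvd (pow_pos hp.pos _) h3)
  exact (Nat.pow_le_pow_iff_right hp.one_lt).1 h5

theorem ba_norm (Q : Ideal (𝓞 F)) (hQ : Q.IsPrime) (h0 : Q ≠ ⊥) :
    ∃ p f : ℕ, p.Prime ∧ 1 ≤ f ∧ Ideal.absNorm Q = p ^ f ∧ ((p : ℕ) : 𝓞 F) ∈ Q := by
  have hmax : Q.IsMaximal := hQ.isMaximal h0
  obtain ⟨p, n, hn, -, hp, h⟩ := Ideal.exists_prime_and_absNorm_eq_pow Q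
  refine ⟨p, n, hp, hn, h, ?_⟩
  have h1 : ((Ideal.absNorm Q : ℕ) : 𝓞 F) ∈ Q := Ideal.absNorm_mem Q
  apply hQ.mem_of_pow_mem n
  rw [← Nat.cast_pow, ← h]
  exact h1

theorem ba_dvd (J : Ideal (𝓞 F)) (hJ : J ≠ ⊥) (p : ℕ) (hp : p.Prime)
    (h : p ∣ Ideal.absNorm J) : ∃ Q : Ideal (𝓞 F), Q.IsPrime ∧ Q ≠ ⊥ ∧ Q ∣ J ∧
      p ∣ Ideal.absNorm Q := by
  classical
  have h1 : (UniqueFactorizationMonoid.normalizedFactors J).prod = J :=
    Ideal.prod_normalizedFactors_eq_self hJ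
  rw [← h1, map_multiset_prod] at h
  obtain ⟨Q, hQ, hpQ⟩ := hp.prime.exists_mem_multiset_map_dvd h
  have h2 := (Ideal.mem_normalizedFactors_iff hJ).1 hQ
  refine ⟨Q, h2.1, ?_, UniqueFactorizationMonoid.dvd_of_mem_normalizedFactors hQ, hpQ⟩
  exact (UniqueFactorizationMonoid.prime_of_normalized_factor Q hQ).ne_zero

/-- the first two kinds of bad ideals -/
def K12 (𝔤 : Ideal (𝓞 F)) : Prop :=
  (𝔤.IsPrime ∧ 𝔤 ≠ ⊥ ∧ ¬ (Ideal.absNorm 𝔤).Prime) ∨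
  (∃ Q Q' : Ideal (𝓞 F), Q.IsPrime ∧ Q'.IsPrime ∧ (Ideal.absNorm Q).Prime ∧
    Ideal.absNorm Q = Ideal.absNorm Q' ∧ 𝔤 = Q * Q')

open Classical in
/-- the candidates over `p` -/
def PB (F : Type) [Field F] [NumberField F] (p : ℕ) : Finset (Ideal (𝓞 F)) :=
  PA F p ∪ (PA F p ×ˢ PA F p).image (fun q => q.1 * q.2)

theorem ba_cardB (n : ℕ) (hn : Module.finrank ℚ F = n) (p : ℕ) (hp : p.Prime) :
    (PB F p).card ≤ n + n ^ 2 := by
  classical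
  unfold PB
  have h1 := ba_card n hn p hp
  refine (Finset.card_union_le _ _).trans (add_le_add h1 ?_)
  refine Finset.card_image_le.trans ?_
  rw [Finset.card_product, sq]
  exact Nat.mul_le_mul h1 h1

theorem ba_k12 (𝔤 : Ideal (𝓞 F)) (h : K12 𝔤) : (Ideal.absNorm 𝔤).minFac.Prime ∧
    (Ideal.absNorm 𝔤).minFac ^ 2 ≤ Ideal.absNorm 𝔤 ∧
    𝔤 ∈ PB F (Ideal.absNorm 𝔤).minFac := by
  classical
  rcases h with ⟨h1, h2, h3⟩ | ⟨Q, Q', h1, h2, h3, h4, rfl⟩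
  · obtain ⟨p, f, hp, hf, hN, hmem⟩ := ba_norm 𝔤 h1 h2
    have hf2 : 2 ≤ f := by
      rcases Nat.lt_or_ge f 2 with h | h
      · exfalso
        have : f = 1 := by omega
        subst this
        rw [pow_one] at hN
        exact h3 (hN ▸ hp)
      · exact h
    have hmf : (Ideal.absNorm 𝔤).minFac = p := by
      rw [hN]
      exact hp.pow_minFac (by omega)
    rw [hmf]
    refine ⟨hp, ?_, ?_⟩
    · rw [hN]
      exact Nat.pow_le_pow_right hp.pos hf2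
    · unfold PB
      exact Finset.mem_union_left _ ((ba_mem p hp 𝔤).2 ⟨h1, hmem⟩)
  · have hN : Ideal.absNorm (Q * Q') = (Ideal.absNorm Q) ^ 2 := by
      rw [map_mul, ← h4, sq]
    have hmf : (Ideal.absNorm (Q * Q')).minFac = Ideal.absNorm Q := by
      rw [hN]
      exact h3.pow_minFac (by norm_num)
    rw [hmf]
    refine ⟨h3, hN.ge, ?_⟩
    unfold PB
    refine Finset.mem_union_right _ (Finset.mem_image.2 ⟨(Q, Q'), ?_, rfl⟩)
    rw [Finset.mem_product]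
    refine ⟨(ba_mem _ h3 Q).2 ⟨h1, Ideal.absNorm_mem Q⟩, (ba_mem _ h3 Q').2 ⟨h2, ?_⟩⟩
    show ((Ideal.absNorm Q : ℕ) : 𝓞 F) ∈ Q'
    rw [h4]
    exact Ideal.absNorm_mem Q'

theorem ba_fib12 (n : ℕ) (hn : Module.finrank ℚ F = n) (B : Finset (Ideal (𝓞 F)))
    (hB : ∀ 𝔤 ∈ B, K12 𝔤) (p : ℕ) :
    (B.filter (fun 𝔤 => (Ideal.absNorm 𝔤).minFac = p)).card ≤ n + n ^ 2 := by
  classical
  rcases (B.filter (fun 𝔤 => (Ideal.absNorm 𝔤).minFac = p)).eq_empty_or_nonempty with h | h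
  · rw [h]; simp
  · obtain ⟨𝔤, h𝔤⟩ := h
    rw [Finset.mem_filter] at h𝔤
    have hp : p.Prime := by
      rw [← h𝔤.2]
      exact (ba_k12 𝔤 (hB 𝔤 h𝔤.1)).1
    refine le_trans (Finset.card_le_card ?_) (ba_cardB n hn p hp)
    intro 𝔥 h𝔥
    rw [Finset.mem_filter] at h𝔥
    have := (ba_k12 𝔥 (hB 𝔥 h𝔥.1)).2.2
    rw [h𝔥.2] at this
    exact this

theorem ba_fib3 (n : ℕ) (hn : Module.finrank ℚ F = n) (B : Finset (Ideal (𝓞 F)))
    (hB : ∀ 𝔤 ∈ B, 𝔤.IsPrime) (p : ℕ) (hp : p.Prime) :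
    (B.filter (fun 𝔤 => Ideal.absNorm 𝔤 = p)).card ≤ n := by
  classical
  refine le_trans (Finset.card_le_card ?_) (ba_card n hn p hp)
  intro 𝔥 h𝔥
  rw [Finset.mem_filter] at h𝔥
  refine (ba_mem p hp 𝔥).2 ⟨hB 𝔥 h𝔥.1, ?_⟩
  rw [← h𝔥.2]
  exact Ideal.absNorm_mem 𝔥

theorem ba_third (T : Finset ℕ) (𝔤 : Ideal (𝓞 F)) (h : Bad F T 𝔤) (hk : ¬ K12 𝔤) :
    𝔤.IsPrime ∧ (Ideal.absNorm 𝔤).Prime ∧ Ideal.absNorm 𝔤 ∈ T := by
  rcases h with h | h | h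
  · exact absurd (Or.inl h) hk
  · exact absurd (Or.inr h) hk
  · exact ⟨h.1, h.2.2.1, h.2.2.2⟩

end badaux

theorem bad_exists (F : Type) [Field F] [NumberField F] (T : Finset ℕ) (hT : ∀ p ∈ T, p.Prime)
    (I : Ideal (𝓞 F)) (hI : I ≠ ⊥)
    (h : ¬ (Squarefree (Ideal.absNorm I) ∧ (Ideal.absNorm I).Coprime (∏ p ∈ T, p))) :
    ∃ 𝔤 : Ideal (𝓞 F), Bad F T 𝔤 ∧ 𝔤 ∣ I := by
  classical
  by_contra hcon
  push Not at hcon
  -- all prime factors have prime norm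
  have hprime : ∀ Q : Ideal (𝓞 F), Q.IsPrime → Q ≠ ⊥ → Q ∣ I → ∀ p : ℕ, p.Prime →
      p ∣ Ideal.absNorm Q → Ideal.absNorm Q = p := by
    intro Q hQ hQ0 hQI p hp hpQ
    have h1 : (Ideal.absNorm Q).Prime := by
      by_contra hnp
      exact hcon Q (Or.inl ⟨hQ, hQ0, hnp⟩) hQI
    exact ((Nat.prime_dvd_prime_iff_eq hp h1).1 hpQ).symm
  apply h
  constructor
  · rw [Nat.squarefree_iff_prime_squarefree]
    intro p hp hpp
    obtain ⟨Q, hQ, hQ0, hQI, hpQ⟩ := ba_dvd I hI p hp ((Dvd.intro_left p rfl).trans hpp)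
    have hNQ := hprime Q hQ hQ0 hQI p hp hpQ
    obtain ⟨J, hJ⟩ := hQI
    have hJ0 : J ≠ ⊥ := by
      rintro rfl
      apply hI
      rw [hJ, Ideal.mul_bot]
    have hpJ : p ∣ Ideal.absNorm J := by
      rw [hJ, map_mul, hNQ] at hpp
      exact Nat.dvd_of_mul_dvd_mul_left hp.pos hpp
    obtain ⟨Q', hQ', hQ'0, hQ'J, hpQ'⟩ := ba_dvd J hJ0 p hp hpJ
    have hQ'I : Q' ∣ I := by
      rw [hJ]
      exact Dvd.dvd.mul_left hQ'J Q
    have hNQ' := hprime Q' hQ' hQ'0 hQ'I p hp hpQ'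
    apply hcon (Q * Q')
    · refine Or.inr (Or.inl ⟨Q, Q', hQ, hQ', ?_, ?_, rfl⟩)
      · rw [hNQ]; exact hp
      · rw [hNQ, hNQ']
    · rw [hJ]
      exact mul_dvd_mul_left Q hQ'J
  · rw [Nat.coprime_prod_right_iff]
    intro p hpT
    have hp := hT p hpT
    rw [Nat.coprime_comm, hp.coprime_iff_not_dvd]
    intro hpI
    obtain ⟨Q, hQ, hQ0, hQI, hpQ⟩ := ba_dvd I hI p hp hpI
    have hNQ := hprime Q hQ hQ0 hQI p hp hpQ
    apply hcon Q (Or.inr (Or.inr ⟨hQ, hQ0, ?_, ?_⟩)) hQI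
    · rw [hNQ]; exact hp
    · rw [hNQ]; exact hpT

theorem bad_sum (n : ℕ) : ∃ C : ℝ, 1 ≤ C ∧ ∀ (F : Type) [Field F] [NumberField F],
    Module.finrank ℚ F = n → ∀ z m : ℕ, 0 < z → (∀ p : ℕ, p.Prime → p ≤ z → p ∣ m) →
      ∀ T : Finset ℕ, (∀ p ∈ T, p.Prime) → ∀ B : Finset (Ideal (𝓞 F)),
        (∀ 𝔤 ∈ B, Bad F T 𝔤 ∧ (Ideal.absNorm 𝔤).Coprime m) →
        ∑ 𝔤 ∈ B, (1 : ℝ) / Ideal.absNorm 𝔤 ≤ C / z + n * ∑ p ∈ T, (1 : ℝ) / p := by
  classical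
  refine ⟨(n : ℝ) + n ^ 2 + 1, by have : (0 : ℝ) ≤ (n : ℝ) + n ^ 2 := by positivity
                                  linarith, ?_⟩
  intro F _ _ hn z m hz hzm T hT B hB
  have hzR : (0 : ℝ) < z := by exact_mod_cast hz
  rw [← Finset.sum_filter_add_sum_filter_not B (fun 𝔤 => K12 𝔤)]
  apply add_le_add
  · obtain ⟨B1, hB1⟩ : ∃ B1, B1 = B.filter (fun 𝔤 => K12 𝔤) := ⟨_, rfl⟩
    rw [← hB1]
    have hB1k : ∀ 𝔤 ∈ B1, K12 𝔤 := by
      intro 𝔤 h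
      rw [hB1, Finset.mem_filter] at h
      exact h.2
    obtain ⟨M, hM⟩ : ∃ M : ℕ, M = z + ∑ 𝔤 ∈ B1, (Ideal.absNorm 𝔤).minFac := ⟨_, rfl⟩
    have hmaps : ∀ 𝔤 ∈ B1, (Ideal.absNorm 𝔤).minFac ∈ Finset.Ioc z M := by
      intro 𝔤 h
      obtain ⟨h1, h2, h3⟩ := ba_k12 𝔤 (hB1k 𝔤 h)
      have hBg : 𝔤 ∈ B := by
        rw [hB1, Finset.mem_filter] at h
        exact h.1
      rw [Finset.mem_Ioc]
      constructor
      · by_contra hcon
        have h4 := hzm _ h1 (not_lt.1 hcon)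
        have h5 : (Ideal.absNorm 𝔤).minFac ∣ Nat.gcd (Ideal.absNorm 𝔤) m :=
          Nat.dvd_gcd (Nat.minFac_dvd _) h4
        rw [(hB 𝔤 hBg).2] at h5
        exact h1.one_lt.ne' (Nat.dvd_one.1 h5)
      · rw [hM]
        have := Finset.single_le_sum (f := fun 𝔤 : Ideal (𝓞 F) => (Ideal.absNorm 𝔤).minFac)
          (fun _ _ => Nat.zero_le _) h
        omega
    calc ∑ 𝔤 ∈ B1, (1 : ℝ) / Ideal.absNorm 𝔤
        ≤ ∑ 𝔤 ∈ B1, (((Ideal.absNorm 𝔤).minFac : ℝ) ^ 2)⁻¹ := by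
          refine Finset.sum_le_sum fun 𝔤 h => ?_
          obtain ⟨h1, h2, h3⟩ := ba_k12 𝔤 (hB1k 𝔤 h)
          rw [one_div]
          have h5 : (0 : ℝ) < ((Ideal.absNorm 𝔤).minFac : ℝ) ^ 2 := by
            have : (0 : ℝ) < ((Ideal.absNorm 𝔤).minFac : ℝ) := by exact_mod_cast h1.pos
            positivity
          apply inv_anti₀ h5
          exact_mod_cast h2
      _ = ∑ p ∈ Finset.Ioc z M, ∑ 𝔤 ∈ B1.filter (fun 𝔤 => (Ideal.absNorm 𝔤).minFac = p),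
          (((Ideal.absNorm 𝔤).minFac : ℝ) ^ 2)⁻¹ :=
          (Finset.sum_fiberwise_of_maps_to hmaps _).symm
      _ ≤ ∑ p ∈ Finset.Ioc z M, ((n : ℝ) + n ^ 2) * ((p : ℝ) ^ 2)⁻¹ := by
          refine Finset.sum_le_sum fun p _ => ?_
          have h1 : ∑ 𝔤 ∈ B1.filter (fun 𝔤 => (Ideal.absNorm 𝔤).minFac = p),
              (((Ideal.absNorm 𝔤).minFac : ℝ) ^ 2)⁻¹ =
              ∑ 𝔤 ∈ B1.filter (fun 𝔤 => (Ideal.absNorm 𝔤).minFac = p), ((p : ℝ) ^ 2)⁻¹ := by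
            refine Finset.sum_congr rfl fun 𝔤 h => ?_
            rw [(Finset.mem_filter.1 h).2]
          rw [h1, Finset.sum_const, nsmul_eq_mul]
          refine mul_le_mul_of_nonneg_right ?_ (by positivity)
          exact_mod_cast ba_fib12 n hn B1 hB1k p
      _ = ((n : ℝ) + n ^ 2) * ∑ p ∈ Finset.Ioc z M, ((p : ℝ) ^ 2)⁻¹ := by rw [Finset.mul_sum]
      _ ≤ ((n : ℝ) + n ^ 2) * (z : ℝ)⁻¹ := by
          refine mul_le_mul_of_nonneg_left ?_ (by positivity)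
          have h1 := sum_Ioc_inv_sq_le_sub (α := ℝ) hz.ne' (by omega : z ≤ M)
          have h2 : (0 : ℝ) ≤ (M : ℝ)⁻¹ := by positivity
          linarith
      _ ≤ ((n : ℝ) + n ^ 2 + 1) / z := by
          rw [div_eq_mul_inv]
          refine mul_le_mul_of_nonneg_right ?_ (by positivity)
          linarith
  · obtain ⟨B2, hB2⟩ : ∃ B2, B2 = B.filter (fun 𝔤 => ¬ K12 𝔤) := ⟨_, rfl⟩
    rw [← hB2]
    have hB2k : ∀ 𝔤 ∈ B2, 𝔤.IsPrime ∧ (Ideal.absNorm 𝔤).Prime ∧ Ideal.absNorm 𝔤 ∈ T := by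
      intro 𝔤 h
      rw [hB2, Finset.mem_filter] at h
      exact ba_third T 𝔤 (hB 𝔤 h.1).1 h.2
    calc ∑ 𝔤 ∈ B2, (1 : ℝ) / Ideal.absNorm 𝔤
        = ∑ p ∈ T, ∑ 𝔤 ∈ B2.filter (fun 𝔤 => Ideal.absNorm 𝔤 = p), (1 : ℝ) / Ideal.absNorm 𝔤 :=
          (Finset.sum_fiberwise_of_maps_to (fun 𝔤 h => (hB2k 𝔤 h).2.2) _).symm
      _ ≤ ∑ p ∈ T, (n : ℝ) * (1 / p) := by
          refine Finset.sum_le_sum fun p hp => ?_
          have h1 : ∑ 𝔤 ∈ B2.filter (fun 𝔤 => Ideal.absNorm 𝔤 = p), (1 : ℝ) / Ideal.absNorm 𝔤 =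
              ∑ 𝔤 ∈ B2.filter (fun 𝔤 => Ideal.absNorm 𝔤 = p), (1 : ℝ) / p := by
            refine Finset.sum_congr rfl fun 𝔤 h => ?_
            rw [(Finset.mem_filter.1 h).2]
          rw [h1, Finset.sum_const, nsmul_eq_mul]
          refine mul_le_mul_of_nonneg_right ?_ (by positivity)
          exact_mod_cast ba_fib3 n hn B2 (fun 𝔤 h => (hB2k 𝔤 h).1) p (hT p hp)
      _ = n * ∑ p ∈ T, (1 : ℝ) / p := by rw [Finset.mul_sum]

theorem bad_count (n : ℕ) : ∃ C : ℝ, 1 ≤ C ∧ ∀ (F : Type) [Field F] [NumberField F],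
    Module.finrank ℚ F = n → ∀ T : Finset ℕ, (∀ p ∈ T, p.Prime) → ∀ Y : ℝ, 1 ≤ Y →
      ∀ B : Finset (Ideal (𝓞 F)), (∀ 𝔤 ∈ B, Bad F T 𝔤 ∧ (Ideal.absNorm 𝔤 : ℝ) ≤ Y) →
        (B.card : ℝ) ≤ C * Real.sqrt Y + n * T.card := by
  classical
  refine ⟨(n : ℝ) + n ^ 2 + 1, by have : (0 : ℝ) ≤ (n : ℝ) + n ^ 2 := by positivity
                                  linarith, ?_⟩
  intro F _ _ hn T hT Y hY B hB
  have hsplit : B.card = (B.filter (fun 𝔤 => K12 𝔤)).card +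
      (B.filter (fun 𝔤 => ¬ K12 𝔤)).card := (Finset.card_filter_add_card_filter_not _).symm
  rw [hsplit]
  push_cast
  apply add_le_add
  · obtain ⟨B1, hB1⟩ : ∃ B1, B1 = B.filter (fun 𝔤 => K12 𝔤) := ⟨_, rfl⟩
    rw [← hB1]
    have hB1k : ∀ 𝔤 ∈ B1, K12 𝔤 := by
      intro 𝔤 h
      rw [hB1, Finset.mem_filter] at h
      exact h.2
    have hmaps : ∀ 𝔤 ∈ B1, (Ideal.absNorm 𝔤).minFac ∈ Finset.Ioc 0 ⌊Real.sqrt Y⌋₊ := by
      intro 𝔤 h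
      obtain ⟨h1, h2, h3⟩ := ba_k12 𝔤 (hB1k 𝔤 h)
      have hBg : 𝔤 ∈ B := by
        rw [hB1, Finset.mem_filter] at h
        exact h.1
      rw [Finset.mem_Ioc]
      refine ⟨h1.pos, Nat.le_floor ?_⟩
      apply Real.le_sqrt_of_sq_le
      have h4 : (((Ideal.absNorm 𝔤).minFac ^ 2 : ℕ) : ℝ) ≤ Ideal.absNorm 𝔤 := by
        exact_mod_cast h2
      push_cast at h4
      exact h4.trans (hB 𝔤 hBg).2
    have h1 : B1.card ≤ ∑ p ∈ Finset.Ioc 0 ⌊Real.sqrt Y⌋₊, (n + n ^ 2) := by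
      rw [Finset.card_eq_sum_card_fiberwise hmaps]
      exact Finset.sum_le_sum fun p _ => ba_fib12 n hn B1 hB1k p
    rw [Finset.sum_const, Nat.card_Ioc, smul_eq_mul, Nat.sub_zero] at h1
    have h2 : ((⌊Real.sqrt Y⌋₊ : ℕ) : ℝ) ≤ Real.sqrt Y := Nat.floor_le (Real.sqrt_nonneg Y)
    calc (B1.card : ℝ) ≤ ((⌊Real.sqrt Y⌋₊ * (n + n ^ 2) : ℕ) : ℝ) := by exact_mod_cast h1
      _ = (⌊Real.sqrt Y⌋₊ : ℝ) * (n + n ^ 2) := by push_cast; ring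
      _ ≤ Real.sqrt Y * (n + n ^ 2) := by gcongr
      _ ≤ ((n : ℝ) + n ^ 2 + 1) * Real.sqrt Y := by
          have := Real.sqrt_nonneg Y
          nlinarith
  · obtain ⟨B2, hB2⟩ : ∃ B2, B2 = B.filter (fun 𝔤 => ¬ K12 𝔤) := ⟨_, rfl⟩
    rw [← hB2]
    have hB2k : ∀ 𝔤 ∈ B2, 𝔤.IsPrime ∧ (Ideal.absNorm 𝔤).Prime ∧ Ideal.absNorm 𝔤 ∈ T := by
      intro 𝔤 h
      rw [hB2, Finset.mem_filter] at h
      exact ba_third T 𝔤 (hB 𝔤 h.1).1 h.2
    have h1 : B2.card ≤ ∑ p ∈ T, n := by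
      rw [Finset.card_eq_sum_card_fiberwise (fun 𝔤 h => (hB2k 𝔤 h).2.2)]
      exact Finset.sum_le_sum fun p hp => ba_fib3 n hn B2 (fun 𝔤 h => (hB2k 𝔤 h).1) p (hT p hp)
    rw [Finset.sum_const, smul_eq_mul] at h1
    calc (B2.card : ℝ) ≤ ((T.card * n : ℕ) : ℝ) := by exact_mod_cast h1
      _ = n * T.card := by push_cast; ring

end H36.QA
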