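import Pool.Agent.H36.QA.NDefs
import Pool.Agent.H38.ML.ClsRep
import Pool.Agent.H38.ML.UnrFin

/-!
# [H36 QA BDE] Generators for the places of prime norm (60-100 lines)

`R` from `exists_classRep E`.  `Sb = S₀ ∪ {v | some prime of E above v contains some J ∈ R}`, finite by
`finite_primes_below K E (∏ J ∈ R)` (or for every `J`).  `S = {v : Pl E | v.under ∈ Sb}` is finite:
only finitely many primes of `E` above every prime of `K` (for `v₀ ≠ ⊥`; use e.g. that they divide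
`v₀ 𝓞E`, `Ideal.finite_factors`-type results, or `ov_finite` in `Pool/Agent/H38/TD/ValG.lean`; `Sb` may
contain `⊥`, but no place of `E` lies above `⊥`).  `π v ≠ 0` with `(π v) = v * J_v`, `J_v ∈ R`.
`ordAt_of_span_mul` computes the orders: `J_v` is only divisible by primes above `Sb`.
The last claim: `Unr`, 2 and 3 are covered if `S₀` contains the finite sets `finite_not_unr K M₀` and
the primes containing `6` (`finite_primes_below K K (span {6})`).
-/

open scoped NumberField Pointwise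
open H38.ML H38.TD

noncomputable section

namespace H36.QA

theorem bde (K E : Type) [Field K] [NumberField K] [Field E] [NumberField E] [Algebra K E]
    (S₀ : Set (Ideal (𝓞 K))) (hS₀ : S₀.Finite) :
    ∃ Sb : Set (Ideal (𝓞 K)), Sb.Finite ∧ S₀ ⊆ Sb ∧ Nonempty (BD K E Sb) := by
  classical
  obtain ⟨R, hR, hR2⟩ := exists_classRep E
  obtain ⟨Sb, hSb⟩ : ∃ Sb : Set (Ideal (𝓞 K)), Sb = S₀ ∪ ⋃ J ∈ (R : Set (Ideal (𝓞 E))),
      {v : Ideal (𝓞 K) | ∃ Q : Ideal (𝓞 E), Q.IsPrime ∧ J ≤ Q ∧ Q.under (𝓞 K) = v} := ⟨_, rfl⟩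
  have hfin : Sb.Finite := by
    rw [hSb]
    refine hS₀.union (Set.Finite.biUnion R.finite_toSet fun J hJ => ?_)
    exact finite_primes_below K E J (hR J hJ)
  have hJ : ∀ J ∈ R, ∀ Q : Ideal (𝓞 E), Q.IsPrime → Q.under (𝓞 K) ∉ Sb →
      Multiset.count Q (UniqueFactorizationMonoid.normalizedFactors J) = 0 := by
    intro J hJR Q hQ hQS
    rw [Multiset.count_eq_zero]
    intro hmem
    apply hQS
    rw [hSb]
    refine Or.inr (Set.mem_biUnion (Finset.mem_coe.2 hJR) ?_)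
    exact ⟨Q, hQ, Ideal.dvd_iff_le.1
      (UniqueFactorizationMonoid.dvd_of_mem_normalizedFactors hmem), rfl⟩
  have hself : ∀ v : Pl E, UniqueFactorizationMonoid.normalizedFactors v.asIdeal = {v.asIdeal} := by
    intro v
    rw [UniqueFactorizationMonoid.normalizedFactors_irreducible v.irreducible, normalize_eq]
  have hS : {v : Pl E | v.asIdeal.under (𝓞 K) ∈ Sb}.Finite := by
    have h1 : ∀ w ∈ Sb, {v : Pl E | v.asIdeal.under (𝓞 K) = w}.Finite := by
      intro w _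
      by_cases hex : ∃ v : Pl E, v.asIdeal.under (𝓞 K) = w
      · obtain ⟨v₀, hv₀⟩ := hex
        have hp₀ := v₀.isPrime
        have hwp : w.IsPrime := by
          rw [← hv₀]
          infer_instance
        have hw0 : w ≠ ⊥ := by
          intro h
          apply v₀.ne_bot
          exact Ideal.eq_bot_of_comap_eq_bot (R := 𝓞 K) (hv₀.trans h)
        exact ov_finite (M := E) (⟨w, hwp, hw0⟩ : Pl K)
      · refine Set.Finite.subset Set.finite_empty ?_
        intro v hv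
        exact absurd ⟨v, hv⟩ hex
    refine (Set.Finite.biUnion hfin h1).subset ?_
    intro v hv
    exact Set.mem_biUnion hv rfl
  choose Jf hJf xf hxf0 hxf using hR2
  refine ⟨Sb, hfin, ?_, ⟨{
    S := {v : Pl E | v.asIdeal.under (𝓞 K) ∈ Sb}
    hS := hS
    hSb := fun v => Iff.rfl
    π := fun v => xf v.1.asIdeal v.1.ne_bot
    π0 := fun v => hxf0 _ _
    πv := ?_
    πw := ?_ }⟩⟩
  · rw [hSb]
    exact Set.subset_union_left
  · intro v
    have hp := v.1.isPrime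
    rw [ordAt_of_span_mul v.1.asIdeal v.1.asIdeal (Jf _ v.1.ne_bot) v.1.ne_bot
      (hR _ (hJf _ _)) (hxf _ _), hself, Multiset.count_singleton_self,
      hJ _ (hJf _ _) _ hp v.2.1]
  · intro v V hV hV0 hVS hVv
    rw [ordAt_of_span_mul V v.1.asIdeal (Jf _ v.1.ne_bot) v.1.ne_bot
      (hR _ (hJf _ _)) (hxf _ _), hself, hJ _ (hJf _ _) _ hV hVS, Multiset.count_singleton,
      if_neg hVv]

theorem exists_sbOK (K M₀ : Type) [Field K] [NumberField K] [Field M₀] [NumberField M₀]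
    [Algebra K M₀] [IsGalois K M₀] :
    ∃ S₀ : Set (Ideal (𝓞 K)), S₀.Finite ∧
      ∀ Sb : Set (Ideal (𝓞 K)), S₀ ⊆ Sb → SbOK (M₀ := M₀) Sb := by
  have h6 : Ideal.span {((6 : ℕ) : 𝓞 K)} ≠ (⊥ : Ideal (𝓞 K)) := by
    rw [Ne, Ideal.span_singleton_eq_bot]
    exact_mod_cast (by norm_num : (6 : ℕ) ≠ 0)
  refine ⟨{v : Ideal (𝓞 K) | v.IsPrime ∧ v ≠ ⊥ ∧ ¬ Unr K M₀ v} ∪
    {v : Ideal (𝓞 K) | ∃ Q : Ideal (𝓞 K), Q.IsPrime ∧ Ideal.span {((6 : ℕ) : 𝓞 K)} ≤ Q ∧
      Q.under (𝓞 K) = v}, (finite_not_unr K M₀).union (finite_primes_below K K _ h6), ?_⟩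
  intro Sb hSb v hv hv0 hvS
  have hnot : ∀ n : ℕ, n ∣ 6 → ((n : ℕ) : 𝓞 K) ∉ v := by
    intro n hn hmem
    apply hvS
    apply hSb
    refine Or.inr ⟨v, hv, ?_, ?_⟩
    · rw [Ideal.span_singleton_le_iff_mem]
      obtain ⟨k, hk⟩ := hn
      rw [hk, Nat.cast_mul]
      exact v.mul_mem_right _ hmem
    · ext x
      simp [Ideal.mem_comap, Ideal.under]
  refine ⟨?_, hnot 2 (by norm_num), hnot 3 (by norm_num)⟩
  by_contra hU
  exact hvS (hSb (Or.inl ⟨hv, hv0, hU⟩))

end H36.QA
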