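import Mathlib

/-!
# [H36 QA CR] Counting the points of a shifted lattice (two theorems, 60-110 lines, only Mathlib)

`L` a countable subgroup of `V` with fundamental domain `D`, such that every point of `V` is within
`R` of `L`.

Unfolding: for measurable `S`: `∫⁻ y in D, (∑' l : L, S.indicator 1 (l + y)) = μ S`
(`MeasureTheory.IsAddFundamentalDomain.lintegral_eq_tsum` and variants, or `measure_eq_tsum`;
`lintegral_tsum`).

`cr_lower`: for `y ∈ V` choose `l_y ∈ L` with `‖(y - v) - l_y‖ ≤ R`.  The map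
`x ↦ x - ((y - v) - l_y)` is injective from `{x | x - y ∈ L, x ∈ S'}` to `{x | x - v ∈ L, x ∈ S}`.  So
`∑' l : L, S'.indicator 1 (l + y) ≤ N` for every `y`, `N` the number in the statement, and integration
over `D` gives the claim.
`cr_upper`: the map `x ↦ x + ((y - v) - l_y)` is injective from `P` to `{x | x - y ∈ L, x ∈ S''}`, so
`card P ≤ ∑' l : L, S''.indicator 1 (l + y)` for every `y`; integrate over `D`.
-/

open MeasureTheory

namespace H36.QA

/-- unfolding of the measure of a measurable set over the fundamental domain -/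
theorem cr_unfold {V : Type} [NormedAddCommGroup V] [MeasurableSpace V] [BorelSpace V]
    (μ : Measure V) [μ.IsAddLeftInvariant] (L : AddSubgroup V) [Countable L] (D : Set V)
    (hD : IsAddFundamentalDomain L D μ) (S : Set V) (hS : MeasurableSet S) :
    μ S = ∫⁻ y in D, (∑' l : L, S.indicator (fun _ => (1 : ENNReal)) ((l : V) + y)) ∂μ := by
  have h1 : μ S = ∫⁻ x, S.indicator (fun _ => (1 : ENNReal)) x ∂μ := by
    rw [lintegral_indicator hS]
    simp
  rw [h1, hD.lintegral_eq_tsum'', lintegral_tsum]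
  · rfl
  · intro l
    exact ((measurable_const.indicator hS).comp (measurable_const_add (l : V))).aemeasurable

theorem cr_lower {V : Type} [NormedAddCommGroup V] [MeasurableSpace V] [BorelSpace V]
    (μ : Measure V) [μ.IsAddLeftInvariant] (L : AddSubgroup V) [Countable L] (D : Set V)
    (hD : IsAddFundamentalDomain L D μ) (hDfin : μ D ≠ ⊤) (R : ℝ)
    (hR : ∀ x : V, ∃ l ∈ L, ‖x - l‖ ≤ R) (v : V) (S S' : Set V) (hS' : MeasurableSet S')
    (h : ∀ x ∈ S', ∀ y : V, ‖y‖ ≤ R → x + y ∈ S) (hfin : {x : V | x - v ∈ L ∧ x ∈ S}.Finite) :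
    μ S' ≤ ({x : V | x - v ∈ L ∧ x ∈ S}.ncard : ENNReal) * μ D := by
  classical
  set N := {x : V | x - v ∈ L ∧ x ∈ S}.ncard with hN
  rw [cr_unfold μ L D hD S' hS']
  have key : ∀ y : V, (∑' l : L, S'.indicator (fun _ => (1 : ENNReal)) ((l : V) + y)) ≤ N := by
    intro y
    obtain ⟨ly, hly, hn⟩ := hR (y - v)
    rw [ENNReal.tsum_eq_iSup_sum]
    apply iSup_le
    intro s
    have h1 : ∑ l ∈ s, S'.indicator (fun _ => (1 : ENNReal)) ((l : V) + y) =
        ((s.filter (fun l : L => (l : V) + y ∈ S')).card : ENNReal) := by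
      rw [Finset.card_filter]
      push_cast
      apply Finset.sum_congr rfl
      intro l _
      by_cases hl : (l : V) + y ∈ S'
      · rw [Set.indicator_of_mem hl, if_pos hl]
      · rw [Set.indicator_of_notMem hl, if_neg hl]
    rw [h1]
    have h2 : (s.filter (fun l : L => (l : V) + y ∈ S')).card ≤ N := by
      rw [hN, Set.ncard_eq_toFinset_card _ hfin]
      apply Finset.card_le_card_of_injOn (fun l : L => (l : V) + y + -((y - v) - ly))
      · intro l hl
        rw [Finset.mem_coe, Finset.mem_filter] at hl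
        rw [Finset.mem_coe, Set.Finite.mem_toFinset]
        refine ⟨?_, h _ hl.2 _ (by rwa [norm_neg])⟩
        have : (l : V) + y + -((y - v) - ly) - v = (l : V) + ly := by abel
        rw [this]
        exact L.add_mem l.2 hly
      · intro l _ l' _ hll
        have hll' : (l : V) + y + -((y - v) - ly) = (l' : V) + y + -((y - v) - ly) := hll
        exact Subtype.ext (add_right_cancel (add_right_cancel hll'))
    exact_mod_cast h2
  calc ∫⁻ y in D, (∑' l : L, S'.indicator (fun _ => (1 : ENNReal)) ((l : V) + y)) ∂μ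
      ≤ ∫⁻ _ in D, (N : ENNReal) ∂μ := lintegral_mono (fun y => key y)
    _ = (N : ENNReal) * μ D := by
        rw [lintegral_const, Measure.restrict_apply_univ]

theorem cr_upper {V : Type} [NormedAddCommGroup V] [MeasurableSpace V] [BorelSpace V]
    (μ : Measure V) [μ.IsAddLeftInvariant] (L : AddSubgroup V) [Countable L] (D : Set V)
    (hD : IsAddFundamentalDomain L D μ) (R : ℝ)
    (hR : ∀ x : V, ∃ l ∈ L, ‖x - l‖ ≤ R) (v : V) (S S'' : Set V) (hS'' : MeasurableSet S'')
    (h : ∀ x ∈ S, ∀ y : V, ‖y‖ ≤ R → x + y ∈ S'') (P : Finset V)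
    (hP : ∀ x ∈ P, x - v ∈ L ∧ x ∈ S) :
    (P.card : ENNReal) * μ D ≤ μ S'' := by
  classical
  rw [cr_unfold μ L D hD S'' hS'']
  have key : ∀ y : V, (P.card : ENNReal) ≤
      (∑' l : L, S''.indicator (fun _ => (1 : ENNReal)) ((l : V) + y)) := by
    intro y
    obtain ⟨ly, hly, hn⟩ := hR (y - v)
    have hmem : ∀ x ∈ P, x - v - ly ∈ L := fun x hx => L.sub_mem (hP x hx).1 hly
    have h1 : (P.card : ENNReal) =
        ∑ x ∈ P.attach, S''.indicator (fun _ => (1 : ENNReal))
          (((⟨x.1 - v - ly, hmem x.1 x.2⟩ : L) : V) + y) := by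
      have : ∀ x ∈ P.attach, S''.indicator (fun _ => (1 : ENNReal))
          (((⟨x.1 - v - ly, hmem x.1 x.2⟩ : L) : V) + y) = 1 := by
        intro x _
        apply Set.indicator_of_mem
        have : ((⟨x.1 - v - ly, hmem x.1 x.2⟩ : L) : V) + y = x.1 + ((y - v) - ly) := by
          show x.1 - v - ly + y = x.1 + ((y - v) - ly)
          abel
        rw [this]
        exact h _ (hP x.1 x.2).2 _ hn
      rw [Finset.sum_congr rfl this, Finset.sum_const, Finset.card_attach, nsmul_eq_mul, mul_one]
    rw [h1]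
    have hinj : Function.Injective (fun x : {x // x ∈ P} => (⟨x.1 - v - ly, hmem x.1 x.2⟩ : L)) := by
      intro x x' hxx
      have : x.1 - v - ly = x'.1 - v - ly := congrArg Subtype.val hxx
      exact Subtype.ext (sub_left_injective (sub_left_injective this))
    have h2 : ∑ x ∈ P.attach, S''.indicator (fun _ => (1 : ENNReal))
          (((⟨x.1 - v - ly, hmem x.1 x.2⟩ : L) : V) + y) =
        ∑ l ∈ P.attach.image (fun x : {x // x ∈ P} => (⟨x.1 - v - ly, hmem x.1 x.2⟩ : L)),
          S''.indicator (fun _ => (1 : ENNReal)) ((l : V) + y) := by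
      rw [Finset.sum_image (fun a _ b _ hab => hinj hab)]
    rw [h2]
    exact ENNReal.sum_le_tsum _
  calc (P.card : ENNReal) * μ D = ∫⁻ _ in D, (P.card : ENNReal) ∂μ := by
        rw [lintegral_const, Measure.restrict_apply_univ]
    _ ≤ ∫⁻ y in D, (∑' l : L, S''.indicator (fun _ => (1 : ENNReal)) ((l : V) + y)) ∂μ :=
        lintegral_mono (fun y => key y)

end H36.QA
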