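import Pool.Agent.H36.QA.LL

/-!
# [H36 QA CLS] The elements of one square class with given conductor (40-80 lines)

`span {β₁} = I * 𝔟₁²`, `N(𝔟₁) > Z / 2`, `w β₁ ≤ s`.  For `β ∈ P`: `span {β} = I * 𝔟²`, and
`β β₁ = δ²` (`δ ∈ 𝓞 F`).  Then `span {δ}² = (I 𝔟 𝔟₁)²`, so `span {δ} = I 𝔟 𝔟₁` (ideals in a Dedekind
domain: `pow_left_injective`-type lemma, e.g. by `normalizedFactors`, or
`Ideal.span`/`associated` arguments; in the monoid of ideals `x ^ 2 = y ^ 2 → x = y`), so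
`δ ∈ I 𝔟₁`, and `w δ ≤ s` because `(w δ)² = w β w β₁ ≤ s²`.  `β` is determined by `δ` (`β = δ²/β₁`).
So `#P ≤` the number of such `δ`, by `ll_upper` (`𝔞 = I 𝔟₁`, `v = 0`)
`≤ C₁ s^n / (N(I) N(𝔟₁) √d)`.  Condition: `C₁ d^A N(I 𝔟₁) ≤ s^n`: `N(I 𝔟₁) = N(β₁)/N(𝔟₁) ≤
s^n / N(𝔟₁)` and `N(𝔟₁) ≥ Z/2 ≥ C₁ d^A`.  Finally `N(I 𝔟₁) = N(β₁)/N(𝔟₁) ≥ (s/2)^n / N 𝔟₁ ≥
(s/2)^n / Z`, which gives `#P ≤ C₁ 2^n Z / √d`.
-/

open scoped NumberField nonZeroDivisors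
open NumberField

noncomputable section

namespace H36.QA

theorem prod_sq_const (n : ℕ) (F : Type) [Field F] [NumberField F] (hF : TC F n) (s : ℝ) :
    ∏ _w : InfinitePlace F, s ^ 2 = s ^ n := by
  have := hF.1
  have h2 : ∀ w : InfinitePlace F, w.mult = 2 := fun w =>
    InfinitePlace.mult_isComplex ⟨w, IsTotallyComplex.isComplex w⟩
  have h3 := InfinitePlace.sum_mult_eq (K := F)
  simp only [h2, Finset.sum_const, smul_eq_mul] at h3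
  rw [Finset.prod_const, ← pow_mul, mul_comm, h3, hF.2]

theorem norm_le_of_places (n : ℕ) (F : Type) [Field F] [NumberField F] (hF : TC F n) (x : 𝓞 F)
    (s : ℝ) (h : ∀ w : InfinitePlace F, w (x : F) ≤ s) :
    (Ideal.absNorm (Ideal.span {x}) : ℝ) ≤ s ^ n := by
  rw [← prod_sq_eq_norm n F hF x, ← prod_sq_const n F hF s]
  refine Finset.prod_le_prod (fun w _ => sq_nonneg _) fun w _ => ?_
  exact pow_le_pow_left₀ (apply_nonneg w _) (h w) 2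

theorem le_norm_of_places (n : ℕ) (F : Type) [Field F] [NumberField F] (hF : TC F n) (x : 𝓞 F)
    (s : ℝ) (hs : 0 ≤ s) (h : ∀ w : InfinitePlace F, s ≤ w (x : F)) :
    s ^ n ≤ (Ideal.absNorm (Ideal.span {x}) : ℝ) := by
  rw [← prod_sq_eq_norm n F hF x, ← prod_sq_const n F hF s]
  refine Finset.prod_le_prod (fun w _ => sq_nonneg _) fun w _ => ?_
  exact pow_le_pow_left₀ hs (h w) 2

theorem ideal_sq_inj {F : Type} [Field F] [NumberField F] {x y : Ideal (𝓞 F)}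
    (h : x ^ 2 = y ^ 2) : x = y := by
  apply dvd_antisymm
  · exact (UniqueFactorizationMonoid.pow_dvd_pow_iff_dvd two_ne_zero).1 (dvd_of_eq h)
  · exact (UniqueFactorizationMonoid.pow_dvd_pow_iff_dvd two_ne_zero).1 (dvd_of_eq h.symm)

theorem mem_of_span_eq {F : Type} [Field F] [NumberField F] {x : 𝓞 F} {I 𝔟 𝔟₁ : Ideal (𝓞 F)}
    (h : Ideal.span {x} = I * 𝔟 * 𝔟₁) : x ∈ I * 𝔟₁ := by
  have h1 : x ∈ I * 𝔟 * 𝔟₁ := by
    rw [← h]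
    exact Ideal.mem_span_singleton_self x
  have h2 : I * 𝔟 * 𝔟₁ = I * 𝔟₁ * 𝔟 := by ring
  rw [h2] at h1
  exact (Ideal.mul_le_left : I * 𝔟₁ * 𝔟 ≤ I * 𝔟₁) h1

theorem span_sqrt {F : Type} [Field F] [NumberField F] {a b c : 𝓞 F} {I 𝔟 𝔟₁ : Ideal (𝓞 F)}
    (h : a * b = c * c) (ha : Ideal.span {a} = I * 𝔟 ^ 2) (hb : Ideal.span {b} = I * 𝔟₁ ^ 2) :
    Ideal.span {c} = I * 𝔟 * 𝔟₁ := by
  apply ideal_sq_inj
  rw [sq (Ideal.span {c}), Ideal.span_singleton_mul_span_singleton, ← h,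
    ← Ideal.span_singleton_mul_span_singleton, ha, hb]
  ring

theorem place_sqrt {F : Type} [Field F] [NumberField F] (w : InfinitePlace F) (a b c : F)
    (h : a * b = c * c) (s : ℝ) (hs : 0 ≤ s) (ha : w a ≤ s) (hb : w b ≤ s) : w c ≤ s := by
  have h1 : w c * w c = w a * w b := by
    rw [← map_mul, ← map_mul, h]
  have h2 : w a * w b ≤ s * s := mul_le_mul ha hb (apply_nonneg w _) hs
  rw [← h1] at h2
  exact nonneg_le_nonneg_of_sq_le_sq hs h2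

theorem cls_count (n : ℕ) (hn : 0 < n) : ∃ C : ℝ, 1 ≤ C ∧ ∃ A : ℕ,
    ∀ (F : Type) [Field F] [NumberField F], TC F n → ∀ (Z s : ℝ), C * dd F ^ A ≤ Z → 0 < s →
      ∀ (β₁ : 𝓞 F) (I 𝔟₁ : Ideal (𝓞 F)), β₁ ≠ 0 → Ideal.span {β₁} = I * 𝔟₁ ^ 2 →
        Z / 2 < (Ideal.absNorm 𝔟₁ : ℝ) → (Ideal.absNorm 𝔟₁ : ℝ) ≤ Z →
        (∀ w : InfinitePlace F, s / 2 < w (β₁ : F) ∧ w (β₁ : F) ≤ s) →
        ∀ P : Finset (𝓞 F), (∀ β ∈ P, β ≠ 0 ∧ IsSquare (β * β₁) ∧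
          (∃ 𝔟 : Ideal (𝓞 F), Ideal.span {β} = I * 𝔟 ^ 2) ∧
          ∀ w : InfinitePlace F, w (β : F) ≤ s) →
        (P.card : ℝ) ≤ C * Z / Real.sqrt (dd F) := by
  obtain ⟨C₁, hC₁, A, hll⟩ := ll_upper n hn
  have h2n : (1 : ℝ) ≤ 2 ^ n := one_le_pow₀ (by norm_num)
  refine ⟨2 ^ (n + 1) * C₁, ?_, A, ?_⟩
  · rw [pow_succ]; nlinarith
  intro F _ _ hF Z s hZ hs β₁ I 𝔟₁ hβ₁ hspan hb1 hb2 hw P hP
  have hdd := dd_pos F
  have hsq : 0 < Real.sqrt (dd F) := Real.sqrt_pos.2 hdd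
  have hddA : (1 : ℝ) ≤ dd F ^ A := one_le_pow₀ (one_le_dd F)
  -- nonzero ideals
  have hspan0 : Ideal.span {β₁} ≠ ⊥ := by
    rwa [Ne, Ideal.span_singleton_eq_bot]
  have hI0 : I ≠ ⊥ := by
    intro h0
    apply hspan0
    rw [hspan, h0, ← Ideal.zero_eq_bot, zero_mul]
  have hb0 : 𝔟₁ ≠ ⊥ := by
    intro h0
    apply hspan0
    rw [hspan, h0, ← Ideal.zero_eq_bot, zero_pow two_ne_zero, mul_zero]
  have ha0 : I * 𝔟₁ ≠ ⊥ := by
    rw [← Ideal.zero_eq_bot] at hI0 hb0 ⊢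
    exact mul_ne_zero hI0 hb0
  have hNa : 0 < (Ideal.absNorm (I * 𝔟₁) : ℝ) := by
    have : Ideal.absNorm (I * 𝔟₁) ≠ 0 := by
      rwa [Ne, Ideal.absNorm_eq_zero_iff]
    exact_mod_cast Nat.pos_of_ne_zero this
  have hNprod : (Ideal.absNorm (I * 𝔟₁) : ℝ) * Ideal.absNorm 𝔟₁ =
      Ideal.absNorm (Ideal.span {β₁}) := by
    rw [hspan]
    rw [map_mul, map_mul, map_pow]
    push_cast
    ring
  have hup := norm_le_of_places n F hF β₁ s (fun w => (hw w).2)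
  have hlo := le_norm_of_places n F hF β₁ (s / 2) (by positivity) (fun w => (hw w).1.le)
  -- the square roots
  have hδ : ∀ β, β ∈ P → ∃ δ : 𝓞 F, β * β₁ = δ * δ := fun β hβ => (hP β hβ).2.1
  choose! δ hδ using hδ
  have hinj : Set.InjOn δ (P : Set (𝓞 F)) := by
    intro β hβ β' hβ' h
    have h1 := hδ β hβ
    have h2 := hδ β' hβ'
    rw [h, ← h2] at h1
    exact mul_right_cancel₀ hβ₁ h1
  classical
  have hmem : ∀ x ∈ P.image δ, x - 0 ∈ I * 𝔟₁ ∧ ∀ w : InfinitePlace F, w (x : F) ≤ s := by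
    intro x hx
    rw [Finset.mem_image] at hx
    obtain ⟨β, hβ, rfl⟩ := hx
    obtain ⟨_, _, ⟨𝔟, hb⟩, hwβ⟩ := hP β hβ
    constructor
    · rw [sub_zero]
      exact mem_of_span_eq (span_sqrt (hδ β hβ) hb hspan)
    · intro w
      refine place_sqrt w (β : F) (β₁ : F) _ ?_ s hs.le (hwβ w) (hw w).2
      exact_mod_cast congrArg (fun z : 𝓞 F => (z : F)) (hδ β hβ)
  have hcond : C₁ * dd F ^ A * Ideal.absNorm (I * 𝔟₁) ≤ s ^ n := by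
    refine le_trans ?_ hup
    rw [← hNprod, mul_comm (Ideal.absNorm (I * 𝔟₁) : ℝ)]
    refine mul_le_mul_of_nonneg_right ?_ hNa.le
    have h1 : 2 ^ (n + 1) * C₁ * dd F ^ A ≤ Z := hZ
    have h3 : 2 * (C₁ * dd F ^ A) ≤ 2 ^ (n + 1) * C₁ * dd F ^ A := by
      have h4 : 0 ≤ C₁ * dd F ^ A := by positivity
      calc 2 * (C₁ * dd F ^ A) = 2 * 1 * (C₁ * dd F ^ A) := by ring
        _ ≤ 2 * 2 ^ n * (C₁ * dd F ^ A) := by gcongr
        _ = _ := by ring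
    linarith
  have hmain := hll F hF (I * 𝔟₁) ha0 0 s hs hcond (P.image δ) hmem
  rw [Finset.card_image_of_injOn hinj] at hmain
  rw [le_div_iff₀ hsq]
  have h5 : s ^ n ≤ 2 ^ n * Z * Ideal.absNorm (I * 𝔟₁) := by
    have h6 : s ^ n = 2 ^ n * (s / 2) ^ n := by
      rw [← mul_pow]; congr 1; ring
    rw [h6, mul_assoc]
    refine mul_le_mul_of_nonneg_left ?_ (by positivity)
    refine hlo.trans ?_
    rw [← hNprod, mul_comm]
    exact mul_le_mul_of_nonneg_right hb2 hNa.le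
  have h7 : (P.card : ℝ) * Real.sqrt (dd F) * Ideal.absNorm (I * 𝔟₁) ≤
      2 ^ n * C₁ * Z * Ideal.absNorm (I * 𝔟₁) := by
    calc (P.card : ℝ) * Real.sqrt (dd F) * Ideal.absNorm (I * 𝔟₁)
        = (P.card : ℝ) * (Ideal.absNorm (I * 𝔟₁) * Real.sqrt (dd F)) := by ring
      _ ≤ C₁ * s ^ n := hmain
      _ ≤ C₁ * (2 ^ n * Z * Ideal.absNorm (I * 𝔟₁)) := by gcongr
      _ = _ := by ring
  have h8 := le_of_mul_le_mul_right h7 hNa
  have hZ0 : 0 ≤ Z := le_trans (by positivity) hZ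
  calc (P.card : ℝ) * Real.sqrt (dd F) ≤ 2 ^ n * C₁ * Z := h8
    _ ≤ 2 ^ (n + 1) * C₁ * Z := by
        gcongr
        · norm_num
        · omega

end H36.QA
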