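import Mathlib

/-!
# [H36 QA CO] Cosets modulo `m 𝔟²` (three theorems, 70-120 lines, only Mathlib)

`co_exists`: let `Q₁, …, Q_k` be the primes containing `m` (finitely many; none if `m = 1`, then
`β₀ = 0`).  Choose `x_i ∈ 𝔟² ∏_{j ≠ i} Q_j` not in `𝔟² ∏_j Q_j` (strict inclusion) and let `β₀ = ∑ x_i`.
For `j ≠ i` `x_j ∈ 𝔟² Q_i`, and `x_i ∉ 𝔟² Q_i` (otherwise the coprime ideals `Q_i` and
`∏_{j≠i} Q_j` would both divide `(x_i)/𝔟²`).  (Any other proof, e.g. with the Chinese remainder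
theorem, is fine.)
`co_coprime`: if a prime `p` divides `m` and `N(I)` there is a prime ideal `Q ∣ I` with `p ∈ Q`
(`I = ∏ Q`, `N(I) = ∏ N(Q)`, `N(Q)` is a power of the prime below).  Then `β ∈ Q 𝔟²` and
`β - β₀ ∈ m 𝔟² ⊆ Q 𝔟²`, so `β₀ ∈ 𝔟² Q`, contradiction.
`co_inter`: `𝔤` and `(m)` are comaximal (`N(𝔤) ∈ 𝔤`, `Ideal.absNorm_mem`).  Write
`span {x} = 𝔟² * y`; cancel `𝔟²`: `𝔤 ∣ y`, `(m) ∣ y`, so `𝔤 * (m) ∣ y` (`IsCoprime.mul_dvd`).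
-/

open scoped NumberField

namespace H36.QA

/-- `β₀` generates `𝔟²` locally at the primes dividing `m`. -/
def CoP (F : Type) [Field F] [NumberField F] (m : ℕ) (𝔟 : Ideal (𝓞 F)) (β₀ : 𝓞 F) : Prop :=
  β₀ ∈ 𝔟 ^ 2 ∧ ∀ Q : Ideal (𝓞 F), Q.IsPrime → ((m : ℕ) : 𝓞 F) ∈ Q → β₀ ∉ 𝔟 ^ 2 * Q

theorem co_exists (F : Type) [Field F] [NumberField F] (m : ℕ) (hm : 0 < m)
    (𝔟 : Ideal (𝓞 F)) (h𝔟 : 𝔟 ≠ ⊥) : ∃ β₀ : 𝓞 F, CoP F m 𝔟 β₀ := by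
  have hb0 : 𝔟 ≠ 0 := by rwa [Ideal.zero_eq_bot]
  have hm0 : ((m : ℕ) : 𝓞 F) ≠ 0 := by exact_mod_cast hm.ne'
  have hs0 : Ideal.span {((m : ℕ) : 𝓞 F)} ≠ 0 := by
    rw [Ideal.zero_eq_bot, Ne, Ideal.span_singleton_eq_bot]
    exact hm0
  have h1 : Ideal.span {((m : ℕ) : 𝓞 F)} * 𝔟 ^ 2 ≤ 𝔟 ^ 2 := Ideal.mul_le_right
  have h2 : Ideal.span {((m : ℕ) : 𝓞 F)} * 𝔟 ^ 2 ≠ 0 := mul_ne_zero hs0 (pow_ne_zero 2 hb0)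
  obtain ⟨a, ha⟩ := IsDedekindDomain.exists_sup_span_eq h1 h2
  refine ⟨a, ?_, ?_⟩
  · rw [← ha]
    exact Ideal.mem_sup_right (Ideal.mem_span_singleton_self a)
  · intro Q hQ hmQ haQ
    have h3 : Ideal.span {a} ≤ 𝔟 ^ 2 * Q := (Ideal.span_singleton_le_iff_mem _).2 haQ
    have h4 : Ideal.span {((m : ℕ) : 𝓞 F)} * 𝔟 ^ 2 ≤ 𝔟 ^ 2 * Q := by
      rw [mul_comm]
      exact Ideal.mul_mono_right ((Ideal.span_singleton_le_iff_mem _).2 hmQ)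
    have h5 : 𝔟 ^ 2 ≤ 𝔟 ^ 2 * Q := by
      have := sup_le h4 h3
      rwa [ha] at this
    have h6 : 𝔟 ^ 2 * Q ∣ 𝔟 ^ 2 * 1 := by
      rw [mul_one]
      exact Ideal.dvd_iff_le.2 h5
    have h7 : Q ∣ 1 := (mul_dvd_mul_iff_left (pow_ne_zero 2 hb0)).1 h6
    have h8 : (1 : Ideal (𝓞 F)) ≤ Q := Ideal.dvd_iff_le.1 h7
    apply hQ.ne_top
    rw [Ideal.one_eq_top] at h8
    exact top_le_iff.1 h8

theorem co_coprime (F : Type) [Field F] [NumberField F] (m : ℕ) (𝔟 I : Ideal (𝓞 F)) (β₀ β : 𝓞 F)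
    (h₀ : CoP F m 𝔟 β₀) (hβ : β ≠ 0) (hI : Ideal.span {β} = I * 𝔟 ^ 2)
    (h : β - β₀ ∈ Ideal.span {((m : ℕ) : 𝓞 F)} * 𝔟 ^ 2) : (Ideal.absNorm I).Coprime m := by
  by_contra hc
  obtain ⟨p, hp, hpI, hpm⟩ := Nat.Prime.not_coprime_iff_dvd.1 hc
  obtain ⟨Q, hQ, hQp, hQI⟩ := Ideal.exists_isMaximal_dvd_of_dvd_absNorm' hp I hpI
  have hpQ : ((p : ℕ) : 𝓞 F) ∈ Q := by
    have h1 : ((p : ℕ) : ℤ) ∈ Q.under ℤ := by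
      rw [hQp]
      exact Ideal.mem_span_singleton_self _
    have h2 := Ideal.mem_comap.1 h1
    simpa using h2
  have hmQ : ((m : ℕ) : 𝓞 F) ∈ Q := by
    obtain ⟨k, rfl⟩ := hpm
    rw [Nat.cast_mul]
    exact Q.mul_mem_right _ hpQ
  apply h₀.2 Q hQ.isPrime hmQ
  have h3 : β ∈ 𝔟 ^ 2 * Q := by
    have h4 : β ∈ I * 𝔟 ^ 2 := by
      rw [← hI]
      exact Ideal.mem_span_singleton_self β
    rw [mul_comm]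
    exact Ideal.mul_mono_left (Ideal.dvd_iff_le.1 hQI) h4
  have h5 : β - β₀ ∈ 𝔟 ^ 2 * Q := by
    rw [mul_comm]
    exact Ideal.mul_mono_left ((Ideal.span_singleton_le_iff_mem _).2 hmQ) h
  have h6 := (𝔟 ^ 2 * Q).sub_mem h3 h5
  rwa [sub_sub_cancel] at h6

theorem co_inter (F : Type) [Field F] [NumberField F] (m : ℕ) (𝔟 𝔤 : Ideal (𝓞 F)) (h𝔟 : 𝔟 ≠ ⊥)
    (h𝔤 : (Ideal.absNorm 𝔤).Coprime m) (x : 𝓞 F) (h1 : x ∈ 𝔤 * 𝔟 ^ 2)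
    (h2 : x ∈ Ideal.span {((m : ℕ) : 𝓞 F)} * 𝔟 ^ 2) :
    x ∈ 𝔤 * (Ideal.span {((m : ℕ) : 𝓞 F)} * 𝔟 ^ 2) := by
  have hN : ((Ideal.absNorm 𝔤 : ℕ) : 𝓞 F) ∈ 𝔤 := Ideal.absNorm_mem 𝔤
  have hm : ((m : ℕ) : 𝓞 F) ∈ Ideal.span {((m : ℕ) : 𝓞 F)} := Ideal.mem_span_singleton_self _
  obtain ⟨a, b, hab⟩ := (Nat.isCoprime_iff_coprime.2 h𝔤)
  have hab' : ((a : ℤ) : 𝓞 F) * ((Ideal.absNorm 𝔤 : ℕ) : 𝓞 F) + ((b : ℤ) : 𝓞 F) * ((m : ℕ) : 𝓞 F) =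
      1 := by
    have := congrArg (fun z : ℤ => (z : 𝓞 F)) hab
    push_cast at this
    exact this
  have e1 : ((a : ℤ) : 𝓞 F) * ((Ideal.absNorm 𝔤 : ℕ) : 𝓞 F) * x ∈
      𝔤 * (Ideal.span {((m : ℕ) : 𝓞 F)} * 𝔟 ^ 2) :=
    Ideal.mul_mem_mul (𝔤.mul_mem_left _ hN) h2
  have e2 : ((b : ℤ) : 𝓞 F) * ((m : ℕ) : 𝓞 F) * x ∈
      𝔤 * (Ideal.span {((m : ℕ) : 𝓞 F)} * 𝔟 ^ 2) := by
    rw [mul_left_comm]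
    exact Ideal.mul_mem_mul (Ideal.mul_mem_left _ _ hm) h1
  have e3 := Ideal.add_mem _ e1 e2
  rw [← add_mul, hab', one_mul] at e3
  exact e3

end H36.QA
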