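import Pool.Agent.H36.QA.ADefs

/-!
# [H36 QA LATT] The lattice of an ideal and polydiscs (two theorems, 80-140 lines, only Mathlib)

`F` totally complex.  In `mixedSpace F = (real places → ℝ) × (complex places → ℂ)` the first factor is
a point (`IsTotallyComplex`: no real places).

`ideal_lattice`: `L` = the additive group of `mixedEmbedding.idealLattice F (FractionalIdeal.mk0 F 𝔞)`
(or `span ℤ (range (fractionalIdealLatticeBasis F I))`), `D` the fundamental domain of
`fractionalIdealLatticeBasis F I`, `I = FractionalIdeal.mk0 ..` as a unit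
(`ZSpan.isAddFundamentalDomain'`, `mem_span_fractionalIdealLatticeBasis`,
`volume_fundamentalDomain_fractionalIdealLatticeBasis`, `volume_fundamentalDomain_latticeBasis`:
it is `N 𝔞 * 2^(-r₂) * √|disc|`, and `finrank ℚ F = 2 r₂`, see `FractionalIdeal.coeIdeal_absNorm`,
`nrComplexPlaces`, `card_add_two_mul_card_eq_rank`; `n / 2 = r₂`).  `D` is bounded
(`ZSpan.fundamentalDomain_isBounded`), so every point is within some `R` of `L`.

`polydisc_volume`: as `convexBodyLT_volume` (centre `0`, open balls): `Measure.pi`, `volume` of a disc in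
`ℂ` is `π r²` (`Complex.volume_closedBall`), the product over the complex places, and
`∏ w : InfinitePlace F` is the product over the complex places because there are no real ones.
-/

open scoped NumberField nonZeroDivisors
open MeasureTheory NumberField

noncomputable section

namespace H36.QA

/-- The polydisc with centre `c` and radii `f`. -/
def PD (F : Type) [Field F] [NumberField F] (c : mixedEmbedding.mixedSpace F)
    (f : InfinitePlace F → ℝ) : Set (mixedEmbedding.mixedSpace F) :=
  {x | ∀ w : {w : InfinitePlace F // w.IsComplex}, ‖x.2 w - c.2 w‖ ≤ f w.1}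

theorem latt_isEmpty (n : ℕ) (F : Type) [Field F] [NumberField F] (hF : TC F n) :
    IsEmpty {w : InfinitePlace F // w.IsReal} := by
  have := hF.1
  exact ⟨fun w => InfinitePlace.not_isReal_iff_isComplex.mpr (IsTotallyComplex.isComplex w.1) w.2⟩

theorem latt_nrComplex (n : ℕ) (F : Type) [Field F] [NumberField F] (hF : TC F n) :
    InfinitePlace.nrComplexPlaces F = n / 2 := by
  have := hF.1
  have h1 := IsTotallyComplex.finrank F
  rw [hF.2] at h1
  omega

open Classical in
/-- products over all places and products over the complex places -/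
theorem latt_prod (n : ℕ) (F : Type) [Field F] [NumberField F] (hF : TC F n)
    (g : InfinitePlace F → ℝ) :
    ∏ w : {w : InfinitePlace F // w.IsComplex}, g w.1 = ∏ w : InfinitePlace F, g w := by
  have := hF.1
  apply Fintype.prod_bijective (fun w : {w : InfinitePlace F // w.IsComplex} => w.1)
  · constructor
    · exact Subtype.val_injective
    · intro w
      exact ⟨⟨w, IsTotallyComplex.isComplex w⟩, rfl⟩
  · intro w
    rfl

open Classical in
theorem polydisc_volume (n : ℕ) (F : Type) [Field F] [NumberField F] (hF : TC F n)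
    (c : mixedEmbedding.mixedSpace F) (f : InfinitePlace F → ℝ) (hf : ∀ w, 0 ≤ f w) :
    MeasurableSet (PD F c f) ∧
      volume (PD F c f) = ENNReal.ofReal (Real.pi ^ (n / 2) * ∏ w, f w ^ 2) := by
  have he := latt_isEmpty n F hF
  have hset : PD F c f = (Set.univ.pi (fun _ : {w : InfinitePlace F // w.IsReal} => Set.univ)) ×ˢ
      (Set.univ.pi (fun w : {w : InfinitePlace F // w.IsComplex} =>
        Metric.closedBall (c.2 w) (f w.1))) := by
    ext x
    constructor
    · intro hx
      refine ⟨fun w _ => Set.mem_univ _, fun w _ => ?_⟩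
      rw [Metric.mem_closedBall, dist_eq_norm]
      exact hx w
    · rintro ⟨_, hx⟩ w
      have := hx w (Set.mem_univ _)
      rwa [Metric.mem_closedBall, dist_eq_norm] at this
  rw [hset]
  constructor
  · exact MeasurableSet.prod (MeasurableSet.univ_pi (fun _ => MeasurableSet.univ))
      (MeasurableSet.univ_pi (fun _ => measurableSet_closedBall))
  · rw [Measure.volume_eq_prod, Measure.prod_prod, volume_pi, volume_pi, Measure.pi_pi,
      Measure.pi_pi, Finset.univ_eq_empty, Finset.prod_empty, one_mul]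
    have h1 : ∀ w : {w : InfinitePlace F // w.IsComplex},
        volume (Metric.closedBall (c.2 w) (f w.1)) = ENNReal.ofReal (Real.pi * f w.1 ^ 2) := by
      intro w
      rw [Complex.volume_closedBall, ENNReal.ofReal_mul Real.pi_pos.le, mul_comm,
        ENNReal.ofReal_pow (hf _)]
      congr 1
      rw [← ENNReal.ofReal_coe_nnreal, NNReal.coe_real_pi]
    rw [Finset.prod_congr rfl (fun w _ => h1 w), ← ENNReal.ofReal_prod_of_nonneg
      (fun w _ => mul_nonneg Real.pi_pos.le (sq_nonneg _)), Finset.prod_mul_distrib,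
      Finset.prod_const, latt_prod n F hF (fun w => f w ^ 2)]
    congr 3
    rw [Finset.card_univ, ← latt_nrComplex n F hF]

open Classical in
theorem ideal_lattice (n : ℕ) (F : Type) [Field F] [NumberField F] (hF : TC F n)
    (𝔞 : Ideal (𝓞 F)) (h𝔞 : 𝔞 ≠ ⊥) :
    ∃ (L : AddSubgroup (mixedEmbedding.mixedSpace F)) (D : Set (mixedEmbedding.mixedSpace F)),
      Countable L ∧ IsAddFundamentalDomain L D (volume : Measure (mixedEmbedding.mixedSpace F)) ∧
      volume D = ENNReal.ofReal (Ideal.absNorm 𝔞 * (1 / 2) ^ (n / 2) * Real.sqrt (dd F)) ∧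
      (∀ x, x ∈ L ↔ ∃ α ∈ 𝔞, mixedEmbedding F (α : F) = x) ∧
      ∃ R : ℝ, ∀ x, ∃ l ∈ L, ‖x - l‖ ≤ R := by
  set I : (FractionalIdeal (𝓞 F)⁰ F)ˣ :=
    FractionalIdeal.mk0 F ⟨𝔞, mem_nonZeroDivisors_iff_ne_zero.2 h𝔞⟩ with hI
  set b := mixedEmbedding.fractionalIdealLatticeBasis F I with hb
  refine ⟨(Submodule.span ℤ (Set.range b)).toAddSubgroup, ZSpan.fundamentalDomain b, ?_,
    ZSpan.isAddFundamentalDomain' b volume, ?_, ?_, ?_⟩
  · change Countable (Submodule.span ℤ (Set.range b))
    infer_instance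
  · rw [hb, mixedEmbedding.volume_fundamentalDomain_fractionalIdealLatticeBasis,
      mixedEmbedding.volume_fundamentalDomain_latticeBasis, hI, FractionalIdeal.coe_mk0,
      FractionalIdeal.coeIdeal_absNorm, latt_nrComplex n F hF]
    have e1 : ((2 : ENNReal)⁻¹) ^ (n / 2) = ENNReal.ofReal ((1 / 2) ^ (n / 2)) := by
      rw [ENNReal.ofReal_pow (by norm_num), one_div, ENNReal.ofReal_inv_of_pos (by norm_num)]
      norm_num
    have e2 : ((NNReal.sqrt ‖discr F‖₊ : NNReal) : ENNReal) = ENNReal.ofReal (Real.sqrt (dd F)) := by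
      rw [← ENNReal.ofReal_coe_nnreal, Real.coe_sqrt, coe_nnnorm, Int.norm_eq_abs]
      rfl
    rw [ENNReal.ofReal_mul (by positivity), ENNReal.ofReal_mul (by positivity), mul_assoc, e1, e2]
    norm_num
  · intro x
    rw [Submodule.mem_toAddSubgroup, hb, mixedEmbedding.mem_span_fractionalIdealLatticeBasis]
    constructor
    · rintro ⟨y, hy, rfl⟩
      rw [hI, FractionalIdeal.coe_mk0] at hy
      obtain ⟨α, hα, rfl⟩ := (FractionalIdeal.mem_coeIdeal (𝓞 F)⁰).1 hy
      exact ⟨α, hα, rfl⟩
    · rintro ⟨α, hα, rfl⟩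
      refine ⟨(α : F), ?_, rfl⟩
      rw [hI, FractionalIdeal.coe_mk0]
      exact (FractionalIdeal.mem_coeIdeal (𝓞 F)⁰).2 ⟨α, hα, rfl⟩
  · refine ⟨∑ i, ‖b i‖, fun x => ⟨(ZSpan.floor b x : mixedEmbedding.mixedSpace F), ?_, ?_⟩⟩
    · exact (ZSpan.floor b x).2
    · exact ZSpan.norm_fract_le b x

open Classical in
/-- In the totally complex case the norm of `mixedSpace F` is the largest absolute value at a complex
place. -/
theorem norm_le_iff_tc (n : ℕ) (F : Type) [Field F] [NumberField F] (hF : TC F n)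
    (x : mixedEmbedding.mixedSpace F) (r : ℝ) (hr : 0 ≤ r) :
    ‖x‖ ≤ r ↔ ∀ w : {w : InfinitePlace F // w.IsComplex}, ‖x.2 w‖ ≤ r := by
  have := hF.1
  have he : IsEmpty {w : InfinitePlace F // w.IsReal} :=
    ⟨fun w => InfinitePlace.not_isReal_iff_isComplex.mpr (IsTotallyComplex.isComplex w.1) w.2⟩
  rw [Prod.norm_def, sup_le_iff, pi_norm_le_iff_of_nonneg hr, pi_norm_le_iff_of_nonneg hr]
  exact ⟨fun h => h.2, fun h => ⟨fun w => (he.false w).elim, h⟩⟩

/-- The absolute value of the product of all places is the norm. -/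
theorem prod_sq_eq_norm (n : ℕ) (F : Type) [Field F] [NumberField F] (hF : TC F n) (x : 𝓞 F) :
    ∏ w : InfinitePlace F, (w (x : F)) ^ 2 = Ideal.absNorm (Ideal.span {x}) := by
  have := hF.1
  have h1 := InfinitePlace.prod_eq_abs_norm (x : F)
  have h2 : ∀ w : InfinitePlace F, w.mult = 2 := fun w =>
    InfinitePlace.mult_isComplex ⟨w, IsTotallyComplex.isComplex w⟩
  simp only [h2] at h1
  rw [h1, Ideal.absNorm_span_singleton]
  have h3 : Algebra.norm ℚ (x : F) = ((Algebra.norm ℤ x : ℤ) : ℚ) :=
    (Algebra.coe_norm_int x).symm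
  rw [h3]
  push_cast
  rw [Nat.cast_natAbs]
  push_cast
  rfl

end H36.QA
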