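import Pool.Agent.H36.QA.CR
import Pool.Agent.H36.QA.Latt

/-!
# [H36 QA EV] Elements of a fixed ideal in large unbalanced boxes (70-120 lines)

`F`, the ideal `𝔞` and the shape `f` are fixed, `t → ∞`.  `cr_lower` with `ideal_lattice` (its `R`),
`v = 0`, `S = {x | ∀ w, t f_w / √2 < ‖x.2 w‖ ≤ t f_w}`, `S' = PD c g` with `c_w = 0.85 t f_w`,
`g_w = 0.05 t f_w`; for `t` large `R ≤ 0.05 t f_w` for all `w`, and then `S' + ball R ⊆ S`
(`1/√2 < 0.71 < 0.75` and `0.95 ≤ 1`).  The volume of `S'` is `π^(n/2) (0.05 t)^n ∏ f_w²`.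
Finiteness of the set of lattice points in `S` (needed for `cr_lower`): `cr_upper` with
`S'' = PD 0 (2 t f)` (`R ≤ t f_w` for all `w`).
-/

open scoped NumberField nonZeroDivisors
open MeasureTheory NumberField

noncomputable section

namespace H36.QA

theorem ev_lower (n : ℕ) (hn : 0 < n) : ∃ c : ℝ, 0 < c ∧
    ∀ (F : Type) [Field F] [NumberField F], TC F n → ∀ 𝔞 : Ideal (𝓞 F), 𝔞 ≠ ⊥ →
      ∀ f : InfinitePlace F → ℝ, (∀ w, 0 < f w) → ∃ t₀ : ℝ, ∀ t : ℝ, t₀ ≤ t →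
        ∃ P : Finset (𝓞 F),
          (∀ x ∈ P, x ∈ 𝔞 ∧ ∀ w : InfinitePlace F,
            t * f w / Real.sqrt 2 < w (x : F) ∧ w (x : F) ≤ t * f w) ∧
          c * (t ^ n * ∏ w, f w ^ 2) ≤ (P.card : ℝ) * (Ideal.absNorm 𝔞 * Real.sqrt (dd F)) := by
  classical
  refine ⟨Real.pi ^ (n / 2) * (1 / 20) ^ n, by positivity, ?_⟩
  intro F _ _ hF 𝔞 h𝔞 f hf
  obtain ⟨L, D, hLc, hD, hDvol, hmem, R, hR⟩ := ideal_lattice n F hF 𝔞 h𝔞
  have hR0 : 0 ≤ R := by
    obtain ⟨l, -, hl⟩ := hR 0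
    exact (norm_nonneg _).trans hl
  have htc := hF.1
  have hmult : ∀ w : InfinitePlace F, w.mult = 2 := fun w =>
    InfinitePlace.mult_isComplex ⟨w, IsTotallyComplex.isComplex w⟩
  have hcardn : 2 * Fintype.card (InfinitePlace F) = n := by
    have h1 := InfinitePlace.sum_mult_eq (K := F)
    simp only [hmult] at h1
    rw [Finset.sum_const, Finset.card_univ, smul_eq_mul, hF.2] at h1
    omega
  refine ⟨max 1 (∑ w : InfinitePlace F, 20 * R / f w), ?_⟩
  intro t ht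
  have ht1 : 1 ≤ t := (le_max_left _ _).trans ht
  have ht0 : 0 < t := by linarith
  have hRt : ∀ w : InfinitePlace F, R ≤ t * f w / 20 := by
    intro w
    have h1 : 20 * R / f w ≤ t := by
      refine le_trans ?_ ((le_max_right _ _).trans ht)
      refine Finset.single_le_sum (f := fun w : InfinitePlace F => 20 * R / f w) ?_
        (Finset.mem_univ w)
      intro w _
      exact div_nonneg (by linarith) (hf w).le
    rw [div_le_iff₀ (hf w)] at h1
    linarith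
  have hsq2 : (0 : ℝ) < Real.sqrt 2 := Real.sqrt_pos.2 (by norm_num)
  have hsq : (4 / 3 : ℝ) < Real.sqrt 2 := by
    rw [Real.lt_sqrt (by norm_num)]
    norm_num
  set S : Set (mixedEmbedding.mixedSpace F) :=
    {x | ∀ w : {w : InfinitePlace F // w.IsComplex},
      t * f w.1 / Real.sqrt 2 < ‖x.2 w‖ ∧ ‖x.2 w‖ ≤ t * f w.1} with hS
  set c : mixedEmbedding.mixedSpace F := (0, fun w => ((17 / 20 * (t * f w.1) : ℝ) : ℂ)) with hc
  set g : InfinitePlace F → ℝ := fun w => t * f w / 20 with hg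
  have hg0 : ∀ w, 0 ≤ g w := fun w => by
    have := hf w
    rw [hg]
    positivity
  obtain ⟨hmeas, hvol⟩ := polydisc_volume n F hF c g hg0
  have hnorm : ∀ (α : F) (w : {w : InfinitePlace F // w.IsComplex}),
      ‖(mixedEmbedding F α).2 w‖ = w.1 α := by
    intro α w
    rw [mixedEmbedding.mixedEmbedding_apply_isComplex, InfinitePlace.norm_embedding_eq]
  have hfin : {x : mixedEmbedding.mixedSpace F | x - 0 ∈ L ∧ x ∈ S}.Finite := by
    have h1 := NumberField.Embeddings.finite_of_norm_le F ℂ (∑ w : InfinitePlace F, t * f w)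
    refine (h1.image (mixedEmbedding F)).subset ?_
    rintro x ⟨hx, hxS⟩
    rw [sub_zero] at hx
    obtain ⟨α, hα, rfl⟩ := (hmem x).1 hx
    refine ⟨(α : F), ⟨α.isIntegral_coe, ?_⟩, rfl⟩
    intro φ
    have h2 : ‖φ (α : F)‖ = (InfinitePlace.mk φ) (α : F) := rfl
    rw [h2]
    have h3 := (hxS ⟨InfinitePlace.mk φ, IsTotallyComplex.isComplex _⟩).2
    rw [hnorm] at h3
    refine h3.trans ?_
    refine Finset.single_le_sum (f := fun w : InfinitePlace F => t * f w) ?_ (Finset.mem_univ _)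
    intro w _
    exact mul_nonneg ht0.le (hf w).le
  have hkey : ∀ x ∈ PD F c g, ∀ y : mixedEmbedding.mixedSpace F, ‖y‖ ≤ R → x + y ∈ S := by
    intro x hx y hy w
    have hy2 : ‖y.2 w‖ ≤ t * f w.1 / 20 :=
      ((norm_le_iff_tc n F hF y ‖y‖ (norm_nonneg _)).1 le_rfl w).trans (hy.trans (hRt w.1))
    have hx2 : ‖x.2 w - ((17 / 20 * (t * f w.1) : ℝ) : ℂ)‖ ≤ t * f w.1 / 20 := hx w
    have htf : 0 < t * f w.1 := mul_pos ht0 (hf w.1)
    have hc2 : ‖((17 / 20 * (t * f w.1) : ℝ) : ℂ)‖ = 17 / 20 * (t * f w.1) := by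
      rw [Complex.norm_real, Real.norm_eq_abs, abs_of_pos (by positivity)]
    have hxy : (x + y).2 w = ((17 / 20 * (t * f w.1) : ℝ) : ℂ) +
        ((x.2 w - ((17 / 20 * (t * f w.1) : ℝ) : ℂ)) + y.2 w) := by
      have : (x + y).2 w = x.2 w + y.2 w := rfl
      rw [this]
      ring
    have h4 : ‖(x.2 w - ((17 / 20 * (t * f w.1) : ℝ) : ℂ)) + y.2 w‖ ≤ t * f w.1 / 10 := by
      refine (norm_add_le _ _).trans ?_
      linarith
    constructor
    · have h5 : 17 / 20 * (t * f w.1) - t * f w.1 / 10 ≤ ‖(x + y).2 w‖ := by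
        rw [hxy]
        have h6 := norm_sub_le (((17 / 20 * (t * f w.1) : ℝ) : ℂ) +
          ((x.2 w - ((17 / 20 * (t * f w.1) : ℝ) : ℂ)) + y.2 w))
          ((x.2 w - ((17 / 20 * (t * f w.1) : ℝ) : ℂ)) + y.2 w)
        rw [add_sub_cancel_right, hc2] at h6
        linarith
      refine lt_of_lt_of_le ?_ h5
      rw [div_lt_iff₀ hsq2]
      nlinarith
    · rw [hxy]
      refine (norm_add_le _ _).trans ?_
      rw [hc2]
      linarith
  have hDfin : volume D ≠ ⊤ := by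
    rw [hDvol]
    exact ENNReal.ofReal_ne_top
  have hmain := cr_lower volume L D hD hDfin R hR 0 S (PD F c g) hmeas hkey hfin
  rw [hvol, hDvol] at hmain
  set N : ℕ := {x : mixedEmbedding.mixedSpace F | x - 0 ∈ L ∧ x ∈ S}.ncard with hN
  have hreal : Real.pi ^ (n / 2) * ∏ w, g w ^ 2 ≤
      (N : ℝ) * (Ideal.absNorm 𝔞 * (1 / 2) ^ (n / 2) * Real.sqrt (dd F)) := by
    have h1 : ((N : ℕ) : ENNReal) = ENNReal.ofReal (N : ℝ) := by
      rw [ENNReal.ofReal_natCast]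
    rw [h1, ← ENNReal.ofReal_mul (Nat.cast_nonneg _)] at hmain
    exact (ENNReal.ofReal_le_ofReal_iff (by positivity)).1 hmain
  have hprod : ∏ w, g w ^ 2 = (1 / 20) ^ n * (t ^ n * ∏ w, f w ^ 2) := by
    have h1 : ∀ w, g w ^ 2 = (t / 20) ^ 2 * f w ^ 2 := fun w => by
      rw [hg]
      ring
    rw [Finset.prod_congr rfl (fun w _ => h1 w), Finset.prod_mul_distrib, Finset.prod_const,
      Finset.card_univ, ← pow_mul, hcardn, ← mul_assoc, ← mul_pow]
    congr 2
    ring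
  have hchoose : ∀ x : mixedEmbedding.mixedSpace F, ∃ α : 𝓞 F, x ∈ L →
      α ∈ 𝔞 ∧ mixedEmbedding F (α : F) = x := by
    intro x
    by_cases hx : x ∈ L
    · obtain ⟨α, h1, h2⟩ := (hmem x).1 hx
      exact ⟨α, fun _ => ⟨h1, h2⟩⟩
    · exact ⟨0, fun h => absurd h hx⟩
  choose e he using hchoose
  have hLmem : ∀ x ∈ hfin.toFinset, x ∈ L ∧ x ∈ S := by
    intro x hx
    have h1 := hfin.mem_toFinset.1 hx
    have h2 : x - 0 ∈ L := h1.1
    rw [sub_zero] at h2
    exact ⟨h2, h1.2⟩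
  refine ⟨hfin.toFinset.image e, ?_, ?_⟩
  · intro α hα
    obtain ⟨x, hx, rfl⟩ := Finset.mem_image.1 hα
    obtain ⟨hxL, hxS⟩ := hLmem x hx
    obtain ⟨h1, h2⟩ := he x hxL
    refine ⟨h1, ?_⟩
    intro w
    have h3 := hxS ⟨w, IsTotallyComplex.isComplex w⟩
    rw [← h2, hnorm] at h3
    exact h3
  · have hcard : (hfin.toFinset.image e).card = N := by
      rw [Finset.card_image_of_injOn, hN, Set.ncard_eq_toFinset_card _ hfin]
      intro x hx y hy hxy
      have h1 := (he x (hLmem x hx).1).2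
      have h2 := (he y (hLmem y hy).1).2
      have hxy' : e x = e y := hxy
      rw [← h1, ← h2, hxy']
    rw [hcard]
    rw [hprod] at hreal
    have h3 : ((1 : ℝ) / 2) ^ (n / 2) ≤ 1 := pow_le_one₀ (by norm_num) (by norm_num)
    have h4 : (N : ℝ) * (Ideal.absNorm 𝔞 * (1 / 2) ^ (n / 2) * Real.sqrt (dd F)) ≤
        (N : ℝ) * (Ideal.absNorm 𝔞 * Real.sqrt (dd F)) := by
      refine mul_le_mul_of_nonneg_left ?_ (Nat.cast_nonneg _)
      refine mul_le_mul_of_nonneg_right ?_ (Real.sqrt_nonneg _)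
      exact mul_le_of_le_one_right (Nat.cast_nonneg _) h3
    refine le_trans (le_of_eq ?_) (hreal.trans h4)
    ring

end H36.QA
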