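import Pool.Agent.H36.QA.FDefs

/-!
# [H36 QA FONE] Degrees (four theorems, 80-130 lines)

`f_rank`: `[F : K]` is the index of `d.D` in `Gal(M/K)`
(`IntermediateField.finrank_eq_fixingSubgroup_index`, `IntermediateField.fixingSubgroup_fixedField`).
The map `g ↦ (h i₀, t (h i₀))`, `e g = c t * hb h` (`erange`, `form_uniq`), induces a bijection
`Gal(M/K) ⧸ D → Fin m × Multiplicative (ZMod 3)`: `g⁻¹ g' ∈ D` iff the pairs agree
(`(c t hb h)⁻¹ c t' hb h' = c (fun i => (t⁻¹ t') (h i)) * hb (h⁻¹ h')` by `cH`, then `stab`), and it is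
surjective by `tr`.
`e_rank`: `ι` identifies `E` with the fixed field of `{g | Bk (e g)}` (`hι`); the map
`g ↦ h i₀` induces a bijection of the cosets with `Fin m`.  (`Bk` is a subgroup; the fixed field as an
`IntermediateField K M`; `finrank` is preserved by `E ≃ₐ[K]` its range.)
`f_rank3`: `m * [F : E] = 3 m`, `m > 0` (`i₀ : Fin m`); the algebra structure is `d.ιF.toAlgebra`, the
tower `K → E → F` commutes because `d.ι` is a `K`-algebra homomorphism.
`theta_ne`: there is `g` with `e g = c₀` (`erange`, `inU_c`); `g` fixes `ι y` (`hι`: `Bk c₀`,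
`c₀ = c (sg i₀) * hb 1`), but `g θ = ζ θ ≠ θ` (`hθ1`, `ζ ≠ 1`, `θ ≠ 0` because `a ≠ 0`).
-/

open scoped NumberField Pointwise
open H38.ML H38.TD

noncomputable section

namespace H36.QA

variable {K Ω : Type} [Field K] [NumberField K] [Field Ω] [Algebra K Ω] [IsAlgClosure K Ω]
  {m : ℕ} {H : Subgroup (Equiv.Perm (Fin m))} {Gp : Type} [Group Gp] {gd : GD m H Gp} {ζ : K}
  {E : Type} [Field E] [NumberField E] [Algebra K E] {Sb T : Set (Ideal (𝓞 K))} {a : 𝓞 E}

private theorem index_of_map {G X : Type} [Group G] (D : Subgroup G) (f : G → X)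
    (hs : Function.Surjective f) (hf : ∀ g g', f g = f g' ↔ g⁻¹ * g' ∈ D) :
    D.index = Nat.card X := by
  rw [Subgroup.index]
  refine Nat.card_eq_of_bijective (fun x : G ⧸ D => Quotient.liftOn' x f (by
    intro g h hgh
    exact (hf g h).2 (QuotientGroup.leftRel_apply.mp hgh))) ⟨?_, ?_⟩
  · intro x y
    induction x using Quotient.inductionOn' with
    | h g =>
      induction y using Quotient.inductionOn' with
      | h g' =>
        intro hxy
        exact Quotient.sound' (QuotientGroup.leftRel_apply.mpr ((hf g g').1 hxy))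
  · intro x
    obtain ⟨g, rfl⟩ := hs x
    exact ⟨Quotient.mk'' g, rfl⟩

private theorem inv_form (gd : GD m H Gp) (t t' : Fin m → Multiplicative (ZMod 3)) (h h' : H) :
    (gd.c t * gd.hb h)⁻¹ * (gd.c t' * gd.hb h') =
      gd.c (fun i => (t⁻¹ * t') ((h : Equiv.Perm (Fin m)) i)) * gd.hb (h⁻¹ * h') := by
  have h1 := gd.cH h⁻¹ (t⁻¹ * t')
  have h2 : (fun i => (t⁻¹ * t') (((h⁻¹ : H) : Equiv.Perm (Fin m))⁻¹ i)) =
      fun i => (t⁻¹ * t') ((h : Equiv.Perm (Fin m)) i) := by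
    rw [Subgroup.coe_inv, inv_inv]
  rw [h2] at h1
  rw [← h1, map_mul, map_mul, map_inv, map_inv]
  group

private theorem exists_form (d : L1D K Ω gd ζ E Sb T a) :
    ∃ (t : Gal(d.M/K) → Fin m → Multiplicative (ZMod 3)) (h : Gal(d.M/K) → H),
      ∀ g, d.e g = gd.c (t g) * gd.hb (h g) := by
  have h1 : ∀ g : Gal(d.M/K), gd.InU (d.e g) := fun g => (d.erange _).mp ⟨g, rfl⟩
  choose t h hth using h1
  exact ⟨t, h, hth⟩

theorem f_rank (d : L1D K Ω gd ζ E Sb T a) : Module.finrank K d.F = 3 * m := by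
  rw [IntermediateField.finrank_eq_fixingSubgroup_index,
    IntermediateField.fixingSubgroup_fixedField]
  obtain ⟨t, h, hth⟩ := exists_form d
  have h1 : Nat.card (Fin m × Multiplicative (ZMod 3)) = 3 * m := by
    rw [Nat.card_prod, Nat.card_eq_fintype_card, Fintype.card_fin, mul_comm]
    congr 1
    exact (Nat.card_zmod 3)
  rw [← h1]
  refine index_of_map d.D (fun g => ((h g : Equiv.Perm (Fin m)) gd.i₀,
    t g ((h g : Equiv.Perm (Fin m)) gd.i₀))) ?_ ?_
  · rintro ⟨i, z⟩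
    obtain ⟨h', hh'⟩ := gd.tr i
    obtain ⟨g, hg⟩ := (d.erange (gd.c (Pi.mulSingle i z) * gd.hb h')).mpr ⟨_, _, rfl⟩
    rw [hth] at hg
    obtain ⟨h2, h3⟩ := gd.form_uniq hg
    refine ⟨g, ?_⟩
    simp only [h2, h3, hh', Pi.mulSingle_eq_same]
  · intro g g'
    rw [d.mem_D, map_mul, map_inv, hth g, hth g', inv_form, gd.stab]
    simp only [Prod.mk.injEq, Pi.mul_apply, Pi.inv_apply, Subgroup.coe_mul, Subgroup.coe_inv,
      Equiv.Perm.mul_apply, Equiv.Perm.inv_eq_iff_eq, inv_mul_eq_one]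
    constructor
    · rintro ⟨h2, h3⟩
      rw [← h2] at h3
      exact ⟨h2.symm, h3⟩
    · rintro ⟨h2, h3⟩
      rw [h2]
      exact ⟨rfl, h3⟩

/-- The elements which stabilize the block. -/
private def B (d : L1D K Ω gd ζ E Sb T a) : Subgroup Gal(d.M/K) where
  carrier := {g | gd.Bk (d.e g)}
  mul_mem' := by
    rintro g g' ⟨t, h, e1, e2⟩ ⟨t', h', e3, e4⟩
    refine ⟨t * fun i => t' ((h : Equiv.Perm (Fin m))⁻¹ i), h * h', ?_, ?_⟩
    · rw [map_mul, e1, e3, gd.mul_form]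
    · rw [Subgroup.coe_mul, Equiv.Perm.mul_apply, e4, e2]
  one_mem' := ⟨1, 1, by rw [map_one, map_one, map_one, one_mul], rfl⟩
  inv_mem' := by
    rintro g ⟨t, h, e1, e2⟩
    refine ⟨fun i => (t⁻¹ * 1) ((h : Equiv.Perm (Fin m)) i), h⁻¹ * 1, ?_, ?_⟩
    · have h1 : (1 : Gp) = gd.c 1 * gd.hb 1 := by rw [map_one, map_one, one_mul]
      rw [map_inv, e1, ← inv_form, ← h1, mul_one]
    · rw [mul_one, Subgroup.coe_inv, Equiv.Perm.inv_eq_iff_eq, e2]

theorem e_rank (d : L1D K Ω gd ζ E Sb T a) : Module.finrank K E = m := by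
  have h0 : d.ι.fieldRange = IntermediateField.fixedField (B d) := by
    ext y
    rw [AlgHom.mem_fieldRange, IntermediateField.mem_fixedField_iff]
    exact (d.hι y).symm
  have h00 : Module.finrank K E = Module.finrank K d.ι.fieldRange :=
    LinearEquiv.finrank_eq (AlgEquiv.ofInjectiveField d.ι).toLinearEquiv
  rw [h00, h0, IntermediateField.finrank_eq_fixingSubgroup_index,
    IntermediateField.fixingSubgroup_fixedField]
  obtain ⟨t, h, hth⟩ := exists_form d
  have h1 : Nat.card (Fin m) = m := by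
    rw [Nat.card_eq_fintype_card, Fintype.card_fin]
  conv_rhs => rw [← h1]
  refine index_of_map (B d) (fun g => (h g : Equiv.Perm (Fin m)) gd.i₀) ?_ ?_
  · intro i
    obtain ⟨h', hh'⟩ := gd.tr i
    obtain ⟨g, hg⟩ := (d.erange (gd.c 1 * gd.hb h')).mpr ⟨_, _, rfl⟩
    rw [hth] at hg
    obtain ⟨h2, h3⟩ := gd.form_uniq hg
    refine ⟨g, ?_⟩
    simp only [h3, hh']
  · intro g g'
    have h2 : g⁻¹ * g' ∈ B d ↔ gd.Bk (d.e (g⁻¹ * g')) := Iff.rfl
    rw [h2, map_mul, map_inv, hth g, hth g', inv_form]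
    constructor
    · intro h3
      refine ⟨_, _, rfl, ?_⟩
      rw [Subgroup.coe_mul, Subgroup.coe_inv, Equiv.Perm.mul_apply, Equiv.Perm.inv_eq_iff_eq]
      exact h3.symm
    · rintro ⟨t', h', h4, h5⟩
      obtain ⟨-, h6⟩ := gd.form_uniq h4
      rw [← h6, Subgroup.coe_mul, Subgroup.coe_inv, Equiv.Perm.mul_apply,
        Equiv.Perm.inv_eq_iff_eq] at h5
      exact h5.symm

theorem f_rank3 (d : L1D K Ω gd ζ E Sb T a) :
    letI := d.ιF.toAlgebra
    Module.finrank E d.F = 3 := by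
  let _ : Algebra E d.F := d.ιF.toAlgebra
  have : IsScalarTower K E d.F := IsScalarTower.of_algebraMap_eq (fun x => by
    apply Subtype.ext
    have h1 : ((algebraMap E d.F (algebraMap K E x) : d.F) : d.M) = d.ι (algebraMap K E x) :=
      d.ιF_coe _
    rw [h1, d.ι.commutes]
    rfl)
  have h1 := Module.finrank_mul_finrank K E d.F
  rw [e_rank d, f_rank d, mul_comm 3 m] at h1
  have hm : 0 < m := Fin.pos gd.i₀
  exact Nat.eq_of_mul_eq_mul_left hm h1

theorem theta_ne (d : L1D K Ω gd ζ E Sb T a) (hζ : IsPrimitiveRoot ζ 3) (ha : a ≠ 0) (y : E) :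
    d.ι y ≠ d.θ := by
  intro hy
  obtain ⟨g, hg⟩ := (d.erange gd.c₀).mpr (gd.inU_c _)
  have h1 : g (d.ι y) = d.ι y := by
    refine (d.hι (d.ι y)).mpr ⟨y, rfl⟩ g ?_
    rw [hg]
    exact ⟨sg gd.i₀, 1, by rw [map_one, mul_one]; rfl, rfl⟩
  rw [hy, d.hθ1 g hg] at h1
  have h2 : d.θ ≠ 0 := by
    intro h3
    have h4 := d.hθ
    rw [h3, zero_pow (by norm_num)] at h4
    have h5 : (a : E) = 0 := (map_eq_zero d.ι).1 h4.symm
    exact ha (by exact_mod_cast h5)
  have h3 : algebraMap K d.M ζ = 1 := by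
    have h4 : algebraMap K d.M ζ * d.θ = 1 * d.θ := by rw [h1, one_mul]
    exact mul_right_cancel₀ h2 h4
  have h4 : ζ = 1 := by
    apply (algebraMap K d.M).injective
    rw [h3, map_one]
  exact hζ.ne_one (by norm_num) h4

end H36.QA
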