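import Pool.Agent.H36.QA.FDefs
import Pool.Agent.H38.ML.EmbOrb
import Pool.Agent.H38.ML.Final2

/-!
# [H36 QA UNR] Unramified primes of the first layer (30-60 lines)

`Q` a prime of `M` above `v`, `g` in the inertia group of `Q`; choose a prime `𝔓` of `𝓞 Ω` above `Q`
(`exists_over` in Final2.lean for `M` instead of `K`, or
`Ideal.exists_ideal_over_prime_of_isIntegral`).  `exists_inertia` (EmbOrb.lean) with `L = M`,
`φ = M.val`, `ψ = M.val ∘ g`: for an integral `x ∈ M` the element `φ x - ψ x = x - g x` is in `𝔓` (it is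
in `Q`).  So there is `τ` in the inertia group of `𝔓` with `τ ∘ φ = ψ`, i.e. `res M τ = g`.  `d.I1`
gives `res M τ = 1`.
-/

open scoped NumberField Pointwise
open H38.ML H38.TD

noncomputable section

namespace H36.QA

variable {K Ω : Type} [Field K] [NumberField K] [Field Ω] [Algebra K Ω] [IsAlgClosure K Ω]
  {m : ℕ} {H : Subgroup (Equiv.Perm (Fin m))} {Gp : Type} [Group Gp] {gd : GD m H Gp} {ζ : K}
  {E : Type} [Field E] [NumberField E] [Algebra K E] {Sb T : Set (Ideal (𝓞 K))} {a : 𝓞 E}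

/-- a prime of the integers of `Ω` over a prime of the integers of `M` -/
theorem unr_over (M : IntermediateField K Ω) [NumberField M] (Q : Ideal (𝓞 M)) (hQ : Q.IsPrime) :
    ∃ 𝔓 : Ideal (𝓞 Ω), 𝔓.IsPrime ∧ 𝔓.comap (algebraMap (𝓞 M) (𝓞 Ω)) = Q := by
  obtain ⟨P, hP, hPv⟩ := Ideal.exists_ideal_over_prime_of_isIntegral Q (⊥ : Ideal (𝓞 Ω)) (by
    rw [← RingHom.ker_eq_comap_bot]
    have : Function.Injective (algebraMap (𝓞 M) (𝓞 Ω)) :=
      NumberField.RingOfIntegers.algebraMap.injective M Ω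
    rw [(RingHom.injective_iff_ker_eq_bot _).mp this]
    exact bot_le)
  exact ⟨P, hPv.1, hPv.2⟩

/-- an element of an inertia group of `M` lifts to an inertia group of `Ω` -/
theorem unr_lift (M : IntermediateField K Ω) [FiniteDimensional K M] [IsGalois K M]
    [NumberField M] (Q : Ideal (𝓞 M)) (hQ : Q.IsPrime) (g : Gal(M/K))
    (hg : g ∈ Q.inertia Gal(M/K)) :
    ∃ 𝔓 : Ideal (𝓞 Ω), 𝔓.IsPrime ∧ 𝔓.under (𝓞 K) = Q.under (𝓞 K) ∧
      ∃ τ ∈ 𝔓.inertia Gal(Ω/K), res M τ = g := by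
  obtain ⟨𝔓, h𝔓, h𝔓Q⟩ := unr_over M Q hQ
  refine ⟨𝔓, h𝔓, ?_, ?_⟩
  · rw [← h𝔓Q]
    ext x
    rfl
  · obtain ⟨τ, hτ, hc⟩ := exists_inertia M 𝔓 h𝔓 M.val (M.val.comp (g : M →ₐ[K] M)) (by
      intro x hx
      obtain ⟨x', hx'⟩ : ∃ x' : 𝓞 M, (x' : M) = x := ⟨⟨x, hx⟩, rfl⟩
      have h1 : g • x' - x' ∈ Q := hg x'
      have h1' : algebraMap (𝓞 M) (𝓞 Ω) (g • x' - x') ∈ 𝔓 := by
        rw [← h𝔓Q] at h1
        exact h1
      have h2 := 𝔓.neg_mem h1'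
      refine ⟨_, h2, ?_⟩
      have h3 : ((algebraMap (𝓞 M) (𝓞 Ω) (g • x' - x') : 𝓞 Ω) : Ω) =
          ((g (x' : M) - (x' : M) : M) : Ω) := rfl
      change -((algebraMap (𝓞 M) (𝓞 Ω) (g • x' - x') : 𝓞 Ω) : Ω) = _
      rw [h3, hx']
      change -((g x : Ω) - (x : Ω)) = (x : Ω) - (g x : Ω)
      ring)
    refine ⟨τ, hτ, ?_⟩
    apply AlgEquiv.ext
    intro x
    apply Subtype.ext
    have h4 : ((AlgEquiv.restrictNormalHom M τ x : M) : Ω) = τ (x : Ω) :=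
      AlgEquiv.restrictNormal_commutes τ M x
    rw [h4]
    exact DFunLike.congr_fun hc x

theorem l1d_unr (d : L1D K Ω gd ζ E Sb T a) (v : Ideal (𝓞 K)) (hv : v.IsPrime) (h0 : v ≠ ⊥)
    (h1 : v ∉ Sb) (h2 : v ∉ T) : Unr K d.M v := by
  intro Q hQ hQv
  rw [eq_bot_iff]
  intro g hg
  obtain ⟨𝔓, h𝔓, h𝔓K, τ, hτ, hr⟩ := unr_lift d.M Q hQ g hg
  rw [hQv] at h𝔓K
  rw [Subgroup.mem_bot, ← hr]
  exact d.I1 𝔓 h𝔓 (by rw [h𝔓K]; exact h0) (by rw [h𝔓K]; exact h1) (by rw [h𝔓K]; exact h2) τ hτ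

end H36.QA
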