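import Pool.Agent.H36.QA.F1
import Pool.Agent.H36.QA.Unr
import Pool.Agent.H38.ML.Disc
import Pool.Agent.H38.ML.Final2

/-!
# [H36 QA FTWO] The field `F` is totally complex with small discriminant (two theorems, 80-130 lines)

`f_tc`: `K` contains a primitive cube root of unity, so it is totally complex (a real embedding would
give one in `ℝ`; see Base.lean in H38/ML for fourth roots), and so is `F`
(`NumberField.isTotallyComplex_of_algebra`); `[F : ℚ] = [F : K] [K : ℚ]` and `f_rank`.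
`f_disc`: `L = IntermediateField.lift d.F` (a finite extension of `K` in `Ω`, `F ≃ₐ[K] L`,
`liftAlgEquiv`), `n' = 3 m`, `S = Sb ∪ {v | n'! ∈ v}` (finite).  `disc_bound Ω n' S` with the set of the
`v ∈ T` and `w = n'` (the first condition is trivial: `n' ≤ n' + _`).  For `v ∉ S`, `v ∉ T`: choose any
`𝔓` above `v` (`exists_over`); the inertia group acts trivially on `M ⊇ L` (`d.I1`), so
`embOrb L _` is the number of embeddings of `L`, which is `n'` (the relation is equality: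
`τ ∘ φ = φ` because every embedding `φ : L → Ω` has image in the normal field `M`;
`AlgHom.card`).  So the relative discriminant norm is `≤ C₀ (∏_{v ∈ T} N v)^(n')`, and
`|disc L| = absNorm (different L/K) * |disc K|^[L:K]`
(`NumberField.natAbs_discr_eq_absNorm_differentIdeal_mul_natAbs_discr_pow`, Mathlib,
Discriminant/Different.lean); `disc` is invariant under isomorphism
(`NumberField.discr_eq_discr_of_algEquiv` or `_of_ringEquiv`).
-/

open scoped NumberField Pointwise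
open H38.ML H38.TD

noncomputable section

namespace H36.QA

variable {K Ω : Type} [Field K] [NumberField K] [Field Ω] [Algebra K Ω] [IsAlgClosure K Ω]
  {m : ℕ} {H : Subgroup (Equiv.Perm (Fin m))} {Gp : Type} [Group Gp]

theorem f_tc {gd : GD m H Gp} {ζ : K}
    {E : Type} [Field E] [NumberField E] [Algebra K E] {Sb T : Set (Ideal (𝓞 K))} {a : 𝓞 E}
    (d : L1D K Ω gd ζ E Sb T a) (hζ : IsPrimitiveRoot ζ 3) :
    TC d.F (3 * m * Module.finrank ℚ K) := by
  refine ⟨?_, ?_⟩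
  · have h1 : IsPrimitiveRoot (algebraMap K d.F ζ) 3 :=
      hζ.map_of_injective (algebraMap K d.F).injective
    exact NumberField.nrRealPlaces_eq_zero_iff.mp
      (NumberField.InfinitePlace.IsPrimitiveRoot.nrRealPlaces_eq_zero_of_two_lt (by norm_num) h1)
  · rw [← Module.finrank_mul_finrank ℚ K d.F, f_rank d, mul_comm]

omit [NumberField K] in
/-- if an automorphism fixes the normal field `M ≥ L` then it acts trivially on the embeddings
of `L`. -/
theorem f2_comp (M : IntermediateField K Ω) [Normal K M] (L : IntermediateField K Ω) (hL : L ≤ M)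
    (τ : Gal(Ω/K)) (hτ : res M τ = 1) (φ : L →ₐ[K] Ω) :
    ((τ : Gal(Ω/K)) : Ω →ₐ[K] Ω).comp φ = φ := by
  have : Normal K Ω := IsAlgClosure.normal K Ω
  ext x
  have h1 : φ.liftNormal Ω (algebraMap L Ω x) = algebraMap Ω Ω (φ x) :=
    AlgHom.liftNormal_commutes φ Ω x
  have h2 := AlgHom.restrictNormal_commutes (φ.liftNormal Ω) M ⟨x.1, hL x.2⟩
  have h3 : φ x = ((φ.liftNormal Ω).restrictNormal M ⟨x.1, hL x.2⟩ : M) := by
    have h4 : algebraMap Ω Ω (φ x) = φ x := rfl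
    rw [← h4, ← h1]
    exact h2.symm
  change τ (φ x) = φ x
  rw [h3]
  have h5 := AlgEquiv.restrictNormal_commutes τ M
    ((φ.liftNormal Ω).restrictNormal M ⟨x.1, hL x.2⟩)
  have h6 : τ.restrictNormal M = 1 := hτ
  rw [h6] at h5
  exact h5.symm

theorem f2_embOrb (M : IntermediateField K Ω) [Normal K M] (L : IntermediateField K Ω)
    [FiniteDimensional K L] (hL : L ≤ M) (J : Subgroup Gal(Ω/K)) (hJ : ∀ τ ∈ J, res M τ = 1) :
    embOrb L J = Module.finrank K L := by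
  have hcl : IsAlgClosed Ω := IsAlgClosure.isAlgClosed K
  unfold embOrb
  rw [← AlgHom.card K L Ω, ← Nat.card_eq_fintype_card]
  refine Nat.card_congr ?_
  refine ⟨Quot.lift id ?_, Quot.mk _, ?_, ?_⟩
  · rintro φ ψ ⟨τ, hτ, rfl⟩
    exact (f2_comp M L hL τ (hJ τ hτ) φ).symm
  · intro x
    induction x using Quot.ind with
    | mk φ => rfl
  · intro φ
    rfl

theorem f_disc (gd : GD m H Gp) (ζ : K) (E : Type) [Field E] [NumberField E] [Algebra K E]
    (Sb : Set (Ideal (𝓞 K))) (hSb : Sb.Finite) :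
    ∃ C : ℝ, 1 ≤ C ∧ ∃ A : ℕ, ∀ (T : Finset (Ideal (𝓞 K))) (a : 𝓞 E)
      (d : L1D K Ω gd ζ E Sb (T : Set (Ideal (𝓞 K))) a), (∀ v ∈ T, v.IsPrime ∧ v ≠ ⊥) →
        dd d.F ≤ C * (∏ v ∈ T, (Ideal.absNorm v : ℝ)) ^ A := by
  classical
  have hne : (((3 * m).factorial : ℕ) : 𝓞 K) ≠ 0 := by
    exact_mod_cast Nat.factorial_ne_zero (3 * m)
  let S₀ : Set (Ideal (𝓞 K)) := {v | ∃ Q : Ideal (𝓞 K), Q.IsPrime ∧
    Ideal.span {(((3 * m).factorial : ℕ) : 𝓞 K)} ≤ Q ∧ Q.under (𝓞 K) = v}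
  have hS₀ : S₀.Finite := finite_primes_below K K _ (by simpa using hne)
  have hS₀mem : ∀ v : Ideal (𝓞 K), v.IsPrime → (((3 * m).factorial : ℕ) : 𝓞 K) ∈ v →
      v ∈ S₀ := by
    intro v hv hmem
    refine ⟨v, hv, ?_, ?_⟩
    · rw [Ideal.span_singleton_le_iff_mem]; exact hmem
    · ext x; simp [Ideal.mem_comap]
  have hS : (Sb ∪ S₀).Finite := hSb.union hS₀
  have hSn : ∀ v : Ideal (𝓞 K), v.IsPrime → v ≠ ⊥ → v ∉ Sb ∪ S₀ →
      (((3 * m).factorial : ℕ) : 𝓞 K) ∉ v := by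
    intro v hv _ hvS h
    exact hvS (Or.inr (hS₀mem v hv h))
  obtain ⟨C, hC0, hC⟩ := disc_bound Ω (3 * m) (Sb ∪ S₀) hS hSn
  have hK1 : 1 ≤ (NumberField.discr K).natAbs :=
    Nat.one_le_iff_ne_zero.mpr (Int.natAbs_ne_zero.mpr (NumberField.discr_ne_zero K))
  refine ⟨((C * (NumberField.discr K).natAbs ^ (3 * m) : ℕ) : ℝ), ?_, 3 * m, ?_⟩
  · exact_mod_cast Nat.mul_pos hC0 (Nat.pow_pos hK1)
  intro T a d hT
  let L : IntermediateField K Ω := IntermediateField.lift d.F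
  let eL : d.F ≃ₐ[K] L := IntermediateField.liftAlgEquiv d.F
  have hLM : L ≤ d.M := IntermediateField.lift_le d.F
  have hLfin : FiniteDimensional K L := Module.Finite.equiv eL.toLinearEquiv
  have hLnf : NumberField L := NumberField.of_module_finite K L
  have hLr : Module.finrank K L = 3 * m := by
    rw [← f_rank d]
    exact eL.toLinearEquiv.finrank_eq.symm
  have h1 := hC L hLfin hLnf hLr T (3 * m) hT ?_ ?_
  · have h2 := NumberField.natAbs_discr_eq_absNorm_differentIdeal_mul_natAbs_discr_pow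
      K (𝓞 K) L (𝓞 L)
    have h3 : NumberField.discr d.F = NumberField.discr L :=
      NumberField.discr_eq_discr_of_ringEquiv d.F eL.toRingEquiv
    have h4 : dd d.F = (((NumberField.discr L).natAbs : ℕ) : ℝ) := by
      unfold dd
      rw [h3, Nat.cast_natAbs, Int.cast_abs]
    rw [h4, h2, hLr]
    have h5 : Ideal.absNorm (differentIdeal (𝓞 K) (𝓞 L)) *
        (NumberField.discr K).natAbs ^ (3 * m) ≤
        (C * (∏ v ∈ T, Ideal.absNorm v) ^ (3 * m)) * (NumberField.discr K).natAbs ^ (3 * m) :=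
      Nat.mul_le_mul_right _ h1
    calc ((Ideal.absNorm (differentIdeal (𝓞 K) (𝓞 L)) *
        (NumberField.discr K).natAbs ^ (3 * m) : ℕ) : ℝ)
        ≤ (((C * (∏ v ∈ T, Ideal.absNorm v) ^ (3 * m)) *
          (NumberField.discr K).natAbs ^ (3 * m) : ℕ) : ℝ) := by exact_mod_cast h5
      _ = _ := by push_cast; ring
  · intro v hv
    obtain ⟨𝔓, h𝔓, h𝔓v⟩ := exists_over (Ω := Ω) v (hT v hv).1
    exact ⟨𝔓, h𝔓, h𝔓v, Nat.le_add_right _ _⟩
  · intro v hvp hv0 hvS hvT
    obtain ⟨𝔓, h𝔓, h𝔓v⟩ := exists_over (Ω := Ω) v hvp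
    refine ⟨𝔓, h𝔓, h𝔓v, ?_⟩
    rw [f2_embOrb d.M L hLM, hLr]
    intro τ hτ
    refine d.I1 𝔓 h𝔓 ?_ ?_ ?_ τ hτ
    · rw [h𝔓v]; exact hv0
    · rw [h𝔓v]; exact fun h => hvS (Or.inl h)
    · rw [h𝔓v]; exact fun h => hvT h

end H36.QA
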