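import Pool.Agent.H38.TD.NtDefs

/-!
# [H36 QA SPL] Three primes of norm `N v` above a split place (90-150 lines)

`F = E(θ)`, `θ³ = a`, `X³ - a` is irreducible over `E` (its roots are `θ, ζθ, ζ²θ`, none of them in
`E`; a cubic without a root is irreducible).  The three elements `r_i = ζ^i r` are pairwise different
modulo `v` (`ζ ∈ 𝓞 E`; `1 - ζ` divides `3`, `3 ∉ v`, `r ∉ v` because `a ∉ v`).
For every `i` there is a prime `P_i` of `𝓞 F` with `v ⊆ P_i` and `θ - r_i ∈ P_i`: otherwise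
`v 𝓞F + (θ - r_i) = (1)`.  One way to exclude this: let `B = 𝓞E[θ] ⊆ 𝓞F`
(`Algebra.adjoin (𝓞 E) {θ}`, isomorphic to `𝓞E[X]/(X³ - a)`: `minpoly`,
`AdjoinRoot`/`adjoin.powerBasis`); there is a ring homomorphism `B → 𝓞E/v`, `θ ↦ r_i`; its kernel is a
prime ideal `p` of `B`, and `𝓞F` is integral over `B`, so there is a prime of `𝓞F` above `p`
(`Ideal.exists_ideal_over_prime_of_isIntegral`).
(Another way: for a prime `P` above `v` some `θ - r_j ∈ P`, because `∏ (θ - r_j) = θ³ - r³ ∈ v`;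
the automorphism `θ ↦ ζθ` of `F/E` permutes the cases.)
`P_i ∩ 𝓞E = v` (`v` is maximal).  The `P_i` are different: `r_i - r_j ∉ v`.
`∑_{P | v} e f = 3` (`Ideal.sum_ramification_inertia`, `h3`), so all `f(P_i | v) = 1` and
`absNorm P_i = absNorm v` (`Ideal.absNorm_eq_pow_inertiaDeg`-type results, or the quotient
`𝓞F/P_i` has dimension `f = 1` over `𝓞E/v`).
-/

open scoped NumberField Pointwise
open H38.ML H38.TD

noncomputable section

namespace H36.QA

theorem spl (E F : Type) [Field E] [NumberField E] [Field F] [NumberField F] [Algebra E F]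
    (h3 : Module.finrank E F = 3) (ζ : E) (hζ : IsPrimitiveRoot ζ 3) (a : 𝓞 E) (θ : F)
    (hθ : θ ^ 3 = algebraMap E F (a : E)) (hθE : ∀ y : E, algebraMap E F y ≠ θ)
    (v : Pl E) (h3v : (3 : 𝓞 E) ∉ v.asIdeal) (hav : a ∉ v.asIdeal) (r : 𝓞 E)
    (hr : a - r ^ 3 ∈ v.asIdeal) :
    ∃ P : Fin 3 → Ideal (𝓞 F), Function.Injective P ∧
      ∀ i, (P i).IsPrime ∧ P i ≠ ⊥ ∧ (P i).under (𝓞 E) = v.asIdeal ∧
        Ideal.absNorm (P i) = nv v := by
  classical
  have hvp := v.isPrime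
  have hK : (primitiveRoots (Module.finrank E F) E).Nonempty :=
    ⟨ζ, by rw [h3]; exact (mem_primitiveRoots (by norm_num)).2 hζ⟩
  have ha' : θ ^ (Module.finrank E F) = algebraMap E F (a : E) := by rw [h3]; exact hθ
  have htop : IntermediateField.adjoin E {θ} = ⊤ := by
    have hs := IntermediateField.isSimpleOrder_of_finrank_prime E F
      (by rw [h3]; exact Nat.prime_three)
    rcases hs.eq_bot_or_eq_top (IntermediateField.adjoin E {θ}) with h | h
    · exfalso
      have h1 : θ ∈ (⊥ : IntermediateField E F) := by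
        rw [← h]
        exact IntermediateField.mem_adjoin_simple_self E θ
      obtain ⟨y, hy⟩ := IntermediateField.mem_bot.1 h1
      exact hθE y hy
    · exact h
  have hirr := irreducible_X_pow_sub_C_of_root_adjoin_eq_top ha' htop
  have hsf := isSplittingField_X_pow_sub_C_of_root_adjoin_eq_top hK ha' htop
  have hgal : IsGalois E F := isGalois_of_isSplittingField_X_pow_sub_C hK hirr F
  have hcard : Nat.card Gal(F/E) = 3 := by rw [IsGalois.card_aut_eq_finrank, h3]
  obtain ⟨σ, hσ⟩ : ∃ σ : Gal(F/E), σ ≠ 1 := by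
    by_contra hcon
    push Not at hcon
    have h1 : Subsingleton Gal(F/E) := ⟨fun x y => by rw [hcon x, hcon y]⟩
    have h2 := Finite.card_le_one_iff_subsingleton.2 h1
    omega
  have hσθ : σ θ ≠ θ := by
    intro h
    apply hσ
    ext x
    have hx : x ∈ IntermediateField.adjoin E {θ} := by
      rw [htop]
      exact IntermediateField.mem_top
    show σ x = x
    induction hx using IntermediateField.adjoin_induction with
    | mem x hx => rw [Set.mem_singleton_iff.1 hx]; exact h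
    | algebraMap x => exact σ.commutes x
    | add x y _ _ hx hy => rw [map_add, hx, hy]
    | inv x _ hx => rw [map_inv₀, hx]
    | mul x y _ _ hx hy => rw [map_mul, hx, hy]
  have ha0 : (a : E) ≠ 0 := by
    intro h
    apply hav
    have h1 : a = 0 := NumberField.RingOfIntegers.ext h
    rw [h1]
    exact v.asIdeal.zero_mem
  have hθ0 : θ ≠ 0 := by
    rintro rfl
    rw [zero_pow (by norm_num)] at hθ
    exact ha0 ((map_eq_zero_iff _ (algebraMap E F).injective).1 hθ.symm)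
  -- the cube root of unity
  set ω : F := σ θ / θ with hω
  have hωθ : σ θ = ω * θ := by
    rw [hω, div_mul_cancel₀ _ hθ0]
  have hω3 : ω ^ 3 = 1 := by
    rw [hω, div_pow, ← map_pow, hθ, AlgEquiv.commutes, div_self]
    rw [← hθ]
    exact pow_ne_zero 3 hθ0
  have hω1 : ω ≠ 1 := by
    intro h
    rw [h, one_mul] at hωθ
    exact hσθ hωθ
  have hω2 : ω ^ 2 + ω + 1 = 0 := by
    have h1 : (ω - 1) * (ω ^ 2 + ω + 1) = 0 := by linear_combination hω3
    exact (mul_eq_zero.1 h1).resolve_left (sub_ne_zero.2 hω1)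
  have hωint : IsIntegral ℤ ω := IsIntegral.of_pow (n := 3) (by norm_num) (by
    rw [hω3]; exact isIntegral_one)
  have hθint : IsIntegral ℤ θ := by
    refine IsIntegral.of_pow (n := 3) (by norm_num) ?_
    rw [hθ]
    exact (a.isIntegral_coe).algebraMap
  have hζint : IsIntegral ℤ ζ := IsIntegral.of_pow (n := 3) (by norm_num) (by
    rw [hζ.pow_eq_one]; exact isIntegral_one)
  obtain ⟨w, hw⟩ : ∃ w : 𝓞 F, (w : F) = ω := ⟨⟨ω, hωint⟩, rfl⟩
  obtain ⟨t, ht⟩ : ∃ t : 𝓞 F, (t : F) = θ := ⟨⟨θ, hθint⟩, rfl⟩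
  obtain ⟨z, hz⟩ : ∃ z : 𝓞 E, (z : E) = ζ := ⟨⟨ζ, hζint⟩, rfl⟩
  set A : 𝓞 E →+* 𝓞 F := algebraMap (𝓞 E) (𝓞 F) with hA
  have hAc : ∀ x : 𝓞 E, ((A x : 𝓞 F) : F) = algebraMap E F (x : E) := fun x => rfl
  have ht3 : t ^ 3 = A a := by
    apply NumberField.RingOfIntegers.ext
    rw [hAc, ← hθ, ← ht]
    rfl
  have hw2 : w ^ 2 + w + 1 = 0 := by
    apply NumberField.RingOfIntegers.ext
    have h1 : (((w ^ 2 + w + 1 : 𝓞 F)) : F) = (w : F) ^ 2 + (w : F) + 1 := rfl
    rw [h1, hw, hω2]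
    rfl
  have hz2 : z ^ 2 + z + 1 = 0 := by
    apply NumberField.RingOfIntegers.ext
    have h1 : (((z ^ 2 + z + 1 : 𝓞 E)) : E) = (z : E) ^ 2 + (z : E) + 1 := rfl
    have h2 : ζ ^ 2 + ζ + 1 = 0 := by
      have h3 : (ζ - 1) * (ζ ^ 2 + ζ + 1) = 0 := by linear_combination hζ.pow_eq_one
      exact (mul_eq_zero.1 h3).resolve_left (sub_ne_zero.2 (hζ.ne_one (by norm_num)))
    rw [h1, hz, h2]
    rfl
  obtain ⟨⟨P0, hP0p, hP0l⟩⟩ : Nonempty (v.asIdeal.primesOver (𝓞 F)) := inferInstance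
  have hmem : ∀ c : 𝓞 E, A c ∈ P0 ↔ c ∈ v.asIdeal := by
    intro c
    rw [hP0l.over, Ideal.mem_under]
  -- one of the factors
  obtain ⟨c, hc⟩ : ∃ c : 𝓞 E, t - A c ∈ P0 := by
    have h1 : (t - A r) * ((t - A (z * r)) * (t - A (z ^ 2 * r))) ∈ P0 := by
      have hz2' : (A z) ^ 2 + A z + 1 = 0 := by
        rw [← map_pow, ← map_add, ← map_one A, ← map_add, hz2, map_zero]
      have h2 : (t - A r) * ((t - A (z * r)) * (t - A (z ^ 2 * r))) = A (a - r ^ 3) := by
        rw [map_sub, ← ht3, map_mul, map_mul, map_pow, map_pow]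
        linear_combination (-(t ^ 2 * A r) + t * (A r) ^ 2 * A z - (A r) ^ 3 * (A z - 1)) * hz2'
      rw [h2, hmem]
      exact hr
    rcases hP0p.mem_or_mem h1 with h | h
    · exact ⟨_, h⟩
    · rcases hP0p.mem_or_mem h with h | h
      · exact ⟨_, h⟩
      · exact ⟨_, h⟩
  have hσt : σ • t = w * t := by
    apply NumberField.RingOfIntegers.ext
    have h1 : ((σ • t : 𝓞 F) : F) = σ (t : F) := rfl
    have h2 : ((w * t : 𝓞 F) : F) = (w : F) * (t : F) := rfl
    rw [h1, h2, ht, hw, hωθ]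
  have hσc : σ • (A c) = A c := by
    apply NumberField.RingOfIntegers.ext
    have h1 : ((σ • (A c) : 𝓞 F) : F) = σ ((A c : 𝓞 F) : F) := rfl
    rw [h1, hAc, AlgEquiv.commutes]
  have hne : σ • P0 ≠ P0 := by
    intro hcon
    have h1 : σ • (t - A c) ∈ σ • P0 := (Ideal.smul_mem_pointwise_smul_iff).2 hc
    rw [hcon, smul_sub, hσt, hσc] at h1
    have h2 : (w - 1) * t ∈ P0 := by
      have h3 := P0.sub_mem h1 hc
      have h4 : w * t - A c - (t - A c) = (w - 1) * t := by ring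
      rwa [h4] at h3
    rcases hP0p.mem_or_mem h2 with h | h
    · apply h3v
      rw [← hmem]
      have h4 : A 3 = (w - 1) * (w ^ 2 - 1) := by
        rw [map_ofNat]
        linear_combination (2 - w) * hw2
      rw [h4]
      exact P0.mul_mem_right _ h
    · apply hav
      rw [← hmem, ← ht3]
      exact P0.pow_mem_of_mem h 3 (by norm_num)
  have hmain := Ideal.ncard_primesOver_mul_ramificationIdxIn_mul_inertiaDegIn v.asIdeal (𝓞 F)
    Gal(F/E)
  rw [hcard] at hmain
  have hfin : (v.asIdeal.primesOver (𝓞 F)).Finite := by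
    apply Set.finite_of_ncard_ne_zero
    intro h0
    rw [h0, zero_mul] at hmain
    omega
  have h2 : 1 < (v.asIdeal.primesOver (𝓞 F)).ncard := by
    rw [Set.one_lt_ncard_iff hfin]
    refine ⟨σ • P0, P0, ?_, ⟨hP0p, hP0l⟩, hne⟩
    exact ⟨inferInstance, inferInstance⟩
  have hdvd : (v.asIdeal.primesOver (𝓞 F)).ncard ∣ 3 := ⟨_, hmain.symm⟩
  have hnc : (v.asIdeal.primesOver (𝓞 F)).ncard = 3 := by
    rcases (Nat.dvd_prime Nat.prime_three).1 hdvd with h | h
    · omega
    · exact h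
  have hf1 : Ideal.inertiaDegIn v.asIdeal (𝓞 F) = 1 := by
    rw [hnc] at hmain
    have h4 : Ideal.ramificationIdxIn v.asIdeal (𝓞 F) * Ideal.inertiaDegIn v.asIdeal (𝓞 F) = 1 := by
      omega
    exact Nat.eq_one_of_mul_eq_one_left h4
  have hNc : Nat.card (v.asIdeal.primesOver (𝓞 F)) = 3 := hnc
  have hFin : Finite (v.asIdeal.primesOver (𝓞 F)) := hfin
  let e := Finite.equivFinOfCardEq hNc
  refine ⟨fun i => (e.symm i).1, Subtype.val_injective.comp e.symm.injective, fun i => ?_⟩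
  obtain ⟨hp, hl⟩ := (e.symm i).2
  refine ⟨hp, ?_, hl.over.symm, ?_⟩
  · exact Ideal.ne_bot_of_mem_primesOver v.ne_bot (e.symm i).2
  · have h5 := Ideal.inertiaDegIn_eq_inertiaDeg v.asIdeal (e.symm i).1 Gal(F/E)
    have h6 := Ideal.absNorm_pow_inertiaDeg v.asIdeal (e.symm i).1
    rw [← h5, hf1, pow_one] at h6
    exact h6.symm

end H36.QA
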