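import Pool.Agent.H36.QA.F1
import Pool.Agent.H36.QA.Spl

/-!
# [H36 QA FTHREE] Split places of `E` in `F` (30-60 lines)

`spl` with the algebra structure `d.ιF.toAlgebra` on `F` (`letI`), `f_rank3`, the image of `ζ` in `E`
(`algebraMap K E ζ`, a primitive cube root of unity), `θ = ⟨d.θ, d.θ_mem⟩`, `d.hθ`, `theta_ne`.
`(P i).under (𝓞 E)` is `(P i).comap (algebraMap (𝓞 E) (𝓞 F))`, and this `algebraMap` is
`mapRingHom d.ιF = d.ιO` (by `rfl` or `ext`).
-/

open scoped NumberField Pointwise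
open H38.ML H38.TD

noncomputable section

namespace H36.QA

variable {K Ω : Type} [Field K] [NumberField K] [Field Ω] [Algebra K Ω] [IsAlgClosure K Ω]
  {m : ℕ} {H : Subgroup (Equiv.Perm (Fin m))} {Gp : Type} [Group Gp] {gd : GD m H Gp} {ζ : K}
  {E : Type} [Field E] [NumberField E] [Algebra K E] {Sb T : Set (Ideal (𝓞 K))} {a : 𝓞 E}

theorem f_split (d : L1D K Ω gd ζ E Sb T a) (hζ : IsPrimitiveRoot ζ 3) (v : Pl E)
    (h3v : (3 : 𝓞 E) ∉ v.asIdeal) (hav : a ∉ v.asIdeal) (r : 𝓞 E)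
    (hr : a - r ^ 3 ∈ v.asIdeal) :
    ∃ P : Fin 3 → Ideal (𝓞 d.F), Function.Injective P ∧
      ∀ i, (P i).IsPrime ∧ P i ≠ ⊥ ∧ (P i).comap d.ιO = v.asIdeal ∧
        Ideal.absNorm (P i) = nv v := by
  letI : Algebra E d.F := d.ιF.toAlgebra
  have hmap : ∀ y : E, algebraMap E d.F y = d.ιF y := fun y => rfl
  have ha : a ≠ 0 := by
    rintro rfl
    exact hav v.asIdeal.zero_mem
  obtain ⟨P, hP, h⟩ := spl E d.F (f_rank3 d) (algebraMap K E ζ)
    (hζ.map_of_injective (algebraMap K E).injective) a ⟨d.θ, d.θ_mem⟩ (by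
      rw [hmap]
      apply Subtype.ext
      exact d.hθ) (fun y hy => theta_ne d hζ ha y (by
        rw [hmap] at hy
        exact congrArg Subtype.val hy)) v h3v hav r hr
  refine ⟨P, hP, fun i => ?_⟩
  obtain ⟨h1, h2, h3, h4⟩ := h i
  exact ⟨h1, h2, h3, h4⟩

end H36.QA
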