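import Pool.Agent.H36.QA.NDefs

/-!
# The embedding `E → F` (complete)
-/

open scoped NumberField Pointwise
open H38.ML H38.TD

noncomputable section

namespace H36.QA

variable {K Ω : Type} [Field K] [NumberField K] [Field Ω] [Algebra K Ω] [IsAlgClosure K Ω]
  {m : ℕ} {H : Subgroup (Equiv.Perm (Fin m))} {Gp : Type} [Group Gp]

namespace GD

variable (gd : GD m H Gp)

theorem bk_of_stab {u : Gp} (hu : gd.InU u) (h : u * gd.d₀ * u⁻¹ = gd.d₀) : gd.Bk u := by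
  obtain ⟨t, h', rfl⟩ := hu
  exact ⟨t, h', rfl, ((gd.stab t h').mp h).1⟩

end GD

namespace L1D

variable {gd : GD m H Gp} {ζ : K} {E : Type} [Field E] [NumberField E] [Algebra K E]
  {Sb : Set (Ideal (𝓞 K))} {T : Set (Ideal (𝓞 K))} {a : 𝓞 E}

theorem ι_mem (d : L1D K Ω gd ζ E Sb T a) (x : E) : d.ι x ∈ d.F := by
  rw [IntermediateField.mem_fixedField_iff]
  intro g hg
  refine (d.hι (d.ι x)).mpr ⟨x, rfl⟩ g ?_
  exact gd.bk_of_stab ((d.erange _).mp ⟨g, rfl⟩) ((d.mem_D g).mp hg)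

theorem θ_mem (d : L1D K Ω gd ζ E Sb T a) : d.θ ∈ d.F := by
  rw [IntermediateField.mem_fixedField_iff]
  intro g hg
  exact d.hθ0 g ((d.mem_D g).mp hg)

/-- The embedding of `E` in `F`. -/
def ιF (d : L1D K Ω gd ζ E Sb T a) : E →+* d.F :=
  d.ι.toRingHom.codRestrict d.F.toSubring fun x => d.ι_mem x

theorem ιF_coe (d : L1D K Ω gd ζ E Sb T a) (x : E) : ((d.ιF x : d.F) : d.M) = d.ι x := rfl

/-- The embedding of the rings of integers. -/
def ιO (d : L1D K Ω gd ζ E Sb T a) : 𝓞 E →+* 𝓞 d.F :=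
  NumberField.RingOfIntegers.mapRingHom d.ιF

end L1D

end H36.QA
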