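import Pool.Agent.H36.QA.F1

/-!
# [H36 QA MULC] The norm from `F` to `E` (60-100 lines)

Algebra structure `d.ιF.toAlgebra` on `F` over `E`, and `d.ι.toAlgebra` on `M` over `E`.  The three
embeddings `id, g₁, g₂ : F → M` over `E` (`g₁, g₂` fix `ι E`: `hι`, `Bk c₀`, `Bk (c₀^2)`) are different,
because `g₁ θ = ζ θ`, `g₂ θ = ζ² θ` (`hθ1`; `g₂ = g₁ ∘ g₁` by `einj`), `θ ≠ 0`, `ζ` of order 3.  As
`[F : E] = 3` (`f_rank3`) these are all embeddings into an algebraic closure, and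
`ι (Algebra.norm E y) = y * g₁ y * g₂ y` (`Algebra.norm_eq_prod_embeddings` in an algebraic closure of
`M`, or via the characteristic polynomial).
`ν = Algebra.norm` of `y` in `𝓞 E` (`Algebra.norm (𝓞 E)` or `RingOfIntegers.norm`), and
`span {ν} = relNorm (span {y}) = (relNorm 𝔟)²` (`Ideal.relNorm_singleton`, `map_pow`; needs the
integral closure/`Module.Free`-independent version of `Ideal.relNorm` in Mathlib:
`Ideal.spanNorm`, `Ideal.relNorm (R := 𝓞 E) (S := 𝓞 F)`).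
-/

open scoped NumberField Pointwise
open H38.ML H38.TD

noncomputable section

namespace H36.QA

/-- The norm of a cubic extension by three different embeddings. -/
theorem mulc_norm3 {E F C : Type*} [Field E] [CharZero E] [Field F] [Algebra E F] [Field C]
    [IsAlgClosed C] [Algebra E C] (h3 : Module.finrank E F = 3) (f0 f1 f2 : F →ₐ[E] C)
    (h01 : f0 ≠ f1) (h02 : f0 ≠ f2) (h12 : f1 ≠ f2) (y : F) :
    algebraMap E C (Algebra.norm E y) = f0 y * f1 y * f2 y := by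
  classical
  have hfd : FiniteDimensional E F := FiniteDimensional.of_finrank_pos (by rw [h3]; norm_num)
  rw [Algebra.norm_eq_prod_embeddings E C y]
  have h4 : ({f0, f1, f2} : Finset (F →ₐ[E] C)) = Finset.univ := by
    apply Finset.eq_univ_of_card
    rw [Finset.card_eq_three.mpr ⟨f0, f1, f2, h01, h02, h12, rfl⟩, AlgHom.card, h3]
  rw [← h4, Finset.prod_insert, Finset.prod_insert, Finset.prod_singleton, mul_assoc]
  · rw [Finset.mem_singleton]
    exact h12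
  · rw [Finset.mem_insert, Finset.mem_singleton]
    rintro (h | h)
    · exact h01 h
    · exact h02 h

/-- The norm of an integer whose ideal is a square. -/
theorem mulc_nu {E F : Type*} [Field E] [NumberField E] [Field F] [NumberField F] [Algebra E F]
    (y : 𝓞 F) (hy : y ≠ 0) (𝔟 : Ideal (𝓞 F)) (h : Ideal.span {y} = 𝔟 ^ 2) :
    ∃ ν : 𝓞 E, ν ≠ 0 ∧ (∃ J : Ideal (𝓞 E), Ideal.span {ν} = J ^ 2) ∧
      (ν : E) = Algebra.norm E (y : F) := by
  refine ⟨Algebra.intNorm (𝓞 E) (𝓞 F) y, ?_, ⟨Ideal.relNorm (𝓞 E) 𝔟, ?_⟩, ?_⟩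
  · intro h0
    have h1 : Ideal.relNorm (𝓞 E) (Ideal.span {y}) = ⊥ := by
      rw [Ideal.relNorm_singleton, h0, Ideal.span_singleton_eq_bot]
    rw [Ideal.relNorm_eq_bot_iff, Ideal.span_singleton_eq_bot] at h1
    exact hy h1
  · rw [← Ideal.relNorm_singleton, h, map_pow]
  · exact Algebra.algebraMap_intNorm (A := 𝓞 E) (K := E) (L := F) (B := 𝓞 F) y

variable {K Ω : Type} [Field K] [NumberField K] [Field Ω] [Algebra K Ω] [IsAlgClosure K Ω]
  {m : ℕ} {H : Subgroup (Equiv.Perm (Fin m))} {Gp : Type} [Group Gp] {gd : GD m H Gp} {ζ : K}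
  {E : Type} [Field E] [NumberField E] [Algebra K E] {Sb T : Set (Ideal (𝓞 K))} {a : 𝓞 E}

theorem mul_c (d : L1D K Ω gd ζ E Sb T a) (hζ : IsPrimitiveRoot ζ 3) (ha : a ≠ 0) (y : 𝓞 d.F)
    (hy : y ≠ 0) (𝔟 : Ideal (𝓞 d.F)) (h : Ideal.span {y} = 𝔟 ^ 2) (g₁ g₂ : Gal(d.M/K))
    (h₁ : d.e g₁ = gd.c₀) (h₂ : d.e g₂ = gd.c₀ ^ 2) :
    ∃ ν : 𝓞 E, ν ≠ 0 ∧ (∃ J : Ideal (𝓞 E), Ideal.span {ν} = J ^ 2) ∧
      d.ι (ν : E) = ((y : d.F) : d.M) * g₁ ((y : d.F) : d.M) * g₂ ((y : d.F) : d.M) := by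
  letI iEF : Algebra E d.F := d.ιF.toAlgebra
  have hC : IsAlgClosed Ω := IsAlgClosure.isAlgClosed K
  letI iEΩ : Algebra E Ω := ((algebraMap d.M Ω).comp (d.ι : E →+* d.M)).toAlgebra
  obtain ⟨ν, hν0, hνJ, hν⟩ := mulc_nu (E := E) y hy 𝔟 h
  refine ⟨ν, hν0, hνJ, ?_⟩
  -- `g₁`, `g₂` fix `ι E`
  have hg2 : g₂ = g₁ * g₁ := by
    apply d.einj
    rw [h₂, map_mul, h₁, pow_two]
  have hf1 : ∀ x : E, g₁ (d.ι x) = d.ι x := by
    intro x
    refine (d.hι (d.ι x)).mpr ⟨x, rfl⟩ g₁ ?_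
    rw [h₁]
    exact ⟨sg gd.i₀, 1, by rw [map_one, mul_one]; rfl, rfl⟩
  have hf2 : ∀ x : E, g₂ (d.ι x) = d.ι x := by
    intro x
    rw [hg2, AlgEquiv.mul_apply, hf1, hf1]
  let f0 : d.F →ₐ[E] Ω :=
    { toRingHom := (algebraMap d.M Ω).comp (algebraMap d.F d.M)
      commutes' := fun x => rfl }
  let f1 : d.F →ₐ[E] Ω :=
    { toRingHom := (algebraMap d.M Ω).comp ((g₁ : d.M →+* d.M).comp (algebraMap d.F d.M))
      commutes' := fun x => congrArg (algebraMap d.M Ω) (hf1 x) }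
  let f2 : d.F →ₐ[E] Ω :=
    { toRingHom := (algebraMap d.M Ω).comp ((g₂ : d.M →+* d.M).comp (algebraMap d.F d.M))
      commutes' := fun x => congrArg (algebraMap d.M Ω) (hf2 x) }
  let t : d.F := ⟨d.θ, d.θ_mem⟩
  have hθ0 : d.θ ≠ 0 := by
    intro h3
    have h4 := d.hθ
    rw [h3, zero_pow (by norm_num)] at h4
    have h5 : (a : E) = 0 := (map_eq_zero d.ι).1 h4.symm
    exact ha (by exact_mod_cast h5)
  have hz : ∀ i j : ℕ, i < 3 → j < 3 →
      algebraMap K d.M ζ ^ i * d.θ = algebraMap K d.M ζ ^ j * d.θ → i = j := by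
    intro i j hi hj hij
    have h4 := mul_right_cancel₀ hθ0 hij
    have h5 : IsPrimitiveRoot (algebraMap K d.M ζ) 3 :=
      hζ.map_of_injective (algebraMap K d.M).injective
    exact h5.pow_inj hi hj h4
  have ht0 : d.θ = algebraMap K d.M ζ ^ 0 * d.θ := by rw [pow_zero, one_mul]
  have ht1 : g₁ d.θ = algebraMap K d.M ζ ^ 1 * d.θ := by
    rw [pow_one]
    exact d.hθ1 g₁ h₁
  have ht2 : g₂ d.θ = algebraMap K d.M ζ ^ 2 * d.θ := by
    rw [hg2, AlgEquiv.mul_apply, d.hθ1 g₁ h₁, map_mul, AlgEquiv.commutes, d.hθ1 g₁ h₁]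
    ring
  have e0 : f0 t = algebraMap d.M Ω d.θ := rfl
  have e1 : f1 t = algebraMap d.M Ω (g₁ d.θ) := rfl
  have e2 : f2 t = algebraMap d.M Ω (g₂ d.θ) := rfl
  have h01 : f0 ≠ f1 := by
    intro h4
    have h5 : f0 t = f1 t := by rw [h4]
    rw [e0, e1, (algebraMap d.M Ω).injective.eq_iff, ht1] at h5
    have := hz 0 1 (by norm_num) (by norm_num) (by rw [← ht0]; exact h5)
    omega
  have h02 : f0 ≠ f2 := by
    intro h4
    have h5 : f0 t = f2 t := by rw [h4]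
    rw [e0, e2, (algebraMap d.M Ω).injective.eq_iff, ht2] at h5
    have := hz 0 2 (by norm_num) (by norm_num) (by rw [← ht0]; exact h5)
    omega
  have h12 : f1 ≠ f2 := by
    intro h4
    have h5 : f1 t = f2 t := by rw [h4]
    rw [e1, e2, (algebraMap d.M Ω).injective.eq_iff, ht1, ht2] at h5
    have := hz 1 2 (by norm_num) (by norm_num) h5
    omega
  have h6 := mulc_norm3 (f_rank3 d) f0 f1 f2 h01 h02 h12 (y : d.F)
  rw [← hν] at h6
  apply (algebraMap d.M Ω).injective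
  rw [map_mul, map_mul]
  exact h6

end H36.QA
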