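import Mathlib

/-!
# [H36 QA SEL] Square classes (two theorems, 60-100 lines, only Mathlib)

`sel_map`: `x ≠ 0` with `span {x} = J²`.  The class group is finite and the group of units modulo
squares is finite (`(𝓞 E)ˣ` is finitely generated: `NumberField.Units`, `Module.Finite` of the unit
lattice, finite torsion; e.g. `Subgroup.FiniteIndex` of the range of `powMonoidHom 2` for a finitely
generated commutative group; see `tk_fg`, `fg_index` in `Pool/Agent/H38/TD/` for such statements).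
For every ideal class which contains some `J` with `J² = (x₀)` fix such a pair `(J₀, x₀)`.  For `x, J`
in this class: `J * (β) = J₀ * (α)` with `α, β ≠ 0`, so `x β² = u x₀ α²` with a unit `u`.
`f x = (class of J, class of u modulo squares)`.  If `f x = f y` then `x β² y β'² = u u' (x₀ α α')²`,
`u u'` a square, so `x y` is a square in `E`, hence in `𝓞 E` (integrally closed).
`ker_map`: for a nonzero square `z` of `M` choose `w_z` with `z = w_z²`, and let
`f z = {σ | σ w_z = w_z}`.  If `z, z'` are fixed by `D` then `σ w_z = ± w_z` for `σ ∈ D`, and if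
`f z = f z'` the signs are the same, so `w_z w_z'` is fixed by `D`.
-/

open scoped NumberField

noncomputable section

namespace H36.QA

private theorem sel_units (E : Type) [Field E] [NumberField E] :
    ∃ g : (𝓞 E)ˣ → (NumberField.Units.torsion E × (Fin (NumberField.Units.rank E) → ZMod 2)),
      ∀ u v : (𝓞 E)ˣ, g u = g v → IsSquare (u * v) := by
  classical
  have h : ∀ u : (𝓞 E)ˣ, ∃ d : NumberField.Units.torsion E × (Fin (NumberField.Units.rank E) → ℤ),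
      u = d.1 * ∏ i, (NumberField.Units.fundSystem E i) ^ (d.2 i) := fun u =>
    (NumberField.Units.exist_unique_eq_mul_prod E u).exists
  choose d hd using h
  refine ⟨fun u => ((d u).1, fun i => ((d u).2 i : ZMod 2)), fun u v huv => ?_⟩
  obtain ⟨h1, h2⟩ := Prod.mk.inj huv
  have h3 : ∀ i, ∃ m : ℤ, (d u).2 i + (d v).2 i = m + m := by
    intro i
    have h4 := congrFun h2 i
    have h4' : (((d u).2 i : ℤ) : ZMod 2) = (((d v).2 i : ℤ) : ZMod 2) := h4
    have h5 : (((d u).2 i + (d v).2 i : ℤ) : ZMod 2) = 0 := by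
      rw [Int.cast_add, h4']
      exact CharTwo.add_self_eq_zero _
    rw [ZMod.intCast_zmod_eq_zero_iff_dvd] at h5
    obtain ⟨m, hm⟩ := h5
    exact ⟨m, by rw [hm]; push_cast; ring⟩
  choose m hm using h3
  refine ⟨(d u).1 * ∏ i, (NumberField.Units.fundSystem E i) ^ (m i), ?_⟩
  have hu := hd u
  have hv := hd v
  rw [← h1] at hv
  generalize (d u).1 = A at hu hv ⊢
  have h6 : u * v = ((A : (𝓞 E)ˣ) * A) * ∏ i, (NumberField.Units.fundSystem E i) ^ (m i + m i) := by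
    calc u * v = (A * ∏ i, (NumberField.Units.fundSystem E i) ^ ((d u).2 i)) *
          (A * ∏ i, (NumberField.Units.fundSystem E i) ^ ((d v).2 i)) := by rw [← hu, ← hv]
      _ = _ := by
        rw [mul_mul_mul_comm, ← Finset.prod_mul_distrib]
        congr 1
        refine Finset.prod_congr rfl fun i _ => ?_
        rw [← zpow_add, hm i]
  rw [h6, mul_mul_mul_comm, ← Finset.prod_mul_distrib]
  congr 1
  refine Finset.prod_congr rfl fun i _ => ?_
  rw [← zpow_add]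

theorem sel_map (E : Type) [Field E] [NumberField E] : ∃ (B : ℕ) (f : 𝓞 E → Fin B),
    ∀ x y : 𝓞 E, x ≠ 0 → y ≠ 0 → (∃ J : Ideal (𝓞 E), Ideal.span {x} = J ^ 2) →
      (∃ J : Ideal (𝓞 E), Ideal.span {y} = J ^ 2) → f x = f y → IsSquare (x * y) := by
  classical
  obtain ⟨g, hg⟩ := sel_units E
  -- the set and the chosen ideals
  let S : Type := {x : 𝓞 E // x ≠ 0 ∧ ∃ J : Ideal (𝓞 E), Ideal.span {x} = J ^ 2}
  have hJ : ∀ x : S, ∃ J : nonZeroDivisors (Ideal (𝓞 E)),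
      Ideal.span {(x : 𝓞 E)} = (J : Ideal (𝓞 E)) ^ 2 := by
    rintro ⟨x, hx, J, hJ⟩
    refine ⟨⟨J, mem_nonZeroDivisors_of_ne_zero ?_⟩, hJ⟩
    rintro rfl
    apply hx
    rw [← Ideal.span_singleton_eq_bot, hJ]
    simp
  choose J hJ using hJ
  let c : S → ClassGroup (𝓞 E) := fun x => ClassGroup.mk0 (J x)
  -- base points
  have hb : ∀ x : S, ∃ b : S, c b = c x ∧ ∀ y : S, c y = c x → True := fun x =>
    ⟨x, rfl, fun _ _ => trivial⟩
  let b : ClassGroup (𝓞 E) → S → S := fun k x => if h : ∃ y : S, c y = k then h.choose else x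
  have hbc : ∀ x : S, c (b (c x) x) = c x := by
    intro x
    have h : ∃ y : S, c y = c x := ⟨x, rfl⟩
    have : b (c x) x = h.choose := dif_pos h
    rw [this]
    exact h.choose_spec
  have hbb : ∀ x y : S, c x = c y → b (c x) x = b (c y) y := by
    intro x y hxy
    have h : ∃ z : S, c z = c x := ⟨x, rfl⟩
    have h' : ∃ z : S, c z = c y := ⟨y, rfl⟩
    have e1 : b (c x) x = h.choose := dif_pos h
    have e2 : b (c y) y = h'.choose := dif_pos h'
    rw [e1, e2]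
    congr 1
    funext z
    rw [hxy]
  have hu : ∀ x : S, ∃ (α β : 𝓞 E) (u : (𝓞 E)ˣ), α ≠ 0 ∧
      α ^ 2 * (x : 𝓞 E) * u = β ^ 2 * (b (c x) x : 𝓞 E) := by
    intro x
    obtain ⟨α, β, hα, hβ, hαβ⟩ := (ClassGroup.mk0_eq_mk0_iff (R := 𝓞 E)).mp (hbc x).symm
    have h1 : Ideal.span {α ^ 2 * (x : 𝓞 E)} = Ideal.span {β ^ 2 * (b (c x) x : 𝓞 E)} := by
      rw [← Ideal.span_singleton_mul_span_singleton, ← Ideal.span_singleton_mul_span_singleton,
        ← Ideal.span_singleton_pow, ← Ideal.span_singleton_pow, hJ x, hJ (b (c x) x), ← mul_pow,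
        ← mul_pow, hαβ]
    obtain ⟨u, hu⟩ := Ideal.span_singleton_eq_span_singleton.mp h1
    exact ⟨α, β, u, hα, hu⟩
  choose α β u hα hu using hu
  let T : Type := ClassGroup (𝓞 E) ×
    (NumberField.Units.torsion E × (Fin (NumberField.Units.rank E) → ZMod 2))
  have : Finite T := by
    have : Finite (NumberField.Units.torsion E) := inferInstance
    have : Finite (Fin (NumberField.Units.rank E) → ZMod 2) := inferInstance
    infer_instance
  let F : 𝓞 E → T := fun x => if h : x ≠ 0 ∧ ∃ J : Ideal (𝓞 E), Ideal.span {x} = J ^ 2 then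
    (c ⟨x, h⟩, g (u ⟨x, h⟩)) else (1, g 1)
  refine ⟨Nat.card T, fun x => Finite.equivFin T (F x), ?_⟩
  intro x y hx hy hx2 hy2 hf
  have hF : F x = F y := (Finite.equivFin T).injective hf
  have e1 : F x = (c ⟨x, hx, hx2⟩, g (u ⟨x, hx, hx2⟩)) := dif_pos ⟨hx, hx2⟩
  have e2 : F y = (c ⟨y, hy, hy2⟩, g (u ⟨y, hy, hy2⟩)) := dif_pos ⟨hy, hy2⟩
  rw [e1, e2] at hF
  obtain ⟨h1, h2⟩ := Prod.mk.inj hF
  obtain ⟨s, hs⟩ := hg _ _ h2
  have h3 := hu ⟨x, hx, hx2⟩
  have h4 := hu ⟨y, hy, hy2⟩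
  rw [← hbb _ _ h1] at h4
  set x0 : 𝓞 E := (b (c ⟨x, hx, hx2⟩) ⟨x, hx, hx2⟩).1 with hx0
  set a1 := α ⟨x, hx, hx2⟩
  set a2 := α ⟨y, hy, hy2⟩
  have hs' : (u ⟨x, hx, hx2⟩ : 𝓞 E) * (u ⟨y, hy, hy2⟩ : 𝓞 E) = (s : 𝓞 E) * s := by
    rw [← Units.val_mul, hs, Units.val_mul]
  have h5 : (a1 * a2 * (s : 𝓞 E)) ^ 2 * (x * y) = (β ⟨x, hx, hx2⟩ * β ⟨y, hy, hy2⟩ * x0) ^ 2 := by
    have h3' : a1 ^ 2 * x * (u ⟨x, hx, hx2⟩ : 𝓞 E) = β ⟨x, hx, hx2⟩ ^ 2 * x0 := h3
    have h4' : a2 ^ 2 * y * (u ⟨y, hy, hy2⟩ : 𝓞 E) = β ⟨y, hy, hy2⟩ ^ 2 * x0 := h4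
    calc (a1 * a2 * (s : 𝓞 E)) ^ 2 * (x * y) = a1 ^ 2 * x * (a2 ^ 2 * y) * ((s : 𝓞 E) * s) := by ring
      _ = (a1 ^ 2 * x * (u ⟨x, hx, hx2⟩ : 𝓞 E)) * (a2 ^ 2 * y * (u ⟨y, hy, hy2⟩ : 𝓞 E)) := by
          rw [← hs']; ring
      _ = _ := by rw [h3', h4']; ring
  have ha : (a1 * a2 * (s : 𝓞 E)) ≠ 0 := mul_ne_zero (mul_ne_zero (hα _) (hα _)) s.ne_zero
  have h6 : (a1 * a2 * (s : 𝓞 E)) ∣ (β ⟨x, hx, hx2⟩ * β ⟨y, hy, hy2⟩ * x0) :=
    (IsIntegrallyClosed.pow_dvd_pow_iff (R := 𝓞 E) two_ne_zero).mp (Dvd.intro _ h5)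
  obtain ⟨w, hw⟩ := h6
  refine ⟨w, ?_⟩
  rw [hw, mul_pow (a1 * a2 * (s : 𝓞 E)) w] at h5
  have h7 := mul_left_cancel₀ (pow_ne_zero 2 ha) h5
  rw [h7, sq]

theorem ker_map {K M : Type} [Field K] [Field M] [Algebra K M] (D : Subgroup Gal(M/K)) :
    ∃ f : M → Set Gal(M/K), ∀ z z' : M, z ≠ 0 → z' ≠ 0 → (∀ σ ∈ D, σ z = z) →
      (∀ σ ∈ D, σ z' = z') → IsSquare z → IsSquare z' → f z = f z' →
        ∃ w : M, (∀ σ ∈ D, σ w = w) ∧ z * z' = w ^ 2 := by
  classical
  refine ⟨fun z => if h : IsSquare z then {σ | σ h.choose = h.choose} else ∅, ?_⟩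
  intro z z' _ _ hz hz' h h' hf
  have e1 : (if h : IsSquare z then {σ : Gal(M/K) | σ h.choose = h.choose} else ∅) =
      {σ | σ h.choose = h.choose} := dif_pos h
  have e2 : (if h : IsSquare z' then {σ : Gal(M/K) | σ h.choose = h.choose} else ∅) =
      {σ | σ h'.choose = h'.choose} := dif_pos h'
  replace hf := e1.symm.trans (hf.trans e2)
  have hw : z = h.choose * h.choose := h.choose_spec
  have hw' : z' = h'.choose * h'.choose := h'.choose_spec
  set w := h.choose with hwd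
  set w' := h'.choose with hwd'
  have key : ∀ (a t : M), t = a * a → ∀ σ : Gal(M/K), σ t = t → σ a = a ∨ σ a = -a := by
    intro a t ha σ hσ
    rw [ha, map_mul] at hσ
    exact mul_self_eq_mul_self_iff.mp hσ
  refine ⟨w * w', fun σ hσ => ?_, by rw [hw, hw']; ring⟩
  rw [map_mul]
  have hiff : σ w = w ↔ σ w' = w' := by
    have := Set.ext_iff.mp hf σ
    exact this
  rcases key w z hw σ (hz σ hσ) with h1 | h1
  · rw [h1, hiff.mp h1]
  · rcases key w' z' hw' σ (hz' σ hσ) with h2 | h2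
    · rw [hiff.mpr h2, h2]
    · rw [h1, h2]; ring

end H36.QA
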