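import Pool.Agent.H36.QA.MulA
import Pool.Agent.H36.QA.MulC
import Pool.Agent.H36.QA.Sel

/-!
# [H36 QA MULM] The multiplicity (70-110 lines)

`B = B_E * 2^(#Gp)`, `B_E` and `f` from `sel_map E`.  Let `P` be nonempty, `x₀ ∈ P`,
`g₁, g₂ ∈ Gal(M/K)` with `e g₁ = c₀`, `e g₂ = c₀²` (`erange`, `inU_c`; `c₀² = c (sg i₀ ^ 2)`).
For `x ∈ P` let `y = x * x₀`: `mul_a` gives `𝔟` with `(y) = 𝔟²`, `mul_b` gives `w` with
`w² = g₁ y * g₂ y`, `mul_c` gives `ν_x` with `ι ν_x = y * g₁ y * g₂ y = y w²`.  So `z_x := y * ι ν_x =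
(y w)²` is a nonzero square of `M`, fixed by `D` (`y ∈ F`, `ι ν ∈ F`).
The map `x ↦ (f ν_x, ker_map z_x)` has at most `B_E * 2^(#Gal(M/K))` values, and
`#Gal(M/K) ≤ #Gp` (`einj`; the number of subsets of a finite type).  It is injective on `P`: if `x, x'`
have the same values then `ν_x ν_x'` is a square in `𝓞 E` and `z_x z_x' = w²` with `w ∈ F`
(fixed by `D`), so `y y' = x x' x₀²` is a square in `F`
(`y y' * ι(ν ν') = z_x z_x'`), so `x x'` is a square in `F`, hence in `𝓞 F` (integrally closed), and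
`x = x'`.
-/

open scoped NumberField Pointwise
open H38.ML H38.TD

noncomputable section

namespace H36.QA

theorem mul_main {K Ω : Type} [Field K] [NumberField K] [Field Ω] [Algebra K Ω]
    [IsAlgClosure K Ω] {m : ℕ} {H : Subgroup (Equiv.Perm (Fin m))} {Gp : Type} [Group Gp]
    [Finite Gp] (gd : GD m H Gp) (ζ : K) (hζ : IsPrimitiveRoot ζ 3) (E : Type) [Field E]
    [NumberField E] [Algebra K E] (Sb : Set (Ideal (𝓞 K))) :
    ∃ B : ℕ, 0 < B ∧ ∀ (T : Set (Ideal (𝓞 K))) (a : 𝓞 E) (_ : a ≠ 0)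
      (d : L1D K Ω gd ζ E Sb T a) (P : Finset (𝓞 d.F)) (ρ : Gal(Ω/K) →* Gp),
      (∀ x ∈ P, (∃ T₂ : Set (Ideal (𝓞 K)), AOK d.F (∅ : Set (Ideal (𝓞 K))) T₂ 2 x ∧
        ∀ v ∈ T₂, v ∉ Sb ∧ v ∉ T) ∧ ∃ O : d.O2 x, O.ρ = ρ) →
      (∀ x ∈ P, ∀ y ∈ P, IsSquare (x * y) → x = y) → P.card ≤ B := by
  classical
  obtain ⟨BE, f, hf⟩ := sel_map E
  have hBE : 0 < BE := Fin.pos (f 0)
  refine ⟨BE * 2 ^ Nat.card Gp, by positivity, fun T a ha d P ρ hP hsq => ?_⟩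
  rcases P.eq_empty_or_nonempty with rfl | ⟨x₀, hx₀⟩
  · simp
  obtain ⟨g₁, h₁⟩ := (d.erange gd.c₀).2 (gd.inU_c _)
  obtain ⟨g₂, h₂⟩ := (d.erange (gd.c₀ ^ 2)).2 (by
    unfold GD.c₀
    rw [← map_pow]
    exact gd.inU_c _)
  obtain ⟨⟨T₀, hT₀, hT₀'⟩, O₀, hO₀⟩ := hP x₀ hx₀
  have hx₀0 : x₀ ≠ 0 := hT₀.1
  have hex : ∀ x : 𝓞 d.F, ∃ (ν : 𝓞 E) (w : d.M), x ∈ P → x ≠ 0 ∧ ν ≠ 0 ∧
      (∃ J : Ideal (𝓞 E), Ideal.span {ν} = J ^ 2) ∧
      d.ι (ν : E) = (((x * x₀ : 𝓞 d.F) : d.F) : d.M) * w ^ 2 := by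
    intro x
    by_cases hx : x ∈ P
    · obtain ⟨⟨T₂, hT₂, hT₂'⟩, O, hO⟩ := hP x hx
      have hρ : ∀ σ, O.ρ σ = O₀.ρ σ := fun σ => by rw [hO, hO₀]
      obtain ⟨𝔟, h𝔟⟩ := mul_a d x x₀ T₂ T₀ hT₂ hT₀ hT₂' hT₀' O O₀ hρ
      obtain ⟨w, hw⟩ := mul_b d x x₀ hT₂.1 hx₀0 O O₀ hρ g₁ g₂ h₁ h₂
      obtain ⟨ν, hν, hJ, hι⟩ := mul_c d hζ ha (x * x₀) (mul_ne_zero hT₂.1 hx₀0) 𝔟 h𝔟 g₁ g₂ h₁ h₂
      refine ⟨ν, w, fun _ => ⟨hT₂.1, hν, hJ, ?_⟩⟩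
      rw [hι, hw, mul_assoc]
    · exact ⟨0, 0, fun h => absurd h hx⟩
  choose ν w hνw using hex
  obtain ⟨k, hk⟩ := ker_map d.D
  obtain ⟨Y, hY⟩ : ∃ Y : 𝓞 d.F → d.M, ∀ x, Y x = (((x * x₀ : 𝓞 d.F) : d.F) : d.M) :=
    ⟨_, fun _ => rfl⟩
  have hcoe : ∀ x y : 𝓞 d.F, (((x * y : 𝓞 d.F) : d.F) : d.M) =
      ((x : d.F) : d.M) * ((y : d.F) : d.M) := fun _ _ => rfl
  have hcoe0 : ∀ x : 𝓞 d.F, x ≠ 0 → ((x : d.F) : d.M) ≠ 0 := by
    intro x hx h0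
    apply hx
    apply NumberField.RingOfIntegers.ext
    exact Subtype.ext h0
  have hFfix : ∀ y : d.M, y ∈ d.F → ∀ σ ∈ d.D, σ y = y := by
    intro y hy
    exact (IntermediateField.mem_fixedField_iff d.D y).1 hy
  have hY0 : ∀ x ∈ P, Y x ≠ 0 := by
    intro x hx
    rw [hY]
    exact hcoe0 _ (mul_ne_zero (hνw x hx).1 hx₀0)
  have hYF : ∀ x, Y x ∈ d.F := by
    intro x
    rw [hY]
    exact Subtype.property _
  have hι0 : ∀ u : 𝓞 E, u ≠ 0 → d.ι (u : E) ≠ 0 := by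
    intro u hu h0
    apply hu
    apply NumberField.RingOfIntegers.ext
    have h1 := (map_eq_zero d.ι).1 h0
    rw [h1]
    rfl
  have hzsq : ∀ x ∈ P, Y x * d.ι (ν x : E) = (Y x * w x) ^ 2 := by
    intro x hx
    rw [(hνw x hx).2.2.2, ← hY]
    ring
  have hz0 : ∀ x ∈ P, Y x * d.ι (ν x : E) ≠ 0 := fun x hx =>
    mul_ne_zero (hY0 x hx) (hι0 _ (hνw x hx).2.1)
  have hzD : ∀ x, ∀ σ ∈ d.D, σ (Y x * d.ι (ν x : E)) = Y x * d.ι (ν x : E) := fun x =>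
    hFfix _ (mul_mem (hYF x) (d.ι_mem _))
  letI : Fintype Gal(d.M/K) := Fintype.ofFinite _
  have hinj : Set.InjOn (fun x : 𝓞 d.F => (f (ν x), k (Y x * d.ι (ν x : E))))
      (P : Set (𝓞 d.F)) := by
    intro x hx x' hx' he
    rw [Finset.mem_coe] at hx hx'
    rw [Prod.mk.injEq] at he
    obtain ⟨u, hu⟩ := hf (ν x) (ν x') (hνw x hx).2.1 (hνw x' hx').2.1 (hνw x hx).2.2.1
      (hνw x' hx').2.2.1 he.1
    obtain ⟨v, hv, hvz⟩ := hk (Y x * d.ι (ν x : E)) (Y x' * d.ι (ν x' : E)) (hz0 x hx) (hz0 x' hx')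
      (hzD x) (hzD x') (by rw [hzsq x hx]; exact ⟨_, sq _⟩) (by rw [hzsq x' hx']; exact ⟨_, sq _⟩)
      he.2
    apply hsq x hx x' hx'
    have hu0 : u ≠ 0 := by
      rintro rfl
      rw [mul_zero] at hu
      exact mul_ne_zero (hνw x hx).2.1 (hνw x' hx').2.1 hu
    have huι : d.ι (ν x : E) * d.ι (ν x' : E) = d.ι (u : E) * d.ι (u : E) := by
      have h5 : (ν x : E) * (ν x' : E) = (u : E) * (u : E) := by
        have := congrArg (fun t : 𝓞 E => (t : E)) hu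
        simpa using this
      rw [← map_mul d.ι, ← map_mul d.ι, h5]
    have hι0u := hι0 u hu0
    have hx0c := hcoe0 x₀ hx₀0
    have hs : (v / (d.ι (u : E) * ((x₀ : d.F) : d.M))) ^ 2 =
        ((x : d.F) : d.M) * ((x' : d.F) : d.M) := by
      rw [div_pow, ← hvz, hY, hY, hcoe, hcoe]
      rw [div_eq_iff (pow_ne_zero 2 (mul_ne_zero hι0u hx0c))]
      calc ((x : d.F) : d.M) * ((x₀ : d.F) : d.M) * d.ι (ν x : E) *
            (((x' : d.F) : d.M) * ((x₀ : d.F) : d.M) * d.ι (ν x' : E))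
          = ((x : d.F) : d.M) * ((x' : d.F) : d.M) * ((x₀ : d.F) : d.M) ^ 2 *
            (d.ι (ν x : E) * d.ι (ν x' : E)) := by ring
        _ = _ := by
            rw [huι]
            ring
    have hvF : v ∈ d.F := (IntermediateField.mem_fixedField_iff d.D v).2 hv
    have hsF : v / (d.ι (u : E) * ((x₀ : d.F) : d.M)) ∈ d.F :=
      div_mem hvF (mul_mem (d.ι_mem _) (Subtype.property _))
    have hs2 : (⟨_, hsF⟩ : d.F) ^ 2 = ((x * x' : 𝓞 d.F) : d.F) := Subtype.ext hs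
    have hint : IsIntegral ℤ (⟨_, hsF⟩ : d.F) := by
      apply IsIntegral.of_pow (n := 2) (by norm_num)
      rw [hs2]
      exact NumberField.RingOfIntegers.isIntegral_coe _
    refine ⟨⟨⟨_, hsF⟩, hint⟩, ?_⟩
    apply NumberField.RingOfIntegers.ext
    rw [← hs2, sq]
    rfl
  have hcard := Finset.card_le_card_of_injOn
    (fun x : 𝓞 d.F => (f (ν x), k (Y x * d.ι (ν x : E))))
    (fun _ _ => Finset.mem_coe.2 (Finset.mem_univ _)) hinj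
  rw [Finset.card_univ, Fintype.card_prod, Fintype.card_fin, Fintype.card_set] at hcard
  refine hcard.trans (Nat.mul_le_mul_left _ (Nat.pow_le_pow_right (by norm_num) ?_))
  rw [← Nat.card_eq_fintype_card]
  exact Nat.card_le_card_of_injective d.e d.einj

end H36.QA
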