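import Pool.Agent.H36.QA.NDefs

/-!
# [H36 QA XOK] The elements of the second layer satisfy the conditions (60-100 lines)

`I` is squarefree with prime factors `V` of prime norm, different `V` have different norms (because
`absNorm I` is squarefree and multiplicative).  `T₂ = {V.under (𝓞 K) | V ∣ I prime}`.
`absNorm V = absNorm (V.under (𝓞 K)) ^ f` is prime, so the two norms are equal; therefore `V ↦ V.under` is
injective on the prime factors and `∏_{v ∈ T₂} absNorm v = ∏_{V ∣ I} absNorm V = absNorm I`.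
`ordAt V x = (multiplicity in I) + 2 (multiplicity in J)` (`ordAt_of_span_mul`), which is odd iff
`V ∣ I`.
-/

open scoped NumberField Pointwise
open H38.ML H38.TD

noncomputable section

namespace H36.QA

open UniqueFactorizationMonoid in
open Classical in
theorem xok_ord {F : Type} [Field F] [NumberField F] (x : 𝓞 F) (I J : Ideal (𝓞 F)) (hI : I ≠ ⊥)
    (hJ : J ≠ ⊥) (h : Ideal.span {x} = I * J ^ 2) (V : Ideal (𝓞 F)) :
    ordAt V x = Multiset.count V (normalizedFactors I) +
      2 * Multiset.count V (normalizedFactors J) := by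
  rw [ordAt_of_span_mul V I (J ^ 2) hI (pow_ne_zero 2 hJ) h, normalizedFactors_pow,
    Multiset.count_nsmul]

theorem xok_under_ne {K F : Type} [Field K] [NumberField K] [Field F] [NumberField F]
    [Algebra K F] (V : Ideal (𝓞 F)) (hV : V.IsPrime) : ¬ IsUnit (Ideal.absNorm (V.under (𝓞 K))) := by
  rw [Nat.isUnit_iff, Ideal.absNorm_eq_one_iff]
  exact (inferInstance : (V.under (𝓞 K)).IsPrime).ne_top

theorem xok_norm {K F : Type} [Field K] [NumberField K] [Field F] [NumberField F] [Algebra K F]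
    (V : Ideal (𝓞 F)) (hV : V.IsPrime) (h0 : V ≠ ⊥) :
    ∃ f : ℕ, f ≠ 0 ∧ Ideal.absNorm V = Ideal.absNorm (V.under (𝓞 K)) ^ f := by
  have hv0 : V.under (𝓞 K) ≠ ⊥ := Ideal.under_ne_bot (𝓞 K) h0
  have hvp : (V.under (𝓞 K)).IsPrime := inferInstance
  have h3 := Ideal.absNorm_eq_pow_inertiaDeg'_of_liesOver V (V.under (𝓞 K)) hvp hv0
  refine ⟨_, ?_, h3⟩
  intro hf
  rw [hf, pow_zero, Ideal.absNorm_eq_one_iff] at h3
  exact hV.ne_top h3

theorem xok_one {K F : Type} [Field K] [NumberField K] [Field F] [NumberField F] [Algebra K F]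
    (V : Ideal (𝓞 F)) (hV : V.IsPrime) (h0 : V ≠ ⊥) (hs : Squarefree (Ideal.absNorm V)) :
    Ideal.absNorm V = Ideal.absNorm (V.under (𝓞 K)) := by
  obtain ⟨f, hf, h⟩ := xok_norm (K := K) V hV h0
  have hf1 : f = 1 := by
    by_contra hne
    apply xok_under_ne (K := K) V hV
    apply hs
    rw [h, ← sq]
    exact pow_dvd_pow _ (by omega)
  rw [h, hf1, pow_one]

open UniqueFactorizationMonoid in
theorem xok_pair {K F : Type} [Field K] [NumberField K] [Field F] [NumberField F] [Algebra K F]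
    (I : Ideal (𝓞 F)) (hI : I ≠ ⊥) (hsq : Squarefree (Ideal.absNorm I)) (V V' : Ideal (𝓞 F))
    (h : ({V, V'} : Multiset (Ideal (𝓞 F))) ≤ normalizedFactors I) :
    V.under (𝓞 K) ≠ V'.under (𝓞 K) := by
  have h1 : V * V' ∣ I := by
    have h2 := Multiset.prod_dvd_prod_of_le h
    rw [Ideal.prod_normalizedFactors_eq_self hI, Multiset.prod_pair] at h2
    exact h2
  have hm : ∀ W ∈ ({V, V'} : Multiset (Ideal (𝓞 F))), W.IsPrime ∧ W ≠ ⊥ := by
    intro W hW
    have h2 := Multiset.mem_of_le h hW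
    have h3 := prime_of_normalized_factor W h2
    exact ⟨Ideal.isPrime_of_prime h3, h3.ne_zero⟩
  obtain ⟨hV, hV0⟩ := hm V (by simp)
  obtain ⟨hV', hV0'⟩ := hm V' (by simp)
  obtain ⟨f, hf, hf'⟩ := xok_norm (K := K) V hV hV0
  obtain ⟨g, hg, hg'⟩ := xok_norm (K := K) V' hV' hV0'
  intro he
  apply xok_under_ne (K := K) V hV
  apply hsq
  have h4 : Ideal.absNorm (V * V') ∣ Ideal.absNorm I := by
    obtain ⟨L, rfl⟩ := h1
    rw [map_mul Ideal.absNorm (V * V') L]
    exact dvd_mul_right _ _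
  refine dvd_trans ?_ h4
  rw [map_mul, hf', hg', ← he]
  exact mul_dvd_mul (dvd_pow_self _ hf) (dvd_pow_self _ hg)

theorem x_ok (K F : Type) [Field K] [NumberField K] [Field F] [NumberField F] [Algebra K F]
    (x : 𝓞 F) (hx : x ≠ 0) (I J : Ideal (𝓞 F)) (h : Ideal.span {x} = I * J ^ 2)
    (hsq : Squarefree (Ideal.absNorm I)) :
    ∃ T₂ : Finset (Ideal (𝓞 K)),
      AOK F (∅ : Set (Ideal (𝓞 K))) (T₂ : Set (Ideal (𝓞 K))) 2 x ∧
        ∏ v ∈ T₂, Ideal.absNorm v = Ideal.absNorm I := by
  classical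
  have hsp : Ideal.span {x} ≠ (⊥ : Ideal (𝓞 F)) := by
    rw [Ne, Ideal.span_singleton_eq_bot]
    exact hx
  have hI : I ≠ ⊥ := by
    rintro rfl
    apply hsp
    rw [h, ← Ideal.zero_eq_bot, zero_mul]
  have hJ : J ≠ ⊥ := by
    rintro rfl
    apply hsp
    rw [h, ← Ideal.zero_eq_bot, zero_pow (by norm_num), mul_zero]
  have hnd : (UniqueFactorizationMonoid.normalizedFactors I).Nodup := by
    rw [Multiset.nodup_iff_le]
    intro V hV
    exact xok_pair (K := K) I hI hsq V V hV rfl
  have hfac : ∀ V ∈ UniqueFactorizationMonoid.normalizedFactors I, V.IsPrime ∧ V ≠ ⊥ := by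
    intro V hV
    have h3 := UniqueFactorizationMonoid.prime_of_normalized_factor V hV
    exact ⟨Ideal.isPrime_of_prime h3, h3.ne_zero⟩
  have hnorm : ∀ V ∈ UniqueFactorizationMonoid.normalizedFactors I,
      Ideal.absNorm V = Ideal.absNorm (V.under (𝓞 K)) := by
    intro V hV
    refine xok_one V (hfac V hV).1 (hfac V hV).2 (hsq.squarefree_of_dvd ?_)
    obtain ⟨L, hL⟩ := UniqueFactorizationMonoid.dvd_of_mem_normalizedFactors hV
    rw [hL, map_mul Ideal.absNorm V L]
    exact dvd_mul_right _ _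
  have hinj : ∀ V ∈ UniqueFactorizationMonoid.normalizedFactors I,
      ∀ V' ∈ UniqueFactorizationMonoid.normalizedFactors I,
        V.under (𝓞 K) = V'.under (𝓞 K) → V = V' := by
    intro V hV V' hV' he
    by_contra hne
    refine xok_pair (K := K) I hI hsq V V' ?_ he
    rw [Multiset.le_iff_subset (by simpa using hne)]
    intro W hW
    have hW' : W = V ∨ W = V' := by simpa using hW
    rcases hW' with rfl | rfl
    · exact hV
    · exact hV'
  refine ⟨(UniqueFactorizationMonoid.normalizedFactors I).toFinset.image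
    (fun V => V.under (𝓞 K)), ⟨hx, ?_, ?_⟩, ?_⟩
  · intro V _ _ _ hVT
    have h1 : V ∉ UniqueFactorizationMonoid.normalizedFactors I := by
      intro h2
      apply hVT
      rw [Finset.mem_coe, Finset.mem_image]
      exact ⟨V, Multiset.mem_toFinset.2 h2, rfl⟩
    rw [xok_ord x I J hI hJ h V, Multiset.count_eq_zero_of_notMem h1, zero_add]
    exact dvd_mul_right _ _
  · intro v hv
    rw [Finset.mem_coe, Finset.mem_image] at hv
    obtain ⟨V, hV, rfl⟩ := hv
    rw [Multiset.mem_toFinset] at hV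
    obtain ⟨hVp, hV0⟩ := hfac V hV
    refine ⟨inferInstance, Ideal.under_ne_bot (𝓞 K) hV0, Set.notMem_empty _, V, hVp, rfl,
      hnorm V hV, ?_, ?_⟩
    · rw [xok_ord x I J hI hJ h V, Multiset.count_eq_one_of_mem hnd hV]
      omega
    · intro V' _ hV'v hne
      have h1 : V' ∉ UniqueFactorizationMonoid.normalizedFactors I := fun h2 =>
        hne (hinj V' h2 V hV hV'v)
      rw [xok_ord x I J hI hJ h V', Multiset.count_eq_zero_of_notMem h1, zero_add]
      exact dvd_mul_right _ _
  · rw [Finset.prod_image fun V hV V' hV' he =>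
      hinj V (Multiset.mem_toFinset.1 hV) V' (Multiset.mem_toFinset.1 hV') he]
    rw [Finset.prod_congr rfl fun V hV => (hnorm V (Multiset.mem_toFinset.1 hV)).symm]
    rw [Finset.prod_eq_multiset_prod, Multiset.toFinset_val, hnd.dedup, ← map_multiset_prod,
      Ideal.prod_normalizedFactors_eq_self hI]

end H36.QA
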