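import Pool.Agent.H36.QA.L2c
import Pool.Agent.H36.QA.Xok
import Pool.Agent.H36.QA.MulM

/-!
# [H36 QA FINA] The homomorphisms attached to one cubic extension (80-130 lines)

`C` from `l2_disc`, `B` from `mul_main`.  For `x ∈ X`: `T₂` from `x_ok` (for `K`, `F = d.F`), `absNorm v`
divides `absNorm I` for `v ∈ T₂`; so `v ∉ Sb`, `v ∉ T` (otherwise `absNorm v` would be coprime to
`absNorm I` and divide it, so `absNorm v = 1`, `v = ⊤`).  `T₂` is not empty because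
`1 < absNorm I = ∏ absNorm v`.  `O_x` from `l2_exists`, surjective by `l2_surj`; `ρ_x = φ ∘ O_x.ρ`,
finite type (`ft_comp`), `relDisc ≤ C ((∏_T absNorm v) * absNorm I)^2` by `l2_disc`, and
`φ⁻¹ (ρ_x σ) = O_x.ρ σ = v * d.R σ` by `l2_mod`.  `Rs` = image of `X` under `x ↦ ρ_x` (choice of `O_x`);
every fibre has at most `B` elements by `mul_main` (`φ` is injective), so `#X ≤ B #Rs`
(`Finset.card_le_mul_card_image`).
-/

open scoped NumberField Pointwise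
open H38.ML H38.TD

noncomputable section

namespace H36.QA

theorem fin_a {n : ℕ} (G : Subgroup (Equiv.Perm (Fin n)))
    (hG : MulAction.IsPretransitive G (Fin n)) (i : Fin n) (K : IntermediateField ℚ QBar)
    [FiniteDimensional ℚ K] [NumberField K] {m : ℕ} {H : Subgroup (Equiv.Perm (Fin m))}
    {Gp : Type} [Group Gp] [Finite Gp] (gd : GD m H Gp) (φ : Gp ≃* G) (hind : indG G = 2)
    (hc : ind ((φ gd.c₀ : G) : Equiv.Perm (Fin n)) = 2)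
    (hd : ind ((φ gd.d₀ : G) : Equiv.Perm (Fin n)) = 2) (ζ : K) (hζ : IsPrimitiveRoot ζ 3)
    (E : Type) [Field E] [NumberField E] [Algebra K E] (Sb : Set (Ideal (𝓞 K)))
    (hSbf : Sb.Finite)
    (hSb : ∀ v : Ideal (𝓞 K), v.IsPrime → v ≠ ⊥ → v ∉ Sb →
      ((2 : ℕ) : 𝓞 K) ∉ v ∧ ((n.factorial : ℕ) : 𝓞 K) ∉ v) :
    ∃ C B : ℕ, 0 < C ∧ 0 < B ∧ ∀ (T : Finset (Ideal (𝓞 K))) (a : 𝓞 E) (_ : a ≠ 0)
      (_ : ∀ v ∈ T, v.IsPrime ∧ v ≠ ⊥ ∧ v ∉ Sb)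
      (d : L1D K QBar gd ζ E Sb (T : Set (Ideal (𝓞 K))) a) (Y : ℝ) (X : Finset (𝓞 d.F)),
      (∀ x ∈ X, x ≠ 0 ∧ ∃ I J : Ideal (𝓞 d.F), Ideal.span {x} = I * J ^ 2 ∧
        Squarefree (Ideal.absNorm I) ∧
        (∀ v : Ideal (𝓞 K), v.IsPrime → v ≠ ⊥ → v ∈ Sb ∨ v ∈ T →
          (Ideal.absNorm I).Coprime (Ideal.absNorm v)) ∧
        1 < Ideal.absNorm I ∧ (Ideal.absNorm I : ℝ) ≤ Y) →
      (∀ x ∈ X, ∀ y ∈ X, IsSquare (x * y) → x = y) →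
      ∃ Rs : Finset (Gal(QBar/K) →* G),
        (∀ ρ ∈ Rs, Function.Surjective ρ ∧ FT ρ ∧
          (relDisc K (fieldOf i ρ) : ℝ) ≤ C * ((∏ v ∈ T, (Ideal.absNorm v : ℝ)) * Y) ^ 2 ∧
          ∀ σ, ∃ v ∈ gd.V, φ.symm (ρ σ) = v * d.R σ) ∧
        X.card ≤ B * Rs.card := by
  classical
  obtain ⟨C, hC0, hC⟩ := l2_disc G hG i K gd φ hind hc hd ζ E Sb hSbf hSb
  obtain ⟨B, hB0, hB⟩ := mul_main (Ω := QBar) gd ζ hζ E Sb
  refine ⟨C, B, hC0, hB0, ?_⟩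
  intro T a ha hT d Y X hX hXs
  have key : ∀ x : 𝓞 d.F, ∃ ρ₂ : Gal(QBar/K) →* Gp, x ∈ X →
      (Function.Surjective ρ₂ ∧ FT ρ₂ ∧
        (relDisc K (fieldOf i (φ.toMonoidHom.comp ρ₂)) : ℝ) ≤
          C * ((∏ v ∈ T, (Ideal.absNorm v : ℝ)) * Y) ^ 2 ∧
        (∀ σ, ∃ v ∈ gd.V, ρ₂ σ = v * d.R σ) ∧
        (∃ T₂ : Set (Ideal (𝓞 K)), AOK d.F (∅ : Set (Ideal (𝓞 K))) T₂ 2 x ∧
          ∀ v ∈ T₂, v ∉ Sb ∧ v ∉ (T : Set (Ideal (𝓞 K)))) ∧ ∃ O : d.O2 x, O.ρ = ρ₂) := by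
    intro x
    by_cases hxX : x ∈ X
    swap
    · exact ⟨1, fun h => absurd h hxX⟩
    obtain ⟨hx0, I, J, hIJ, hsq, hcop, h1, hY⟩ := hX x hxX
    obtain ⟨T₂, hT₂, hprod⟩ := x_ok K d.F x hx0 I J hIJ hsq
    have hno : ∀ v ∈ T₂, ¬ (v ∈ Sb ∨ v ∈ T) := by
      intro v hv hvv
      obtain ⟨hvp, hv0, -⟩ := hT₂.2.2 v (Finset.mem_coe.2 hv)
      have h2 := hcop v hvp hv0 hvv
      have h3 : Ideal.absNorm v ∣ Ideal.absNorm I := by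
        rw [← hprod]
        exact Finset.dvd_prod_of_mem _ hv
      have h4 := Nat.Coprime.eq_one_of_dvd h2.symm h3
      rw [Ideal.absNorm_eq_one_iff] at h4
      exact hvp.ne_top h4
    have hdj : ∀ v ∈ T₂, v ∉ Sb ∧ v ∉ T :=
      fun v hv => ⟨fun h => hno v hv (Or.inl h), fun h => hno v hv (Or.inr h)⟩
    have hne : (T₂ : Set (Ideal (𝓞 K))).Nonempty := by
      rw [Finset.coe_nonempty, Finset.nonempty_iff_ne_empty]
      rintro rfl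
      rw [Finset.prod_empty] at hprod
      omega
    have hdj' : ∀ v ∈ (T₂ : Set (Ideal (𝓞 K))), v ∉ Sb ∧ v ∉ (T : Set (Ideal (𝓞 K))) :=
      fun v hv => ⟨(hdj v (Finset.mem_coe.1 hv)).1,
        fun h => (hdj v (Finset.mem_coe.1 hv)).2 (Finset.mem_coe.1 h)⟩
    obtain ⟨O⟩ := l2_exists d x hx0
    have hs := l2_surj d x (T₂ : Set (Ideal (𝓞 K))) hT₂ hne hdj' O
    have hdisc := hC T T₂ a d x hT₂ hdj hT O hs
    refine ⟨O.ρ, fun _ => ⟨hs, O.ft, ?_, l2_mod d x O, ⟨(T₂ : Set (Ideal (𝓞 K))), hT₂, hdj'⟩,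
      O, rfl⟩⟩
    rw [hprod] at hdisc
    have h5 : (relDisc K (fieldOf i (φ.toMonoidHom.comp O.ρ)) : ℝ) ≤
        ((C * ((∏ v ∈ T, Ideal.absNorm v) * Ideal.absNorm I) ^ 2 : ℕ) : ℝ) := by
      exact_mod_cast hdisc
    refine h5.trans ?_
    push_cast
    have h6 : (0 : ℝ) ≤ ∏ v ∈ T, (Ideal.absNorm v : ℝ) :=
      Finset.prod_nonneg fun v _ => Nat.cast_nonneg _
    gcongr
  choose ρ₂ hρ₂ using key
  refine ⟨X.image (fun x => φ.toMonoidHom.comp (ρ₂ x)), ?_, ?_⟩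
  · intro ρ hρ
    obtain ⟨x, hx, rfl⟩ := Finset.mem_image.1 hρ
    obtain ⟨h1, h2, h3, h4, -, -⟩ := hρ₂ x hx
    refine ⟨φ.surjective.comp h1, ft_comp _ _ h2, h3, fun σ => ?_⟩
    obtain ⟨v, hv, hve⟩ := h4 σ
    refine ⟨v, hv, ?_⟩
    rw [← hve]
    exact φ.symm_apply_apply _
  · refine Finset.card_le_mul_card_image X B fun b _ => ?_
    refine hB (T : Set (Ideal (𝓞 K))) a ha d _ (φ.symm.toMonoidHom.comp b) ?_ ?_
    · intro x hx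
      obtain ⟨hxX, hxb⟩ := Finset.mem_filter.1 hx
      obtain ⟨-, -, -, -, h5, O, hO⟩ := hρ₂ x hxX
      refine ⟨h5, O, ?_⟩
      rw [hO, ← hxb]
      ext σ
      exact (φ.symm_apply_apply _).symm
    · intro x hx y hy
      exact hXs x (Finset.mem_filter.1 hx).1 y (Finset.mem_filter.1 hy).1

end H36.QA
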