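import Pool.Agent.H36.QA.AvgD

/-!
# [H36 QA GAV] The group average (90-150 lines, only Mathlib and BDefs)

`T`, `D` disjoint.  For `s` with support in `T` the element `ae π s` is not in `P w`, `w ∈ D`.
For `w ∈ D` let `k_w = 𝓞 E ⧸ P w` (a finite field: `P w` is maximal, `Ideal.finiteQuotient...`), and
`Q_w = k_wˣ ⧸ (range of the cubing map)`: the group `k_wˣ` is cyclic, so `Q_w` has at most 3 elements
(the kernel of the cubing map has at most 3 elements, and `#Q_w = #kernel`: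
`Subgroup.card_...`/index of the range = card of the kernel for an endomorphism of a finite group;
`#{x | x^3 = 1} ≤ 3` by `IsCyclic.card_pow_eq_one_le` or roots of `X^3 - 1`).
The map `s ↦ (class of ae π s in Q_w)_{w ∈ D}` satisfies `f(s + t) = f(s) f(t)` because
`(s v + t v).val ≡ (s v).val + (t v).val mod 3`; on the finite group of the `s` with support in `T`
(order `3^|T|`, `card_Sx`) it is a homomorphism to a group with at most `3^|D|` elements, so its
kernel has at least `3^(|T| - |D|)` elements (or pigeonhole: some fibre has `≥ 3^(|T| - |D|)`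
elements, subtract a fixed element of it).  If `ae π s` is a cube in `k_wˣ` there is `r` with
`ae π s - r^3 ∈ P w`.
See `Pool/Agent/H38/TD/PRes.lean` (`pres_index`) for a similar proof with one place.
-/

open scoped NumberField

noncomputable section

namespace H36.QA

/-- The element attached to `s`. -/
def ae {Pt E : Type} [Field E] [NumberField E] (π : Pt → 𝓞 E) (s : Pt →₀ ZMod 3) : 𝓞 E :=
  ∏ v ∈ s.support, π v ^ (s v).val

theorem gav_cl (G : Type) [CommGroup G] [IsCyclic G] :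
    ∃ cl : G → ZMod 3, ∀ x y, cl x = cl y → ∃ z, x = y * z ^ 3 := by
  obtain ⟨g, hg⟩ := IsCyclic.exists_generator (α := G)
  have h1 : ∀ x : G, ∃ n : ℤ, g ^ n = x := fun x => Subgroup.mem_zpowers_iff.1 (hg x)
  choose n hn using h1
  refine ⟨fun x => (n x : ZMod 3), fun x y hxy => ?_⟩
  have h2 : ((3 : ℕ) : ℤ) ∣ n x - n y := by
    have h3 := (ZMod.intCast_eq_intCast_iff_dvd_sub (n y) (n x) 3).1 hxy.symm
    exact h3
  obtain ⟨k, hk⟩ := h2
  refine ⟨g ^ k, ?_⟩
  have h4 : n x = n y + k * (3 : ℕ) := by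
    linarith
  calc x = g ^ (n x) := (hn x).symm
    _ = g ^ (n y) * (g ^ k) ^ (3 : ℕ) := by rw [h4, zpow_add, zpow_mul, zpow_natCast]
    _ = y * (g ^ k) ^ 3 := by rw [hn y]

theorem gav_dec : ∀ a b : ZMod 3, ∃ e : Fin 2, (a - b).val + b.val = a.val + 3 * e.val := by
  decide

theorem gav_ae {Pt E : Type} [Field E] [NumberField E] (π : Pt → 𝓞 E) {T : Finset Pt}
    {s : Pt →₀ ZMod 3} (hs : s ∈ Sx T) : ae π s = ∏ v ∈ T, π v ^ (s v).val := by
  unfold ae
  refine Finset.prod_subset ((mem_Sx T s).1 hs) fun v _ hv => ?_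
  rw [Finsupp.notMem_support_iff.1 hv]
  simp

theorem gav_sub {Pt : Type} {T : Finset Pt} {s s' : Pt →₀ ZMod 3} (hs : s ∈ Sx T)
    (hs' : s' ∈ Sx T) : s - s' ∈ Sx T := by
  classical
  rw [mem_Sx] at hs hs' ⊢
  exact Finsupp.support_sub.trans (Finset.union_subset hs hs')

theorem gav {Pt E : Type} [Field E] [NumberField E] (π : Pt → 𝓞 E) (P : Pt → Ideal (𝓞 E))
    (hP : ∀ v, (P v).IsPrime) (hP0 : ∀ v, P v ≠ ⊥) (hπ : ∀ v w, v ≠ w → π v ∉ P w) :
    GA fun (s : Pt →₀ ZMod 3) (w : Pt) => ∃ r : 𝓞 E, ae π s - r ^ 3 ∈ P w := by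
  classical
  intro T D hTD
  have hex : ∀ w : D, ∃ cl : (Pt →₀ ZMod 3) → ZMod 3, ∀ s ∈ Sx T, ∀ s' ∈ Sx T, cl s = cl s' →
      ∃ r : 𝓞 E, ae π (s - s') - r ^ 3 ∈ P w := by
    rintro ⟨w, hw⟩
    have hwT : ∀ v ∈ T, v ≠ w := by
      rintro v hv rfl
      exact (Finset.disjoint_left.1 hTD hv) hw
    have hmax : (P w).IsMaximal := (hP w).isMaximal (hP0 w)
    let _ : Field (𝓞 E ⧸ P w) := Ideal.Quotient.field (P w)
    have hfin : Finite (𝓞 E ⧸ P w) := Ideal.finiteQuotientOfFreeOfNeBot (P w) (hP0 w)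
    obtain ⟨cl, hcl⟩ := gav_cl ((𝓞 E ⧸ P w)ˣ)
    have hne : ∀ v ∈ T, Ideal.Quotient.mk (P w) (π v) ≠ 0 := by
      intro v hv h
      exact hπ v w (hwT v hv) (Ideal.Quotient.eq_zero_iff_mem.1 h)
    have hne' : ∀ e : Pt → ℕ, Ideal.Quotient.mk (P w) (∏ v ∈ T, π v ^ e v) ≠ 0 := by
      intro e
      rw [map_prod]
      refine Finset.prod_ne_zero_iff.2 fun v hv => ?_
      rw [map_pow]
      exact pow_ne_zero _ (hne v hv)
    have haene : ∀ s ∈ Sx T, Ideal.Quotient.mk (P w) (ae π s) ≠ 0 := by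
      intro s hs
      rw [gav_ae π hs]
      exact hne' fun v => (s v).val
    refine ⟨fun s => if h : Ideal.Quotient.mk (P w) (ae π s) = 0 then 0 else
      cl (Units.mk0 _ h), fun s hs s' hs' h => ?_⟩
    simp only [dif_neg (haene s hs), dif_neg (haene s' hs')] at h
    obtain ⟨z, hz⟩ := hcl _ _ h
    have hz' : Ideal.Quotient.mk (P w) (ae π s) =
        Ideal.Quotient.mk (P w) (ae π s') * (z : 𝓞 E ⧸ P w) ^ 3 := by
      have h1 := congrArg (fun u : (𝓞 E ⧸ P w)ˣ => (u : 𝓞 E ⧸ P w)) hz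
      simpa using h1
    choose e he using fun v => gav_dec (s v) (s' v)
    have hprod : ae π (s - s') * ae π s' = ae π s * (∏ v ∈ T, π v ^ (e v).val) ^ 3 := by
      rw [gav_ae π hs, gav_ae π hs', gav_ae π (gav_sub hs hs'), ← Finset.prod_mul_distrib,
        ← Finset.prod_pow, ← Finset.prod_mul_distrib]
      refine Finset.prod_congr rfl fun v _ => ?_
      rw [← pow_add, ← pow_mul, ← pow_add, Finsupp.sub_apply, he v, mul_comm 3]
    obtain ⟨r, hr⟩ := Ideal.Quotient.mk_surjective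
      ((z : 𝓞 E ⧸ P w) * Ideal.Quotient.mk (P w) (∏ v ∈ T, π v ^ (e v).val))
    refine ⟨r, ?_⟩
    rw [← Ideal.Quotient.eq_zero_iff_mem, map_sub, map_pow, hr, sub_eq_zero]
    have h2 := congrArg (Ideal.Quotient.mk (P w)) hprod
    rw [map_mul, map_mul, map_pow, hz'] at h2
    have h3 := haene s' hs'
    apply mul_right_cancel₀ h3
    rw [h2]
    ring
  choose cl hcl using hex
  set f : (Pt →₀ ZMod 3) → (D → ZMod 3) := fun s w => cl w s with hf
  have hcard : (Finset.univ : Finset (D → ZMod 3)).card = 3 ^ D.card := by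
    rw [Finset.card_univ, Fintype.card_fun, ZMod.card, Fintype.card_coe]
  have hpig : ∃ b : D → ZMod 3, 3 ^ T.card ≤ 3 ^ D.card * ((Sx T).filter (fun s => f s = b)).card := by
    by_contra hcon
    push Not at hcon
    have h1 : (Sx T).card = ∑ b : D → ZMod 3, ((Sx T).filter (fun s => f s = b)).card :=
      Finset.card_eq_sum_card_fiberwise fun s _ => Finset.mem_coe.2 (Finset.mem_univ _)
    have h2 : ∑ b : D → ZMod 3, 3 ^ D.card * ((Sx T).filter (fun s => f s = b)).card <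
        ∑ _b : D → ZMod 3, 3 ^ T.card :=
      Finset.sum_lt_sum_of_nonempty Finset.univ_nonempty fun b _ => hcon b
    rw [← Finset.mul_sum, ← h1, card_Sx, Finset.sum_const, hcard, smul_eq_mul] at h2
    exact lt_irrefl _ h2
  obtain ⟨b, hb⟩ := hpig
  have hnon : ((Sx T).filter (fun s => f s = b)).Nonempty := by
    rw [← Finset.card_pos]
    by_contra h0
    have h1 : ((Sx T).filter (fun s => f s = b)).card = 0 := by omega
    rw [h1, mul_zero] at hb
    have h2 : 0 < 3 ^ T.card := by positivity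
    omega
  obtain ⟨s0, hs0⟩ := hnon
  obtain ⟨hs0T, hs0b⟩ := Finset.mem_filter.1 hs0
  refine ⟨((Sx T).filter (fun s => f s = b)).image (fun s => s - s0), ?_, ?_⟩
  · intro s hs
    obtain ⟨s', hs', rfl⟩ := Finset.mem_image.1 hs
    obtain ⟨hs'T, hs'b⟩ := Finset.mem_filter.1 hs'
    refine ⟨gav_sub hs'T hs0T, fun w hw => ?_⟩
    refine hcl ⟨w, hw⟩ s' hs'T s0 hs0T ?_
    exact congrFun (hs'b.trans hs0b.symm) ⟨w, hw⟩
  · rw [Finset.card_image_of_injective _ (sub_left_injective)]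
    exact hb

end H36.QA
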