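import Pool.Agent.H36.QA.UB1
import Pool.Agent.H36.QA.BDefs

/-!
# [H36 QA KAPP] The residue bounds the sum over the sets of split places (70-110 lines)

For `D ∈ Ds` and a function `i : D → Fin 3` (`Finset.pi` or functions `Pt → Fin 3` which are `0`
outside `D`) let `𝔞 = ∏_{v ∈ D} P v (i v)`: an ideal of norm `∏_D N`; the map `(D, i) ↦ 𝔞` is
injective (unique factorization into the different primes `P v (i v)`, `hinj`).  So
`∑_{D ∈ Ds} ∏_D 3/N = ∑_{(D, i)} 1/N(𝔞) ≤ ∑_{𝔞 ∈ U} 1 / N 𝔞` with `U` a finite set of nonzero ideals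
of norm in `(W, W']`.  Dyadic decomposition: the ideals with `2^k W < N 𝔞 ≤ 2^(k+1) W` are at most
`C κ 2^(k+1) W` (`ub1` with `u = 2^(k+1) W ≥ C d^A`) and contribute at most `2 C κ`; the number of `k`
with `2^k W < W'` is at most `1 + log(W'/W)/log 2 ≤ 4 log W'` (`W ≥ 1`, `W' ≥ 2`).
-/

open scoped NumberField
open NumberField

noncomputable section

namespace H36.QA

/-- dyadic decomposition -/
theorem kapp_dy {ι : Type} (N : ι → ℝ) (c W : ℝ) (hW : 0 < W) (U : Finset ι)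
    (hub : ∀ u : ℝ, W ≤ u → ∀ T ⊆ U, (∀ I ∈ T, N I ≤ u) → (T.card : ℝ) ≤ c * u) (K : ℕ) :
    ∀ T ⊆ U, (∀ I ∈ T, W < N I ∧ N I ≤ 2 ^ K * W) → ∑ I ∈ T, 1 / N I ≤ 2 * c * K := by
  classical
  induction K with
  | zero =>
    intro T _ hT
    have h0 : T = ∅ := by
      rw [Finset.eq_empty_iff_forall_notMem]
      intro I hI
      obtain ⟨h1, h2⟩ := hT I hI
      rw [pow_zero, one_mul] at h2
      linarith
    rw [h0, Finset.sum_empty]
    simp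
  | succ K ih =>
    intro T hTU hT
    rw [← Finset.sum_filter_add_sum_filter_not T (fun I => N I ≤ 2 ^ K * W)]
    have h1 := ih (T.filter fun I => N I ≤ 2 ^ K * W) ((Finset.filter_subset _ _).trans hTU) (by
      intro I hI
      obtain ⟨h2, h3⟩ := Finset.mem_filter.1 hI
      exact ⟨(hT I h2).1, h3⟩)
    have hK1 : (1 : ℝ) ≤ 2 ^ (K + 1) := one_le_pow₀ (by norm_num)
    have hKW : (0 : ℝ) < 2 ^ K * W := by positivity
    have h2 := hub (2 ^ (K + 1) * W) (by nlinarith)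
      (T.filter fun I => ¬ N I ≤ 2 ^ K * W) ((Finset.filter_subset _ _).trans hTU) (by
        intro I hI
        exact (hT I (Finset.mem_filter.1 hI).1).2)
    have h3 : ∑ I ∈ T.filter (fun I => ¬ N I ≤ 2 ^ K * W), 1 / N I ≤
        ((T.filter fun I => ¬ N I ≤ 2 ^ K * W).card : ℝ) * (1 / (2 ^ K * W)) := by
      rw [← nsmul_eq_mul]
      refine Finset.sum_le_card_nsmul _ _ _ fun I hI => ?_
      have h4 := not_le.1 (Finset.mem_filter.1 hI).2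
      exact one_div_le_one_div_of_le hKW h4.le
    have h4 : ((T.filter fun I => ¬ N I ≤ 2 ^ K * W).card : ℝ) * (1 / (2 ^ K * W)) ≤ 2 * c := by
      rw [mul_one_div, div_le_iff₀ hKW]
      calc ((T.filter fun I => ¬ N I ≤ 2 ^ K * W).card : ℝ) ≤ c * (2 ^ (K + 1) * W) := h2
        _ = 2 * c * (2 ^ K * W) := by ring
    push_cast
    linarith

theorem kapp_eq {F : Type} [Field F] [NumberField F] {I J : Ideal (𝓞 F)} (hI : I.IsPrime)
    (hJ : J.IsPrime) (hJ0 : J ≠ ⊥) (h : I ∣ J) : I = J := by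
  have h1 : J ≤ I := Ideal.dvd_iff_le.1 h
  exact ((Ideal.IsPrime.isMaximal hJ hJ0).eq_of_le hI.ne_top h1).symm

/-- the ideal of a set of places and a choice of a prime over each of them -/
def kid {F : Type} [Field F] [NumberField F] {Pt : Type} (P : Pt → Fin 3 → Ideal (𝓞 F))
    (x : Σ D : Finset Pt, (a : Pt) → a ∈ D → Fin 3) : Ideal (𝓞 F) :=
  ∏ y ∈ x.1.attach, P y.1 (x.2 y.1 y.2)

theorem kapp_attach {M : Type*} [CommMonoid M] {α : Type*} (s : Finset α)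
    (g : {y // y ∈ s} → M) (v : α) (hv : v ∈ s) : g ⟨v, hv⟩ ∣ ∏ y ∈ s.attach, g y :=
  Finset.dvd_prod_of_mem g (Finset.mem_attach s ⟨v, hv⟩)

theorem kid_dvd {F : Type} [Field F] [NumberField F] {Pt : Type} {N : Pt → ℕ} {G : Pt → Prop}
    {P : Pt → Fin 3 → Ideal (𝓞 F)}
    (hP : ∀ v, G v → ∀ i, (P v i).IsPrime ∧ P v i ≠ ⊥ ∧ Ideal.absNorm (P v i) = N v)
    (hinj : ∀ v w i j, G v → G w → P v i = P w j → v = w ∧ i = j)
    {x x' : Σ D : Finset Pt, (a : Pt) → a ∈ D → Fin 3} (hx : ∀ v ∈ x.1, G v)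
    (hx' : ∀ v ∈ x'.1, G v) (h : kid P x = kid P x') (v : Pt) (hv : v ∈ x.1) :
    ∃ hv' : v ∈ x'.1, x.2 v hv = x'.2 v hv' := by
  obtain ⟨h1, h2, -⟩ := hP v (hx v hv) (x.2 v hv)
  have h3 := kapp_attach x.1 (fun y => P y.1 (x.2 y.1 y.2)) v hv
  have h3' : ∏ y ∈ x.1.attach, P y.1 (x.2 y.1 y.2) = kid P x := rfl
  rw [h3', h] at h3
  unfold kid at h3
  obtain ⟨y, -, hy⟩ := (Ideal.prime_of_isPrime h2 h1).exists_mem_finset_dvd h3
  obtain ⟨h4, h5, -⟩ := hP y.1 (hx' y.1 y.2) (x'.2 y.1 y.2)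
  obtain ⟨h6, h7⟩ := hinj v y.1 _ _ (hx v hv) (hx' y.1 y.2) (kapp_eq h1 h4 h5 hy)
  obtain ⟨y, hy'⟩ := y
  subst h6
  exact ⟨hy', h7⟩

theorem kid_inj {F : Type} [Field F] [NumberField F] {Pt : Type} {N : Pt → ℕ} {G : Pt → Prop}
    {P : Pt → Fin 3 → Ideal (𝓞 F)}
    (hP : ∀ v, G v → ∀ i, (P v i).IsPrime ∧ P v i ≠ ⊥ ∧ Ideal.absNorm (P v i) = N v)
    (hinj : ∀ v w i j, G v → G w → P v i = P w j → v = w ∧ i = j)
    {x x' : Σ D : Finset Pt, (a : Pt) → a ∈ D → Fin 3} (hx : ∀ v ∈ x.1, G v)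
    (hx' : ∀ v ∈ x'.1, G v) (h : kid P x = kid P x') : x = x' := by
  obtain ⟨D, p⟩ := x
  obtain ⟨D', p'⟩ := x'
  have h1 := kid_dvd hP hinj hx hx' h
  have h2 := kid_dvd hP hinj hx' hx h.symm
  have h3 : D = D' := by
    ext v
    exact ⟨fun hv => (h1 v hv).1, fun hv => (h2 v hv).1⟩
  subst h3
  congr 1
  funext v hv
  exact (h1 v hv).2

theorem kid_norm {F : Type} [Field F] [NumberField F] {Pt : Type} {N : Pt → ℕ} {G : Pt → Prop}
    {P : Pt → Fin 3 → Ideal (𝓞 F)}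
    (hP : ∀ v, G v → ∀ i, (P v i).IsPrime ∧ P v i ≠ ⊥ ∧ Ideal.absNorm (P v i) = N v)
    (x : Σ D : Finset Pt, (a : Pt) → a ∈ D → Fin 3) (hx : ∀ v ∈ x.1, G v) :
    Ideal.absNorm (kid P x) = ∏ v ∈ x.1, N v := by
  unfold kid
  rw [map_prod, ← Finset.prod_attach x.1]
  exact Finset.prod_congr rfl fun y _ => (hP y.1 (hx y.1 y.2) _).2.2

theorem kid_ne {F : Type} [Field F] [NumberField F] {Pt : Type} {N : Pt → ℕ} {G : Pt → Prop}
    {P : Pt → Fin 3 → Ideal (𝓞 F)}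
    (hP : ∀ v, G v → ∀ i, (P v i).IsPrime ∧ P v i ≠ ⊥ ∧ Ideal.absNorm (P v i) = N v)
    (x : Σ D : Finset Pt, (a : Pt) → a ∈ D → Fin 3) (hx : ∀ v ∈ x.1, G v) :
    kid P x ≠ ⊥ := by
  unfold kid
  rw [← Ideal.zero_eq_bot, Finset.prod_ne_zero_iff]
  intro y _
  rw [Ideal.zero_eq_bot]
  exact (hP y.1 (hx y.1 y.2) _).2.1

theorem kapp (n : ℕ) (hn : 0 < n) : ∃ C : ℝ, 1 ≤ C ∧ ∃ A : ℕ,
    ∀ (F : Type) [Field F] [NumberField F], TC F n → ∀ (Pt : Type) (N : Pt → ℕ) (G : Pt → Prop)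
      (P : Pt → Fin 3 → Ideal (𝓞 F)),
      (∀ v, G v → ∀ i, (P v i).IsPrime ∧ P v i ≠ ⊥ ∧ Ideal.absNorm (P v i) = N v) →
      (∀ v w i j, G v → G w → P v i = P w j → v = w ∧ i = j) →
      ∀ W W' : ℝ, C * dd F ^ A ≤ W → W ≤ W' → 2 ≤ W' → ∀ Ds : Finset (Finset Pt),
        (∀ D ∈ Ds, W < ∏ v ∈ D, (N v : ℝ) ∧ ∏ v ∈ D, (N v : ℝ) ≤ W' ∧ ∀ v ∈ D, G v) →
          ∑ D ∈ Ds, ∏ v ∈ D, 3 / (N v : ℝ) ≤ C * kap F * Real.log W' := by
  classical
  obtain ⟨C₁, hC₁, A, hub⟩ := ub1 n hn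
  refine ⟨6 * C₁, by linarith, A, ?_⟩
  intro F _ _ hF Pt N G P hP hinj W W' hW hWW' hW' Ds hDs
  have hd : (1 : ℝ) ≤ dd F ^ A := one_le_pow₀ (one_le_dd F)
  have hk := kap_pos F
  have hW1 : C₁ * dd F ^ A ≤ W := by nlinarith
  have hW2 : 1 ≤ W := by nlinarith
  have hlog : Real.log 2 ≤ Real.log W' := Real.log_le_log (by norm_num) hW'
  have hl2 : 0 < Real.log 2 := Real.log_pos (by norm_num)
  have hl2' : 2 / 3 < Real.log 2 := by
    have := Real.log_two_gt_d9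
    linarith
  -- the index set
  let Sg : Finset (Σ D : Finset Pt, (a : Pt) → a ∈ D → Fin 3) :=
    Ds.sigma fun D => D.pi fun _ => (Finset.univ : Finset (Fin 3))
  have hSg : ∀ x ∈ Sg, x.1 ∈ Ds := fun x hx => (Finset.mem_sigma.1 hx).1
  have hG : ∀ x ∈ Sg, ∀ v ∈ x.1, G v := fun x hx => (hDs x.1 (hSg x hx)).2.2
  have e1 : ∑ D ∈ Ds, ∏ v ∈ D, 3 / (N v : ℝ) =
      ∑ x ∈ Sg, 1 / ((Ideal.absNorm (kid P x) : ℕ) : ℝ) := by
    rw [Finset.sum_sigma]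
    refine Finset.sum_congr rfl fun D hD => ?_
    have h1 : ∀ v ∈ D, 3 / (N v : ℝ) = ∑ _i ∈ (Finset.univ : Finset (Fin 3)), 1 / (N v : ℝ) := by
      intro v _
      rw [Finset.sum_const, Finset.card_univ, Fintype.card_fin, nsmul_eq_mul]
      push_cast
      ring
    rw [Finset.prod_congr rfl h1, Finset.prod_sum]
    refine Finset.sum_congr rfl fun q _ => ?_
    rw [kid_norm hP ⟨D, q⟩ (hDs D hD).2.2]
    push_cast
    rw [← Finset.prod_attach D, one_div, ← Finset.prod_inv_distrib]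
    exact Finset.prod_congr rfl fun y _ => by rw [one_div]
  have e2 : ∑ x ∈ Sg, 1 / ((Ideal.absNorm (kid P x) : ℕ) : ℝ) =
      ∑ I ∈ Sg.image (kid P), 1 / ((Ideal.absNorm I : ℕ) : ℝ) :=
    (Finset.sum_image (f := fun I : Ideal (𝓞 F) => 1 / ((Ideal.absNorm I : ℕ) : ℝ))
      (fun a ha b hb hab => kid_inj hP hinj (hG a ha) (hG b hb) hab)).symm
  rw [e1, e2]
  -- the number of dyadic intervals
  obtain ⟨K, hK⟩ : ∃ K, K = ⌈Real.log W' / Real.log 2⌉₊ := ⟨_, rfl⟩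
  have hK1 : Real.log W' / Real.log 2 ≤ K := by
    rw [hK]
    exact Nat.le_ceil _
  have hK2 : (K : ℝ) ≤ 3 * Real.log W' := by
    have h1 : (K : ℝ) < Real.log W' / Real.log 2 + 1 := by
      rw [hK]
      exact Nat.ceil_lt_add_one (div_nonneg (by linarith) hl2.le)
    have h2 : Real.log W' / Real.log 2 + 1 ≤ 3 * Real.log W' := by
      have h3 : Real.log W' / Real.log 2 ≤ Real.log W' * (3 / 2) := by
        rw [div_le_iff₀ hl2]
        nlinarith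
      have h4 : 1 ≤ Real.log W' * (3 / 2) := by linarith
      linarith
    linarith
  have hK3 : W' ≤ 2 ^ K := by
    have h1 : Real.log W' ≤ Real.log ((2 : ℝ) ^ K) := by
      rw [Real.log_pow]
      rwa [div_le_iff₀ hl2] at hK1
    exact (Real.log_le_log_iff (by linarith) (by positivity)).1 h1
  have hfin := kapp_dy (fun I : Ideal (𝓞 F) => ((Ideal.absNorm I : ℕ) : ℝ)) (C₁ * kap F) W
    (by linarith) (Sg.image (kid P)) (by
      intro u hu T hTU hT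
      refine hub F hF u (hW1.trans hu) T fun I hI => ⟨?_, hT I hI⟩
      obtain ⟨x, hx, rfl⟩ := Finset.mem_image.1 (hTU hI)
      exact kid_ne hP x (hG x hx)) K (Sg.image (kid P)) (Finset.Subset.refl _) (by
      intro I hI
      obtain ⟨x, hx, rfl⟩ := Finset.mem_image.1 hI
      obtain ⟨h1, h2, -⟩ := hDs x.1 (hSg x hx)
      have h3 : ((Ideal.absNorm (kid P x) : ℕ) : ℝ) = ∏ v ∈ x.1, (N v : ℝ) := by
        rw [kid_norm hP x (hG x hx)]
        push_cast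
        rfl
      show W < ((Ideal.absNorm (kid P x) : ℕ) : ℝ) ∧
        ((Ideal.absNorm (kid P x) : ℕ) : ℝ) ≤ 2 ^ K * W
      rw [h3]
      refine ⟨h1, h2.trans (hK3.trans ?_)⟩
      have h4 : (0 : ℝ) < 2 ^ K := by positivity
      nlinarith)
  refine hfin.trans ?_
  have h5 : 2 * (C₁ * kap F) * (K : ℝ) ≤ 2 * (C₁ * kap F) * (3 * Real.log W') :=
    mul_le_mul_of_nonneg_left hK2 (by positivity)
  linarith

end H36.QA
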