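import Pool.Agent.H36.QA.F2
import Pool.Agent.H36.QA.F3
import Pool.Agent.H36.QA.Kapp
import Pool.Agent.H36.QA.Aok
import Pool.Agent.H36.QA.AvgD

/-!
# [H36 QA KBM] The residues bound the numbers of sets of split places (80-120 lines)

`n = 3 m [K:ℚ]`, `C, A` from `kapp n`, `C', A'` from `f_disc` (`T = b.T s`; the elements of `b.T s` are
primes `≠ ⊥`: `aok_of`).  Let `s ≠ 0`, `GT nv ε X s.support`, `d = dL s _ _`.
`dd d.F ≤ C' (∏_{v ∈ b.T s} N v)^A' = C' (∏_{supp s} nv)^A' ≤ C' X^A'` (`gt_prod`), so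
`C (dd F)^A ≤ C C'^A X^(A' A) ≤ C₁ X^A₁ ≤ W`.
For `v : b.Pt` with `v ∉ supp s` and `b.a s - r³ ∈ v` for some `r`, `f_split` gives the primes
`P v i` (`3 ∉ v`: `SbOK`, `v` is not above `Sb`; `b.a s ∉ v`: `a_notMem`); `G v` = this condition (choose
`P` with `Classical.choice`/`if`).  Different `v` give different primes because
`(P v i).comap d.ιO = v`.  `kapp` with `Pt = b.Pt`, `N = nv`, for the sets `D ∈ Ds`.
`W' ≥ 2`: take `C₁ ≥ 2` (`X ≥ 1` because the empty or any product of norms is `≥ 1`).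
`kpf dL s = kap d.F`.
-/

open scoped NumberField Pointwise
open H38.ML H38.TD

noncomputable section

namespace H36.QA

variable {K Ω : Type} [Field K] [NumberField K] [Field Ω] [Algebra K Ω] [IsAlgClosure K Ω]
  {m : ℕ} {H : Subgroup (Equiv.Perm (Fin m))} {Gp : Type} [Group Gp]

/-- A family of first layers. -/
abbrev Fam (Ω : Type) [Field Ω] [Algebra K Ω] [IsAlgClosure K Ω] (gd : GD m H Gp) (ζ : K)
    {E : Type} [Field E] [NumberField E] [Algebra K E] {Sb : Set (Ideal (𝓞 K))}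
    (b : BD K E Sb) : Type :=
  ∀ s : b.Pt →₀ ZMod 3, s ≠ 0 → Set.InjOn (fun v : b.Pt => nv v.1) (s.support : Set b.Pt) →
    L1D K Ω gd ζ E Sb (b.T s : Set (Ideal (𝓞 K))) (b.a s)

open Classical in
/-- The residues of the fields `F`. -/
def kpf {gd : GD m H Gp} {ζ : K} {E : Type} [Field E] [NumberField E] [Algebra K E]
    {Sb : Set (Ideal (𝓞 K))} {b : BD K E Sb} (dL : Fam Ω gd ζ b) (s : b.Pt →₀ ZMod 3) : ℝ :=
  if h : s ≠ 0 ∧ Set.InjOn (fun v : b.Pt => nv v.1) (s.support : Set b.Pt) then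
    kap (dL s h.1 h.2).F else 0

theorem kbm (gd : GD m H Gp) (ζ : K) (hζ : IsPrimitiveRoot ζ 3) (E : Type) [Field E]
    [NumberField E] [Algebra K E] (Sb : Set (Ideal (𝓞 K))) (hSbf : Sb.Finite)
    (hSb3 : ∀ v : Ideal (𝓞 K), v.IsPrime → v ≠ ⊥ → v ∉ Sb → ((3 : ℕ) : 𝓞 K) ∉ v)
    (b : BD K E Sb) :
    ∃ C₁ : ℝ, 1 ≤ C₁ ∧ ∃ A₁ : ℕ, ∀ (dL : Fam Ω gd ζ b) (ε : ℝ),
      KB (fun v : b.Pt => nv v.1) ε C₁ A₁ (kpf dL)
        (fun s v => ∃ r : 𝓞 E, b.a s - r ^ 3 ∈ v.1.asIdeal) := by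
  have hm : 0 < m := lt_of_le_of_lt (Nat.zero_le _) gd.i₀.2
  have hn : 0 < 3 * m * Module.finrank ℚ K :=
    Nat.mul_pos (Nat.mul_pos (by norm_num) hm) Module.finrank_pos
  obtain ⟨C, hC, A, hkapp⟩ := kapp (3 * m * Module.finrank ℚ K) hn
  obtain ⟨C', hC', A', hf⟩ := f_disc (Ω := Ω) gd ζ E Sb hSbf
  have hCC : C ≤ C * C' ^ A := le_mul_of_one_le_right (by linarith) (one_le_pow₀ hC')
  refine ⟨max 2 (C * C' ^ A), le_trans (by norm_num) (le_max_left _ _), A' * A, ?_⟩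
  intro dL ε
  unfold KB
  intro s X hs0 hGT W W' hW hWW' Ds hDs
  have hprod : ∏ v ∈ s.support, ((nv (v : b.Pt).1 : ℕ) : ℝ) ≤ X := hGT.2.2
  -- `X ≥ 1`
  have hX1 : 1 ≤ X := by
    refine le_trans ?_ hprod
    refine Finset.prod_induction _ (fun x : ℝ => 1 ≤ x) (fun a b ha hb => ?_) le_rfl
      (fun v _ => ?_)
    · nlinarith
    · exact_mod_cast nv_pos v.1
  have hXA : 1 ≤ X ^ (A' * A) := one_le_pow₀ hX1
  have hkpf : kpf dL s = kap (dL s hs0 hGT.1).F := dif_pos ⟨hs0, hGT.1⟩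
  rw [hkpf]
  obtain ⟨d, hdef⟩ : ∃ d, d = dL s hs0 hGT.1 := ⟨_, rfl⟩
  rw [← hdef]
  have hok := aok_of b s hGT.1
  have hdisc : dd d.F ≤ C' * X ^ A' := by
    refine (hf (b.T s) (b.a s) d fun v hv => ⟨(hok.2.2 v hv).1, (hok.2.2 v hv).2.1⟩).trans ?_
    have h1 := (gt_prod b s hGT.1).1
    have h2 : ∏ v ∈ b.T s, (Ideal.absNorm v : ℝ) =
        ∏ v ∈ s.support, ((nv (v : b.Pt).1 : ℕ) : ℝ) := by
      rw [← Nat.cast_prod, ← Nat.cast_prod, h1]
    rw [h2]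
    have h3 : (0 : ℝ) ≤ ∏ v ∈ s.support, ((nv (v : b.Pt).1 : ℕ) : ℝ) :=
      Finset.prod_nonneg fun v _ => Nat.cast_nonneg _
    exact mul_le_mul_of_nonneg_left (pow_le_pow_left₀ h3 hprod _) (by linarith)
  have hCW : C * dd d.F ^ A ≤ W := by
    refine le_trans ?_ hW
    calc C * dd d.F ^ A ≤ C * (C' * X ^ A') ^ A :=
          mul_le_mul_of_nonneg_left (pow_le_pow_left₀ (dd_pos _).le hdisc _) (by linarith)
      _ = C * C' ^ A * X ^ (A' * A) := by rw [mul_pow, ← pow_mul]; ring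
      _ ≤ max 2 (C * C' ^ A) * X ^ (A' * A) :=
          mul_le_mul_of_nonneg_right (le_max_right _ _) (by positivity)
  have hW2 : 2 ≤ W' := by
    refine le_trans ?_ (hW.trans hWW')
    calc (2 : ℝ) = 2 * 1 := by ring
      _ ≤ max 2 (C * C' ^ A) * X ^ (A' * A) :=
          mul_le_mul (le_max_left _ _) hXA (by norm_num) (le_trans (by norm_num) (le_max_left _ _))
  -- the split places
  have hex : ∀ v : b.Pt, ∃ P : Fin 3 → Ideal (𝓞 d.F),
      (v ∉ s.support ∧ ∃ r : 𝓞 E, b.a s - r ^ 3 ∈ v.1.asIdeal) →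
      Function.Injective P ∧ ∀ i, (P i).IsPrime ∧ P i ≠ ⊥ ∧ (P i).comap d.ιO = v.1.asIdeal ∧
        Ideal.absNorm (P i) = nv v.1 := by
    intro v
    by_cases hv : v ∉ s.support ∧ ∃ r : 𝓞 E, b.a s - r ^ 3 ∈ v.1.asIdeal
    · obtain ⟨h1, r, hr⟩ := hv
      have h3 : (3 : 𝓞 E) ∉ v.1.asIdeal := by
        intro h4
        have hvp : v.1.asIdeal.IsPrime := v.1.isPrime
        refine hSb3 (v.1.asIdeal.under (𝓞 K)) inferInstance
          (Ideal.under_ne_bot (𝓞 K) v.1.ne_bot) (ak_notMem b v) ?_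
        rw [Ideal.under_def, Ideal.mem_comap, map_natCast]
        exact_mod_cast h4
      obtain ⟨P, hP⟩ := f_split d hζ v.1 h3 (a_notMem b s v h1) r hr
      exact ⟨P, fun _ => hP⟩
    · exact ⟨fun _ => ⊥, fun h => absurd h hv⟩
  choose P hP using hex
  have hfin := hkapp d.F (f_tc d hζ) b.Pt (fun v => nv v.1)
    (fun v => v ∉ s.support ∧ ∃ r : 𝓞 E, b.a s - r ^ 3 ∈ v.1.asIdeal) P
    (fun v hv i => ⟨((hP v hv).2 i).1, ((hP v hv).2 i).2.1, ((hP v hv).2 i).2.2.2⟩)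
    (by
      intro v w i j hv hw hij
      have h1 : v = w := by
        apply Subtype.ext
        apply IsDedekindDomain.HeightOneSpectrum.ext
        rw [← ((hP v hv).2 i).2.2.1, hij, ((hP w hw).2 j).2.2.1]
      subst h1
      exact ⟨rfl, (hP v hv).1 hij⟩)
    W W' hCW hWW' hW2 Ds (by
      intro D hD
      obtain ⟨h1, h2, h3, h4⟩ := hDs D hD
      refine ⟨h2, h3, fun v hv => ⟨?_, h4 v hv⟩⟩
      exact Finset.disjoint_left.1 h1 hv)
  refine hfin.trans ?_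
  have hk := kap_pos d.F
  have hlog : 0 ≤ Real.log W' := Real.log_nonneg (by linarith)
  exact mul_le_mul_of_nonneg_right
    (mul_le_mul_of_nonneg_right (hCC.trans (le_max_right _ _)) hk.le) hlog

end H36.QA
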