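import Pool.Agent.H36.QA.L1b

/-!
# [H36 QA L1C] The first layer: assembly (100-160 lines)

`O` from `l1_exists`; `factor O.ρ O.ft` gives `M`, `e` injective with `e (res M σ) = O.ρ σ`;
`res M` is surjective, so the range of `e` is the range of `O.ρ` (`l1_range`).  An element of `Ω` fixed
by `M.fixingSubgroup = ker (res M)` is in `M` (`InfiniteGalois.fixedField_fixingSubgroup`; `Ω/K` is
Galois: `IsAlgClosure.isGalois K Ω`); `σ ∈ ker (res M)` iff `O.ρ σ = 1`.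
* `I1`, `I2`: `l1_I1`, `l1_I2` (`e (res M τ) = O.ρ τ = 1` gives `res M τ = 1`).
* `ι`: for `y ∈ E0` the image of `y` in `Ω` is fixed by all `σ` with `O.ρ σ = 1`: by `O.hρ` and
`gd.form_uniq` (or `gd.uniq`) `e₀ (res M₀ σ) = 1`, so `res M₀ σ ∈ D0`, and `σ y = res M₀ σ y = y`.
So `y ∈ M`; this defines a `K`-algebra homomorphism `E0 → M` with `((ι y : M) : Ω) = ((y : M₀) : Ω)`
(for instance: `IntermediateField.lift`, `liftAlgEquiv`, `IntermediateField.inclusion`).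
* `hι`: `gd.Bk (e g)`, `g = res M σ`: `O.ρ σ = c t * hb h` with `h = e₀ (res M₀ σ)` and `h i₀ = i₀`, iff
`res M₀ σ ∈ D0`.  If `y ∈ M` is fixed by all these `g` then it is fixed by all `σ` with
`res M₀ σ ∈ D0`, in particular by `M₀.fixingSubgroup`, so it is in `M₀` and in the fixed field of `D0`.
* `θ` from `l1_theta`: it is fixed by all `σ` with `O.ρ σ = 1` (`t = 1`, `h = 1`), so `θ ∈ M`.
`hθ0`: `e g = c t * hb h` (range), `gd.stab`: `h i₀ = i₀`, `t i₀ = 1`.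
`hθ1`: `c₀ = c (sg i₀) * hb 1`, `(toAdd (sg i₀ i₀)).val = 1`.
-/

open scoped NumberField Pointwise
open H38.ML H38.TD

noncomputable section

namespace H36.QA

variable {K Ω : Type} [Field K] [NumberField K] [Field Ω] [Algebra K Ω] [IsAlgClosure K Ω]
  {m : ℕ} {H : Subgroup (Equiv.Perm (Fin m))} {Gp : Type} [Group Gp] (gd : GD m H Gp)
  (M₀ : IntermediateField K Ω) [FiniteDimensional K M₀] [IsGalois K M₀] [NumberField M₀]
  (e₀ : Gal(M₀/K) →* H)

omit [NumberField K] in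
/-- An element fixed by the kernel of the restriction to `M` is in `M`. -/
theorem lc_mem (M : IntermediateField K Ω) [IsGalois K M] [CharZero K] (x : Ω)
    (hx : ∀ σ : Gal(Ω/K), res M σ = 1 → σ x = x) : x ∈ M := by
  haveI : IsGalois K Ω := IsAlgClosure.isGalois K Ω
  rw [← InfiniteGalois.fixedField_fixingSubgroup M, IntermediateField.mem_fixedField_iff]
  intro σ hσ
  apply hx
  rw [← IntermediateField.restrictNormalHom_ker M, MonoidHom.mem_ker] at hσ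
  exact hσ

/-- The form of `O.ρ σ`. -/
theorem lc_form {gd : GD m H Gp} {M₀ : IntermediateField K Ω} [FiniteDimensional K M₀]
    [IsGalois K M₀] [NumberField M₀] {e₀ : Gal(M₀/K) →* H} {ζ : K} {a : 𝓞 (E0 gd e₀)}
    (O : O1 gd M₀ e₀ ζ a) (σ : Gal(Ω/K)) :
    ∃ t, O.ρ σ = gd.c t * gd.hb (e₀ (res M₀ σ)) := ⟨_, O.hρ σ⟩

theorem lc_h {gd : GD m H Gp} {M₀ : IntermediateField K Ω} [FiniteDimensional K M₀]
    [IsGalois K M₀] [NumberField M₀] {e₀ : Gal(M₀/K) →* H} {ζ : K} {a : 𝓞 (E0 gd e₀)}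
    (O : O1 gd M₀ e₀ ζ a) (σ : Gal(Ω/K)) {t : Fin m → Multiplicative (ZMod 3)} {h : H}
    (e : O.ρ σ = gd.c t * gd.hb h) : e₀ (res M₀ σ) = h := by
  obtain ⟨t', ht'⟩ := lc_form O σ
  rw [ht'] at e
  exact (gd.form_uniq e).2

theorem l1_main (he₀ : Function.Surjective e₀) (ζ : K) (hζ : IsPrimitiveRoot ζ 3)
    (a : 𝓞 (E0 gd e₀)) (Sb T : Set (Ideal (𝓞 K))) (hSb : SbOK (M₀ := M₀) Sb)
    (ha : AOK (E0 gd e₀) Sb T 3 a) (hT : T.Nonempty) :
    ∃ d : L1D K Ω gd ζ (E0 gd e₀) Sb T a,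
      ∀ x : E0 gd e₀, ((d.ι x : d.M) : Ω) = ((x : M₀) : Ω) := by
  haveI : IsGalois K Ω := IsAlgClosure.isGalois K Ω
  obtain ⟨O⟩ := l1_exists gd M₀ e₀ ζ hζ a ha.1
  obtain ⟨M, hfin, hgal, e, einj, he⟩ := factor O.ρ O.ft
  obtain ⟨θ, hθ3, hθσ⟩ := l1_theta gd M₀ e₀ ζ hζ a O
  have hsurj : Function.Surjective (res M) := AlgEquiv.restrictNormalHom_surjective Ω
  have hsurj₀ : Function.Surjective (res M₀) := AlgEquiv.restrictNormalHom_surjective Ω
  have hres1 : ∀ σ : Gal(Ω/K), res M σ = 1 ↔ O.ρ σ = 1 := by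
    intro σ
    rw [← he σ]
    constructor
    · intro h
      rw [h, map_one]
    · intro h
      exact einj (by rw [h, map_one])
  have hone : (1 : Gp) = gd.c 1 * gd.hb 1 := by rw [map_one, map_one, one_mul]
  have hD0 : ∀ σ : Gal(Ω/K), O.ρ σ = 1 → res M₀ σ ∈ D0 gd e₀ := by
    intro σ hσ
    rw [hone] at hσ
    rw [mem_D0, lc_h O σ hσ]
    rfl
  -- elements of `E0` are fixed by the `σ` whose restriction is in `D0`
  have hE0 : ∀ (y : E0 gd e₀) (σ : Gal(Ω/K)), res M₀ σ ∈ D0 gd e₀ →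
      σ ((y : M₀) : Ω) = ((y : M₀) : Ω) := by
    intro y σ hσ
    rw [← kx_res M₀ σ (y : M₀)]
    exact congrArg (Subtype.val) (y.2 ⟨res M₀ σ, hσ⟩)
  have hιmem : ∀ y : E0 gd e₀, ((y : M₀) : Ω) ∈ M := by
    intro y
    apply lc_mem M
    intro σ hσ
    exact hE0 y σ (hD0 σ ((hres1 σ).1 hσ))
  let ι : E0 gd e₀ →ₐ[K] M :=
    AlgHom.codRestrict ((M₀.val).comp (E0 gd e₀).val) M.toSubalgebra hιmem
  have hιc : ∀ y : E0 gd e₀, ((ι y : M) : Ω) = ((y : M₀) : Ω) := fun y => rfl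
  have hθM : θ ∈ M := by
    apply lc_mem M
    intro σ hσ
    have h1 := (hres1 σ).1 hσ
    rw [hone] at h1
    have h2 := hθσ σ 1 1 h1 rfl
    rw [h2]
    simp
  have heform : ∀ σ : Gal(Ω/K), gd.InU (e (res M σ)) := by
    intro σ
    rw [he σ]
    obtain ⟨t, ht⟩ := lc_form O σ
    exact ⟨t, _, ht⟩
  have hBk : ∀ σ : Gal(Ω/K), gd.Bk (e (res M σ)) ↔ res M₀ σ ∈ D0 gd e₀ := by
    intro σ
    rw [he σ, mem_D0]
    constructor
    · rintro ⟨t, h, h1, h2⟩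
      rw [lc_h O σ h1]
      exact h2
    · intro h
      obtain ⟨t, ht⟩ := lc_form O σ
      exact ⟨t, _, ht, h⟩
  refine ⟨{ M := M
            fin := hfin
            gal := hgal
            e := e
            einj := einj
            erange := ?_
            I1 := ?_
            I2 := ?_
            ι := ι
            hι := ?_
            θ := ⟨θ, hθM⟩
            hθ := ?_
            hθ0 := ?_
            hθ1 := ?_ }, fun x => rfl⟩
  · intro u
    rw [← l1_range gd M₀ e₀ he₀ ζ hζ a Sb T hSb ha hT O u]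
    constructor
    · rintro ⟨g, hg⟩
      obtain ⟨σ, rfl⟩ := hsurj g
      exact ⟨σ, by rw [← he σ, hg]⟩
    · rintro ⟨σ, hσ⟩
      exact ⟨res M σ, by rw [he σ, hσ]⟩
  · intro 𝔓 h𝔓 h0 h1 h2 τ hτ
    rw [hres1]
    exact l1_I1 gd M₀ e₀ ζ hζ a Sb T hSb ha O 𝔓 h𝔓 h0 h1 h2 τ hτ
  · intro 𝔓 h𝔓 h2
    obtain ⟨u, hu, h3⟩ := l1_I2 gd M₀ e₀ ζ hζ a Sb T hSb ha O 𝔓 h𝔓 h2
    refine ⟨u, hu, fun τ hτ => ?_⟩
    rw [he τ]
    exact h3 τ hτ
  · intro y
    constructor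
    · intro hy
      -- y is fixed by all σ with restriction in D0
      have h1 : ∀ σ : Gal(Ω/K), res M₀ σ ∈ D0 gd e₀ → σ (y : Ω) = (y : Ω) := by
        intro σ hσ
        rw [← kx_res M σ y, hy (res M σ) ((hBk σ).2 hσ)]
      have h2 : (y : Ω) ∈ M₀ := by
        apply lc_mem M₀
        intro σ hσ
        apply h1
        rw [hσ]
        exact one_mem _
      have h3 : (⟨(y : Ω), h2⟩ : M₀) ∈ E0 gd e₀ := by
        rintro ⟨g, hg⟩
        obtain ⟨σ, rfl⟩ := hsurj₀ g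
        apply Subtype.ext
        exact (kx_res M₀ σ ⟨(y : Ω), h2⟩).trans (h1 σ hg)
      exact ⟨⟨⟨(y : Ω), h2⟩, h3⟩, Subtype.ext rfl⟩
    · rintro ⟨x, rfl⟩ g hg
      obtain ⟨σ, rfl⟩ := hsurj g
      apply Subtype.ext
      rw [kx_res M σ (ι x), hιc]
      exact hE0 x σ ((hBk σ).1 hg)
  · apply Subtype.ext
    exact hθ3
  · intro g hg
    obtain ⟨σ, rfl⟩ := hsurj g
    apply Subtype.ext
    rw [kx_res M σ]
    obtain ⟨t, ht⟩ := lc_form O σ
    rw [he σ, ht] at hg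
    obtain ⟨h1, h2⟩ := (gd.stab t _).1 hg
    have h3 := hθσ σ t _ ht h1
    show σ θ = θ
    rw [h3, h2]
    simp
  · intro g hg
    obtain ⟨σ, rfl⟩ := hsurj g
    apply Subtype.ext
    rw [kx_res M σ]
    rw [he σ] at hg
    have h1 : O.ρ σ = gd.c (sg gd.i₀) * gd.hb 1 := by
      rw [hg, map_one, mul_one]
      rfl
    have h2 := hθσ σ _ _ h1 rfl
    show σ θ = algebraMap K Ω ζ * θ
    rw [h2]
    have h3 : (Multiplicative.toAdd (sg gd.i₀ gd.i₀ : Multiplicative (ZMod 3))).val = 1 := by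
      unfold sg
      rw [Pi.mulSingle_eq_same]
      rfl
    rw [h3, pow_one]

end H36.QA
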