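import Pool.Agent.H36.QA.FDefs
import Pool.Agent.H38.ML.KumEx

/-!
# [H36 QA L1I] The first layer determines `a` up to cubes (60-100 lines)

`R d σ = R d' σ` for all `σ`.  Let `θ, θ' ∈ Ω` be the images of `d.θ`, `d'.θ` (nonzero), `w = θ' / θ`,
`w³ = a'/a` (images of `ι`).
Claim: `σ w = w` for every `σ` with `Bk (R σ)`.  `R σ = c t * hb h` with `h i₀ = i₀`.  There is `τ` with
`R τ = c₀ = c (sg i₀)` (`erange`, surjectivity of `res`), and for a suitable `k ∈ {0,1,2}`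
`R (τ^k)⁻¹ R σ = c (sg i₀ ^ (-k) * t) * hb h` stabilizes `d₀` (`stab`: the component of
`sg i₀ ^ (-k) * t` at `i₀` is `1`).  So `(τ^k)⁻¹ σ` fixes `θ` and `θ'` (`hθ0` for `d` and `d'`), and
`τ θ = z θ`, `τ θ' = z θ'` (`hθ1`), so `σ θ = z^k θ`, `σ θ' = z^k θ'` and `σ w = w`.
In particular `w` is fixed by all `σ` with `R σ = 1`, so `w ∈ d.M`, and by `hι` (`d`) `w = ι x` for some
`x ∈ E`: `x³ a = a'` in `E` (`ι` is injective; the two embeddings `ι`, `ι'` of `E` in `Ω` agree on the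
elements `a`, `a'`: hypothesis `hι`).  Write `x = y / z` with integers `y, z ≠ 0` of `E`.
-/

open scoped NumberField Pointwise
open H38.ML H38.TD

noncomputable section

namespace H36.QA

variable {K Ω : Type} [Field K] [NumberField K] [Field Ω] [Algebra K Ω] [IsAlgClosure K Ω]
  {m : ℕ} {H : Subgroup (Equiv.Perm (Fin m))} {Gp : Type} [Group Gp] {gd : GD m H Gp} {ζ : K}
  {E : Type} [Field E] [NumberField E] [Algebra K E] {Sb T T' : Set (Ideal (𝓞 K))} {a a' : 𝓞 E}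

/-- the element `sg i₀ ^ k` cancels the component `i₀` of `t` -/
theorem li_sg {n : ℕ} (i : Fin n) (t : Fin n → Multiplicative (ZMod 3)) :
    ((sg i ^ (Multiplicative.toAdd (t i)).val)⁻¹ * t) i = 1 := by
  rw [Pi.mul_apply, Pi.inv_apply, Pi.pow_apply, sg, Pi.mulSingle_eq_same]
  generalize t i = x
  revert x
  decide

theorem li_theta_ne (d : L1D K Ω gd ζ E Sb T a) (ha : a ≠ 0) : d.θ ≠ 0 := by
  intro h
  have h1 := d.hθ
  rw [h, zero_pow (by norm_num)] at h1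
  have h2 : ((a : 𝓞 E) : E) = 0 := (map_eq_zero d.ι).1 h1.symm
  exact ha (NumberField.RingOfIntegers.ext h2)

/-- The action on the cube root of an element which stabilizes the block. -/
theorem li_act (d : L1D K Ω gd ζ E Sb T a) (σ τ : Gal(Ω/K)) (t : Fin m → Multiplicative (ZMod 3))
    (h : H) (hσ : d.R σ = gd.c t * gd.hb h)
    (hh : (h : Equiv.Perm (Fin m)) gd.i₀ = gd.i₀) (hτ : d.R τ = gd.c₀) :
    σ ((d.θ : d.M) : Ω) =
      (algebraMap K Ω ζ) ^ (Multiplicative.toAdd (t gd.i₀)).val * ((d.θ : d.M) : Ω) := by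
  set k : ℕ := (Multiplicative.toAdd (t gd.i₀)).val with hk
  have h1 : τ ((d.θ : d.M) : Ω) = algebraMap K Ω ζ * ((d.θ : d.M) : Ω) := by
    have h2 := d.hθ1 (res d.M τ) hτ
    have h3 := congrArg (fun x : d.M => (x : Ω)) h2
    rw [kx_res] at h3
    exact h3
  have h2 : ∀ j : ℕ, (τ ^ j) ((d.θ : d.M) : Ω) = (algebraMap K Ω ζ) ^ j * ((d.θ : d.M) : Ω) := by
    intro j
    induction j with
    | zero => rw [pow_zero, pow_zero, one_mul, AlgEquiv.one_apply]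
    | succ j ih =>
      rw [pow_succ', AlgEquiv.mul_apply, ih, map_mul, map_pow, AlgEquiv.commutes, h1, pow_succ']
      ring
  have h3 : d.R ((τ ^ k)⁻¹ * σ) = gd.c ((sg gd.i₀ ^ k)⁻¹ * t) * gd.hb h := by
    rw [map_mul, map_inv, map_pow, hσ, hτ, GD.c₀, map_mul, map_inv, map_pow, mul_assoc]
  have h4 : d.R ((τ ^ k)⁻¹ * σ) * gd.d₀ * (d.R ((τ ^ k)⁻¹ * σ))⁻¹ = gd.d₀ := by
    rw [h3]
    exact (gd.stab _ _).2 ⟨hh, li_sg gd.i₀ t⟩
  have h5 := d.hθ0 (res d.M ((τ ^ k)⁻¹ * σ)) h4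
  have h6 := congrArg (fun x : d.M => (x : Ω)) h5
  rw [kx_res, AlgEquiv.mul_apply] at h6
  have h7 : (τ ^ k) ((τ ^ k)⁻¹ (σ ((d.θ : d.M) : Ω))) = σ ((d.θ : d.M) : Ω) := by
    rw [← AlgEquiv.mul_apply, mul_inv_cancel, AlgEquiv.one_apply]
  rw [← h7, h6, h2 k]

theorem l1_inj (d : L1D K Ω gd ζ E Sb T a) (d' : L1D K Ω gd ζ E Sb T' a') (ha : a ≠ 0)
    (ha' : a' ≠ 0) (h : ∀ σ, d.R σ = d'.R σ)
    (hι : ∀ x : E, ((d.ι x : d.M) : Ω) = ((d'.ι x : d'.M) : Ω)) :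
    ∃ y z : 𝓞 E, y ≠ 0 ∧ z ≠ 0 ∧ y ^ 3 * a = z ^ 3 * a' := by
  haveI : Algebra.IsAlgebraic K Ω := IsAlgClosure.isAlgebraic
  haveI : IsAlgClosed Ω := IsAlgClosure.isAlgClosed K
  haveI : CharZero Ω := charZero_of_injective_algebraMap (algebraMap K Ω).injective
  haveI : IsGalois K Ω := inferInstance
  have h0 : ((d.θ : d.M) : Ω) ≠ 0 := by
    intro h1
    exact li_theta_ne d ha (Subtype.ext h1)
  have h0' : ((d'.θ : d'.M) : Ω) ≠ 0 := by
    intro h1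
    exact li_theta_ne d' ha' (Subtype.ext h1)
  obtain ⟨g, hg⟩ := (d.erange gd.c₀).2 (gd.inU_c _)
  obtain ⟨τ, hτ⟩ := AlgEquiv.restrictNormalHom_surjective (F := K) (K₁ := d.M) Ω g
  have hτ1 : d.R τ = gd.c₀ := by
    rw [← hg, ← hτ]
    rfl
  have hτ2 : d'.R τ = gd.c₀ := by rw [← h, hτ1]
  obtain ⟨w, hw⟩ : ∃ w : Ω, w = ((d'.θ : d'.M) : Ω) / ((d.θ : d.M) : Ω) := ⟨_, rfl⟩
  have hfix : ∀ σ : Gal(Ω/K), gd.Bk (d.R σ) → σ w = w := by
    rintro σ ⟨t, h', h1, h2⟩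
    have h3 := li_act d σ τ t h' h1 h2 hτ1
    have h4 := li_act d' σ τ t h' (by rw [← h, h1]) h2 hτ2
    have hζ : (algebraMap K Ω ζ) ^ (Multiplicative.toAdd (t gd.i₀)).val ≠ 0 := by
      intro h5
      rw [h5, zero_mul] at h3
      exact h0 ((map_eq_zero σ).1 h3)
    rw [hw, map_div₀, h3, h4, mul_div_mul_left _ _ hζ]
  have hwM : w ∈ d.M := by
    rw [← InfiniteGalois.fixedField_fixingSubgroup d.M, IntermediateField.mem_fixedField_iff]
    intro σ hσ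
    refine hfix σ ?_
    have h1 : res d.M σ = 1 := by
      rw [← IntermediateField.restrictNormalHom_ker d.M] at hσ
      exact hσ
    have h2 : d.R σ = 1 := by
      show d.e (res d.M σ) = 1
      rw [h1, map_one]
    exact ⟨1, 1, by rw [h2, map_one, map_one, one_mul], by simp⟩
  obtain ⟨x, hx⟩ := (d.hι ⟨w, hwM⟩).1 (by
    intro g hg
    obtain ⟨σ, rfl⟩ := AlgEquiv.restrictNormalHom_surjective (F := K) (K₁ := d.M) Ω g
    apply Subtype.ext
    rw [kx_res]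
    exact hfix σ hg)
  have hxw : ((d.ι x : d.M) : Ω) = w := by rw [hx]
  have hx0 : x ≠ 0 := by
    rintro rfl
    rw [map_zero] at hxw
    rw [hw] at hxw
    exact div_ne_zero h0' h0 hxw.symm
  have hcube : x ^ 3 * (a : E) = (a' : E) := by
    have h1 : ((d.θ : d.M) : Ω) ^ 3 = ((d.ι (a : E) : d.M) : Ω) :=
      congrArg (fun x : d.M => (x : Ω)) d.hθ
    have h2 : ((d'.θ : d'.M) : Ω) ^ 3 = ((d'.ι (a' : E) : d'.M) : Ω) :=
      congrArg (fun x : d'.M => (x : Ω)) d'.hθ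
    have key : ((d.ι (x ^ 3 * (a : E)) : d.M) : Ω) = ((d.ι (a' : E) : d.M) : Ω) := by
      rw [hι (a' : E), ← h2, map_mul, map_pow]
      change ((d.ι x : d.M) : Ω) ^ 3 * ((d.ι (a : E) : d.M) : Ω) = ((d'.θ : d'.M) : Ω) ^ 3
      rw [← h1, hxw, hw, ← mul_pow, div_mul_cancel₀ _ h0]
    exact d.ι.injective (Subtype.ext key)
  obtain ⟨y, z, hz, hyz⟩ := IsFractionRing.div_surjective (A := 𝓞 E) x
  have hz0 : z ≠ 0 := nonZeroDivisors.ne_zero hz
  have hz1 : ((z : 𝓞 E) : E) ≠ 0 := by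
    intro h1
    exact hz0 (NumberField.RingOfIntegers.ext h1)
  refine ⟨y, z, ?_, hz0, ?_⟩
  · rintro rfl
    rw [map_zero, zero_div] at hyz
    exact hx0 hyz.symm
  · apply NumberField.RingOfIntegers.ext
    have h3 : x * (z : E) = (y : E) := by
      rw [← hyz]
      exact div_mul_cancel₀ _ hz1
    have h4 : (y : E) ^ 3 * (a : E) = (z : E) ^ 3 * (a' : E) := by
      rw [← hcube, ← h3]
      ring
    exact h4

end H36.QA
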