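import Pool.Agent.H36.QA.BDefs
import Pool.Agent.H36.QA.Mu
import Pool.Agent.H36.QA.Ml

/-!
# [H36 QA MPE] The places of prime norm have the Mertens type properties (50-90 lines)

`two_le`: `two_le_nv`.  `fin`: `merta_pl_finite` (MertA) and injectivity of `Subtype.val`.
`low`: `mert_prime` for the image of `T` under `Subtype.val` (`Finset.map`).
`up`: `mert_up` for the image.  `lg`: `mert_log` with `S`, `w = 0` (the elements of `T` map
injectively to `Zs S 0 z`; `log / nv ≥ 0`).  `sq`: `sq_tail (cb_ideals E)` for the image under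
`v ↦ v.1.asIdeal`.  `fib`: `fibre_card` (`p` prime: if `T` is not empty then `p = nv v` is prime and
`(nv v).minFac = p`).
-/

open scoped NumberField
open H38.ML H38.TD

noncomputable section

namespace H36.QA

/-- The places of prime norm outside `S`. -/
abbrev Pq (E : Type) [Field E] [NumberField E] (S : Set (Pl E)) : Type :=
  {v : Pl E // v ∉ S ∧ (nv v).Prime}

theorem mp_places (E : Type) [Field E] [NumberField E] (S : Set (Pl E)) (hS : S.Finite) :
    MP (Pq E S) (fun v => nv v.1) where
  two_le := fun v => two_le_nv v.1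
  fin := fun z => (merta_pl_finite (K := E) z).preimage Subtype.val_injective.injOn
  low := by
    obtain ⟨c, z₀, hc, hz0, h⟩ := mert_prime E S hS
    refine ⟨c, hc, z₀, hz0, fun z hz T hT => ?_⟩
    have h1 := h z hz (T.map ⟨Subtype.val, Subtype.val_injective⟩) (by
      intro v hv hp hvz
      rw [Finset.mem_map]
      exact ⟨⟨v, hv, hp⟩, hT ⟨v, hv, hp⟩ hvz, rfl⟩)
    rw [Finset.sum_map] at h1
    exact h1
  up := by
    obtain ⟨C, hC, h⟩ := mert_up E
    refine ⟨C, hC, fun z hz T hT => ?_⟩
    have h1 := h z hz (T.map ⟨Subtype.val, Subtype.val_injective⟩) (by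
      intro v hv
      obtain ⟨u, hu, rfl⟩ := Finset.mem_map.1 hv
      exact hT u hu)
    rw [Finset.sum_map] at h1
    exact h1
  lg := by
    classical
    obtain ⟨C, hC, h⟩ := mert_log E S
    refine ⟨max 1 C, le_max_left _ _, fun z hz T hT => ?_⟩
    have hlog : 0 ≤ Real.log z := Real.log_nonneg (by linarith)
    have h1 := h 0 z hz
    have hinj : Function.Injective (fun v : Pq E S => (⟨v.1, v.2.1⟩ : Po E S)) := by
      intro a b hab
      exact Subtype.ext (congrArg (fun x : Po E S => x.1) hab)
    calc ∑ v ∈ T, Real.log (nv v.1) / (nv v.1 : ℝ)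
        = ∑ v ∈ T.image (fun v : Pq E S => (⟨v.1, v.2.1⟩ : Po E S)),
            Real.log (nv v.1) / (nv v.1 : ℝ) :=
          (Finset.sum_image (f := fun v : Po E S => Real.log (nv v.1) / (nv v.1 : ℝ))
            (fun a _ b _ hab => hinj hab)).symm
      _ ≤ ∑ v ∈ Zs S 0 z, Real.log (nv v.1) / (nv v.1 : ℝ) := by
          refine Finset.sum_le_sum_of_subset_of_nonneg ?_ fun v _ _ => ?_
          · intro v hv
            obtain ⟨u, hu, rfl⟩ := Finset.mem_image.1 hv
            rw [mem_Zs]
            refine ⟨hT u hu, ?_⟩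
            exact_mod_cast nv_pos u.1
          · have h2 : (1 : ℝ) ≤ (nv v.1 : ℝ) := by exact_mod_cast nv_pos v.1
            exact div_nonneg (Real.log_nonneg h2) (by linarith)
      _ ≤ C * Real.log z := h1
      _ ≤ max 1 C * Real.log z := mul_le_mul_of_nonneg_right (le_max_right _ _) hlog
  sq := by
    classical
    obtain ⟨C, hC, h⟩ := sq_tail (cb_ideals E)
    refine ⟨max 1 C, le_max_left _ _, fun w hw T hT => ?_⟩
    have hinj : Function.Injective (fun v : Pq E S => v.1.asIdeal) := by
      intro a b hab
      exact Subtype.ext (IsDedekindDomain.HeightOneSpectrum.ext hab)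
    have h1 := h w hw (T.image fun v => v.1.asIdeal) (by
      intro I hI
      obtain ⟨u, hu, rfl⟩ := Finset.mem_image.1 hI
      exact ⟨u.1.ne_bot, hT u hu⟩)
    rw [Finset.sum_image (fun a _ b _ hab => hinj hab)] at h1
    refine h1.trans ?_
    exact div_le_div_of_nonneg_right (le_max_right _ _) (by linarith)
  fib := by
    classical
    refine ⟨Module.finrank ℤ (𝓞 E), fun p T hT => ?_⟩
    rcases T.eq_empty_or_nonempty with h0 | ⟨u, hu⟩
    · rw [h0]
      exact Nat.zero_le _
    · have hp : p.Prime := hT u hu ▸ u.2.2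
      have h1 := fibre_card E p hp (T.map ⟨Subtype.val, Subtype.val_injective⟩) (by
        intro v hv
        obtain ⟨w, hw, rfl⟩ := Finset.mem_map.1 hv
        have h2 : nv w.1 = p := hT w hw
        show (nv w.1).minFac = p
        rw [h2]
        exact hp.minFac_eq)
      rwa [Finset.card_map] at h1

end H36.QA
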