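import Mathlib

/-!
# [H36 QA PAR] Choice of the parameters (two theorems, 40-70 lines, only Mathlib)

`par_choice`: `L = (A₃ + 1) * A + 1`, `k = 2 L`, `X = Y^(1/k)`.  For `1 ≤ N ≤ X`:
`A (C₃ N^A₃ N)^A * N ≤ (A + 1) C₃^A N^L ≤ (A + 1) C₃^A Y^(1/2) ≤ Y` if `Y ≥ ((A + 1) C₃^A)²`.
`log X = log Y / k`, and `X ≥ X₀` if `Y ≥ X₀^k`.
`par_final`: `Y = √(B / C)`; `C Y² = B`, `Y → ∞`, `log Y = (log B - log C)/2 ≥ (log B)/4` for large
`B`; `c Y (log Y)² / D ≥ c' B^(1/2) (log B)²`, and `(log B)^β ≤ (log B)²` for `β ≤ 2`, `log B ≥ 1`.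
-/

noncomputable section

namespace H36.QA

theorem par_choice (C₃ X₀ : ℝ) (hC₃ : 1 ≤ C₃) (A A₃ : ℕ) :
    ∃ c Y₀ : ℝ, 0 < c ∧ 2 ≤ Y₀ ∧ ∀ Y : ℝ, Y₀ ≤ Y → ∃ X : ℝ, X₀ ≤ X ∧
      c * Real.log Y ≤ Real.log X ∧ 1 ≤ X ∧
      ∀ N : ℝ, 1 ≤ N → N ≤ X → (A : ℝ) * (C₃ * N ^ A₃ * N) ^ A ≤ Y / N := by
  set L : ℕ := (A₃ + 1) * A + 1 with hL
  set k : ℕ := 2 * L with hk
  have hL0 : 0 < L := by omega
  have hk0 : 0 < k := by omega
  have hk0' : (0 : ℝ) < (k : ℝ) := by exact_mod_cast hk0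
  set M : ℝ := (A : ℝ) * C₃ ^ A with hM
  have hM0 : 0 ≤ M := by positivity
  refine ⟨1 / k, 2 + (max X₀ 1) ^ k + M ^ 2, by positivity, ?_, ?_⟩
  · have h1 : 0 ≤ (max X₀ 1) ^ k := pow_nonneg (le_trans zero_le_one (le_max_right _ _)) _
    have h2 : 0 ≤ M ^ 2 := by positivity
    linarith
  · intro Y hY
    have h1 : 0 ≤ (max X₀ 1) ^ k := pow_nonneg (le_trans zero_le_one (le_max_right _ _)) _
    have h2 : 0 ≤ M ^ 2 := by positivity
    have hY2 : 2 ≤ Y := by linarith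
    have hY0 : 0 < Y := by linarith
    set X : ℝ := Y ^ (1 / (k : ℝ)) with hX
    have hX0 : 0 < X := Real.rpow_pos_of_pos hY0 _
    have hXk : X ^ k = Y := by
      rw [hX, ← Real.rpow_natCast, ← Real.rpow_mul hY0.le, one_div, inv_mul_cancel₀ hk0'.ne',
        Real.rpow_one]
    have hmax : max X₀ 1 ≤ X := by
      rw [← pow_le_pow_iff_left₀ (le_trans zero_le_one (le_max_right _ _)) hX0.le hk0.ne', hXk]
      linarith
    refine ⟨X, le_trans (le_max_left _ _) hmax, ?_, le_trans (le_max_right _ _) hmax, ?_⟩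
    · rw [hX, Real.log_rpow hY0]
    · intro N hN hNX
      have hN0 : 0 < N := by linarith
      rw [le_div_iff₀ hN0]
      have h3 : (A : ℝ) * (C₃ * N ^ A₃ * N) ^ A * N = M * N ^ L := by
        have e1 : (C₃ * N ^ A₃ * N) ^ A = C₃ ^ A * (N ^ (A₃ + 1)) ^ A := by
          rw [← mul_pow, pow_succ N A₃, mul_assoc]
        rw [e1, ← pow_mul, hM, hL, pow_succ N ((A₃ + 1) * A)]
        ring
      rw [h3]
      have h4 : N ^ L ≤ X ^ L := pow_le_pow_left₀ hN0.le hNX L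
      have h5 : X ^ L * X ^ L = Y := by
        rw [← pow_add, ← two_mul, ← hk, hXk]
      have h6 : M ≤ X ^ L := by
        have h7 : M ^ 2 ≤ (X ^ L) ^ 2 := by
          rw [sq (X ^ L), h5]
          linarith
        exact (pow_le_pow_iff_left₀ hM0 (pow_nonneg hX0.le _) two_ne_zero).1 h7
      calc M * N ^ L ≤ X ^ L * X ^ L :=
            mul_le_mul h6 h4 (pow_nonneg hN0.le _) (pow_nonneg hX0.le _)
        _ = Y := h5

theorem par_final (c Y₀ C D : ℝ) (hc : 0 < c) (hC : 0 < C) (hD : 0 < D) (β : ℕ) (hβ : β ≤ 2) :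
    ∃ c' : ℝ, 0 < c' ∧ ∃ B₀ : ℝ, ∀ B : ℝ, B₀ ≤ B → ∃ Y : ℝ, Y₀ ≤ Y ∧ C * Y ^ 2 ≤ B ∧
      c' * B ^ (1 / (2 : ℝ)) * Real.log B ^ β ≤ c * Y * Real.log Y ^ 2 / D := by
  have hsC : 0 < √C := Real.sqrt_pos.2 hC
  refine ⟨c / (16 * D * √C), by positivity, Real.exp 1 + C ^ 2 + C * (max Y₀ 1) ^ 2,
    fun B hB => ?_⟩
  have h1 : 0 < Real.exp 1 := Real.exp_pos 1
  have h2 : 0 < C ^ 2 := by positivity
  have h3 : 0 < C * (max Y₀ 1) ^ 2 := by
    have : 0 < max Y₀ 1 := lt_of_lt_of_le one_pos (le_max_right _ _)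
    positivity
  have hB0 : 0 < B := by linarith
  have hlog1 : 1 ≤ Real.log B := by
    rw [Real.le_log_iff_exp_le hB0]
    linarith
  have hlogC : 2 * Real.log C ≤ Real.log B := by
    have h4 : Real.log (C ^ 2) ≤ Real.log B := Real.log_le_log h2 (by linarith)
    rw [Real.log_pow] at h4
    exact_mod_cast h4
  have hY2 : (√(B / C)) ^ 2 = B / C := Real.sq_sqrt (by positivity)
  refine ⟨√(B / C), ?_, ?_, ?_⟩
  · refine le_trans (le_max_left Y₀ 1) (Real.le_sqrt_of_sq_le ?_)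
    rw [le_div_iff₀ hC]
    linarith
  · rw [hY2, mul_div_cancel₀ _ hC.ne']
  · have h4 : Real.log (√(B / C)) = (Real.log B - Real.log C) / 2 := by
      rw [Real.log_sqrt (by positivity), Real.log_div hB0.ne' hC.ne']
    have h5 : Real.log B / 4 ≤ Real.log (√(B / C)) := by
      rw [h4]; linarith
    have h6 : Real.log B ^ 2 / 16 ≤ Real.log (√(B / C)) ^ 2 := by
      have h7 : (Real.log B / 4) ^ 2 ≤ Real.log (√(B / C)) ^ 2 :=
        pow_le_pow_left₀ (by linarith) h5 2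
      calc Real.log B ^ 2 / 16 = (Real.log B / 4) ^ 2 := by ring
        _ ≤ _ := h7
    have h8 : Real.log B ^ β ≤ Real.log B ^ 2 := pow_le_pow_right₀ hlog1 hβ
    have h9 : B ^ (1 / (2 : ℝ)) = √B := (Real.sqrt_eq_rpow B).symm
    have h10 : √(B / C) = √B / √C := Real.sqrt_div hB0.le C
    rw [h9]
    calc c / (16 * D * √C) * √B * Real.log B ^ β
        ≤ c / (16 * D * √C) * √B * Real.log B ^ 2 := by
          refine mul_le_mul_of_nonneg_left h8 (by positivity)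
      _ = c * (√B / √C) * (Real.log B ^ 2 / 16) / D := by
          field_simp
      _ = c * √(B / C) * (Real.log B ^ 2 / 16) / D := by rw [h10]
      _ ≤ c * √(B / C) * Real.log (√(B / C)) ^ 2 / D := by
          refine div_le_div_of_nonneg_right ?_ hD.le
          exact mul_le_mul_of_nonneg_left h6 (by positivity)

end H36.QA
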