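import Mathlib

/-!
# [H36 QA TRV] Transversals (20-40 lines, only Mathlib)

Take a subset `T ⊆ P` of maximal cardinality with pairwise unrelated elements
(`Finset.exists_max_image` over the filtered powerset).  Every `x ∈ P` is related to an element of `T`
(or belongs to `T`), so `P` is the union over `t ∈ T` of `{x ∈ P | r x t}`, each of cardinality `≤ b`.
-/

namespace H36.QA

open Classical in
theorem transversal {α : Type*} (r : α → α → Prop) (hr : ∀ x, r x x) (hs : ∀ x y, r x y → r y x)
    (P : Finset α) (b : ℝ) (hb : ∀ y ∈ P, ((P.filter fun x => r x y).card : ℝ) ≤ b) :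
    ∃ T : Finset α, T ⊆ P ∧ (∀ x ∈ T, ∀ y ∈ T, r x y → x = y) ∧ (P.card : ℝ) ≤ T.card * b := by
  let F : Finset (Finset α) := P.powerset.filter fun T => ∀ x ∈ T, ∀ y ∈ T, r x y → x = y
  have hF : F.Nonempty := by
    refine ⟨∅, ?_⟩
    rw [Finset.mem_filter, Finset.mem_powerset]
    exact ⟨Finset.empty_subset _, fun x hx => absurd hx (Finset.notMem_empty x)⟩
  obtain ⟨T, hT, hmax⟩ := Finset.exists_max_image F Finset.card hF
  rw [Finset.mem_filter, Finset.mem_powerset] at hT
  refine ⟨T, hT.1, hT.2, ?_⟩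
  have hcov : ∀ x ∈ P, ∃ t ∈ T, r x t := by
    intro x hx
    by_contra hcon
    push Not at hcon
    have hxT : x ∉ T := fun h => hcon x h (hr x)
    have h1 : insert x T ∈ F := by
      rw [Finset.mem_filter, Finset.mem_powerset]
      refine ⟨Finset.insert_subset hx hT.1, ?_⟩
      intro y hy z hz hyz
      rw [Finset.mem_insert] at hy hz
      rcases hy with rfl | hy
      · rcases hz with rfl | hz
        · rfl
        · exact absurd hyz (hcon z hz)
      · rcases hz with rfl | hz
        · exact absurd (hs _ _ hyz) (hcon y hy)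
        · exact hT.2 y hy z hz hyz
    have h2 := hmax _ h1
    rw [Finset.card_insert_of_notMem hxT] at h2
    omega
  have hsub : P ⊆ T.biUnion fun t => P.filter fun x => r x t := by
    intro x hx
    obtain ⟨t, ht, hxt⟩ := hcov x hx
    rw [Finset.mem_biUnion]
    exact ⟨t, ht, Finset.mem_filter.2 ⟨hx, hxt⟩⟩
  have h3 : P.card ≤ ∑ t ∈ T, (P.filter fun x => r x t).card :=
    (Finset.card_le_card hsub).trans Finset.card_biUnion_le
  calc (P.card : ℝ) ≤ ((∑ t ∈ T, (P.filter fun x => r x t).card : ℕ) : ℝ) := by exact_mod_cast h3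
    _ = ∑ t ∈ T, ((P.filter fun x => r x t).card : ℝ) := by push_cast; rfl
    _ ≤ ∑ _t ∈ T, b := Finset.sum_le_sum fun t ht => hb t (hT.1 ht)
    _ = T.card * b := by rw [Finset.sum_const, nsmul_eq_mul]

end H36.QA
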