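import Pool.Agent.H36.QA.ADefs

/-!
# [H36 QA IDCNT] The number of ideals of large norm (40-70 lines, only Mathlib)

`NumberField.Ideal.tendsto_norm_le_div_atTop₀` (the limit is `dedekindZeta_residue F = kap F`, by
definition): the number `N(Z)` of nonzero ideals of norm `≤ Z` satisfies `N(Z) / Z → κ`.  So for large
`Z`: `N(Z) ≤ 2 κ Z`, and `N(Z) - N(Z/2) ≥ κ Z / 4` (from `N(Z) ≥ (7/8) κ Z`, `N(Z/2) ≤ (9/8) κ Z/2`).
Finiteness: `Ideal.finite_setOf_absNorm_le₀` and variants.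
-/

open scoped NumberField nonZeroDivisors
open NumberField

noncomputable section

namespace H36.QA

/-- the nonzero ideals of norm at most `s` -/
def idS (F : Type) [Field F] [NumberField F] (s : ℝ) : Set (Ideal (𝓞 F)) :=
  {I | I ≠ ⊥ ∧ (Ideal.absNorm I : ℝ) ≤ s}

theorem idS_finite (F : Type) [Field F] [NumberField F] (s : ℝ) : (idS F s).Finite := by
  refine (Ideal.finite_setOfPred_absNorm_le ⌊s⌋₊).subset ?_
  rintro I ⟨h1, h2⟩
  have h3 : (0 : ℝ) < (Ideal.absNorm I : ℝ) := by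
    have := Ideal.absNorm_ne_zero_of_nonZeroDivisors ⟨I, mem_nonZeroDivisors_of_ne_zero h1⟩
    exact_mod_cast Nat.pos_of_ne_zero this
  exact Nat.le_floor h2

theorem idS_card (F : Type) [Field F] [NumberField F] (s : ℝ) :
    (idS F s).ncard = Nat.card {I : (Ideal (𝓞 F))⁰ // (Ideal.absNorm (I : Ideal (𝓞 F)) : ℝ) ≤ s} := by
  rw [← Nat.card_coe_set_eq]
  refine Nat.card_congr ⟨fun I => ⟨⟨I.1, mem_nonZeroDivisors_of_ne_zero I.2.1⟩, I.2.2⟩,
    fun I => ⟨I.1.1, nonZeroDivisors.ne_zero I.1.2, I.2⟩, fun _ => rfl, fun _ => rfl⟩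

theorem id_count (F : Type) [Field F] [NumberField F] : ∃ Z₀ : ℝ, 1 ≤ Z₀ ∧ ∀ Z : ℝ, Z₀ ≤ Z →
    (∀ T : Finset (Ideal (𝓞 F)), (∀ I ∈ T, I ≠ ⊥ ∧ (Ideal.absNorm I : ℝ) ≤ Z) →
      (T.card : ℝ) ≤ 2 * kap F * Z) ∧
    ∃ T : Finset (Ideal (𝓞 F)),
      (∀ I ∈ T, I ≠ ⊥ ∧ Z / 2 < (Ideal.absNorm I : ℝ) ∧ (Ideal.absNorm I : ℝ) ≤ Z) ∧
      kap F * Z / 4 ≤ (T.card : ℝ) := by
  classical
  have hk := kap_pos F
  have hlim : Filter.Tendsto (fun s : ℝ => ((idS F s).ncard : ℝ) / s) Filter.atTop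
      (nhds (kap F)) := by
    have h := NumberField.Ideal.tendsto_norm_le_div_atTop₀ F
    simp only [idS_card]
    exact h
  obtain ⟨s₀, hs₀⟩ := Filter.eventually_atTop.1
    (hlim.eventually (Ioo_mem_nhds (show kap F * (15 / 16) < kap F by linarith)
      (show kap F < kap F * (17 / 16) by linarith)))
  refine ⟨max 1 (2 * s₀), le_max_left _ _, ?_⟩
  intro Z hZ
  have hZ1 : 1 ≤ Z := (le_max_left _ _).trans hZ
  have hZ2 : 2 * s₀ ≤ Z := (le_max_right _ _).trans hZ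
  have hZ3 : s₀ ≤ Z := by
    rcases le_total s₀ 0 with h | h
    · linarith
    · linarith
  obtain ⟨a1, a2⟩ := hs₀ Z hZ3
  obtain ⟨_, b2⟩ := hs₀ (Z / 2) (by linarith)
  rw [lt_div_iff₀ (by linarith)] at a1
  rw [div_lt_iff₀ (by linarith)] at a2 b2
  have hkZ : 0 < kap F * Z := mul_pos hk (by linarith)
  refine ⟨?_, ?_⟩
  · intro T hT
    have h1 : T.card ≤ (idS F Z).ncard := by
      rw [← Set.ncard_coe_finset]
      exact Set.ncard_le_ncard (fun I hI => hT I hI) (idS_finite F Z)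
    have h2 : (T.card : ℝ) ≤ ((idS F Z).ncard : ℝ) := by exact_mod_cast h1
    linarith
  · refine ⟨((idS_finite F Z).sdiff (t := idS F (Z / 2))).toFinset, ?_, ?_⟩
    · intro I hI
      rw [Set.Finite.mem_toFinset] at hI
      obtain ⟨⟨h1, h2⟩, h3⟩ := hI
      refine ⟨h1, ?_, h2⟩
      by_contra h4
      exact h3 ⟨h1, not_lt.1 h4⟩
    · have hsub : idS F (Z / 2) ⊆ idS F Z := by
        rintro I ⟨h1, h2⟩
        exact ⟨h1, h2.trans (by linarith)⟩
      have h1 : ((idS_finite F Z).sdiff (t := idS F (Z / 2))).toFinset.card +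
          (idS F (Z / 2)).ncard = (idS F Z).ncard := by
        rw [← Set.ncard_coe_finset, Set.Finite.coe_toFinset]
        exact Set.ncard_sdiff_add_ncard_of_subset hsub (idS_finite F Z)
      have h2 : (((idS_finite F Z).sdiff (t := idS F (Z / 2))).toFinset.card : ℝ) +
          ((idS F (Z / 2)).ncard : ℝ) = ((idS F Z).ncard : ℝ) := by exact_mod_cast h1
      linarith

end H36.QA
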