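import Pool.Agent.H36.QA.LL
import Pool.Agent.H36.QA.Ev
import Pool.Agent.H36.QA.IdCnt

/-!
# [H36 QA UB2] The number of square classes with conductor divisible by `𝔤` (110-170 lines)

`T` is a finite set of pairs `(α, I)`, `α ≠ 0`, `span {α} = I * 𝔢²` for some `𝔢`, `𝔤 ∣ I`,
`N(I) ≤ u N(𝔤)`, such that two pairs with the same `I` and `α α'` a square are equal.  Claim: if
`u ≥ C |disc F|^A` then `#T ≤ C κ_F u`.

Double counting.  For `(α, I) ∈ T` choose `𝔢` and put `J = I * 𝔢`, so `span {α} * I = J²`.  Let `Z` be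
large (depending on everything), `s_I > 0` with `s_I^n = Z² N(I)`.  `ev_lower` for the ideal `J`, shape
`f w = √(w α)`, `t = √(s_I)`: a finite set `Δ` of `δ ∈ J` with
`√(s_I w(α) / 2) < w δ ≤ √(s_I w(α))` for all `w`, and
`#Δ N(J) √d ≥ c s_I^(n/2) N(α)^(1/2) = c Z N(I) N(𝔢) = c Z N(J)`
(`t^n ∏ f_w² = s_I^(n/2) ∏ w(α) = s_I^(n/2) N(α)^(1/2)`, `N(α) = N(I) N(𝔢)²`, `prod_sq_eq_norm`), so
`#Δ ≥ c Z / √d`.
For `δ ∈ Δ`: `span {δ} = J * 𝔟` for an ideal `𝔟`; `α ∣ δ²` in `𝓞 F`, because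
`span {δ²} = J² 𝔟² = span {α} * I * 𝔟²`; put `β = δ² / α`: `span {β} = I * 𝔟²`.  Moreover
`s_I / 2 < w β ≤ s_I ≤ s` where `s^n = Z² u N(𝔤)`, and `N(𝔟)² = N(β)/N(I)` is in `(2^(-n) Z², Z²]`.
The map `(α, I, δ) ↦ (𝔟, β)` is at most two-to-one: `𝔟, β` determine `I = (β)/𝔟²`, and
`α β = δ²` is a square, so if `(α', I, δ')` has the same image then `α α' β² = (δ δ')²`, `α α'` is a
square, hence `(α, I) = (α', I)` and `δ' = ±δ`.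
For every `𝔟` with `N 𝔟 ≤ Z` the number of `β ∈ 𝔤 𝔟²` with `w β ≤ s` is by `ll_upper`
(`𝔞 = 𝔤 𝔟²`, `v = 0`; condition `C₁ d^A N(𝔤) N(𝔟)² ≤ Z² u N(𝔤)`) at most
`C₁ Z² u N(𝔤) / (N(𝔤) N(𝔟)² √d) ≤ C₁ 2^n u / √d`, and there are at most `2 κ Z` such `𝔟`
(`id_count`).  So `#T c Z / (2 √d) ≤ 2 κ Z C₁ 2^n u / √d`.
-/

open scoped NumberField nonZeroDivisors
open NumberField

noncomputable section

namespace H36.QA


theorem ub2_prod {n : ℕ} {F : Type} [Field F] [NumberField F] (hF : TC F n) (s : ℝ) :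
    ∏ _w : InfinitePlace F, s ^ 2 = s ^ n := by
  have htc : IsTotallyComplex F := hF.1
  have h1 : ∀ w : InfinitePlace F, s ^ 2 = s ^ (InfinitePlace.mult w) := by
    intro w
    rw [IsTotallyComplex.mult_eq]
  rw [Finset.prod_congr rfl fun w _ => h1 w, Finset.prod_pow_eq_pow_sum,
    InfinitePlace.sum_mult_eq, hF.2]

theorem ub2_wpos {F : Type} [Field F] [NumberField F] {x : 𝓞 F} (hx : x ≠ 0)
    (w : InfinitePlace F) : 0 < w (x : F) := by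
  apply InfinitePlace.pos_iff.2
  exact fun h => hx (by exact_mod_cast h)

theorem ub2_elem {n : ℕ} (hn : 0 < n) {c : ℝ} (hc : 0 < c)
    (hev : ∀ (F : Type) [Field F] [NumberField F], TC F n → ∀ 𝔞 : Ideal (𝓞 F), 𝔞 ≠ ⊥ →
      ∀ f : InfinitePlace F → ℝ, (∀ w, 0 < f w) → ∃ t₀ : ℝ, ∀ t : ℝ, t₀ ≤ t →
        ∃ P : Finset (𝓞 F),
          (∀ x ∈ P, x ∈ 𝔞 ∧ ∀ w : InfinitePlace F,
            t * f w / Real.sqrt 2 < w (x : F) ∧ w (x : F) ≤ t * f w) ∧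
          c * (t ^ n * ∏ w, f w ^ 2) ≤ (P.card : ℝ) * (Ideal.absNorm 𝔞 * Real.sqrt (dd F)))
    {F : Type} [Field F] [NumberField F] (hF : TC F n) (α : 𝓞 F) (hα : α ≠ 0)
    (I 𝔢 : Ideal (𝓞 F)) (hI : Ideal.span {α} = I * 𝔢 ^ 2) :
    ∃ Z₀ : ℝ, 1 ≤ Z₀ ∧ ∀ Z : ℝ, Z₀ ≤ Z → ∃ Δ : Finset (𝓞 F),
      c * Z ≤ (Δ.card : ℝ) * Real.sqrt (dd F) ∧
      ∀ δ ∈ Δ, ∃ q : Ideal (𝓞 F) × 𝓞 F, α * q.2 = δ ^ 2 ∧ q.2 ≠ 0 ∧
        Ideal.span {q.2} = I * q.1 ^ 2 ∧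
        (∀ s : ℝ, 0 ≤ s → Z ^ 2 * Ideal.absNorm I ≤ s ^ n → ∀ w : InfinitePlace F,
          w (q.2 : F) ≤ s) ∧
        (Ideal.absNorm q.1 : ℝ) ≤ Z ∧ Z ^ 2 ≤ 2 ^ n * (Ideal.absNorm q.1 : ℝ) ^ 2 := by
  classical
  have hspan0 : Ideal.span {α} ≠ ⊥ := by
    rw [Ne, Ideal.span_singleton_eq_bot]; exact hα
  have hI0 : I ≠ ⊥ := by
    rintro rfl
    apply hspan0
    rw [hI, Ideal.bot_mul]
  have h𝔢0 : 𝔢 ≠ ⊥ := by
    rintro rfl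
    apply hspan0
    rw [hI, sq, Ideal.bot_mul, Ideal.mul_bot]
  obtain ⟨J, hJ⟩ : ∃ J, J = I * 𝔢 := ⟨_, rfl⟩
  have hJ0 : J ≠ ⊥ := by
    rw [hJ]
    exact mul_ne_zero hI0 h𝔢0
  have hJ2 : J ^ 2 = Ideal.span {α} * I := by
    rw [hJ, hI]; ring
  have hNI : (0 : ℝ) < Ideal.absNorm I := by
    exact_mod_cast Nat.pos_of_ne_zero (fun h => hI0 (Ideal.absNorm_eq_zero_iff.1 h))
  have hN𝔢 : (0 : ℝ) < Ideal.absNorm 𝔢 := by
    exact_mod_cast Nat.pos_of_ne_zero (fun h => h𝔢0 (Ideal.absNorm_eq_zero_iff.1 h))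
  have hNI1 : (1 : ℝ) ≤ Ideal.absNorm I := by
    exact_mod_cast Nat.one_le_iff_ne_zero.2 (fun h => hI0 (Ideal.absNorm_eq_zero_iff.1 h))
  obtain ⟨f, hf⟩ : ∃ f : InfinitePlace F → ℝ, f = fun w => Real.sqrt (w (α : F)) := ⟨_, rfl⟩
  have hwα : ∀ w : InfinitePlace F, 0 < w (α : F) := fun w => ub2_wpos hα w
  have hfpos : ∀ w, 0 < f w := by
    intro w
    rw [hf]
    exact Real.sqrt_pos.2 (hwα w)
  have hfsq : ∀ w, f w ^ 2 = w (α : F) := by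
    intro w
    rw [hf]
    exact Real.sq_sqrt (hwα w).le
  obtain ⟨t₀, ht₀⟩ := hev F hF J hJ0 f hfpos
  refine ⟨max 1 t₀ ^ n, one_le_pow₀ (le_max_left _ _), ?_⟩
  intro Z hZ
  have hm1 : (1 : ℝ) ≤ max 1 t₀ := le_max_left _ _
  have hZ1 : 1 ≤ Z := (one_le_pow₀ hm1).trans hZ
  have hZ0 : 0 < Z := by linarith
  obtain ⟨R, hR⟩ : ∃ R : ℝ, R = Real.sqrt (Ideal.absNorm I) := ⟨_, rfl⟩
  have hR1 : 1 ≤ R := by rw [hR]; exact Real.one_le_sqrt.2 hNI1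
  have hR2 : R * R = Ideal.absNorm I := by rw [hR]; exact Real.mul_self_sqrt hNI.le
  obtain ⟨t, ht⟩ : ∃ t : ℝ, t = (Z * R) ^ ((n : ℝ)⁻¹) := ⟨_, rfl⟩
  have hZR : 0 < Z * R := by positivity
  have htpos : 0 < t := by rw [ht]; positivity
  have htn : t ^ n = Z * R := by
    rw [ht]
    exact Real.rpow_inv_natCast_pow hZR.le hn.ne'
  have htt₀ : max 1 t₀ ≤ t := by
    have h1 : max 1 t₀ ^ n ≤ t ^ n := by
      rw [htn]
      calc max 1 t₀ ^ n ≤ Z * 1 := by rw [mul_one]; exact hZ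
        _ ≤ Z * R := mul_le_mul_of_nonneg_left hR1 hZ0.le
    exact le_of_pow_le_pow_left₀ hn.ne' htpos.le h1
  obtain ⟨Δ, hΔ, hcard⟩ := ht₀ t ((le_max_right _ _).trans htt₀)
  -- the product of the f's
  have hprodf : ∏ w, f w ^ 2 = R * Ideal.absNorm 𝔢 := by
    have h1 : (∏ w, f w ^ 2) ^ 2 = (R * Ideal.absNorm 𝔢) ^ 2 := by
      rw [← Finset.prod_pow]
      calc ∏ w, (f w ^ 2) ^ 2 = ∏ w : InfinitePlace F, (w (α : F)) ^ 2 :=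
            Finset.prod_congr rfl fun w _ => by rw [hfsq]
        _ = Ideal.absNorm (Ideal.span {α}) := prod_sq_eq_norm n F hF α
        _ = (R * Ideal.absNorm 𝔢) ^ 2 := by
            rw [hI, map_mul, map_pow]
            push_cast
            rw [← hR2]
            ring
    have h2 : 0 ≤ ∏ w, f w ^ 2 := Finset.prod_nonneg fun w _ => sq_nonneg _
    have h3 : 0 ≤ R * Ideal.absNorm 𝔢 := by positivity
    exact (pow_left_inj₀ h2 h3 (by norm_num)).1 h1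
  refine ⟨Δ, ?_, ?_⟩
  · rw [hprodf, htn, hJ, map_mul] at hcard
    push_cast at hcard
    have h1 : c * (Z * R * (R * Ideal.absNorm 𝔢)) =
        (c * Z) * ((Ideal.absNorm I : ℝ) * Ideal.absNorm 𝔢) := by
      rw [← hR2]; ring
    rw [h1] at hcard
    have h2 : (0 : ℝ) < (Ideal.absNorm I : ℝ) * Ideal.absNorm 𝔢 := by positivity
    apply le_of_mul_le_mul_right _ h2
    calc c * Z * ((Ideal.absNorm I : ℝ) * Ideal.absNorm 𝔢) ≤ _ := hcard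
      _ = _ := by ring
  · intro δ hδ
    obtain ⟨hδJ, hδw⟩ := hΔ δ hδ
    have hs2 : 0 < Real.sqrt 2 := Real.sqrt_pos.2 (by norm_num)
    have hs22 : Real.sqrt 2 ^ 2 = 2 := Real.sq_sqrt (by norm_num)
    have hδ0 : δ ≠ 0 := by
      rintro rfl
      obtain ⟨w⟩ : Nonempty (InfinitePlace F) := inferInstance
      have h1 := (hδw w).1
      have h2 : 0 < t * f w / Real.sqrt 2 := by have := hfpos w; positivity
      simp at h1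
      linarith
    obtain ⟨𝔟, h𝔟⟩ := Ideal.dvd_span_singleton.2 hδJ
    have hδ2 : Ideal.span {δ ^ 2} = Ideal.span {α} * (I * 𝔟 ^ 2) := by
      rw [← Ideal.span_singleton_pow, h𝔟, mul_pow, hJ2]
      ring
    have hle : Ideal.span {δ ^ 2} ≤ Ideal.span {α} := by
      rw [hδ2]
      exact Ideal.le_of_dvd (Dvd.intro _ rfl)
    have hmem : δ ^ 2 ∈ Ideal.span {α} := hle (Ideal.mem_span_singleton_self _)
    obtain ⟨β, hβ⟩ := Ideal.mem_span_singleton.1 hmem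
    have hβ0 : β ≠ 0 := by
      rintro rfl
      rw [mul_zero] at hβ
      exact hδ0 (pow_eq_zero_iff (by norm_num) |>.1 hβ)
    have hspanβ : Ideal.span {β} = I * 𝔟 ^ 2 := by
      apply mul_left_cancel₀ hspan0
      rw [← hδ2, Ideal.span_singleton_mul_span_singleton, hβ]
    have hwβ : ∀ w : InfinitePlace F, w (α : F) * w (β : F) = w (δ : F) ^ 2 := by
      intro w
      rw [← map_mul, ← map_pow]
      congr 1
      have := congrArg (fun z : 𝓞 F => (z : F)) hβ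
      simpa using this.symm
    have hwβ1 : ∀ w : InfinitePlace F, w (β : F) ≤ t ^ 2 := by
      intro w
      have h1 := (hδw w).2
      have h0 : 0 ≤ w (δ : F) := apply_nonneg w _
      have h2 : w (δ : F) ^ 2 ≤ (t * f w) ^ 2 := pow_le_pow_left₀ h0 h1 2
      rw [mul_pow, hfsq, ← hwβ] at h2
      have h3 : w (α : F) * w (β : F) ≤ w (α : F) * t ^ 2 := by linarith
      exact le_of_mul_le_mul_left h3 (hwα w)
    have hwβ2 : ∀ w : InfinitePlace F, t ^ 2 / 2 ≤ w (β : F) := by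
      intro w
      have h1 := (hδw w).1
      have h2 : (t * f w / Real.sqrt 2) ^ 2 ≤ w (δ : F) ^ 2 :=
        pow_le_pow_left₀ (by have := hfpos w; positivity) h1.le 2
      rw [div_pow, mul_pow, hfsq, hs22, ← hwβ] at h2
      have h3 : w (α : F) * (t ^ 2 / 2) ≤ w (α : F) * w (β : F) := by linarith
      exact le_of_mul_le_mul_left h3 (hwα w)
    have hN : ((Ideal.absNorm I : ℝ) * (Ideal.absNorm 𝔟 : ℝ) ^ 2) =
        ∏ w : InfinitePlace F, (w (β : F)) ^ 2 := by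
      rw [prod_sq_eq_norm n F hF β, hspanβ, map_mul, map_pow]
      push_cast
      ring
    have ht2n : (t ^ 2) ^ n = Z ^ 2 * Ideal.absNorm I := by
      rw [← pow_mul, mul_comm 2 n, pow_mul, htn, ← hR2]; ring
    refine ⟨(𝔟, β), hβ.symm, hβ0, hspanβ, ?_, ?_, ?_⟩
    · intro s hs hsn w
      refine (hwβ1 w).trans ?_
      rw [← ht2n] at hsn
      exact le_of_pow_le_pow_left₀ hn.ne' hs hsn
    · show (Ideal.absNorm 𝔟 : ℝ) ≤ Z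
      have h1 : (Ideal.absNorm I : ℝ) * (Ideal.absNorm 𝔟 : ℝ) ^ 2 ≤ Z ^ 2 * Ideal.absNorm I := by
        rw [hN, ← ht2n, ← ub2_prod hF (t ^ 2)]
        exact Finset.prod_le_prod (fun w _ => sq_nonneg _)
          (fun w _ => pow_le_pow_left₀ (apply_nonneg w _) (hwβ1 w) 2)
      have h2 : (Ideal.absNorm 𝔟 : ℝ) ^ 2 ≤ Z ^ 2 := by
        have h3 : (Ideal.absNorm I : ℝ) * (Ideal.absNorm 𝔟 : ℝ) ^ 2 ≤
            (Ideal.absNorm I : ℝ) * Z ^ 2 := by linarith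
        exact le_of_mul_le_mul_left h3 hNI
      exact le_of_pow_le_pow_left₀ (by norm_num) hZ0.le h2
    · show Z ^ 2 ≤ 2 ^ n * (Ideal.absNorm 𝔟 : ℝ) ^ 2
      have h1 : (t ^ 2 / 2) ^ n ≤ (Ideal.absNorm I : ℝ) * (Ideal.absNorm 𝔟 : ℝ) ^ 2 := by
        rw [hN, ← ub2_prod hF (t ^ 2 / 2)]
        exact Finset.prod_le_prod (fun w _ => sq_nonneg _)
          (fun w _ => pow_le_pow_left₀ (by positivity) (hwβ2 w) 2)
      rw [div_pow, ht2n, div_le_iff₀ (by positivity)] at h1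
      have h3 : (Ideal.absNorm I : ℝ) * Z ^ 2 ≤
          (Ideal.absNorm I : ℝ) * (2 ^ n * (Ideal.absNorm 𝔟 : ℝ) ^ 2) := by linarith
      exact le_of_mul_le_mul_left h3 hNI

/-- two elements over the same `(𝔟, β)` -/
theorem ub2_two {F : Type} [Field F] [NumberField F] (α α' δ δ' β : 𝓞 F) (hβ : β ≠ 0)
    (h : α * β = δ ^ 2) (h' : α' * β = δ' ^ 2) : IsSquare (α * α') := by
  have h1 : (α * α') * β ^ 2 = (δ * δ') ^ 2 := by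
    calc (α * α') * β ^ 2 = (α * β) * (α' * β) := by ring
      _ = (δ * δ') ^ 2 := by rw [h, h']; ring
  have h2 : β ^ 2 ∣ (δ * δ') ^ 2 := ⟨α * α', by rw [← h1]; ring⟩
  have h3 : β ∣ δ * δ' := (IsIntegrallyClosed.pow_dvd_pow_iff (by norm_num)).1 h2
  obtain ⟨γ, hγ⟩ := h3
  refine ⟨γ, ?_⟩
  rw [hγ] at h1
  have h4 : (α * α') * β ^ 2 = (γ * γ) * β ^ 2 := by rw [h1]; ring
  exact mul_right_cancel₀ (pow_ne_zero 2 hβ) h4

theorem ub2 (n : ℕ) (hn : 0 < n) : ∃ C : ℝ, 1 ≤ C ∧ ∃ A : ℕ,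
    ∀ (F : Type) [Field F] [NumberField F], TC F n → ∀ 𝔤 : Ideal (𝓞 F), 𝔤 ≠ ⊥ →
      ∀ u : ℝ, C * dd F ^ A ≤ u → ∀ T : Finset (𝓞 F × Ideal (𝓞 F)),
        (∀ p ∈ T, p.1 ≠ 0 ∧ 𝔤 ∣ p.2 ∧ (∃ 𝔢 : Ideal (𝓞 F), Ideal.span {p.1} = p.2 * 𝔢 ^ 2) ∧
          (Ideal.absNorm p.2 : ℝ) ≤ u * Ideal.absNorm 𝔤) →
        (∀ p ∈ T, ∀ p' ∈ T, p.2 = p'.2 → IsSquare (p.1 * p'.1) → p = p') →
        (T.card : ℝ) ≤ C * kap F * u := by
  classical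
  obtain ⟨c, hc, hev⟩ := ev_lower n hn
  obtain ⟨C₁, hC₁, A₁, hll⟩ := ll_upper n hn
  obtain ⟨C, hC⟩ : ∃ C : ℝ, C = C₁ + 4 * C₁ * 2 ^ n / c := ⟨_, rfl⟩
  have hC0 : 0 < 4 * C₁ * 2 ^ n / c := by positivity
  refine ⟨C, by rw [hC]; linarith, A₁, ?_⟩
  intro F _ _ hF 𝔤 h𝔤 u hu T hT hTsq
  have hdd : 0 < dd F := dd_pos F
  have hdd1 : 1 ≤ dd F := one_le_dd F
  have hκ : 0 < kap F := kap_pos F
  have hd : 0 < Real.sqrt (dd F) := Real.sqrt_pos.2 hdd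
  have hddA : 1 ≤ dd F ^ A₁ := one_le_pow₀ hdd1
  have hu0 : 0 < u := by
    have : 0 < C * dd F ^ A₁ := by rw [hC]; positivity
    linarith
  have hN𝔤 : (0 : ℝ) < Ideal.absNorm 𝔤 := by
    exact_mod_cast Nat.pos_of_ne_zero (fun h => h𝔤 (Ideal.absNorm_eq_zero_iff.1 h))
  -- the threshold for Z
  have hZex : ∃ Z : ℝ, 1 ≤ Z ∧
      ((∀ S : Finset (Ideal (𝓞 F)), (∀ I ∈ S, I ≠ ⊥ ∧ (Ideal.absNorm I : ℝ) ≤ Z) →
      (S.card : ℝ) ≤ 2 * kap F * Z)) ∧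
      ∀ p ∈ T, ∃ Δ : Finset (𝓞 F),
      c * Z ≤ (Δ.card : ℝ) * Real.sqrt (dd F) ∧
      ∀ δ ∈ Δ, ∃ q : Ideal (𝓞 F) × 𝓞 F, p.1 * q.2 = δ ^ 2 ∧ q.2 ≠ 0 ∧
        Ideal.span {q.2} = p.2 * q.1 ^ 2 ∧
        (∀ s : ℝ, 0 ≤ s → Z ^ 2 * Ideal.absNorm p.2 ≤ s ^ n → ∀ w : InfinitePlace F,
          w (q.2 : F) ≤ s) ∧
        (Ideal.absNorm q.1 : ℝ) ≤ Z ∧ Z ^ 2 ≤ 2 ^ n * (Ideal.absNorm q.1 : ℝ) ^ 2 := by
    obtain ⟨Z₁, hZ₁, hid⟩ := id_count F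
    have hex : ∀ p : 𝓞 F × Ideal (𝓞 F), ∃ Z₀ : ℝ, 1 ≤ Z₀ ∧ (p ∈ T → ∀ Z : ℝ, Z₀ ≤ Z →
      ∃ Δ : Finset (𝓞 F),
      c * Z ≤ (Δ.card : ℝ) * Real.sqrt (dd F) ∧
      ∀ δ ∈ Δ, ∃ q : Ideal (𝓞 F) × 𝓞 F, p.1 * q.2 = δ ^ 2 ∧ q.2 ≠ 0 ∧
        Ideal.span {q.2} = p.2 * q.1 ^ 2 ∧
        (∀ s : ℝ, 0 ≤ s → Z ^ 2 * Ideal.absNorm p.2 ≤ s ^ n → ∀ w : InfinitePlace F,
          w (q.2 : F) ≤ s) ∧
        (Ideal.absNorm q.1 : ℝ) ≤ Z ∧ Z ^ 2 ≤ 2 ^ n * (Ideal.absNorm q.1 : ℝ) ^ 2) := by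
      intro p
      by_cases hp : p ∈ T
      · obtain ⟨h1, _, ⟨𝔢, h2⟩, _⟩ := hT p hp
        obtain ⟨Z₀, h3, h4⟩ := ub2_elem hn hc hev hF p.1 h1 p.2 𝔢 h2
        exact ⟨Z₀, h3, fun _ => h4⟩
      · exact ⟨1, le_rfl, fun h => absurd h hp⟩
    choose Z₀ hZ₀ hZ₀' using hex
    refine ⟨Z₁ + ∑ p ∈ T, Z₀ p, ?_, ?_, ?_⟩
    · have : 0 ≤ ∑ p ∈ T, Z₀ p := Finset.sum_nonneg fun p _ => by have := hZ₀ p; linarith
      linarith
    · have : 0 ≤ ∑ p ∈ T, Z₀ p := Finset.sum_nonneg fun p _ => by have := hZ₀ p; linarith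
      exact (hid _ (by linarith)).1
    · intro p hp
      refine hZ₀' p hp _ ?_
      have := Finset.single_le_sum (f := Z₀) (fun p _ => by have := hZ₀ p; linarith) hp
      linarith
  obtain ⟨Z, hZ1, hcount, hΔex⟩ := hZex
  have hZ0 : 0 < Z := by linarith
  choose! Δ hΔ1 hΔ2 using hΔex
  choose! Φ hΦ using hΔ2
  -- the pairs (p, δ)
  obtain ⟨Ξ, hΞ⟩ : ∃ Ξ : Finset (Σ _ : 𝓞 F × Ideal (𝓞 F), 𝓞 F), Ξ = T.sigma Δ := ⟨_, rfl⟩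
  have hΞcard : (T.card : ℝ) * (c * Z) ≤ (Ξ.card : ℝ) * Real.sqrt (dd F) := by
    rw [hΞ, Finset.card_sigma]
    push_cast
    rw [Finset.sum_mul, ← nsmul_eq_mul, ← Finset.sum_const]
    exact Finset.sum_le_sum fun p hp => hΔ1 p hp
  obtain ⟨Υ, hΥ⟩ : ∃ Υ : Finset (Ideal (𝓞 F) × 𝓞 F), Υ = Ξ.image (fun x => Φ x.1 x.2) :=
    ⟨_, rfl⟩
  have htwo : Ξ.card ≤ 2 * Υ.card := by
    rw [hΥ]
    apply Finset.card_le_mul_card_image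
    intro q hq
    obtain ⟨x₀, hx₀, hx₀q⟩ := Finset.mem_image.1 hq
    have hsub : Ξ.filter (fun x => Φ x.1 x.2 = q) ⊆
        ({⟨x₀.1, x₀.2⟩, ⟨x₀.1, -x₀.2⟩} : Finset (Σ _ : 𝓞 F × Ideal (𝓞 F), 𝓞 F)) := by
      intro x hx
      rw [Finset.mem_filter] at hx
      obtain ⟨hxΞ, hxq⟩ := hx
      rw [hΞ, Finset.mem_sigma] at hxΞ hx₀
      obtain ⟨e1, e2, e3, e4, e5, e6⟩ := hΦ x.1 hxΞ.1 x.2 hxΞ.2
      obtain ⟨k1, k2, k3, k4, k5, k6⟩ := hΦ x₀.1 hx₀.1 x₀.2 hx₀.2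
      have hq0 : Φ x₀.1 x₀.2 = q := hx₀q
      rw [hxq] at e1 e2 e3 e6
      rw [hq0] at k1 k2 k3
      have hI : x.1.2 = x₀.1.2 := by
        have h1 : x.1.2 * q.1 ^ 2 = x₀.1.2 * q.1 ^ 2 := by rw [← e3, ← k3]
        have h2 : q.1 ^ 2 ≠ 0 := by
          intro h0
          rw [h0, mul_zero] at e3
          apply e2
          rw [← Ideal.span_singleton_eq_bot]
          exact e3
        exact mul_right_cancel₀ h2 h1
      have hsq := ub2_two x.1.1 x₀.1.1 x.2 x₀.2 q.2 e2 e1 k1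
      have hpp := hTsq x.1 hxΞ.1 x₀.1 hx₀.1 hI hsq
      have hδ : x.2 ^ 2 = x₀.2 ^ 2 := by rw [← e1, ← k1, hpp]
      rw [Finset.mem_insert, Finset.mem_singleton]
      rcases sq_eq_sq_iff_eq_or_eq_neg.1 hδ with h | h
      · left
        exact Sigma.ext hpp (by rw [h])
      · right
        exact Sigma.ext hpp (by rw [h])
    exact (Finset.card_le_card hsub).trans Finset.card_le_two
  -- the fibres over 𝔟
  obtain ⟨s, hs⟩ : ∃ s : ℝ, s = (Z ^ 2 * (u * Ideal.absNorm 𝔤)) ^ ((n : ℝ)⁻¹) := ⟨_, rfl⟩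
  have hspos : 0 < s := by rw [hs]; positivity
  have hsn : s ^ n = Z ^ 2 * (u * Ideal.absNorm 𝔤) := by
    rw [hs]
    exact Real.rpow_inv_natCast_pow (by positivity) hn.ne'
  have hΥmem : ∀ q ∈ Υ, q.1 ≠ ⊥ ∧ (Ideal.absNorm q.1 : ℝ) ≤ Z ∧
      Z ^ 2 ≤ 2 ^ n * (Ideal.absNorm q.1 : ℝ) ^ 2 ∧ q.2 ∈ 𝔤 * q.1 ^ 2 ∧
      ∀ w : InfinitePlace F, w (q.2 : F) ≤ s := by
    intro q hq
    rw [hΥ, Finset.mem_image] at hq
    obtain ⟨x, hx, rfl⟩ := hq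
    rw [hΞ, Finset.mem_sigma] at hx
    obtain ⟨e1, e2, e3, e4, e5, e6⟩ := hΦ x.1 hx.1 x.2 hx.2
    obtain ⟨_, hg, _, hNI⟩ := hT x.1 hx.1
    refine ⟨?_, e5, e6, ?_, ?_⟩
    · intro h0
      rw [h0, Ideal.absNorm_bot] at e6
      have : (0 : ℝ) < Z ^ 2 := by positivity
      simp at e6
      nlinarith
    · have h1 : (Φ x.1 x.2).2 ∈ Ideal.span {(Φ x.1 x.2).2} := Ideal.mem_span_singleton_self _
      rw [e3] at h1
      exact Ideal.mul_mono_left (Ideal.le_of_dvd hg) h1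
    · apply e4 s hspos.le
      rw [hsn]
      exact mul_le_mul_of_nonneg_left hNI (by positivity)
  obtain ⟨b, hb⟩ : ∃ b : ℝ, b = C₁ * 2 ^ n * u / Real.sqrt (dd F) := ⟨_, rfl⟩
  have hb0 : 0 ≤ b := by rw [hb]; positivity
  have hfib : ∀ 𝔟 ∈ Υ.image Prod.fst, ((Υ.filter (fun q => q.1 = 𝔟)).card : ℝ) ≤ b := by
    intro 𝔟 h𝔟
    obtain ⟨q₀, hq₀, hq₀𝔟⟩ := Finset.mem_image.1 h𝔟
    obtain ⟨m1, m2, m3, m4, m5⟩ := hΥmem q₀ hq₀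
    rw [hq₀𝔟] at m1 m2 m3 m4
    have hinj : Set.InjOn Prod.snd ((Υ.filter (fun q => q.1 = 𝔟)) : Set (Ideal (𝓞 F) × 𝓞 F)) := by
      intro q hq q' hq' h
      rw [Finset.mem_coe, Finset.mem_filter] at hq hq'
      exact Prod.ext (by rw [hq.2, hq'.2]) h
    rw [← Finset.card_image_of_injOn hinj]
    obtain ⟨P, hP⟩ : ∃ P, P = (Υ.filter (fun q => q.1 = 𝔟)).image Prod.snd := ⟨_, rfl⟩
    rw [← hP]
    have hN𝔟 : (0 : ℝ) < Ideal.absNorm 𝔟 := by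
      exact_mod_cast Nat.pos_of_ne_zero (fun h => m1 (Ideal.absNorm_eq_zero_iff.1 h))
    have hprod0 : 𝔤 * 𝔟 ^ 2 ≠ ⊥ := mul_ne_zero h𝔤 (pow_ne_zero 2 m1)
    have hnorm : ((Ideal.absNorm (𝔤 * 𝔟 ^ 2) : ℕ) : ℝ) =
        (Ideal.absNorm 𝔤 : ℝ) * (Ideal.absNorm 𝔟 : ℝ) ^ 2 := by
      rw [map_mul, map_pow]; push_cast; ring
    have hcond : C₁ * dd F ^ A₁ * (Ideal.absNorm (𝔤 * 𝔟 ^ 2) : ℝ) ≤ s ^ n := by
      rw [hnorm, hsn]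
      have h1 : C₁ * dd F ^ A₁ ≤ u := by
        refine le_trans ?_ hu
        refine mul_le_mul_of_nonneg_right ?_ (by positivity)
        rw [hC]; linarith
      have h2 : (Ideal.absNorm 𝔟 : ℝ) ^ 2 ≤ Z ^ 2 := pow_le_pow_left₀ hN𝔟.le m2 2
      calc C₁ * dd F ^ A₁ * ((Ideal.absNorm 𝔤 : ℝ) * (Ideal.absNorm 𝔟 : ℝ) ^ 2) ≤
            u * ((Ideal.absNorm 𝔤 : ℝ) * Z ^ 2) := by gcongr
        _ = _ := by ring
    have hPmem : ∀ x ∈ P, x - 0 ∈ 𝔤 * 𝔟 ^ 2 ∧ ∀ w : InfinitePlace F, w (x : F) ≤ s := by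
      intro x hx
      rw [hP, Finset.mem_image] at hx
      obtain ⟨q, hq, rfl⟩ := hx
      rw [Finset.mem_filter] at hq
      obtain ⟨_, _, _, k4, k5⟩ := hΥmem q hq.1
      rw [hq.2] at k4
      exact ⟨by rw [sub_zero]; exact k4, k5⟩
    have hll1 := hll F hF (𝔤 * 𝔟 ^ 2) hprod0 0 s hspos hcond P hPmem
    rw [hnorm, hsn] at hll1
    rw [hb, le_div_iff₀ hd]
    have h3 : (P.card : ℝ) * Real.sqrt (dd F) * (Ideal.absNorm 𝔟 : ℝ) ^ 2 ≤ C₁ * Z ^ 2 * u := by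
      have h4 : (Ideal.absNorm 𝔤 : ℝ) * ((P.card : ℝ) * Real.sqrt (dd F) *
          (Ideal.absNorm 𝔟 : ℝ) ^ 2) ≤ (Ideal.absNorm 𝔤 : ℝ) * (C₁ * Z ^ 2 * u) := by
        calc _ = (P.card : ℝ) * ((Ideal.absNorm 𝔤 : ℝ) * (Ideal.absNorm 𝔟 : ℝ) ^ 2 *
              Real.sqrt (dd F)) := by ring
          _ ≤ _ := hll1
          _ = _ := by ring
      exact le_of_mul_le_mul_left h4 hN𝔤
    have h5 : C₁ * Z ^ 2 * u ≤ C₁ * (2 ^ n * (Ideal.absNorm 𝔟 : ℝ) ^ 2) * u := by gcongr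
    have h6 : (P.card : ℝ) * Real.sqrt (dd F) * (Ideal.absNorm 𝔟 : ℝ) ^ 2 ≤
        (C₁ * 2 ^ n * u) * (Ideal.absNorm 𝔟 : ℝ) ^ 2 := by linarith
    exact le_of_mul_le_mul_right h6 (by positivity)
  have hΥcard : (Υ.card : ℝ) ≤ 2 * kap F * Z * b := by
    have h1 : (Υ.card : ℝ) = ∑ 𝔟 ∈ Υ.image Prod.fst,
        ((Υ.filter (fun q => q.1 = 𝔟)).card : ℝ) := by
      rw [Finset.card_eq_sum_card_image Prod.fst Υ]
      push_cast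
      rfl
    rw [h1]
    refine (Finset.sum_le_sum hfib).trans ?_
    rw [Finset.sum_const, nsmul_eq_mul]
    refine mul_le_mul_of_nonneg_right ?_ hb0
    apply hcount
    intro 𝔟 h𝔟
    obtain ⟨q₀, hq₀, hq₀𝔟⟩ := Finset.mem_image.1 h𝔟
    obtain ⟨m1, m2, m3, m4, m5⟩ := hΥmem q₀ hq₀
    rw [← hq₀𝔟]
    exact ⟨m1, m2⟩
  -- conclusion
  have hfin : (T.card : ℝ) * (c * Z) ≤ (4 * C₁ * 2 ^ n) * kap F * u * Z := by
    have h1 : (Ξ.card : ℝ) ≤ 2 * Υ.card := by exact_mod_cast htwo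
    calc (T.card : ℝ) * (c * Z) ≤ (Ξ.card : ℝ) * Real.sqrt (dd F) := hΞcard
      _ ≤ (2 * (2 * kap F * Z * b)) * Real.sqrt (dd F) := by gcongr; linarith
      _ = (4 * C₁ * 2 ^ n) * kap F * u * Z := by
          rw [hb]; field_simp; ring
  have hfin2 : (T.card : ℝ) * c ≤ (4 * C₁ * 2 ^ n) * kap F * u := by
    have h1 : ((T.card : ℝ) * c) * Z ≤ ((4 * C₁ * 2 ^ n) * kap F * u) * Z := by linarith
    exact le_of_mul_le_mul_right h1 hZ0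
  calc (T.card : ℝ) ≤ (4 * C₁ * 2 ^ n) * kap F * u / c := by
        rw [le_div_iff₀ hc]; exact hfin2
    _ = (4 * C₁ * 2 ^ n / c) * kap F * u := by ring
    _ ≤ C * kap F * u := by
        rw [hC]
        have : 0 ≤ C₁ * (kap F * u) := by positivity
        nlinarith

end H36.QA
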