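import Pool.Agent.H36.QA.Pairs
import Pool.Agent.H36.QA.Cls
import Pool.Agent.H36.QA.UB2
import Pool.Agent.H36.QA.Trv

/-!
# [H36 QA LARGEG] Pairs with conductor divisible by an ideal, second bound (50-80 lines)

Relation on pairs: `r p p'` iff `p.2 = p'.2` and `p.1 * p'.1` is a square.  By `cls_count` (with
`β₁ = p.1`, `I = p.2`, `𝔟₁` from `PairOK`; the map `p ↦ p.1` is injective on a class because `p.2` is
constant on it) every class in `P` has at most `C₁ Z / √d` elements, if `Z ≥ C₁ d^A`.  `transversal`: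
`T ⊆ P` with pairwise unrelated elements and `#P ≤ #T C₁ Z / √d`.  `ub2` for `T`
(`N(p.2) ≤ Y ≤ u N(𝔤)` by `pair_norm`): `#T ≤ C₂ κ u`.
-/

open scoped NumberField nonZeroDivisors
open NumberField

noncomputable section

namespace H36.QA

theorem large_g (n : ℕ) (hn : 0 < n) : ∃ C : ℝ, 1 ≤ C ∧ ∃ A : ℕ,
    ∀ (F : Type) [Field F] [NumberField F], TC F n → ∀ (m : ℕ),
      ∀ β₀ : Ideal (𝓞 F) → 𝓞 F, ∃ Z₀ : ℝ, ∀ Z : ℝ, Z₀ ≤ Z → ∀ Y s : ℝ, 0 < s →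
        4 * s ^ n = Z ^ 2 * Y → ∀ 𝔤 : Ideal (𝓞 F), 𝔤 ≠ ⊥ → ∀ u : ℝ, C * dd F ^ A ≤ u →
          Y ≤ u * Ideal.absNorm 𝔤 →
          ∀ P : Finset (𝓞 F × Ideal (𝓞 F)), (∀ p ∈ P, PairOK F β₀ m Z s p ∧ 𝔤 ∣ p.2) →
            (P.card : ℝ) * Real.sqrt (dd F) ≤ C * kap F * u * Z := by
  classical
  obtain ⟨C₁, hC₁, A₁, h1⟩ := cls_count n hn
  obtain ⟨C₂, hC₂, A₂, h2⟩ := ub2 n hn
  refine ⟨C₁ * C₂, one_le_mul_of_one_le_of_one_le hC₁ hC₂, A₂, ?_⟩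
  intro F _ _ hF m β₀
  refine ⟨max 1 (C₁ * dd F ^ A₁), ?_⟩
  intro Z hZ Y s hs hsY 𝔤 h𝔤 u hu hYu P hP
  have hZ1 : 1 ≤ Z := (le_max_left _ _).trans hZ
  have hZ0 : 0 < Z := by linarith
  have hZ2 : C₁ * dd F ^ A₁ ≤ Z := (le_max_right _ _).trans hZ
  have hd0 : 0 < dd F := dd_pos F
  have hsd : 0 < Real.sqrt (dd F) := Real.sqrt_pos.2 hd0
  have hκ := kap_pos F
  have hu2 : C₂ * dd F ^ A₂ ≤ u := by
    refine le_trans ?_ hu
    have h3 : 0 ≤ C₂ * dd F ^ A₂ := by positivity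
    calc C₂ * dd F ^ A₂ = 1 * (C₂ * dd F ^ A₂) := (one_mul _).symm
      _ ≤ C₁ * (C₂ * dd F ^ A₂) := mul_le_mul_of_nonneg_right hC₁ h3
      _ = C₁ * C₂ * dd F ^ A₂ := by ring
  set r : (𝓞 F × Ideal (𝓞 F)) → (𝓞 F × Ideal (𝓞 F)) → Prop :=
    fun p p' => p.2 = p'.2 ∧ IsSquare (p.1 * p'.1) with hr
  obtain ⟨T, hTP, hT, hcard⟩ := transversal r (fun x => ⟨rfl, ⟨x.1, rfl⟩⟩)
    (fun x y hxy => ⟨hxy.1.symm, by rw [mul_comm]; exact hxy.2⟩) P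
    (C₁ * Z / Real.sqrt (dd F)) (by
      intro y hy
      obtain ⟨hy0, hyw, 𝔟₁, hb1, hb2, hb3, -⟩ := (hP y hy).1
      have hinj : Set.InjOn Prod.fst
          ((P.filter fun x => r x y : Finset (𝓞 F × Ideal (𝓞 F))) :
            Set (𝓞 F × Ideal (𝓞 F))) := by
        intro a ha b hb hab
        have ha' := (Finset.mem_filter.1 (Finset.mem_coe.1 ha)).2.1
        have hb' := (Finset.mem_filter.1 (Finset.mem_coe.1 hb)).2.1
        exact Prod.ext hab (ha'.trans hb'.symm)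
      have h3 := h1 F hF Z s hZ2 hs y.1 y.2 𝔟₁ hy0 hb3 hb1 hb2 hyw
        ((P.filter fun x => r x y).image Prod.fst) (by
          intro β hβ
          obtain ⟨x, hx, rfl⟩ := Finset.mem_image.1 hβ
          obtain ⟨hxP, hx2, hxs⟩ := Finset.mem_filter.1 hx
          obtain ⟨hx0, hxw, 𝔟, -, -, hx3, -⟩ := (hP x hxP).1
          exact ⟨hx0, hxs, ⟨𝔟, by rw [hx3, hx2]⟩, fun w => (hxw w).2⟩)
      rw [Finset.card_image_of_injOn hinj] at h3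
      convert h3)
  have hTc := h2 F hF 𝔤 h𝔤 u hu2 T (by
    intro p hp
    obtain ⟨⟨hp0, hpw, 𝔟, hb1, hb2, hb3, hb4⟩, hdvd⟩ := hP p (hTP hp)
    refine ⟨hp0, hdvd, ⟨𝔟, hb3⟩, ?_⟩
    exact (pair_norm n F hF β₀ m Z s Y hZ0 hs hsY p (hP p (hTP hp)).1).2.trans hYu) (by
    intro p hp p' hp' h3 h4
    exact hT p hp p' hp' ⟨h3, h4⟩)
  calc (P.card : ℝ) * Real.sqrt (dd F)
      ≤ ((T.card : ℝ) * (C₁ * Z / Real.sqrt (dd F))) * Real.sqrt (dd F) :=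
        mul_le_mul_of_nonneg_right hcard hsd.le
    _ = (T.card : ℝ) * (C₁ * Z) := by
        field_simp
    _ ≤ (C₂ * kap F * u) * (C₁ * Z) :=
        mul_le_mul_of_nonneg_right hTc (by positivity)
    _ = C₁ * C₂ * kap F * u * Z := by ring

end H36.QA
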