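import Pool.Agent.H36.QA.SmallG
import Pool.Agent.H36.QA.LargeG
import Pool.Agent.H36.QA.Bad

/-!
# [H36 QA UCT] Uniform lower bound for the number of quadratic extensions with good conductor
(assembly, 120-200 lines)

Constants: `z` large (depending on `n`), `m = N₀ * ∏_{p ≤ z} p` (e.g. `N₀ * z.factorial`, only
`N₀ ∣ m` and `p ∣ m` for all primes `p ≤ z` are used), `ε` small (depending on `n`).
Fix `F, T, Y`, a function `β₀` with `CoP F m 𝔟 (β₀ 𝔟)` for `𝔟 ≠ ⊥` (`co_exists`), `Z` large, and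
`s > 0` with `4 s^n = Z² Y` (`s = (Z² Y / 4) ^ (1/n : ℝ)`).
1. `P₀` from `pairs_many`: `#P₀ m^n √d ≥ c κ Z Y`.
2. For `p ∈ P₀`: `N(p.2)` is coprime to `m` (`co_coprime`), `Y/(4·2^n) < N(p.2) ≤ Y` (`pair_norm`).
   Let `P₁ ⊆ P₀` be the pairs for which `N(p.2)` is squarefree and coprime to `∏_{p∈T} p`.  For
   `p ∈ P₀ \ P₁` choose a bad `𝔤 ∣ p.2` (`bad_exists`); `N(𝔤) ∣ N(p.2)`, so it is coprime to `m` and
   `≤ Y`.  Let `B` be the finite set of these `𝔤`.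
3. Small `𝔤` (`C₁ d^A m^n N(𝔤) ≤ Y`): `small_g` and `bad_sum`: these pairs contribute at most
   `C₁ κ Z Y / (m^n √d) * (C₂ / z + n ε) ≤ (c/4) κ Z Y / (m^n √d)`.
4. Large `𝔤`: `u = C₁ d^A m^n` (enlarged so that `u ≥ C₃ d^A'`): `Y < u N(𝔤)`; `large_g` and
   `bad_count`: at most `C₃ κ u Z / √d * (C₄ √Y + n #T) ≤ (c/4) κ Z Y / (m^n √d)`, because
   `Y ≥ A (d ∏ T)^A` with `A` large (`#T ≤ ∏_{p∈T} p`).
5. So `#P₁ ≥ (c/2) κ Z Y / (m^n √d)`.  `transversal` with the relation of `LargeG` and `cls_count`: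
   `T₁ ⊆ P₁` pairwise unrelated, `#T₁ ≥ #P₁ √d / (C₅ Z) ≥ c' κ Y`.
6. `X` = the image of `T₁` under `p ↦ p.1`.  It is injective on `T₁` with pairwise non-square
   products: if `p.1 p'.1` is a square then `p.2 * p'.2` is a square of an ideal, both are squarefree
   ideals (their norms are squarefree), so `p.2 = p'.2` and `p = p'`.
   `1 < N(p.2)` because `N(p.2) > Y/(4·2^n) ≥ 1`.
-/

open scoped NumberField nonZeroDivisors
open NumberField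

noncomputable section

namespace H36.QA


theorem uct_sqf {F : Type} [Field F] [NumberField F] (I I' E E' D : Ideal (𝓞 F))
    (hI : Squarefree (Ideal.absNorm I)) (hI' : Squarefree (Ideal.absNorm I'))
    (hE : E ≠ ⊥) (hE' : E' ≠ ⊥) (h : (I * E ^ 2) * (I' * E' ^ 2) = D ^ 2) : I = I' := by
  have hsq : ∀ J : Ideal (𝓞 F), Squarefree (Ideal.absNorm J) → Squarefree J := by
    intro J hJ Q hQ
    have h1 : Ideal.absNorm Q * Ideal.absNorm Q ∣ Ideal.absNorm J := by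
      rw [← map_mul]
      exact map_dvd Ideal.absNorm hQ
    have h2 := hJ _ h1
    rw [Nat.isUnit_iff, Ideal.absNorm_eq_one_iff] at h2
    rw [h2]
    exact (Ideal.isUnit_iff.2 rfl)
  have hI2 := hsq I hI
  have hI2' := hsq I' hI'
  have h1 : (I * I') * (E * E') ^ 2 = D ^ 2 := by rw [← h]; ring
  have h2 : (E * E') ^ 2 ∣ D ^ 2 := ⟨I * I', by rw [← h1]; ring⟩
  have h3 : E * E' ∣ D := (UniqueFactorizationMonoid.pow_dvd_pow_iff_dvd (by norm_num)).1 h2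
  obtain ⟨G, hG⟩ := h3
  have hEE : (E * E') ^ 2 ≠ 0 := pow_ne_zero 2 (mul_ne_zero hE hE')
  have h4 : I * I' = G ^ 2 := by
    apply mul_right_cancel₀ hEE
    rw [h1, hG]; ring
  have h5 : I ∣ G := (hI2.dvd_pow_iff_dvd (by norm_num)).1 ⟨I', h4.symm⟩
  obtain ⟨H, hH⟩ := h5
  have hI0 : I ≠ 0 := hI2.ne_zero
  have h6 : I' = I * (H * H) := by
    apply mul_left_cancel₀ hI0
    rw [h4, hH]; ring
  have h7 : H * H ∣ I' := ⟨I, by rw [h6]; ring⟩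
  have h8 := hI2' H h7
  have h9 : H = 1 := by
    rw [Ideal.isUnit_iff] at h8
    rw [h8, Ideal.one_eq_top]
  rw [h6, h9]; simp

/-- related pairs -/
def URel (F : Type) [Field F] [NumberField F] (p q : 𝓞 F × Ideal (𝓞 F)) : Prop :=
  p.2 = q.2 ∧ IsSquare (p.1 * q.1)

theorem uct_pow {D k : ℝ} {A e : ℕ} (hD : 1 ≤ D) (hk : k ≤ A) (he : e ≤ A) :
    k * D ^ e ≤ A * D ^ A := by
  have h1 : D ^ e ≤ D ^ A := pow_le_pow_right₀ hD he
  have h0 : 0 ≤ D ^ e := by positivity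
  calc k * D ^ e ≤ A * D ^ e := mul_le_mul_of_nonneg_right hk h0
    _ ≤ A * D ^ A := mul_le_mul_of_nonneg_left h1 (Nat.cast_nonneg _)

theorem uct (n N₀ : ℕ) (hn : 0 < n) (hN₀ : 0 < N₀) :
    ∃ (ε c : ℝ) (m A : ℕ), 0 < ε ∧ 0 < c ∧ 0 < m ∧ N₀ ∣ m ∧
    ∀ (F : Type) [Field F] [NumberField F], TC F n → ∀ T : Finset ℕ, (∀ p ∈ T, p.Prime) →
      ∑ p ∈ T, (1 : ℝ) / p ≤ ε → ∀ Y : ℝ, (A : ℝ) * (dd F * ∏ p ∈ T, (p : ℝ)) ^ A ≤ Y →
        ∃ X : Finset (𝓞 F),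
          (∀ x ∈ X, x ≠ 0 ∧ ∃ I J : Ideal (𝓞 F), Ideal.span {x} = I * J ^ 2 ∧
            Squarefree (Ideal.absNorm I) ∧ (Ideal.absNorm I).Coprime (m * ∏ p ∈ T, p) ∧
            1 < Ideal.absNorm I ∧ (Ideal.absNorm I : ℝ) ≤ Y) ∧
          (∀ x ∈ X, ∀ y ∈ X, IsSquare (x * y) → x = y) ∧
          c * kap F * Y ≤ (X.card : ℝ) := by
  classical
  obtain ⟨cP, CP, hcP, hCP, AP, hpairs⟩ := pairs_many n hn
  obtain ⟨CS, hCS, AS, hsmall⟩ := small_g n hn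
  obtain ⟨CL, hCL, AL, hlarge⟩ := large_g n hn
  obtain ⟨CB, hCB, hbsum⟩ := bad_sum n
  obtain ⟨CC, hCC, hbcount⟩ := bad_count n
  obtain ⟨CK, hCK, AK, hcls⟩ := cls_count n hn
  have hnR : (0 : ℝ) < n := by exact_mod_cast hn
  -- z and ε
  obtain ⟨z, hz⟩ : ∃ z : ℕ, z = ⌈8 * CS * CB / cP⌉₊ + 1 := ⟨_, rfl⟩
  have hz0 : 0 < z := by omega
  have hzR : (0 : ℝ) < z := by exact_mod_cast hz0
  have hz1 : CS * (CB / z) ≤ cP / 8 := by
    have h1 : 8 * CS * CB / cP ≤ z := by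
      rw [hz]; push_cast
      have := Nat.le_ceil (8 * CS * CB / cP)
      linarith
    rw [div_le_iff₀ hcP] at h1
    rw [← mul_div_assoc, div_le_iff₀ hzR]
    linarith
  obtain ⟨ε, hε⟩ : ∃ ε : ℝ, ε = cP / (8 * CS * n) := ⟨_, rfl⟩
  have hε0 : 0 < ε := by rw [hε]; positivity
  have hε1 : CS * (n * ε) = cP / 8 := by rw [hε]; field_simp
  obtain ⟨m, hm⟩ : ∃ m : ℕ, m = N₀ * z.factorial := ⟨_, rfl⟩
  have hm0 : 0 < m := by rw [hm]; exact Nat.mul_pos hN₀ (Nat.factorial_pos z)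
  have hmR : (0 : ℝ) < m := by exact_mod_cast hm0
  have hmn : (0 : ℝ) < (m : ℝ) ^ n := by positivity
  have hmdvd : ∀ p : ℕ, p.Prime → p ≤ z → p ∣ m := by
    intro p hp hpz
    rw [hm]
    exact Dvd.dvd.mul_left ((hp.dvd_factorial).2 hpz) _
  obtain ⟨a, ha⟩ : ∃ a : ℕ, a = AS + AL := ⟨_, rfl⟩
  obtain ⟨K, hK⟩ : ∃ K : ℝ, K = CL * (CS + CL) * (m : ℝ) ^ n * (m : ℝ) ^ n := ⟨_, rfl⟩
  have hK0 : 0 < K := by rw [hK]; positivity
  obtain ⟨k1, hk1⟩ : ∃ k : ℝ, k = CP * (m : ℝ) ^ n := ⟨_, rfl⟩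
  obtain ⟨k2, hk2⟩ : ∃ k : ℝ, k = (8 * K * CC / cP) ^ 2 := ⟨_, rfl⟩
  obtain ⟨k3, hk3⟩ : ∃ k : ℝ, k = 8 * K * n / cP := ⟨_, rfl⟩
  obtain ⟨k4, hk4⟩ : ∃ k : ℝ, k = 4 * 2 ^ n := ⟨_, rfl⟩
  have hk1p : 0 < k1 := by rw [hk1]; positivity
  have hk2p : 0 < k2 := by rw [hk2]; positivity
  have hk3p : 0 < k3 := by rw [hk3]; positivity
  have hk4p : 0 < k4 := by rw [hk4]; positivity
  obtain ⟨A, hA⟩ : ∃ A : ℕ, A = ⌈k1 + k2 + k3 + k4⌉₊ + (AP + 2 * a + (a + 1)) := ⟨_, rfl⟩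
  have hAR : k1 + k2 + k3 + k4 ≤ A := by
    rw [hA]; push_cast
    have h1 := Nat.le_ceil (k1 + k2 + k3 + k4)
    have h2 : (0 : ℝ) ≤ AP := Nat.cast_nonneg _
    have h3 : (0 : ℝ) ≤ a := Nat.cast_nonneg _
    linarith
  refine ⟨ε, cP / (2 * CK * (m : ℝ) ^ n), m, A, hε0, by positivity, hm0,
    by rw [hm]; exact Dvd.intro _ rfl, ?_⟩
  intro F _ _ hF T hT hTε Y hY
  have hd1 : 1 ≤ dd F := one_le_dd F
  have hd0 : 0 < dd F := dd_pos F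
  have hκ : 0 < kap F := kap_pos F
  have hsd : 0 < Real.sqrt (dd F) := Real.sqrt_pos.2 hd0
  obtain ⟨Pi0, hPi⟩ : ∃ Pi0 : ℝ, Pi0 = ∏ p ∈ T, (p : ℝ) := ⟨_, rfl⟩
  rw [← hPi] at hY
  have hPiT : (T.card : ℝ) ≤ Pi0 ∧ 1 ≤ Pi0 := by
    have h1 : (2 : ℝ) ^ T.card ≤ Pi0 := by
      rw [hPi, ← Finset.prod_const]
      apply Finset.prod_le_prod
      · intro p _; norm_num
      · intro p hp
        exact_mod_cast (hT p hp).two_le
    have h2 : ((T.card : ℕ) : ℝ) ≤ 2 ^ T.card := by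
      exact_mod_cast (Nat.lt_two_pow_self (n := T.card)).le
    have h3 : (1 : ℝ) ≤ 2 ^ T.card := one_le_pow₀ (by norm_num)
    exact ⟨h2.trans h1, h3.trans h1⟩
  obtain ⟨D, hD⟩ : ∃ D : ℝ, D = dd F * Pi0 := ⟨_, rfl⟩
  rw [← hD] at hY
  have hD1 : 1 ≤ D := by rw [hD]; nlinarith [hPiT.2]
  have hdD : dd F ≤ D := by rw [hD]; nlinarith [hPiT.2]
  have hTD : (T.card : ℝ) ≤ D := by
    rw [hD]
    have : 1 * Pi0 ≤ dd F * Pi0 := mul_le_mul_of_nonneg_right hd1 (by linarith [hPiT.2])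
    linarith [hPiT.1]
  have hY1 : k1 * D ^ AP ≤ Y := (uct_pow hD1 (by linarith) (by omega)).trans hY
  have hY2 : k2 * D ^ (2 * a) ≤ Y := (uct_pow hD1 (by linarith) (by omega)).trans hY
  have hY3 : k3 * D ^ (a + 1) ≤ Y := (uct_pow hD1 (by linarith) (by omega)).trans hY
  have hY4 : k4 ≤ Y := by
    have := (uct_pow (e := 0) hD1 (by linarith : k4 ≤ A) (by omega)).trans hY
    rwa [pow_zero, mul_one] at this
  have h2n : (1 : ℝ) ≤ 2 ^ n := one_le_pow₀ (by norm_num)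
  have hYge1 : 1 ≤ Y := by rw [hk4] at hY4; linarith
  have hY0 : 0 < Y := by linarith
  have hcondP : CP * dd F ^ AP * (m : ℝ) ^ n ≤ Y := by
    refine le_trans ?_ hY1
    rw [hk1]
    calc CP * dd F ^ AP * (m : ℝ) ^ n = CP * (m : ℝ) ^ n * dd F ^ AP := by ring
      _ ≤ CP * (m : ℝ) ^ n * D ^ AP := by gcongr
  -- β₀
  have hβex : ∀ 𝔟 : Ideal (𝓞 F), ∃ β : 𝓞 F, 𝔟 ≠ ⊥ → CoP F m 𝔟 β := by
    intro 𝔟
    by_cases h : 𝔟 = ⊥
    · exact ⟨0, fun h' => absurd h h'⟩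
    · obtain ⟨β, hβ⟩ := co_exists F m hm0 𝔟 h
      exact ⟨β, fun _ => hβ⟩
  choose β₀ hβ₀ using hβex
  obtain ⟨Z₁, hZ₁⟩ := hpairs F hF m hm0 β₀ (fun 𝔟 h => (hβ₀ 𝔟 h).1)
  obtain ⟨Z₂, hZ₂⟩ := hsmall F hF m hm0 β₀
  obtain ⟨Z₃, hZ₃⟩ := hlarge F hF m β₀
  obtain ⟨Z, hZdef⟩ : ∃ Z : ℝ, Z = max (max Z₁ Z₂) (max Z₃ (max (CK * dd F ^ AK) 1)) := ⟨_, rfl⟩
  have hZZ1 : Z₁ ≤ Z := by rw [hZdef]; exact (le_max_left _ _).trans (le_max_left _ _)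
  have hZZ2 : Z₂ ≤ Z := by rw [hZdef]; exact (le_max_right _ _).trans (le_max_left _ _)
  have hZZ3 : Z₃ ≤ Z := by rw [hZdef]; exact (le_max_left _ _).trans (le_max_right _ _)
  have hZZ4 : CK * dd F ^ AK ≤ Z := by
    rw [hZdef]; exact ((le_max_left _ _).trans (le_max_right _ _)).trans (le_max_right _ _)
  have hZZ5 : 1 ≤ Z := by
    rw [hZdef]; exact ((le_max_right _ _).trans (le_max_right _ _)).trans (le_max_right _ _)
  have hZ0 : 0 < Z := by linarith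
  obtain ⟨s, hs⟩ : ∃ s : ℝ, s = (Z ^ 2 * Y / 4) ^ ((n : ℝ)⁻¹) := ⟨_, rfl⟩
  have hs0 : 0 < s := by rw [hs]; positivity
  have hsn : 4 * s ^ n = Z ^ 2 * Y := by
    rw [hs, Real.rpow_inv_natCast_pow (by positivity) hn.ne']; ring
  obtain ⟨P₀, hP₀, hP₀c⟩ := hZ₁ Z hZZ1 Y s hs0 hcondP hsn
  -- facts on the pairs
  have hPne : ∀ p ∈ P₀, p.2 ≠ ⊥ := by
    intro p hp h0
    obtain ⟨h1, _, 𝔟, _, _, h2, _⟩ := hP₀ p hp
    rw [h0, Ideal.bot_mul, Ideal.span_singleton_eq_bot] at h2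
    exact h1 h2
  have hPcop : ∀ p ∈ P₀, (Ideal.absNorm p.2).Coprime m := by
    intro p hp
    obtain ⟨h1, _, 𝔟, h2, _, h3, h4⟩ := hP₀ p hp
    have h𝔟 : 𝔟 ≠ ⊥ := by
      rintro rfl
      rw [Ideal.absNorm_bot] at h2
      simp at h2
      linarith
    exact co_coprime F m 𝔟 p.2 (β₀ 𝔟) p.1 (hβ₀ 𝔟 h𝔟) h1 h3 h4
  have hPn : ∀ p ∈ P₀, Y / (4 * 2 ^ n) < (Ideal.absNorm p.2 : ℝ) ∧
      (Ideal.absNorm p.2 : ℝ) ≤ Y := fun p hp =>
    pair_norm n F hF β₀ m Z s Y hZ0 hs0 hsn p (hP₀ p hp)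
  -- the bad pairs
  obtain ⟨good, hgood⟩ : ∃ good : 𝓞 F × Ideal (𝓞 F) → Prop, good = fun p =>
    Squarefree (Ideal.absNorm p.2) ∧ (Ideal.absNorm p.2).Coprime (∏ p ∈ T, p) := ⟨_, rfl⟩
  obtain ⟨P₁, hP₁⟩ : ∃ P₁, P₁ = P₀.filter good := ⟨_, rfl⟩
  obtain ⟨P₂, hP₂⟩ : ∃ P₂, P₂ = P₀.filter (fun p => ¬ good p) := ⟨_, rfl⟩
  have hP12 : P₀.card = P₁.card + P₂.card := by
    rw [hP₁, hP₂]
    exact (Finset.card_filter_add_card_filter_not _).symm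
  have hgex : ∀ p : 𝓞 F × Ideal (𝓞 F), ∃ 𝔤 : Ideal (𝓞 F), p ∈ P₂ → Bad F T 𝔤 ∧ 𝔤 ∣ p.2 := by
    intro p
    by_cases hp : p ∈ P₂
    · have hp' := hp
      rw [hP₂, Finset.mem_filter] at hp'
      have h1 : ¬ good p := hp'.2
      rw [hgood] at h1
      obtain ⟨𝔤, h2, h3⟩ := bad_exists F T hT p.2 (hPne p hp'.1) h1
      exact ⟨𝔤, fun _ => ⟨h2, h3⟩⟩
    · exact ⟨⊥, fun h => absurd h hp⟩
  choose g hg using hgex
  obtain ⟨B, hB⟩ : ∃ B, B = P₂.image g := ⟨_, rfl⟩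
  have hBprop : ∀ 𝔤 ∈ B, Bad F T 𝔤 ∧ 𝔤 ≠ ⊥ ∧ (Ideal.absNorm 𝔤).Coprime m ∧
      (Ideal.absNorm 𝔤 : ℝ) ≤ Y := by
    intro 𝔤 h𝔤
    rw [hB, Finset.mem_image] at h𝔤
    obtain ⟨p, hp, rfl⟩ := h𝔤
    obtain ⟨h1, h2⟩ := hg p hp
    have hp0 : p ∈ P₀ := by
      rw [hP₂, Finset.mem_filter] at hp
      exact hp.1
    have hdvd : Ideal.absNorm (g p) ∣ Ideal.absNorm p.2 := map_dvd Ideal.absNorm h2
    refine ⟨h1, ?_, (hPcop p hp0).coprime_dvd_left hdvd, ?_⟩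
    · intro h0
      rw [h0] at h2
      exact hPne p hp0 (zero_dvd_iff.1 h2)
    · refine le_trans ?_ (hPn p hp0).2
      have hpos : 0 < Ideal.absNorm p.2 :=
        Nat.pos_of_ne_zero (fun h => hPne p hp0 (Ideal.absNorm_eq_zero_iff.1 h))
      exact_mod_cast Nat.le_of_dvd hpos hdvd
  obtain ⟨r, hr⟩ : ∃ r : Ideal (𝓞 F) → ℝ,
    r = fun 𝔤 => ((P₂.filter (fun p => g p = 𝔤)).card : ℝ) := ⟨_, rfl⟩
  have hP2sum : (P₂.card : ℝ) = ∑ 𝔤 ∈ B, r 𝔤 := by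
    rw [hB, hr, Finset.card_eq_sum_card_image g P₂]
    push_cast
    rfl
  have hrprop : ∀ 𝔤, ∀ p ∈ P₂.filter (fun p => g p = 𝔤), PairOK F β₀ m Z s p ∧ 𝔤 ∣ p.2 := by
    intro 𝔤 p hp
    rw [Finset.mem_filter] at hp
    have hp0 : p ∈ P₀ := by
      have := hp.1
      rw [hP₂, Finset.mem_filter] at this
      exact this.1
    refine ⟨hP₀ p hp0, ?_⟩
    rw [← hp.2]
    exact (hg p hp.1).2
  -- small and large
  obtain ⟨sm, hsm⟩ : ∃ sm : Ideal (𝓞 F) → Prop,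
    sm = fun 𝔤 => CS * dd F ^ AS * (m : ℝ) ^ n * Ideal.absNorm 𝔤 ≤ Y := ⟨_, rfl⟩
  have hS : (∑ 𝔤 ∈ B.filter sm, r 𝔤) * ((m : ℝ) ^ n * Real.sqrt (dd F)) ≤
      cP / 4 * kap F * Z * Y := by
    have h1 : ∀ 𝔤 ∈ B.filter sm, r 𝔤 * ((m : ℝ) ^ n * Real.sqrt (dd F)) ≤
        CS * kap F * Z * Y * (1 / Ideal.absNorm 𝔤) := by
      intro 𝔤 h𝔤
      rw [Finset.mem_filter] at h𝔤
      obtain ⟨hb1, hb2, hb3, hb4⟩ := hBprop 𝔤 h𝔤.1
      have hN : (0 : ℝ) < Ideal.absNorm 𝔤 := by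
        exact_mod_cast Nat.pos_of_ne_zero (fun h => hb2 (Ideal.absNorm_eq_zero_iff.1 h))
      have h2 : CS * dd F ^ AS * (m : ℝ) ^ n * Ideal.absNorm 𝔤 ≤ Y := by
        have := h𝔤.2
        rwa [hsm] at this
      have h3 := hZ₂ Z hZZ2 Y s hs0 hsn 𝔤 hb2 hb3 h2 _ (hrprop 𝔤)
      rw [mul_one_div, le_div_iff₀ hN]
      have h4 : r 𝔤 = ((P₂.filter (fun p => g p = 𝔤)).card : ℝ) := by rw [hr]
      rw [h4]
      calc _ = ((P₂.filter (fun p => g p = 𝔤)).card : ℝ) *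
            (Ideal.absNorm 𝔤 * (m : ℝ) ^ n * Real.sqrt (dd F)) := by ring
        _ ≤ _ := h3
    have h5 := hbsum F hF.2 z m hz0 hmdvd T hT (B.filter sm) (by
      intro 𝔤 h𝔤
      rw [Finset.mem_filter] at h𝔤
      obtain ⟨hb1, hb2, hb3, hb4⟩ := hBprop 𝔤 h𝔤.1
      exact ⟨hb1, hb3⟩)
    rw [Finset.sum_mul]
    refine (Finset.sum_le_sum h1).trans ?_
    rw [← Finset.mul_sum]
    have h6 : ∑ 𝔤 ∈ B.filter sm, (1 : ℝ) / Ideal.absNorm 𝔤 ≤ CB / z + n * ε := by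
      refine h5.trans ?_
      have : (n : ℝ) * ∑ p ∈ T, (1 : ℝ) / p ≤ n * ε := mul_le_mul_of_nonneg_left hTε hnR.le
      linarith
    calc CS * kap F * Z * Y * ∑ 𝔤 ∈ B.filter sm, (1 : ℝ) / Ideal.absNorm 𝔤
        ≤ CS * kap F * Z * Y * (CB / z + n * ε) := by gcongr
      _ = (CS * (CB / z) + CS * (n * ε)) * (kap F * Z * Y) := by ring
      _ ≤ (cP / 8 + cP / 8) * (kap F * Z * Y) := by
          rw [hε1]
          refine mul_le_mul_of_nonneg_right ?_ (by positivity)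
          linarith
      _ = cP / 4 * kap F * Z * Y := by ring
  have hL : (∑ 𝔤 ∈ B.filter (fun 𝔤 => ¬ sm 𝔤), r 𝔤) * ((m : ℝ) ^ n * Real.sqrt (dd F)) ≤
      cP / 4 * kap F * Z * Y := by
    obtain ⟨u, hu⟩ : ∃ u : ℝ, u = (CS + CL) * dd F ^ a * (m : ℝ) ^ n := ⟨_, rfl⟩
    have hm1 : (1 : ℝ) ≤ (m : ℝ) ^ n := one_le_pow₀ (by exact_mod_cast hm0)
    have hdAS : dd F ^ AS ≤ dd F ^ a := pow_le_pow_right₀ hd1 (by omega)
    have hdAL : dd F ^ AL ≤ dd F ^ a := pow_le_pow_right₀ hd1 (by omega)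
    have hda0 : 0 < dd F ^ a := by positivity
    have hu0 : 0 < u := by rw [hu]; positivity
    have hu1 : CL * dd F ^ AL ≤ u := by
      rw [hu]
      calc CL * dd F ^ AL ≤ CL * dd F ^ a := by gcongr
        _ ≤ (CS + CL) * dd F ^ a := by
            refine mul_le_mul_of_nonneg_right ?_ hda0.le
            linarith
        _ = (CS + CL) * dd F ^ a * 1 := by ring
        _ ≤ (CS + CL) * dd F ^ a * (m : ℝ) ^ n := by gcongr
    have h1 : ∀ 𝔤 ∈ B.filter (fun 𝔤 => ¬ sm 𝔤), r 𝔤 * ((m : ℝ) ^ n * Real.sqrt (dd F)) ≤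
        CL * kap F * u * Z * (m : ℝ) ^ n := by
      intro 𝔤 h𝔤
      rw [Finset.mem_filter] at h𝔤
      obtain ⟨hb1, hb2, hb3, hb4⟩ := hBprop 𝔤 h𝔤.1
      have h2 : Y ≤ u * Ideal.absNorm 𝔤 := by
        have h3 := h𝔤.2
        rw [hsm] at h3
        have h4 := (not_le.1 h3).le
        refine h4.trans ?_
        rw [hu]
        have h5 : CS * dd F ^ AS ≤ (CS + CL) * dd F ^ a := by
          calc CS * dd F ^ AS ≤ CS * dd F ^ a := by gcongr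
            _ ≤ (CS + CL) * dd F ^ a := by
                refine mul_le_mul_of_nonneg_right ?_ hda0.le
                linarith
        gcongr
      have h3 := hZ₃ Z hZZ3 Y s hs0 hsn 𝔤 hb2 u hu1 h2 _ (hrprop 𝔤)
      have h4 : r 𝔤 = ((P₂.filter (fun p => g p = 𝔤)).card : ℝ) := by rw [hr]
      rw [h4]
      calc _ = ((P₂.filter (fun p => g p = 𝔤)).card : ℝ) * Real.sqrt (dd F) * (m : ℝ) ^ n := by
            ring
        _ ≤ CL * kap F * u * Z * (m : ℝ) ^ n := mul_le_mul_of_nonneg_right h3 hmn.le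
    have h5 := hbcount F hF.2 T hT Y hYge1 (B.filter (fun 𝔤 => ¬ sm 𝔤)) (by
      intro 𝔤 h𝔤
      rw [Finset.mem_filter] at h𝔤
      obtain ⟨hb1, hb2, hb3, hb4⟩ := hBprop 𝔤 h𝔤.1
      exact ⟨hb1, hb4⟩)
    rw [Finset.sum_mul]
    refine (Finset.sum_le_sum h1).trans ?_
    rw [Finset.sum_const, nsmul_eq_mul]
    have h6 : CL * u * (m : ℝ) ^ n ≤ K * D ^ a := by
      rw [hu, hK]
      calc CL * ((CS + CL) * dd F ^ a * (m : ℝ) ^ n) * (m : ℝ) ^ n =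
            CL * (CS + CL) * (m : ℝ) ^ n * (m : ℝ) ^ n * dd F ^ a := by ring
        _ ≤ CL * (CS + CL) * (m : ℝ) ^ n * (m : ℝ) ^ n * D ^ a := by gcongr
    have hsY : Real.sqrt Y * Real.sqrt Y = Y := Real.mul_self_sqrt hY0.le
    have hsY0 : 0 < Real.sqrt Y := Real.sqrt_pos.2 hY0
    have h7 : K * D ^ a * (CC * Real.sqrt Y) ≤ cP / 8 * Y := by
      have h8 : 8 * K * CC / cP * D ^ a ≤ Real.sqrt Y := by
        apply Real.le_sqrt_of_sq_le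
        rw [mul_pow, ← pow_mul, mul_comm a 2, ← hk2]
        exact hY2
      have h9 : 8 * K * CC * D ^ a ≤ cP * Real.sqrt Y := by
        have : 8 * K * CC / cP * D ^ a = (8 * K * CC * D ^ a) / cP := by ring
        rw [this, div_le_iff₀ hcP] at h8
        linarith
      calc K * D ^ a * (CC * Real.sqrt Y) = (8 * K * CC * D ^ a) / 8 * Real.sqrt Y := by ring
        _ ≤ (cP * Real.sqrt Y) / 8 * Real.sqrt Y := by gcongr
        _ = cP / 8 * (Real.sqrt Y * Real.sqrt Y) := by ring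
        _ = cP / 8 * Y := by rw [hsY]
    have h10 : K * D ^ a * (n * T.card) ≤ cP / 8 * Y := by
      have h11 : 8 * K * n * D ^ (a + 1) ≤ cP * Y := by
        rw [hk3] at hY3
        have : 8 * K * n / cP * D ^ (a + 1) = (8 * K * n * D ^ (a + 1)) / cP := by ring
        rw [this, div_le_iff₀ hcP] at hY3
        linarith
      calc K * D ^ a * (n * T.card) ≤ K * D ^ a * (n * D) := by gcongr
        _ = (8 * K * n * D ^ (a + 1)) / 8 := by ring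
        _ ≤ (cP * Y) / 8 := by gcongr
        _ = cP / 8 * Y := by ring
    have h12 : CL * u * (m : ℝ) ^ n * ((B.filter (fun 𝔤 => ¬ sm 𝔤)).card : ℝ) ≤ cP / 4 * Y := by
      calc CL * u * (m : ℝ) ^ n * ((B.filter (fun 𝔤 => ¬ sm 𝔤)).card : ℝ)
          ≤ K * D ^ a * (CC * Real.sqrt Y + n * T.card) := by
            have h0 : (0 : ℝ) ≤ ((B.filter (fun 𝔤 => ¬ sm 𝔤)).card : ℝ) := Nat.cast_nonneg _
            have h00 : 0 ≤ K * D ^ a := by positivity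
            exact mul_le_mul h6 h5 h0 h00
        _ = K * D ^ a * (CC * Real.sqrt Y) + K * D ^ a * (n * T.card) := by ring
        _ ≤ cP / 8 * Y + cP / 8 * Y := add_le_add h7 h10
        _ = cP / 4 * Y := by ring
    calc ((B.filter (fun 𝔤 => ¬ sm 𝔤)).card : ℝ) * (CL * kap F * u * Z * (m : ℝ) ^ n)
        = (CL * u * (m : ℝ) ^ n * ((B.filter (fun 𝔤 => ¬ sm 𝔤)).card : ℝ)) * (kap F * Z) := by
          ring
      _ ≤ (cP / 4 * Y) * (kap F * Z) := by gcongr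
      _ = cP / 4 * kap F * Z * Y := by ring
  have hP₁c : cP / 2 * kap F * Z * Y ≤ (P₁.card : ℝ) * ((m : ℝ) ^ n * Real.sqrt (dd F)) := by
    have h1 : (P₂.card : ℝ) * ((m : ℝ) ^ n * Real.sqrt (dd F)) ≤ cP / 2 * kap F * Z * Y := by
      rw [hP2sum, ← Finset.sum_filter_add_sum_filter_not B sm, add_mul]
      linarith
    have h2 : (P₀.card : ℝ) = P₁.card + P₂.card := by exact_mod_cast hP12
    rw [h2, add_mul] at hP₀c
    linarith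
  -- the transversal
  have hP₁P₀ : ∀ p ∈ P₁, p ∈ P₀ ∧ good p := by
    intro p hp
    rw [hP₁, Finset.mem_filter] at hp
    exact hp
  obtain ⟨T₁, hT₁P, hT₁r, hT₁c⟩ := transversal (URel F) (fun p => ⟨rfl, p.1, rfl⟩)
    (fun p q h => ⟨h.1.symm, by rw [mul_comm]; exact h.2⟩) P₁ (CK * Z / Real.sqrt (dd F)) (by
      intro q hq
      obtain ⟨hq0, _⟩ := hP₁P₀ q hq
      obtain ⟨h1, h2, 𝔟, h3, h4, h5, h6⟩ := hP₀ q hq0
      have hinj : Set.InjOn Prod.fst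
          ((P₁.filter (fun x => URel F x q)) : Set (𝓞 F × Ideal (𝓞 F))) := by
        intro x hx x' hx' h
        rw [Finset.mem_coe, Finset.mem_filter] at hx hx'
        exact Prod.ext h (by rw [hx.2.1, hx'.2.1])
      rw [← Finset.card_image_of_injOn hinj]
      refine hcls F hF Z s hZZ4 hs0 q.1 q.2 𝔟 h1 h5 h3 h4 h2 _ ?_
      intro β hβ
      rw [Finset.mem_image] at hβ
      obtain ⟨x, hx, rfl⟩ := hβ
      rw [Finset.mem_filter] at hx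
      obtain ⟨hx0, _⟩ := hP₁P₀ x hx.1
      obtain ⟨k1, k2, 𝔟', k3, k4, k5, k6⟩ := hP₀ x hx0
      refine ⟨k1, hx.2.2, ⟨𝔟', ?_⟩, fun w => (k2 w).2⟩
      rw [← hx.2.1]
      exact k5)
  have hT₁P₀ : ∀ p ∈ T₁, p ∈ P₀ ∧ good p := fun p hp => hP₁P₀ p (hT₁P hp)
  have hsqeq : ∀ p ∈ T₁, ∀ q ∈ T₁, IsSquare (p.1 * q.1) → p = q := by
    intro p hp q hq hsq
    obtain ⟨hp0, hpg⟩ := hT₁P₀ p hp
    obtain ⟨hq0, hqg⟩ := hT₁P₀ q hq
    rw [hgood] at hpg hqg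
    obtain ⟨h1, _, 𝔟, h3, _, h5, _⟩ := hP₀ p hp0
    obtain ⟨k1, _, 𝔟', k3, _, k5, _⟩ := hP₀ q hq0
    apply hT₁r p hp q hq
    refine ⟨?_, hsq⟩
    obtain ⟨δ, hδ⟩ := hsq
    have hb1 : 𝔟 ≠ ⊥ := by
      rintro rfl
      rw [Ideal.absNorm_bot] at h3
      simp at h3
      linarith
    have hb2 : 𝔟' ≠ ⊥ := by
      rintro rfl
      rw [Ideal.absNorm_bot] at k3
      simp at k3
      linarith
    refine uct_sqf p.2 q.2 𝔟 𝔟' (Ideal.span {δ}) hpg.1 hqg.1 hb1 hb2 ?_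
    rw [← h5, ← k5, Ideal.span_singleton_mul_span_singleton, hδ, sq,
      Ideal.span_singleton_mul_span_singleton]
  have hinj : Set.InjOn Prod.fst (T₁ : Set (𝓞 F × Ideal (𝓞 F))) := by
    intro p hp q hq h
    apply hsqeq p hp q hq
    have h' : p.1 = q.1 := h
    exact ⟨q.1, by rw [h']⟩
  refine ⟨T₁.image Prod.fst, ?_, ?_, ?_⟩
  · intro x hx
    rw [Finset.mem_image] at hx
    obtain ⟨p, hp, rfl⟩ := hx
    obtain ⟨hp0, hpg⟩ := hT₁P₀ p hp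
    rw [hgood] at hpg
    obtain ⟨h1, _, 𝔟, _, _, h5, _⟩ := hP₀ p hp0
    refine ⟨h1, p.2, 𝔟, h5, hpg.1, Nat.Coprime.mul_right (hPcop p hp0) hpg.2, ?_, (hPn p hp0).2⟩
    have h6 : (1 : ℝ) < Ideal.absNorm p.2 := by
      refine lt_of_le_of_lt ?_ (hPn p hp0).1
      rw [le_div_iff₀ (by positivity), one_mul, ← hk4]
      exact hY4
    exact_mod_cast h6
  · intro x hx y hy hxy
    rw [Finset.mem_image] at hx hy
    obtain ⟨p, hp, rfl⟩ := hx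
    obtain ⟨q, hq, rfl⟩ := hy
    rw [hsqeq p hp q hq hxy]
  · rw [Finset.card_image_of_injOn hinj]
    have h1 : cP / 2 * kap F * Z * Y ≤ (T₁.card : ℝ) * (CK * Z * (m : ℝ) ^ n) := by
      calc cP / 2 * kap F * Z * Y ≤ (P₁.card : ℝ) * ((m : ℝ) ^ n * Real.sqrt (dd F)) := hP₁c
        _ ≤ ((T₁.card : ℝ) * (CK * Z / Real.sqrt (dd F))) * ((m : ℝ) ^ n * Real.sqrt (dd F)) := by
            gcongr
        _ = (T₁.card : ℝ) * (CK * Z * (m : ℝ) ^ n) := by field_simp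
    have h2 : cP / 2 * kap F * Y ≤ (T₁.card : ℝ) * (CK * (m : ℝ) ^ n) := by
      have h3 : (cP / 2 * kap F * Y) * Z ≤ ((T₁.card : ℝ) * (CK * (m : ℝ) ^ n)) * Z := by linarith
      exact le_of_mul_le_mul_right h3 hZ0
    calc cP / (2 * CK * (m : ℝ) ^ n) * kap F * Y
        = (cP / 2 * kap F * Y) / (CK * (m : ℝ) ^ n) := by field_simp
      _ ≤ (T₁.card : ℝ) := by
          rw [div_le_iff₀ (by positivity)]
          exact h2

end H36.QA
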