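import Pool.Agent.H36.QA.FinK
import Pool.Agent.H36.QA.Kbm
import Pool.Agent.H36.QA.Avg
import Pool.Agent.H36.QA.MpE
import Pool.Agent.H36.QA.Gav
import Pool.Agent.H36.QA.Bde
import Pool.Agent.H36.QA.L1c
import Pool.Agent.H36.QA.L1i
import Pool.Agent.H36.QA.UCT
import Pool.Agent.H36.QA.Par

/-!
# [H36 QA FINB] The main count: assembly
-/

open scoped NumberField Pointwise
open H38.ML H38.TD

noncomputable section

namespace H36.QA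

theorem main_count {n : ℕ} (G : Subgroup (Equiv.Perm (Fin n)))
    (hG : MulAction.IsPretransitive G (Fin n)) (i : Fin n) (K : IntermediateField ℚ QBar)
    [FiniteDimensional ℚ K] [NumberField K] {m : ℕ} {H : Subgroup (Equiv.Perm (Fin m))}
    {Gp : Type} [Group Gp] [Finite Gp] (gd : GD m H Gp) (φ : Gp ≃* G) (hind : indG G = 2)
    (hc : ind ((φ gd.c₀ : G) : Equiv.Perm (Fin n)) = 2)
    (hd : ind ((φ gd.d₀ : G) : Equiv.Perm (Fin n)) = 2) (ζ : K) (hζ : IsPrimitiveRoot ζ 3)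
    (ρ₀ : Gal(QBar/K) →* H) (hρ₀ : Function.Surjective ρ₀) (hft : FT ρ₀) :
    ∃ (C : ℕ) (c Y₀ : ℝ), 0 < C ∧ 0 < c ∧ ∀ Y : ℝ, Y₀ ≤ Y →
      ∃ Rs : Finset (Gal(QBar/K) →* G),
        (∀ ρ ∈ Rs, Function.Surjective ρ ∧ FT ρ ∧
          (relDisc K (fieldOf i ρ) : ℝ) ≤ C * Y ^ 2) ∧
        c * Y * Real.log Y ^ 2 ≤ (Rs.card : ℝ) := by
  classical
  obtain ⟨M₀, hM₀fin, hM₀gal, e₀, he₀inj, he₀⟩ := factor ρ₀ hft
  haveI := hM₀fin
  haveI := hM₀gal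
  haveI : NumberField M₀ := NumberField.of_module_finite K M₀
  have he₀s : Function.Surjective e₀ := by
    intro y
    obtain ⟨σ, rfl⟩ := hρ₀ y
    exact ⟨res M₀ σ, he₀ σ⟩
  -- the bad primes
  obtain ⟨S₁, hS₁, hS₁'⟩ := exists_sbOK K M₀
  have hn0 : ((n.factorial : ℕ) : 𝓞 K) ≠ 0 := by
    rw [Nat.cast_ne_zero]
    exact Nat.factorial_ne_zero n
  let S₂ : Set (Ideal (𝓞 K)) := {v | ∃ Q : Ideal (𝓞 K), Q.IsPrime ∧
    Ideal.span {((n.factorial : ℕ) : 𝓞 K)} ≤ Q ∧ Q.under (𝓞 K) = v}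
  have hS₂ : S₂.Finite := finite_primes_below K K _ (by simpa using hn0)
  have hS₂mem : ∀ v : Ideal (𝓞 K), v.IsPrime → ((n.factorial : ℕ) : 𝓞 K) ∈ v → v ∈ S₂ := by
    intro v hv hmem
    refine ⟨v, hv, ?_, ?_⟩
    · rw [Ideal.span_singleton_le_iff_mem]; exact hmem
    · ext x; simp [Ideal.mem_comap]
  obtain ⟨Sb, hSbf, hSb₀, ⟨b⟩⟩ := bde K (E0 gd e₀) (S₁ ∪ S₂) (hS₁.union hS₂)
  have hSbOK : SbOK (M₀ := M₀) Sb := hS₁' Sb (Set.subset_union_left.trans hSb₀)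
  have hSb : ∀ v : Ideal (𝓞 K), v.IsPrime → v ≠ ⊥ → v ∉ Sb →
      ((2 : ℕ) : 𝓞 K) ∉ v ∧ ((n.factorial : ℕ) : 𝓞 K) ∉ v := by
    intro v hv hv0 hvS
    refine ⟨(hSbOK v hv hv0 hvS).2.1, fun h => hvS (hSb₀ (Or.inr (hS₂mem v hv h)))⟩
  -- the first layers
  have hfam : ∀ s : b.Pt →₀ ZMod 3, s ≠ 0 →
      Set.InjOn (fun v : b.Pt => nv v.1) (s.support : Set b.Pt) →
      ∃ d : L1D K QBar gd ζ (E0 gd e₀) Sb (b.T s : Set (Ideal (𝓞 K))) (b.a s),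
        ∀ x : E0 gd e₀, ((d.ι x : d.M) : QBar) = ((x : M₀) : QBar) := by
    intro s hs0 hs
    refine l1_main gd M₀ e₀ he₀s ζ hζ (b.a s) Sb _ hSbOK (aok_of b s hs) ?_
    obtain ⟨v, hv⟩ := Finsupp.support_nonempty_iff.mpr hs0
    exact ⟨v.1.asIdeal.under (𝓞 K), Finset.mem_coe.mpr (Finset.mem_image_of_mem _ hv)⟩
  choose dL hdL using hfam
  -- the constants
  obtain ⟨C₁, hC₁, A₁, hKB⟩ := kbm (Ω := QBar) gd ζ hζ (E0 gd e₀) Sb hSbf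
    (fun v hv hv0 hvS => (hSbOK v hv hv0 hvS).2.2) b
  have hMP : MP b.Pt (fun v : b.Pt => nv v.1) := mp_places (E0 gd e₀) b.S b.hS
  have hGA : GA (fun (s : b.Pt →₀ ZMod 3) (v : b.Pt) =>
      ∃ r : 𝓞 (E0 gd e₀), b.a s - r ^ 3 ∈ v.1.asIdeal) := by
    refine gav b.π (fun v => v.1.asIdeal) (fun v => v.1.isPrime) (fun v => v.1.ne_bot) ?_
    intro v w hvw hmem
    have hw : w.1.asIdeal.under (𝓞 K) ∉ Sb := fun h => w.2.1 ((b.hSb w.1).mpr h)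
    have h1 := b.πw v w.1.asIdeal w.1.isPrime w.1.ne_bot hw (fun h => hvw (by
      apply Subtype.ext
      exact (IsDedekindDomain.HeightOneSpectrum.ext h).symm))
    haveI := w.1.isPrime
    rw [ordAt_eq_zero_iff _ w.1.ne_bot (b.π0 v)] at h1
    exact h1 hmem
  have hm : 0 < m := Fin.pos gd.i₀
  have hK : 0 < Module.finrank ℚ K := Module.finrank_pos
  have hn' : 0 < 3 * m * Module.finrank ℚ K := by positivity
  set Sf : Finset (Ideal (𝓞 K)) := hSbf.toFinset.filter fun v => v ≠ ⊥ with hSf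
  have hN₀pos : 0 < ∏ v ∈ Sf, Ideal.absNorm v := by
    refine Finset.prod_pos fun v hv => ?_
    rw [hSf, Finset.mem_filter] at hv
    exact Nat.pos_of_ne_zero fun h => hv.2 (Ideal.absNorm_eq_zero_iff.mp h)
  obtain ⟨ε, c₂, m', A, hε, hc₂, hm', hN₀, hU⟩ :=
    uct (3 * m * Module.finrank ℚ K) (∏ v ∈ Sf, Ideal.absNorm v) hn' hN₀pos
  obtain ⟨c₃, X₀, hc₃, hX₀, hA⟩ := avg hMP ε hε C₁ hC₁ A₁
  obtain ⟨C₃, hC₃, A₃, hD⟩ := f_disc (Ω := QBar) gd ζ (E0 gd e₀) Sb hSbf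
  obtain ⟨C, B, hC, hB, hF⟩ := fin_a G hG i K gd φ hind hc hd ζ hζ (E0 gd e₀) Sb hSbf hSb
  obtain ⟨c₄, Y₀, hc₄, hY₀, hP⟩ := par_choice C₃ X₀ hC₃ A A₃
  have hBr : (0 : ℝ) < B := by exact_mod_cast hB
  refine ⟨C, c₂ * c₃ * c₄ ^ 2 / B, Y₀, hC, by positivity, ?_⟩
  intro Y hY
  obtain ⟨X, hX, hXY, hX1, hXN⟩ := hP Y hY
  have hY2 : 2 ≤ Y := hY₀.trans hY
  have hYpos : 0 < Y := by linarith
  have hlogY : 0 ≤ Real.log Y := Real.log_nonneg (by linarith)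
  have hkp : ∀ s, 0 ≤ kpf dL s := by
    intro s
    unfold kpf
    split_ifs with h
    · exact (kap_pos _).le
    · exact le_rfl
  obtain ⟨S, hS, hSsum⟩ := hA (kpf dL) _ hkp hGA (hKB dL ε) X hX
  have hN₀' : ∀ v : Ideal (𝓞 K), v ∈ Sb → v ≠ ⊥ →
      Ideal.absNorm v ∣ ∏ v ∈ Sf, Ideal.absNorm v := by
    intro v hv hv0
    refine Finset.dvd_prod_of_mem _ ?_
    rw [hSf, Finset.mem_filter, Set.Finite.mem_toFinset]
    exact ⟨hv, hv0⟩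
  -- for every `s`
  have key : ∀ s ∈ S, ∃ Rs : Finset (Gal(QBar/K) →* G),
      (∀ ρ ∈ Rs, Function.Surjective ρ ∧ FT ρ ∧
        (relDisc K (fieldOf i ρ) : ℝ) ≤ C * Y ^ 2 ∧
        ∃ (h0 : s ≠ 0) (h1 : Set.InjOn (fun v : b.Pt => nv v.1) (s.support : Set b.Pt)),
          ∀ σ, ∃ v ∈ gd.V, φ.symm (ρ σ) = v * (dL s h0 h1).R σ) ∧
      c₂ * Y / B * (kpf dL s * ∏ v ∈ s.support, 1 / (nv v.1 : ℝ)) ≤ Rs.card := by
    intro s hs
    obtain ⟨h0, h1, h2, h3⟩ := hS s hs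
    have hok := aok_of b s h1
    obtain ⟨hp1, hp2, hp3⟩ := gt_prod b s h1
    have hdd := hD (b.T s) (b.a s) (dL s h0 h1) (fun v hv => by
      obtain ⟨q1, q2, q3, _⟩ := hok.2.2 v (Finset.mem_coe.mpr hv)
      exact ⟨q1, q2⟩)
    have hNsT : (∏ v ∈ b.T s, (Ideal.absNorm v : ℝ)) = ∏ v ∈ s.support, (nv v.1 : ℝ) := by
      exact_mod_cast hp1
    rw [hNsT] at hdd
    obtain ⟨Rs, hRs1, hRs2⟩ := main_key G i K gd φ ζ hζ (E0 gd e₀) Sb b ε c₂ C₃ Y _ m' A A₃ _ C B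
      hB hN₀ hN₀' hU s h1 h2 rfl (dL s h0 h1) hdd (hXN _ (fb_one_le b s) h3) hF
    refine ⟨Rs, fun ρ hρ => ?_, ?_⟩
    · obtain ⟨r1, r2, r3, r4⟩ := hRs1 ρ hρ
      exact ⟨r1, r2, r3, h0, h1, r4⟩
    · have hk : kpf dL s = kap (dL s h0 h1).F := by
        unfold kpf
        rw [dif_pos ⟨h0, h1⟩]
      have hprod : ∏ v ∈ s.support, 1 / (nv v.1 : ℝ) =
          1 / ∏ v ∈ s.support, (nv v.1 : ℝ) := by
        rw [Finset.prod_div_distrib, Finset.prod_const_one]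
      rw [hk, hprod]
      exact hRs2
  choose! Rf hRf1 hRf2 using key
  refine ⟨S.biUnion Rf, ?_, ?_⟩
  · intro ρ hρ
    obtain ⟨s, hs, hρs⟩ := Finset.mem_biUnion.mp hρ
    obtain ⟨r1, r2, r3, _⟩ := hRf1 s hs ρ hρs
    exact ⟨r1, r2, r3⟩
  · have hdisj : ∀ s ∈ S, ∀ s' ∈ S, s ≠ s' → Disjoint (Rf s) (Rf s') := by
      intro s hs s' hs' hne
      rw [Finset.disjoint_left]
      intro ρ hρ hρ'
      apply hne
      obtain ⟨_, _, _, h0, h1, h2⟩ := hRf1 s hs ρ hρ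
      obtain ⟨_, _, _, h0', h1', h2'⟩ := hRf1 s' hs' ρ hρ'
      have hR : ∀ σ, (dL s h0 h1).R σ = (dL s' h0' h1').R σ := by
        intro σ
        obtain ⟨v, hv, e⟩ := h2 σ
        obtain ⟨v', hv', e'⟩ := h2' σ
        refine gd_inU_V gd hv hv' ?_ ?_ (e.symm.trans e')
        · exact ((dL s h0 h1).erange _).mp ⟨_, rfl⟩
        · exact ((dL s' h0' h1').erange _).mp ⟨_, rfl⟩
      obtain ⟨y, z, hy, hz, hyz⟩ := l1_inj (dL s h0 h1) (dL s' h0' h1') (aok_of b s h1).1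
        (aok_of b s' h1').1 hR (fun x => (hdL s h0 h1 x).trans (hdL s' h0' h1' x).symm)
      exact a_inj b s s' y z hy hz hyz
    rw [Finset.card_biUnion hdisj]
    push_cast
    calc c₂ * c₃ * c₄ ^ 2 / B * Y * Real.log Y ^ 2
        = c₂ * Y / B * (c₃ * (c₄ * Real.log Y) ^ 2) := by
          field_simp
      _ ≤ c₂ * Y / B * (c₃ * Real.log X ^ 2) := by
          have : 0 ≤ c₄ * Real.log Y := by positivity
          gcongr
      _ ≤ c₂ * Y / B * ∑ s ∈ S, kpf dL s * ∏ v ∈ s.support, 1 / (nv v.1 : ℝ) := by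
          gcongr
      _ = ∑ s ∈ S, c₂ * Y / B * (kpf dL s * ∏ v ∈ s.support, 1 / (nv v.1 : ℝ)) := by
          rw [Finset.mul_sum]
      _ ≤ ∑ s ∈ S, ((Rf s).card : ℝ) := Finset.sum_le_sum hRf2

end H36.QA
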