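import Pool.Agent.H36.QA.FinA
import Pool.Agent.H36.QA.Kbm
import Pool.Agent.H36.QA.F2

/-!
# The main count: one cubic extension
-/

open scoped NumberField Pointwise
open H38.ML H38.TD

noncomputable section

namespace H36.QA

variable {K E : Type} [Field K] [NumberField K] [Field E] [NumberField E] [Algebra K E]
  {Sb : Set (Ideal (𝓞 K))}

theorem fb_one_le (b : BD K E Sb) (s : b.Pt →₀ ZMod 3) :
    (1 : ℝ) ≤ ∏ v ∈ s.support, (nv v.1 : ℝ) := by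
  have h : 0 < ∏ v ∈ s.support, nv v.1 := by
    apply Finset.prod_pos
    intro v _
    exact nv_pos v.1
  have h2 : (1 : ℕ) ≤ ∏ v ∈ s.support, nv v.1 := h
  exact_mod_cast h2

open Classical in
/-- The rational primes below the support. -/
def fbT (b : BD K E Sb) (s : b.Pt →₀ ZMod 3) : Finset ℕ := s.support.image fun v : b.Pt => nv v.1

theorem fbT_prime (b : BD K E Sb) (s : b.Pt →₀ ZMod 3) : ∀ p ∈ fbT b s, p.Prime := by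
  classical
  intro p hp
  obtain ⟨v, _, rfl⟩ := Finset.mem_image.mp hp
  exact v.2.2

theorem fbT_sum (b : BD K E Sb) (s : b.Pt →₀ ZMod 3)
    (h1 : Set.InjOn (fun v : b.Pt => nv v.1) (s.support : Set b.Pt)) :
    ∑ p ∈ fbT b s, (1 : ℝ) / p = ∑ v ∈ s.support, 1 / (nv v.1 : ℝ) := by
  classical
  unfold fbT
  rw [Finset.sum_image h1]

theorem fbT_prod (b : BD K E Sb) (s : b.Pt →₀ ZMod 3)
    (h1 : Set.InjOn (fun v : b.Pt => nv v.1) (s.support : Set b.Pt)) :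
    ∏ p ∈ fbT b s, (p : ℝ) = ∏ v ∈ s.support, (nv v.1 : ℝ) := by
  classical
  unfold fbT
  rw [Finset.prod_image h1]

theorem fbT_mem (b : BD K E Sb) (s : b.Pt →₀ ZMod 3)
    (h1 : Set.InjOn (fun v : b.Pt => nv v.1) (s.support : Set b.Pt)) (v : Ideal (𝓞 K))
    (hv : v ∈ b.T s) : Ideal.absNorm v ∈ fbT b s := by
  classical
  obtain ⟨_, _, hp3⟩ := gt_prod b s h1
  unfold fbT
  convert Finset.mem_image_of_mem (fun v => Ideal.absNorm v) hv using 1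
  convert hp3.symm using 1

theorem gd_inU_V {m : ℕ} {H : Subgroup (Equiv.Perm (Fin m))} {Gp : Type} [Group Gp]
    (gd : GD m H Gp) {v v' u u' : Gp} (hv : v ∈ gd.V) (hv' : v' ∈ gd.V) (hu : gd.InU u)
    (hu' : gd.InU u') (h : v * u = v' * u') : u = u' := by
  have h1 : gd.InU (u * u'⁻¹) := gd.inU_mul hu (gd.inU_inv hu')
  have h2 : u * u'⁻¹ = v⁻¹ * v' := by
    rw [mul_inv_eq_iff_eq_mul, mul_assoc, ← h]
    group
  have h3 : u * u'⁻¹ ∈ gd.V := by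
    rw [h2]
    exact gd.V.mul_mem (gd.V.inv_mem hv) hv'
  obtain ⟨t, h', e⟩ := h1
  rw [e] at h3
  obtain ⟨rfl, rfl⟩ := gd.uniq t h' h3
  rw [map_one, map_one, one_mul] at e
  exact mul_inv_eq_one.mp e

theorem main_key {n : ℕ} (G : Subgroup (Equiv.Perm (Fin n))) (i : Fin n)
    (K : IntermediateField ℚ QBar) [FiniteDimensional ℚ K] [NumberField K] {m : ℕ}
    {H : Subgroup (Equiv.Perm (Fin m))} {Gp : Type} [Group Gp] (gd : GD m H Gp) (φ : Gp ≃* G)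
    (ζ : K) (hζ : IsPrimitiveRoot ζ 3) (E : Type) [Field E] [NumberField E] [Algebra K E]
    (Sb : Set (Ideal (𝓞 K))) (b : BD K E Sb) (ε c₂ C₃ Y Ns : ℝ) (m' A A₃ N₀ C B : ℕ)
    (hB : 0 < B) (hN₀ : N₀ ∣ m')
    (hN₀' : ∀ v : Ideal (𝓞 K), v ∈ Sb → v ≠ ⊥ → Ideal.absNorm v ∣ N₀)
    (hU : ∀ (F : Type) [Field F] [NumberField F], TC F (3 * m * Module.finrank ℚ K) →
      ∀ T : Finset ℕ, (∀ p ∈ T, p.Prime) → ∑ p ∈ T, (1 : ℝ) / p ≤ ε → ∀ Y : ℝ,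
        (A : ℝ) * (dd F * ∏ p ∈ T, (p : ℝ)) ^ A ≤ Y →
        ∃ X : Finset (𝓞 F),
          (∀ x ∈ X, x ≠ 0 ∧ ∃ I J : Ideal (𝓞 F), Ideal.span {x} = I * J ^ 2 ∧
            Squarefree (Ideal.absNorm I) ∧ (Ideal.absNorm I).Coprime (m' * ∏ p ∈ T, p) ∧
            1 < Ideal.absNorm I ∧ (Ideal.absNorm I : ℝ) ≤ Y) ∧
          (∀ x ∈ X, ∀ y ∈ X, IsSquare (x * y) → x = y) ∧
          c₂ * kap F * Y ≤ (X.card : ℝ))
    (s : b.Pt →₀ ZMod 3)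
    (h1 : Set.InjOn (fun v : b.Pt => nv v.1) (s.support : Set b.Pt))
    (h2 : ∑ v ∈ s.support, 1 / (nv v.1 : ℝ) ≤ ε) (hNs : Ns = ∏ v ∈ s.support, (nv v.1 : ℝ))
    (d : L1D K QBar gd ζ E Sb (b.T s : Set (Ideal (𝓞 K))) (b.a s))
    (hdd : dd d.F ≤ C₃ * Ns ^ A₃) (hY : (A : ℝ) * (C₃ * Ns ^ A₃ * Ns) ^ A ≤ Y / Ns)
    (hF : ∀ (T : Finset (Ideal (𝓞 K))) (a : 𝓞 E) (_ : a ≠ 0)
      (_ : ∀ v ∈ T, v.IsPrime ∧ v ≠ ⊥ ∧ v ∉ Sb)
      (d : L1D K QBar gd ζ E Sb (T : Set (Ideal (𝓞 K))) a) (Y : ℝ) (X : Finset (𝓞 d.F)),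
      (∀ x ∈ X, x ≠ 0 ∧ ∃ I J : Ideal (𝓞 d.F), Ideal.span {x} = I * J ^ 2 ∧
        Squarefree (Ideal.absNorm I) ∧
        (∀ v : Ideal (𝓞 K), v.IsPrime → v ≠ ⊥ → v ∈ Sb ∨ v ∈ T →
          (Ideal.absNorm I).Coprime (Ideal.absNorm v)) ∧
        1 < Ideal.absNorm I ∧ (Ideal.absNorm I : ℝ) ≤ Y) →
      (∀ x ∈ X, ∀ y ∈ X, IsSquare (x * y) → x = y) →
      ∃ Rs : Finset (Gal(QBar/K) →* G),
        (∀ ρ ∈ Rs, Function.Surjective ρ ∧ FT ρ ∧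
          (relDisc K (fieldOf i ρ) : ℝ) ≤ C * ((∏ v ∈ T, (Ideal.absNorm v : ℝ)) * Y) ^ 2 ∧
          ∀ σ, ∃ v ∈ gd.V, φ.symm (ρ σ) = v * d.R σ) ∧
        X.card ≤ B * Rs.card) :
    ∃ Rs : Finset (Gal(QBar/K) →* G),
      (∀ ρ ∈ Rs, Function.Surjective ρ ∧ FT ρ ∧
        (relDisc K (fieldOf i ρ) : ℝ) ≤ C * Y ^ 2 ∧
        ∀ σ, ∃ v ∈ gd.V, φ.symm (ρ σ) = v * d.R σ) ∧
      c₂ * Y / B * (kap d.F * (1 / Ns)) ≤ Rs.card := by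
  have hBr : (0 : ℝ) < B := by exact_mod_cast hB
  have hok := aok_of b s h1
  obtain ⟨hp1, hp2, hp3⟩ := gt_prod b s h1
  have hT : ∀ v ∈ b.T s, v.IsPrime ∧ v ≠ ⊥ ∧ v ∉ Sb := fun v hv => by
    obtain ⟨q1, q2, q3, _⟩ := hok.2.2 v (Finset.mem_coe.mpr hv)
    exact ⟨q1, q2, q3⟩
  have hNsT : (∏ v ∈ b.T s, (Ideal.absNorm v : ℝ)) = Ns := by
    rw [hNs]
    exact_mod_cast hp1
  have hNs1 : 1 ≤ Ns := by
    rw [hNs]
    exact fb_one_le b s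
  have hNs0 : Ns ≠ 0 := by linarith
  have hge : (A : ℝ) * (dd d.F * ∏ p ∈ fbT b s, (p : ℝ)) ^ A ≤ Y / Ns := by
    rw [fbT_prod b s h1, ← hNs]
    refine le_trans ?_ hY
    have hd0 := (dd_pos d.F).le
    have hN0 : 0 ≤ Ns := by linarith
    gcongr
  obtain ⟨Xs, hXs1, hXs2, hXs3⟩ := hU d.F (f_tc d hζ) (fbT b s) (fbT_prime b s)
    (by rw [fbT_sum b s h1]; exact h2) (Y / Ns) hge
  obtain ⟨Rs, hRs, hcard⟩ := hF (b.T s) (b.a s) hok.1 hT d (Y / Ns) Xs (by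
    intro x hx
    obtain ⟨hx0, I, J, q1, q2, q3, q4, q5⟩ := hXs1 x hx
    refine ⟨hx0, I, J, q1, q2, ?_, q4, q5⟩
    intro v hv hv0 hor
    refine q3.coprime_dvd_right ?_
    rcases hor with h | h
    · exact dvd_mul_of_dvd_left ((hN₀' v h hv0).trans hN₀) _
    · exact dvd_mul_of_dvd_right
        (Finset.dvd_prod_of_mem (fun p : ℕ => p) (fbT_mem b s h1 v h)) _) hXs2
  refine ⟨Rs, ?_, ?_⟩
  · intro ρ hρ
    obtain ⟨r1, r2, r3, r4⟩ := hRs ρ hρ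
    refine ⟨r1, r2, ?_, r4⟩
    rw [hNsT, mul_div_cancel₀ _ hNs0] at r3
    exact r3
  · have h5 : (Xs.card : ℝ) ≤ B * Rs.card := by exact_mod_cast hcard
    have h6 : c₂ * Y / B * (kap d.F * (1 / Ns)) = (c₂ * kap d.F * (Y / Ns)) / B := by
      field_simp
    rw [h6, div_le_iff₀ hBr]
    calc c₂ * kap d.F * (Y / Ns) ≤ Xs.card := hXs3
      _ ≤ B * Rs.card := h5
      _ = Rs.card * B := mul_comm _ _

end H36.QA
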