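import Mathlib

/-!
# The group theoretic data (complete)

`Gp = V · (C₃^m · H)`: `c : (ℤ/3)^m → Gp` and `hb : H → Gp` embed the group `C₃ ≀ H` in `Gp`, `V` is the
normal elementary abelian 2-group, `d₀ ∈ V` is a double transposition in the block `i₀`.
-/

noncomputable section

namespace H36.QA

/-- The standard generator of the factor `i`. -/
def sg {m : ℕ} (i : Fin m) : Fin m → Multiplicative (ZMod 3) :=
  Pi.mulSingle i (Multiplicative.ofAdd (1 : ZMod 3))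

/-- The group theoretic data. -/
structure GD (m : ℕ) (H : Subgroup (Equiv.Perm (Fin m))) (Gp : Type) [Group Gp] where
  hb : H →* Gp
  c : (Fin m → Multiplicative (ZMod 3)) →* Gp
  V : Subgroup Gp
  i₀ : Fin m
  d₀ : Gp
  tr : ∀ i, ∃ h : H, (h : Equiv.Perm (Fin m)) i₀ = i
  cH : ∀ (h : H) (t : Fin m → Multiplicative (ZMod 3)),
    hb h * c t * (hb h)⁻¹ = c (fun i => t ((h : Equiv.Perm (Fin m))⁻¹ i))
  Vn : V.Normal
  Vc : ∀ x ∈ V, ∀ y ∈ V, x * y = y * x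
  V2 : ∀ x ∈ V, x ^ 2 = 1
  gen : ∀ g : Gp, ∃ v ∈ V, ∃ t h, g = v * (c t * hb h)
  uniq : ∀ t h, c t * hb h ∈ V → t = 1 ∧ h = 1
  dV : d₀ ∈ V
  d1 : d₀ ≠ 1
  stab : ∀ t h, (c t * hb h) * d₀ * (c t * hb h)⁻¹ = d₀ ↔
    (h : Equiv.Perm (Fin m)) i₀ = i₀ ∧ t i₀ = 1
  genV : V ≤ Subgroup.closure {x | ∃ t h, x = (c t * hb h) * d₀ * (c t * hb h)⁻¹}
  chi : ∃ χ : V →* ℤˣ, ∀ (t : Fin m → Multiplicative (ZMod 3)) (h : H)
    (hm : (c t * hb h) * d₀ * (c t * hb h)⁻¹ ∈ V),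
      χ ⟨(c t * hb h) * d₀ * (c t * hb h)⁻¹, hm⟩ = -1 ↔
        (h : Equiv.Perm (Fin m)) i₀ = i₀ ∧ t i₀ ≠ 1

namespace GD

variable {m : ℕ} {H : Subgroup (Equiv.Perm (Fin m))} {Gp : Type} [Group Gp] (gd : GD m H Gp)

instance : CommGroup gd.V :=
  { (inferInstance : Group gd.V) with
    mul_comm := fun x y => Subtype.ext (gd.Vc x.1 x.2 y.1 y.2) }

/-- Membership in the complement `C₃ ≀ H` of `V`. -/
def InU (u : Gp) : Prop := ∃ t h, u = gd.c t * gd.hb h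

/-- The elements of the complement which stabilize the block `i₀`. -/
def Bk (u : Gp) : Prop :=
  ∃ (t : Fin m → Multiplicative (ZMod 3)) (h : H), u = gd.c t * gd.hb h ∧
    (h : Equiv.Perm (Fin m)) gd.i₀ = gd.i₀

/-- The 3-cycle in the block `i₀`. -/
def c₀ : Gp := gd.c (sg gd.i₀)

theorem inU_c (t : Fin m → Multiplicative (ZMod 3)) : gd.InU (gd.c t) :=
  ⟨t, 1, by rw [map_one, mul_one]⟩

theorem inU_hb (h : H) : gd.InU (gd.hb h) := ⟨1, h, by rw [map_one, one_mul]⟩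

theorem mul_form (t t' : Fin m → Multiplicative (ZMod 3)) (h h' : H) :
    gd.c t * gd.hb h * (gd.c t' * gd.hb h') =
      gd.c (t * fun i => t' ((h : Equiv.Perm (Fin m))⁻¹ i)) * gd.hb (h * h') := by
  rw [map_mul, map_mul, ← gd.cH h t']
  group

theorem inU_mul {u u' : Gp} (hu : gd.InU u) (hu' : gd.InU u') : gd.InU (u * u') := by
  obtain ⟨t, h, rfl⟩ := hu
  obtain ⟨t', h', rfl⟩ := hu'
  exact ⟨_, _, gd.mul_form t t' h h'⟩

theorem inU_inv {u : Gp} (hu : gd.InU u) : gd.InU u⁻¹ := by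
  obtain ⟨t, h, rfl⟩ := hu
  rw [mul_inv_rev, ← map_inv, ← map_inv]
  exact gd.inU_mul (gd.inU_hb h⁻¹) (gd.inU_c t⁻¹)

/-- The complement `C₃ ≀ H` of `V`. -/
def U : Subgroup Gp where
  carrier := {u | gd.InU u}
  mul_mem' := gd.inU_mul
  one_mem' := ⟨1, 1, by rw [map_one, map_one, one_mul]⟩
  inv_mem' := gd.inU_inv

theorem mem_U (u : Gp) : u ∈ gd.U ↔ ∃ t h, u = gd.c t * gd.hb h := Iff.rfl

/-- The representation of an element of `C₃ ≀ H` is unique. -/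
theorem form_uniq {t t' : Fin m → Multiplicative (ZMod 3)} {h h' : H}
    (e : gd.c t * gd.hb h = gd.c t' * gd.hb h') : t = t' ∧ h = h' := by
  have h1 : gd.c (t'⁻¹ * t) * gd.hb (h * h'⁻¹) ∈ gd.V := by
    have h2 : gd.c (t'⁻¹ * t) * gd.hb (h * h'⁻¹) = 1 := by
      rw [map_mul, map_mul, map_inv, map_inv]
      have h3 : (gd.c t')⁻¹ * gd.c t * (gd.hb h * (gd.hb h')⁻¹) =
          (gd.c t')⁻¹ * (gd.c t * gd.hb h) * (gd.hb h')⁻¹ := by group
      rw [h3, e]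
      group
    rw [h2]
    exact one_mem _
  obtain ⟨h2, h3⟩ := gd.uniq _ _ h1
  exact ⟨(inv_mul_eq_one.mp h2).symm, mul_inv_eq_one.mp h3⟩

end GD

end H36.QA
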