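import Pool.Agent.H38.ML.Coset
import Pool.Agent.H38.ML.KumEx

/-!
# The conjugates of an integer of a fixed field (complete)

`M/K` Galois, `D` a subgroup of the Galois group, `y` an integer of the fixed field of `D`:
`al D y : Gal(M/K) ⧸ D → 𝓞 M` is the family of the conjugates of `y`.
-/

open scoped NumberField Pointwise
open H38.ML

noncomputable section

namespace H36.QA

instance qfin {K M : Type} [Field K] [Field M] [Algebra K M] [FiniteDimensional K M]
    (D : Subgroup Gal(M/K)) : Fintype (Gal(M/K) ⧸ D) := Fintype.ofFinite _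

variable {K M : Type} [Field K] [NumberField K] [Field M] [NumberField M] [Algebra K M]

theorem al_aux (D : Subgroup Gal(M/K)) (y : 𝓞 (IntermediateField.fixedField D)) (u : Gal(M/K))
    (hu : u ∈ D) : u • algebraMap (𝓞 (IntermediateField.fixedField D)) (𝓞 M) y =
      algebraMap (𝓞 (IntermediateField.fixedField D)) (𝓞 M) y := by
  apply NumberField.RingOfIntegers.ext
  exact y.1.2 ⟨u, hu⟩

/-- The conjugates of `y`. -/
def al (D : Subgroup Gal(M/K)) (y : 𝓞 (IntermediateField.fixedField D)) :
    Gal(M/K) ⧸ D → 𝓞 M := fun x =>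
  Quotient.liftOn' x (fun g => g • algebraMap (𝓞 (IntermediateField.fixedField D)) (𝓞 M) y) (by
    intro g h hgh
    have h1 : g⁻¹ * h ∈ D := QuotientGroup.leftRel_apply.mp hgh
    have h3 : h = g * (g⁻¹ * h) := by group
    change g • _ = h • _
    rw [h3, mul_smul, al_aux D y _ h1])

theorem al_mk (D : Subgroup Gal(M/K)) (y : 𝓞 (IntermediateField.fixedField D)) (g : Gal(M/K)) :
    al D y (g : Gal(M/K) ⧸ D) =
      g • algebraMap (𝓞 (IntermediateField.fixedField D)) (𝓞 M) y := rfl

theorem al_smul (D : Subgroup Gal(M/K)) (y : 𝓞 (IntermediateField.fixedField D)) (g : Gal(M/K))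
    (x : Gal(M/K) ⧸ D) : al D y (g • x) = g • al D y x := by
  induction x using QuotientGroup.induction_on with
  | H h => exact mul_smul g h _

theorem al_ne (D : Subgroup Gal(M/K)) (y : 𝓞 (IntermediateField.fixedField D)) (hy : y ≠ 0)
    (x : Gal(M/K) ⧸ D) : al D y x ≠ 0 := by
  induction x using QuotientGroup.induction_on with
  | H g =>
    rw [al_mk]
    intro h
    have h1 : algebraMap (𝓞 (IntermediateField.fixedField D)) (𝓞 M) y = 0 :=
      (smul_eq_zero_iff_eq g).mp h
    apply hy
    apply NumberField.RingOfIntegers.ext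
    have h2 := congrArg (fun z : 𝓞 M => (z : M)) h1
    exact Subtype.ext (by simpa using h2)

/-- The conjugates as elements of `M`, in the form used by `KumOut`. -/
theorem al_coe_smul (D : Subgroup Gal(M/K)) (y : 𝓞 (IntermediateField.fixedField D))
    (g : Gal(M/K)) (x : Gal(M/K) ⧸ D) :
    ((al D y (g • x) : 𝓞 M) : M) = g ((al D y x : 𝓞 M) : M) := by
  rw [al_smul]
  rfl

end H36.QA
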