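import Pool.Agent.H36.QA.KDefs
import Pool.Agent.H38.ML.KumInert
import Pool.Agent.H38.TD.Val

/-!
# [H36 QA KTI] Inertia groups and orders divisible by `q` (70-120 lines)

As `kum_inertia` (KumInert.lean), but `αO x` may lie in `Q = 𝔓.under (𝓞 M)` as long as its order at
`Q` is divisible by `q`.  `O.ρ τ = j (∏ x, a x ^ κ τ x)` (`O.hρ`, `res M τ = 1`), so it is enough that
`a x ^ κ τ x ∈ B` for every `x`.  If `¬ q ∣ ordAt Q (αO x)` then `a x ∈ B`.  Otherwise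
`ordAt Q (αO x) = q k`; then there are `w, u ∈ 𝓞 M \ Q` and `π ∈ 𝓞 M`, `π ≠ 0`, with
`w * αO x = u * π^(q k)` (choose `π ∈ Q \ Q²`; the fractional ideal `(αO x / π^(q k))` has order `0` at
`Q`; see `exists_int_div`, `od_eq_ordAt`, `exists_unif` in `Pool/Agent/H38/TD/Val.lean`).
Let `β = O.β x`, `β' = w β / π^k ∈ Ω`: `β'^q = w^(q-1) u`, an integer not in `Q`; so `β' ∈ 𝓞 Ω` (integral
because its `q`-th power is) and `β' ∉ 𝔓`.  `τ β' = z^κ β'` because `τ` fixes `M` (`res M τ = 1`) and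
`τ β = z^κ β` (`O.hκ`).  So `q ∣ κ τ x` (`pow_eq_one_of_inertia`) and `a x ^ κ = 1`.
-/

open scoped NumberField Pointwise
open H38.ML

noncomputable section

namespace H36.QA

variable {K Ω : Type} [Field K] [NumberField K] [Field Ω] [Algebra K Ω] [IsAlgClosure K Ω]

/-- the case in which the order is divisible by `q` -/
theorem kti_aux (M : IntermediateField K Ω) [FiniteDimensional K M] [Normal K M] [NumberField M]
    (q : ℕ) (hq : 0 < q) (ζ : K) (hζ : IsPrimitiveRoot ζ q) (𝔓 : Ideal (𝓞 Ω)) (h𝔓 : 𝔓.IsPrime)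
    (hQ0 : 𝔓.under (𝓞 M) ≠ ⊥) (hq𝔓 : ((q : ℕ) : 𝓞 Ω) ∉ 𝔓)
    (τ : Gal(Ω/K)) (hτ : τ ∈ 𝔓.inertia Gal(Ω/K)) (hfix : ∀ m : M, τ (m : Ω) = (m : Ω))
    (α : 𝓞 M) (hα : α ≠ 0) (hdvd : q ∣ ordAt (𝔓.under (𝓞 M)) α) (β : Ω)
    (hβ : β ^ q = ((α : M) : Ω)) (k : ℕ) (hk : τ β = algebraMap K Ω ζ ^ k * β) : q ∣ k := by
  set Q := 𝔓.under (𝓞 M) with hQ
  have hQp : Q.IsPrime := inferInstance
  let Qp : H38.TD.Pl M := ⟨Q, hQp, hQ0⟩
  have hα1 : (α : M) ≠ 0 := by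
    intro h0
    exact hα (NumberField.RingOfIntegers.ext (by rw [h0]; rfl))
  obtain ⟨n, hn⟩ := hdvd
  obtain ⟨w, hw⟩ := H38.TD.exists_unif Qp
  have hod : H38.TD.od Qp (Units.mk0 (α : M) hα1) = (q * n : ℕ) := by
    rw [H38.TD.od_eq_ordAt Qp α _ rfl]
    exact congrArg _ hn
  obtain ⟨a, b, ha, hb, hab⟩ := H38.TD.exists_int_div Qp
    (Units.mk0 (α : M) hα1 * (w ^ (q * n))⁻¹) (by
      rw [H38.TD.od_mul, hod, H38.TD.od_inv, H38.TD.od_pow, hw]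
      push_cast
      ring)
  have hw0 : ((w : M) : Ω) ≠ 0 := by
    have := w.ne_zero
    exact_mod_cast this
  -- the equation in `Ω`
  have habM : (α : M) * (b : M) = (a : M) * (w : M) ^ (q * n) := by
    rw [← hab]
    push_cast
    rw [Units.val_mk0]
    field_simp
  have habΩ : ((α : M) : Ω) * ((b : M) : Ω) = ((a : M) : Ω) * ((w : M) : Ω) ^ (q * n) := by
    exact_mod_cast congrArg (fun z : M => (z : Ω)) habM
  set β' : Ω := β * ((b : M) : Ω) / ((w : M) : Ω) ^ n with hβ'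
  have hpow : β' ^ q = (((a * b ^ (q - 1) : 𝓞 M) : M) : Ω) := by
    have h1 : β' ^ q = (((a : M) : Ω)) * (((b : M) : Ω)) ^ (q - 1) := by
      rw [hβ', div_pow, mul_pow, hβ, ← pow_mul, div_eq_iff (pow_ne_zero _ hw0)]
      have h2 : (((b : M) : Ω)) ^ q = ((b : M) : Ω) * ((b : M) : Ω) ^ (q - 1) := by
        rw [← pow_succ']
        congr 1
        omega
      rw [h2, ← mul_assoc, habΩ, mul_comm n q]
      ring
    rw [h1]
    push_cast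
    rfl
  have hint : IsIntegral ℤ β' := by
    refine IsIntegral.of_pow hq ?_
    rw [hpow]
    exact (a * b ^ (q - 1)).2.map (algebraMap M Ω : M →+* Ω).toIntAlgHom
  have hβn : (⟨β', hint⟩ : 𝓞 Ω) ∉ 𝔓 := by
    intro h
    have h1 : (⟨β', hint⟩ : 𝓞 Ω) ^ q ∈ 𝔓 := Ideal.pow_mem_of_mem _ h q hq
    have h2 : (⟨β', hint⟩ : 𝓞 Ω) ^ q = algebraMap (𝓞 M) (𝓞 Ω) (a * b ^ (q - 1)) := by
      apply NumberField.RingOfIntegers.ext
      exact hpow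
    rw [h2] at h1
    have h3 : a * b ^ (q - 1) ∈ Q := h1
    rcases hQp.mem_or_mem h3 with h4 | h4
    · exact ha h4
    · exact hb (hQp.mem_of_pow_mem _ h4)
  refine pow_eq_one_of_inertia 𝔓 q hq hq𝔓 ζ hζ τ hτ _ hβn k ?_
  show τ β' = algebraMap K Ω ζ ^ k * β'
  rw [hβ', map_div₀, map_mul, map_pow, hk, hfix, hfix]
  ring

theorem kti (M : IntermediateField K Ω) [FiniteDimensional K M] [Normal K M] [NumberField M]
    {H A X : Type} [Group H] [CommGroup A] [Fintype X] [MulAction Gal(M/K) X]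
    (ρb : Gal(M/K) →* H) (j : A →* H) (q : ℕ) (hq : 0 < q) (ζ : K) (hζ : IsPrimitiveRoot ζ q)
    (hA : ∀ t : A, t ^ q = 1) (a : X → A) (αO : X → 𝓞 M) (hα : ∀ x, αO x ≠ 0)
    (O : KumOut M ρb j q ζ a (fun x => ((αO x : 𝓞 M) : M)))
    (𝔓 : Ideal (𝓞 Ω)) (h𝔓 : 𝔓.IsPrime) (h𝔓0 : 𝔓.under (𝓞 K) ≠ ⊥)
    (hq𝔓 : ((q : ℕ) : 𝓞 K) ∉ 𝔓.under (𝓞 K)) (B : Subgroup A)
    (hB : ∀ x, ¬ q ∣ ordAt (𝔓.under (𝓞 M)) (αO x) → a x ∈ B)
    (τ : Gal(Ω/K)) (hτ : τ ∈ 𝔓.inertia Gal(Ω/K)) (hres : res M τ = 1) :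
    O.ρ τ ∈ B.map j := by
  have hq𝔓' : ((q : ℕ) : 𝓞 Ω) ∉ 𝔓 := by
    intro h
    apply hq𝔓
    show algebraMap (𝓞 K) (𝓞 Ω) ((q : ℕ) : 𝓞 K) ∈ 𝔓
    rwa [map_natCast]
  have hfix : ∀ m : M, τ (m : Ω) = (m : Ω) := by
    intro m
    have h1 : ((res M τ m : M) : Ω) = τ (m : Ω) := AlgEquiv.restrictNormal_commutes τ M m
    rw [← h1, hres]
    rfl
  have hQ0 : 𝔓.under (𝓞 M) ≠ ⊥ := by
    intro h
    apply h𝔓0
    have h1 : (𝔓.under (𝓞 M)).under (𝓞 K) = 𝔓.under (𝓞 K) := by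
      rw [Ideal.under_under]
    rw [← h1, h]
    exact Ideal.comap_bot_of_injective _ (FaithfulSMul.algebraMap_injective (𝓞 K) (𝓞 M))
  rw [O.hρ, hres, map_one, mul_one]
  refine ⟨_, B.prod_mem fun x _ => ?_, rfl⟩
  rw [one_smul]
  by_cases hx : q ∣ ordAt (𝔓.under (𝓞 M)) (αO x)
  · have hk : τ (O.β x) = algebraMap K Ω ζ ^ O.κ τ x * O.β x := by
      have h1 := O.hκ τ x
      rw [hres, one_smul] at h1
      exact h1
    obtain ⟨l, hl⟩ := kti_aux M q hq ζ hζ 𝔓 h𝔓 hQ0 hq𝔓' τ hτ hfix (αO x) (hα x) hx (O.β x)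
      (O.hβ x) (O.κ τ x) hk
    rw [hl, pow_mul, hA, one_pow]
    exact B.one_mem
  · exact B.pow_mem (hB x hx) _

end H36.QA
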