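import Pool.Agent.H36.QA.KDefs
import Pool.Agent.H38.ML.KumSurj
import Pool.Agent.H38.ML.Ord

/-!
# [H36 QA KTS] Surjectivity, `q` prime (30-60 lines)

Apply `kum_surj`.  Given a prime `p ∣ q` (so `p = q`), `χ ≠ 1`, `m` and `y` with
`y ^ q = ∏ x, α x ^ m x`: for every `x₀` choose `Q` from `hW x₀`; `dvd_of_pow_eq` gives
`q ∣ ∑ x, m x * ordAt Q (αO x)`, so `q ∣ m x₀ * ordAt Q (αO x₀)` and `q ∣ m x₀`.  Hence
`χ (a x₀) = (ζ ^ (q / q)) ^ m x₀ = 1` for all `x₀`, and `χ` is trivial on `closure (range a) = ⊤`: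
contradiction.
-/

open scoped NumberField Pointwise
open H38.ML

noncomputable section

namespace H36.QA

variable {K Ω : Type} [Field K] [NumberField K] [Field Ω] [Algebra K Ω] [IsAlgClosure K Ω]

theorem kts (M : IntermediateField K Ω) [FiniteDimensional K M] [Normal K M] [NumberField M]
    {H A X : Type} [Group H] [CommGroup A] [Finite A] [Fintype X] [MulAction Gal(M/K) X]
    (ρb : Gal(M/K) →* H) (j : A →* H) (q : ℕ) (hq : q.Prime) (ζ : K) (hζ : IsPrimitiveRoot ζ q)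
    (hA : ∀ t : A, t ^ q = 1) (a : X → A) (hgen : Subgroup.closure (Set.range a) = ⊤)
    (αO : X → 𝓞 M) (hα : ∀ x, αO x ≠ 0)
    (O : KumOut M ρb j q ζ a (fun x => ((αO x : 𝓞 M) : M)))
    (hW : ∀ x₀ : X, ∃ Q : Ideal (𝓞 M), Q.IsPrime ∧ Q ≠ ⊥ ∧ ¬ q ∣ ordAt Q (αO x₀) ∧
      ∀ x, x ≠ x₀ → q ∣ ordAt Q (αO x)) (t : A) :
    ∃ σ ∈ M.fixingSubgroup, O.ρ σ = j t := by
  classical
  refine kum_surj M ρb j q hq.pos ζ hζ hA a (fun x => ((αO x : 𝓞 M) : M)) ?_ O ?_ t
  · intro x h0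
    exact hα x (NumberField.RingOfIntegers.ext (by rw [h0]; rfl))
  · intro p hp hpq χ hχ hχp m hm y hy
    have hpq' : p = q := (Nat.prime_dvd_prime_iff_eq hp hq).1 hpq
    subst hpq'
    obtain ⟨t, ht⟩ := hχ
    apply ht
    have hdvd : ∀ x₀, p ∣ m x₀ := by
      intro x₀
      obtain ⟨Q, hQ, hQ0, hndvd, hoth⟩ := hW x₀
      have h1 := dvd_of_pow_eq Q αO hα m p hp.pos y hy
      rw [← Finset.add_sum_erase _ _ (Finset.mem_univ x₀)] at h1
      have h2 : p ∣ ∑ x ∈ Finset.univ.erase x₀, m x * ordAt Q (αO x) := by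
        refine Finset.dvd_sum fun x hx => ?_
        exact Dvd.dvd.mul_left (hoth x (Finset.ne_of_mem_erase hx)) _
      have h3 := (Nat.dvd_add_left h2).1 h1
      exact (hp.dvd_mul.1 h3).resolve_right hndvd
    have hone : ∀ x, χ (a x) = 1 := by
      intro x
      apply Units.ext
      rw [hm x, Nat.div_self hp.pos, pow_one, Units.val_one]
      obtain ⟨k, hk⟩ := hdvd x
      rw [hk, pow_mul, hζ.pow_eq_one, one_pow]
    have hker : (⊤ : Subgroup A) ≤ χ.ker := by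
      rw [← hgen, Subgroup.closure_le]
      rintro _ ⟨x, rfl⟩
      exact hone x
    exact hker (Subgroup.mem_top t)

end H36.QA
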