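import Pool.Agent.H36.QA.KDefs
import Pool.Agent.H38.ML.Split

/-!
# [H36 QA KTU] The orders of the conjugates (three theorems, 60-100 lines)

`F = fixedField D`.
`ktu_zero` (no hypothesis on ramification): for `x = g D`, `Q' = g⁻¹ • Q`, `V = Q'.under (𝓞 F)`:
`ordAt Q (g • y) = ordAt Q' y` (`ordAt_smul`) `= e(Q' | V) * ordAt V y` (Mathlib:
`Ideal.emultiplicity_map_eq_ramificationIdx'_mul`, used in the proof of `ord_conj` in Coset.lean), and
`q ∣ ordAt V y`.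
For the other two: `ord_conj` (Coset.lean): `ordAt Q (al D y g) = ordAt ((g⁻¹ • Q).under (𝓞 F)) y`,
and `(g⁻¹ • Q).under (𝓞 F)` is a prime of `F` above the same prime of `K`.
`ktu_exists`: there is a prime `Q'` of `M` above `V₀` (`Ideal.exists_ideal_over_prime_of_isIntegral`
or as `exists_over` in `Pool/Agent/H38/ML/Final2.lean`); `Q' = g⁻¹ • Q` for some `g` (transitivity:
`Ideal.exists_smul_eq_of_isGaloisGroup`, see the proof of `coset_unique`).  `x₀ = g D`.  For `x = h D`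
with `(h⁻¹ • Q).under (𝓞 F) = V₀` we get `g⁻¹ h ∈ D` by `coset_unique` (`hdeg`), so `x = x₀`; for the
other `x` the prime `(h⁻¹ • Q).under` is not `V₀`, use `hdvd`.
`ktu_all`: given `x₀ = g D` take `Q = g • Q'` with `Q'` above `V₀`; then proceed as before.
-/

open scoped NumberField Pointwise
open H38.ML

noncomputable section

namespace H36.QA

variable {K M : Type} [Field K] [NumberField K] [Field M] [NumberField M] [Algebra K M]
  [IsGalois K M]

theorem ktu_under (Q : Ideal (𝓞 M)) [Q.IsPrime] (g : Gal(M/K)) :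
    (g • Q).under (𝓞 K) = Q.under (𝓞 K) := ((g • Q).over_def (Q.under (𝓞 K))).symm

theorem ktu_ne_bot {Q : Ideal (𝓞 M)} (hQ : Q ≠ ⊥) (g : Gal(M/K)) : g • Q ≠ ⊥ := by
  intro h
  apply hQ
  rw [eq_bot_iff]
  intro x hx
  have h1 : g • x ∈ g • Q := Ideal.smul_mem_pointwise_smul g x Q hx
  rw [h, Ideal.mem_bot] at h1
  rw [Ideal.mem_bot]
  exact (smul_eq_zero_iff_eq g).mp h1

theorem ktu_ord (D : Subgroup Gal(M/K)) (Q : Ideal (𝓞 M)) [Q.IsPrime] (hQ : Q ≠ ⊥) (g : Gal(M/K))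
    (x : 𝓞 (IntermediateField.fixedField D)) (hx : x ≠ 0) :
    ordAt Q (g • algebraMap (𝓞 (IntermediateField.fixedField D)) (𝓞 M) x) =
      ((g⁻¹ • Q).under (𝓞 (IntermediateField.fixedField D))).ramificationIdx' (g⁻¹ • Q) *
      ordAt ((g⁻¹ • Q).under (𝓞 (IntermediateField.fixedField D))) x := by
  classical
  set V := (g⁻¹ • Q).under (𝓞 (IntermediateField.fixedField D)) with hV
  have hQ' := ktu_ne_bot hQ g⁻¹
  have hV0 : V ≠ ⊥ := fun h => hQ' (Ideal.eq_bot_of_comap_eq_bot h)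
  have hVp : V.IsPrime := inferInstance
  have h1 : ordAt Q (g • algebraMap (𝓞 (IntermediateField.fixedField D)) (𝓞 M) x) =
      ordAt (g⁻¹ • Q) (algebraMap (𝓞 (IntermediateField.fixedField D)) (𝓞 M) x) := by
    have h2 := ordAt_smul (g⁻¹ • Q) g (algebraMap (𝓞 (IntermediateField.fixedField D)) (𝓞 M) x)
    rwa [smul_inv_smul] at h2
  rw [h1]
  have hi1 : Irreducible V := (Ideal.prime_of_isPrime hV0 hVp).irreducible
  have hi2 : Irreducible (g⁻¹ • Q) := (Ideal.prime_of_isPrime hQ' inferInstance).irreducible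
  have hx1 : Ideal.span {x} ≠ ⊥ := by
    rw [ne_eq, Ideal.span_singleton_eq_bot]
    exact hx
  have hx2 : Ideal.span {algebraMap (𝓞 (IntermediateField.fixedField D)) (𝓞 M) x} ≠ ⊥ := by
    rw [ne_eq, Ideal.span_singleton_eq_bot]
    exact (map_ne_zero_iff _ (FaithfulSMul.algebraMap_injective _ _)).mpr hx
  have h3 := Ideal.IsDedekindDomain.emultiplicity_map_eq_ramificationIdx'_mul hx1 hi1 hi2 hQ'
  rw [Ideal.map_span, Set.image_singleton,
    UniqueFactorizationMonoid.emultiplicity_eq_count_normalizedFactors hi2 hx2,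
    UniqueFactorizationMonoid.emultiplicity_eq_count_normalizedFactors hi1 hx1,
    normalize_eq, normalize_eq] at h3
  have h4 : Multiset.count (g⁻¹ • Q) (UniqueFactorizationMonoid.normalizedFactors
      (Ideal.span {algebraMap (𝓞 (IntermediateField.fixedField D)) (𝓞 M) x})) =
      V.ramificationIdx' (g⁻¹ • Q) * Multiset.count V
        (UniqueFactorizationMonoid.normalizedFactors (Ideal.span {x})) := by
    exact_mod_cast h3
  unfold ordAt
  convert h4 using 2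

theorem ktu_aux (D : Subgroup Gal(M/K)) (y : 𝓞 (IntermediateField.fixedField D)) (hy : y ≠ 0)
    (q : ℕ) (Q : Ideal (𝓞 M)) (hQ : Q.IsPrime) (hQ0 : Q ≠ ⊥) (hun : Unr K M (Q.under (𝓞 K)))
    (V₀ : Ideal (𝓞 (IntermediateField.fixedField D))) (g : Gal(M/K))
    (hg : (g⁻¹ • Q).under (𝓞 (IntermediateField.fixedField D)) = V₀)
    (hdeg : Ideal.absNorm V₀ = Ideal.absNorm (Q.under (𝓞 K)))
    (hdvd : ∀ V : Ideal (𝓞 (IntermediateField.fixedField D)), V.IsPrime →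
      V.under (𝓞 K) = Q.under (𝓞 K) → V ≠ V₀ → q ∣ ordAt V y) :
    ordAt Q (al D y (g : Gal(M/K) ⧸ D)) = ordAt V₀ y ∧
      ∀ x, x ≠ (g : Gal(M/K) ⧸ D) → q ∣ ordAt Q (al D y x) := by
  constructor
  · rw [al_mk, ord_conj D Q hQ0 hun g y hy, hg]
  · intro x
    induction x using QuotientGroup.induction_on with
    | H h =>
      intro hx
      rw [al_mk, ord_conj D Q hQ0 hun h y hy]
      apply hdvd _ inferInstance
      · rw [Ideal.under_under, ktu_under]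
      · intro h1
        apply hx
        have h2 := coset_unique D Q hQ0 hun g h (by rw [hg, hdeg]) (by rw [hg, h1])
        exact (QuotientGroup.eq.mpr h2).symm

theorem ktu_over (D : Subgroup Gal(M/K)) (V₀ : Ideal (𝓞 (IntermediateField.fixedField D)))
    (hV₀ : V₀.IsPrime) :
    ∃ Q : Ideal (𝓞 M), Q.IsPrime ∧ Q.under (𝓞 (IntermediateField.fixedField D)) = V₀ := by
  obtain ⟨Q, hQ, hQv⟩ := Ideal.exists_ideal_over_prime_of_isIntegral V₀ (⊥ : Ideal (𝓞 M)) (by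
    rw [← RingHom.ker_eq_comap_bot]
    have : Function.Injective (algebraMap (𝓞 (IntermediateField.fixedField D)) (𝓞 M)) :=
      FaithfulSMul.algebraMap_injective _ _
    rw [(RingHom.injective_iff_ker_eq_bot _).mp this]
    exact bot_le)
  exact ⟨Q, hQv.1, hQv.2⟩

theorem ktu_zero (D : Subgroup Gal(M/K)) (y : 𝓞 (IntermediateField.fixedField D)) (hy : y ≠ 0)
    (q : ℕ) (Q : Ideal (𝓞 M)) (hQ : Q.IsPrime) (hQ0 : Q ≠ ⊥)
    (h : ∀ V : Ideal (𝓞 (IntermediateField.fixedField D)), V.IsPrime →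
      V.under (𝓞 K) = Q.under (𝓞 K) → q ∣ ordAt V y) (x : Gal(M/K) ⧸ D) :
    q ∣ ordAt Q (al D y x) := by
  induction x using QuotientGroup.induction_on with
  | H g =>
    rw [al_mk, ktu_ord D Q hQ0 g y hy]
    exact (h _ inferInstance (by rw [Ideal.under_under, ktu_under])).mul_left _

theorem ktu_exists (D : Subgroup Gal(M/K)) (y : 𝓞 (IntermediateField.fixedField D)) (hy : y ≠ 0)
    (q : ℕ) (Q : Ideal (𝓞 M)) (hQ : Q.IsPrime) (hQ0 : Q ≠ ⊥) (hun : Unr K M (Q.under (𝓞 K)))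
    (V₀ : Ideal (𝓞 (IntermediateField.fixedField D))) (hV₀ : V₀.IsPrime)
    (hV₀v : V₀.under (𝓞 K) = Q.under (𝓞 K))
    (hdeg : Ideal.absNorm V₀ = Ideal.absNorm (Q.under (𝓞 K)))
    (hdvd : ∀ V : Ideal (𝓞 (IntermediateField.fixedField D)), V.IsPrime →
      V.under (𝓞 K) = Q.under (𝓞 K) → V ≠ V₀ → q ∣ ordAt V y) :
    ∃ x₀ : Gal(M/K) ⧸ D, ordAt Q (al D y x₀) = ordAt V₀ y ∧
      ∀ x, x ≠ x₀ → q ∣ ordAt Q (al D y x) := by
  obtain ⟨Q', hQ', hQ'V⟩ := ktu_over D V₀ hV₀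
  have hQ'K : Q'.under (𝓞 K) = Q.under (𝓞 K) := by
    rw [← Ideal.under_under (A := 𝓞 K) (B := 𝓞 (IntermediateField.fixedField D)) Q', hQ'V, hV₀v]
  obtain ⟨g, hg⟩ := Algebra.IsInvariant.exists_smul_of_under_eq (𝓞 K) (𝓞 M) Gal(M/K) Q' Q hQ'K
  exact ⟨(g : Gal(M/K) ⧸ D), ktu_aux D y hy q Q hQ hQ0 hun V₀ g
    (by rw [hg, inv_smul_smul, hQ'V]) hdeg hdvd⟩

theorem ktu_all (D : Subgroup Gal(M/K)) (y : 𝓞 (IntermediateField.fixedField D)) (hy : y ≠ 0)
    (q : ℕ) (V₀ : Ideal (𝓞 (IntermediateField.fixedField D))) (hV₀ : V₀.IsPrime) (hV0 : V₀ ≠ ⊥)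
    (hun : Unr K M (V₀.under (𝓞 K)))
    (hdeg : Ideal.absNorm V₀ = Ideal.absNorm (V₀.under (𝓞 K)))
    (hdvd : ∀ V : Ideal (𝓞 (IntermediateField.fixedField D)), V.IsPrime →
      V.under (𝓞 K) = V₀.under (𝓞 K) → V ≠ V₀ → q ∣ ordAt V y) (x₀ : Gal(M/K) ⧸ D) :
    ∃ Q : Ideal (𝓞 M), Q.IsPrime ∧ Q ≠ ⊥ ∧ Q.under (𝓞 K) = V₀.under (𝓞 K) ∧
      ordAt Q (al D y x₀) = ordAt V₀ y ∧ ∀ x, x ≠ x₀ → q ∣ ordAt Q (al D y x) := by
  obtain ⟨Q', hQ', hQ'V⟩ := ktu_over D V₀ hV₀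
  induction x₀ using QuotientGroup.induction_on with
  | H g =>
    have hQ'0 : Q' ≠ ⊥ := by
      rintro rfl
      apply hV0
      rw [← hQ'V]
      exact Ideal.under_bot _ _
    have hQK : (g • Q').under (𝓞 K) = V₀.under (𝓞 K) := by
      rw [ktu_under, ← Ideal.under_under (A := 𝓞 K) (B := 𝓞 (IntermediateField.fixedField D)) Q',
        hQ'V]
    have hp : (g • Q').IsPrime := inferInstance
    refine ⟨g • Q', hp, ktu_ne_bot hQ'0 g, hQK, ?_⟩
    exact ktu_aux D y hy q (g • Q') hp (ktu_ne_bot hQ'0 g) (by rw [hQK]; exact hun) V₀ g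
      (by rw [inv_smul_smul, hQ'V]) (by rw [hQK]; exact hdeg) (by rw [hQK]; exact hdvd)

end H36.QA
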