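import Pool.Agent.H36.QA.NDefs
import Pool.Agent.H36.QA.Ktu
import Pool.Agent.H36.QA.Kti
import Pool.Agent.H36.QA.Kts

/-!
# [H36 QA L1A] The first layer: existence, range, inertia (four theorems, 110-180 lines)

`O1` is the Kummer construction with `q = 3`, `X = Gal(M₀/K) ⧸ D0`, `a1 x = sg (blk x)`, `j = gd.c`,
`ρb = gd.hb ∘ e₀`, `α = ` conjugates of `a ∈ 𝓞 E0`.

`l1_exists`: `exists_kumOut`; `α (g • x) = g (α x)`: `al_coe_smul`; `gd.c (a1 (g • x)) =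
hb (e₀ g) * c (a1 x) * (hb (e₀ g))⁻¹`: `gd.cH`, `blk (g • x) = e₀ g (blk x)`, and
`sg i ∘ h⁻¹ = sg (h i)`.
`l1_range`: `O.ρ σ = c (..) * hb (..)` gives one direction.  The other: `kts` (q = 3; `c` values:
the `sg i` generate `Fin m → Multiplicative (ZMod 3)`, and every `i` is a block of some coset: `gd.tr`
and surjectivity of `e₀`; `hW` from `ktu_all` for `V₀` above some `v ∈ T`, `T` not empty) shows that all
`c t` are values on `M₀.fixingSubgroup`; and for `h ∈ H` there is `σ` with `e₀ (res σ) = h`, so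
`O.ρ σ = c t * hb h` for some `t`.
`l1_I1`: `res M₀ τ = 1` (`res_eq_one`, `SbOK`); `kti` with `B = ⊥` and `ktu_zero` (`T` does not contain
the prime below).
`l1_I2`: `ktu_exists` for `Q = 𝔓.under (𝓞 M₀)` gives `x₀`; `kti` with `B = zpowers (a1 x₀)`;
`gd.c (a1 x₀) = u * c₀ * u⁻¹` with `u = hb h`, `h i₀ = blk x₀` (`gd.tr`, `gd.cH`).
(See `Pool/Agent/H38/ML/LayerInert.lean` for `𝔓.under (𝓞 M) ≠ ⊥` and the like.)
-/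

open scoped NumberField Pointwise
open H38.ML H38.TD

noncomputable section

namespace H36.QA

variable {K Ω : Type} [Field K] [NumberField K] [Field Ω] [Algebra K Ω] [IsAlgClosure K Ω]
  {m : ℕ} {H : Subgroup (Equiv.Perm (Fin m))} {Gp : Type} [Group Gp] (gd : GD m H Gp)
  (M₀ : IntermediateField K Ω) [FiniteDimensional K M₀] [IsGalois K M₀] [NumberField M₀]
  (e₀ : Gal(M₀/K) →* H)

/-- The Kummer construction of the first layer. -/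
abbrev O1 (ζ : K) (a : 𝓞 (E0 gd e₀)) : Type :=
  KumOut M₀ (gd.hb.comp e₀) gd.c 3 ζ (a1 gd e₀) (fun x => ((al (D0 gd e₀) a x : 𝓞 M₀) : M₀))

omit [IsGalois K M₀] [NumberField M₀] [FiniteDimensional K M₀] [IsAlgClosure K Ω] in
theorem l1_blk_smul (g : Gal(M₀/K)) (x : Gal(M₀/K) ⧸ D0 gd e₀) :
    blk gd e₀ (g • x) = (e₀ g : Equiv.Perm (Fin m)) (blk gd e₀ x) := by
  induction x using QuotientGroup.induction_on with
  | H h =>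
    change blk gd e₀ ((g * h : Gal(M₀/K)) : Gal(M₀/K) ⧸ D0 gd e₀) = _
    rw [blk_mk, blk_mk, map_mul, Subgroup.coe_mul, Equiv.Perm.mul_apply]

theorem l1_sg {n : ℕ} (h : Equiv.Perm (Fin n)) (i : Fin n) :
    (fun k => sg i (h⁻¹ k)) = sg (h i) := by
  funext k
  unfold sg
  by_cases hk : k = h i
  · subst hk
    have h1 : h⁻¹ (h i) = i := h.symm_apply_apply i
    rw [h1, Pi.mulSingle_eq_same, Pi.mulSingle_eq_same]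
  · rw [Pi.mulSingle_eq_of_ne hk, Pi.mulSingle_eq_of_ne]
    intro h1
    apply hk
    have h2 : h (h⁻¹ k) = k := h.apply_symm_apply k
    rw [← h2, h1]

theorem l1_cube {n : ℕ} (t : Fin n → Multiplicative (ZMod 3)) : t ^ 3 = 1 := by
  funext i
  rw [Pi.pow_apply, Pi.one_apply]
  generalize t i = x
  revert x
  decide

theorem l1_gen {n : ℕ} (S : Subgroup (Fin n → Multiplicative (ZMod 3))) (h : ∀ i, sg i ∈ S) :
    S = ⊤ := by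
  rw [eq_top_iff]
  intro t _
  rw [← Finset.univ_prod_mulSingle t]
  refine Subgroup.prod_mem _ fun i _ => ?_
  have h1 : ∀ x : Multiplicative (ZMod 3),
      x = (Multiplicative.ofAdd (1 : ZMod 3)) ^ (Multiplicative.toAdd x).val := by decide
  have h2 : (Pi.mulSingle i (t i) : Fin n → Multiplicative (ZMod 3)) =
      (sg i) ^ (Multiplicative.toAdd (t i)).val := by
    unfold sg
    rw [← Pi.mulSingle_pow, ← h1]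
  rw [h2]
  exact Subgroup.pow_mem _ (h i) _

omit [IsGalois K M₀] [NumberField M₀] [FiniteDimensional K M₀] [IsAlgClosure K Ω] in
theorem l1_ca (g : Gal(M₀/K)) (x : Gal(M₀/K) ⧸ D0 gd e₀) :
    gd.c (a1 gd e₀ (g • x)) =
      (gd.hb.comp e₀) g * gd.c (a1 gd e₀ x) * ((gd.hb.comp e₀) g)⁻¹ := by
  rw [MonoidHom.comp_apply, gd.cH]
  congr 1
  change sg (blk gd e₀ (g • x)) = fun i => sg (blk gd e₀ x) ((e₀ g : Equiv.Perm (Fin m))⁻¹ i)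
  rw [l1_sg, l1_blk_smul]

omit [IsGalois K M₀] [FiniteDimensional K M₀] [IsAlgClosure K Ω] in
theorem l1_ne_bot {E : Type} [Field E] [NumberField E] [Algebra K E] (V : Ideal (𝓞 E))
    (h : V.under (𝓞 K) ≠ ⊥) : V ≠ ⊥ := by
  intro h0
  apply h
  rw [h0, eq_bot_iff]
  intro x hx
  have h1 : algebraMap (𝓞 K) (𝓞 E) x = 0 := hx
  have h2 : Function.Injective (algebraMap (𝓞 K) (𝓞 E)) := FaithfulSMul.algebraMap_injective _ _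
  exact h2 (by rw [h1, map_zero])

omit [IsGalois K M₀] [FiniteDimensional K M₀] [IsAlgClosure K Ω] in
theorem l1_al_ne (a : 𝓞 (E0 gd e₀)) (ha : a ≠ 0) (x : Gal(M₀/K) ⧸ D0 gd e₀) :
    ((al (D0 gd e₀) a x : 𝓞 M₀) : M₀) ≠ 0 := by
  intro h
  apply al_ne (D0 gd e₀) a ha x
  apply NumberField.RingOfIntegers.ext
  rw [h]
  rfl

theorem l1_exists (ζ : K) (hζ : IsPrimitiveRoot ζ 3) (a : 𝓞 (E0 gd e₀)) (ha : a ≠ 0) :
    Nonempty (O1 gd M₀ e₀ ζ a) :=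
  exists_kumOut M₀ (gd.hb.comp e₀) gd.c 3 (by norm_num) ζ hζ l1_cube (a1 gd e₀)
    (fun x => ((al (D0 gd e₀) a x : 𝓞 M₀) : M₀)) (l1_al_ne gd M₀ e₀ a ha)
    (al_coe_smul (D0 gd e₀) a) (l1_ca gd M₀ e₀)

theorem l1_range (he₀ : Function.Surjective e₀) (ζ : K) (hζ : IsPrimitiveRoot ζ 3)
    (a : 𝓞 (E0 gd e₀)) (Sb T : Set (Ideal (𝓞 K))) (hSb : SbOK (M₀ := M₀) Sb)
    (ha : AOK (E0 gd e₀) Sb T 3 a) (hT : T.Nonempty) (O : O1 gd M₀ e₀ ζ a) (u : Gp) :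
    (∃ σ, O.ρ σ = u) ↔ gd.InU u := by
  constructor
  · rintro ⟨σ, rfl⟩
    exact ⟨_, e₀ (res M₀ σ), O.hρ σ⟩
  · rintro ⟨t, h, rfl⟩
    obtain ⟨g, hg⟩ := he₀ h
    obtain ⟨σ₀, hσ₀⟩ := AlgEquiv.restrictNormalHom_surjective (F := K) (K₁ := M₀) Ω g
    have hσ₀' : res M₀ σ₀ = g := hσ₀
    obtain ⟨ha0, ha1, ha2⟩ := ha
    have h1 : ∃ t', O.ρ σ₀ = gd.c t' * gd.hb h := by
      refine ⟨∏ x, a1 gd e₀ (res M₀ σ₀ • x) ^ O.κ σ₀ x, (O.hρ σ₀).trans ?_⟩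
      rw [MonoidHom.comp_apply, hσ₀', hg]
    obtain ⟨t', ht'⟩ := h1
    have hgen : Subgroup.closure (Set.range (a1 gd e₀)) = ⊤ := by
      apply l1_gen
      intro i
      apply Subgroup.subset_closure
      obtain ⟨h', hh'⟩ := gd.tr i
      obtain ⟨g', hg'⟩ := he₀ h'
      refine ⟨(g' : Gal(M₀/K) ⧸ D0 gd e₀), ?_⟩
      unfold a1
      rw [blk_mk, hg', hh']
    obtain ⟨v, hv⟩ := hT
    obtain ⟨hv1, hv2, hv3, V₀, hV1, hV2, hV3, hV4, hV5⟩ := ha2 v hv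
    have hV0 : V₀ ≠ ⊥ := l1_ne_bot V₀ (by rw [hV2]; exact hv2)
    obtain ⟨hun, -, -⟩ := hSb v hv1 hv2 hv3
    have hW : ∀ x₀ : Gal(M₀/K) ⧸ D0 gd e₀, ∃ Q : Ideal (𝓞 M₀), Q.IsPrime ∧ Q ≠ ⊥ ∧
        ¬ 3 ∣ ordAt Q (al (D0 gd e₀) a x₀) ∧
        ∀ x, x ≠ x₀ → 3 ∣ ordAt Q (al (D0 gd e₀) a x) := by
      intro x₀
      obtain ⟨Q, hQ1, hQ2, hQ3, hQ4, hQ5⟩ := ktu_all (D0 gd e₀) a ha0 3 V₀ hV1 hV0
        (by rw [hV2]; exact hun) (by rw [hV2]; exact hV3)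
        (fun V hV hVv hne => hV5 V hV (by rw [hVv, hV2]) hne) x₀
      exact ⟨Q, hQ1, hQ2, by rw [hQ4]; exact hV4, hQ5⟩
    obtain ⟨σ₁, -, hσ₁⟩ := kts M₀ (gd.hb.comp e₀) gd.c 3 Nat.prime_three ζ hζ l1_cube (a1 gd e₀)
      hgen (al (D0 gd e₀) a) (al_ne (D0 gd e₀) a ha0) O hW (t * t'⁻¹)
    refine ⟨σ₁ * σ₀, ?_⟩
    rw [map_mul, hσ₁, ht', map_mul, map_inv]
    group

theorem l1_I1 (ζ : K) (hζ : IsPrimitiveRoot ζ 3)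
    (a : 𝓞 (E0 gd e₀)) (Sb T : Set (Ideal (𝓞 K))) (hSb : SbOK (M₀ := M₀) Sb)
    (ha : AOK (E0 gd e₀) Sb T 3 a) (O : O1 gd M₀ e₀ ζ a) (𝔓 : Ideal (𝓞 Ω)) (h𝔓 : 𝔓.IsPrime)
    (h0 : 𝔓.under (𝓞 K) ≠ ⊥) (h1 : 𝔓.under (𝓞 K) ∉ Sb) (h2 : 𝔓.under (𝓞 K) ∉ T)
    (τ : Gal(Ω/K)) (hτ : τ ∈ 𝔓.inertia Gal(Ω/K)) : O.ρ τ = 1 := by
  obtain ⟨ha0, ha1, -⟩ := ha
  obtain ⟨hun, -, h3⟩ := hSb (𝔓.under (𝓞 K)) inferInstance h0 h1
  have hres : res M₀ τ = 1 := res_eq_one M₀ 𝔓 hun τ hτ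
  have hQ : (𝔓.under (𝓞 M₀)).IsPrime := inferInstance
  have hQK : (𝔓.under (𝓞 M₀)).under (𝓞 K) = 𝔓.under (𝓞 K) := by rw [Ideal.under_under]
  have hQ0 : 𝔓.under (𝓞 M₀) ≠ ⊥ := l1_ne_bot _ (by rw [hQK]; exact h0)
  have h := kti M₀ (gd.hb.comp e₀) gd.c 3 (by norm_num) ζ hζ l1_cube (a1 gd e₀)
    (al (D0 gd e₀) a) (al_ne (D0 gd e₀) a ha0) O 𝔓 h𝔓 h0 h3 ⊥ (fun x hx => ?_) τ hτ hres
  · rw [Subgroup.map_bot] at h
    exact Subgroup.mem_bot.1 h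
  · exfalso
    apply hx
    refine ktu_zero (D0 gd e₀) a ha0 3 (𝔓.under (𝓞 M₀)) hQ hQ0 (fun V hV hVK => ?_) x
    rw [hQK] at hVK
    exact ha1 V hV (l1_ne_bot V (by rw [hVK]; exact h0)) (by rw [hVK]; exact h1)
      (by rw [hVK]; exact h2)

theorem l1_I2 (ζ : K) (hζ : IsPrimitiveRoot ζ 3)
    (a : 𝓞 (E0 gd e₀)) (Sb T : Set (Ideal (𝓞 K))) (hSb : SbOK (M₀ := M₀) Sb)
    (ha : AOK (E0 gd e₀) Sb T 3 a) (O : O1 gd M₀ e₀ ζ a) (𝔓 : Ideal (𝓞 Ω)) (h𝔓 : 𝔓.IsPrime)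
    (h2 : 𝔓.under (𝓞 K) ∈ T) :
    ∃ u, gd.InU u ∧ ∀ τ ∈ 𝔓.inertia Gal(Ω/K), O.ρ τ ∈ Subgroup.zpowers (u * gd.c₀ * u⁻¹) := by
  obtain ⟨ha0, -, ha2⟩ := ha
  obtain ⟨hv1, hv2, hv3, V₀, hV1, hV2, hV3, hV4, hV5⟩ := ha2 _ h2
  obtain ⟨hun, -, h3⟩ := hSb (𝔓.under (𝓞 K)) hv1 hv2 hv3
  have hQ : (𝔓.under (𝓞 M₀)).IsPrime := inferInstance
  have hQK : (𝔓.under (𝓞 M₀)).under (𝓞 K) = 𝔓.under (𝓞 K) := by rw [Ideal.under_under]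
  have hQ0 : 𝔓.under (𝓞 M₀) ≠ ⊥ := l1_ne_bot _ (by rw [hQK]; exact hv2)
  obtain ⟨x₀, -, hx₀⟩ := ktu_exists (D0 gd e₀) a ha0 3 (𝔓.under (𝓞 M₀)) hQ hQ0
    (by rw [hQK]; exact hun) V₀ hV1 (by rw [hV2, hQK]) (by rw [hV3, hQK])
    (fun V hV hVK hne => hV5 V hV (by rw [hVK, hQK]) hne)
  obtain ⟨h, hh⟩ := gd.tr (blk gd e₀ x₀)
  refine ⟨gd.hb h, gd.inU_hb h, fun τ hτ => ?_⟩
  have hres : res M₀ τ = 1 := res_eq_one M₀ 𝔓 hun τ hτ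
  have hk := kti M₀ (gd.hb.comp e₀) gd.c 3 (by norm_num) ζ hζ l1_cube (a1 gd e₀)
    (al (D0 gd e₀) a) (al_ne (D0 gd e₀) a ha0) O 𝔓 h𝔓 hv2 h3 (Subgroup.zpowers (a1 gd e₀ x₀))
    (fun x hx => ?_) τ hτ hres
  · rw [MonoidHom.map_zpowers] at hk
    have h5 : gd.hb h * gd.c₀ * (gd.hb h)⁻¹ = gd.c (a1 gd e₀ x₀) := by
      unfold GD.c₀
      rw [gd.cH, l1_sg, hh]
      rfl
    rw [h5]
    exact hk
  · have hx' : x = x₀ := by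
      by_contra hne
      exact hx (hx₀ x hne)
    rw [hx']
    exact Subgroup.mem_zpowers _

end H36.QA
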