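import Pool.Agent.H36.QA.L1a

/-!
# [H36 QA L1B] The first layer: the cube root (one theorem, 50-90 lines)

`θ = O.β 1` (`1` the trivial coset): `θ³ = α 1 = a`.  Let `O.ρ σ = c t * hb h` with `h i₀ = i₀`.  By
`O.hρ`: `O.ρ σ = c (∏ x, a1 (res σ • x) ^ κ σ x) * hb (e₀ (res σ))`, so by `gd.form_uniq`
`t = ∏ x, a1 (res σ • x) ^ κ σ x` and `h = e₀ (res σ)`; as `h i₀ = i₀`: `res σ ∈ D0`,
`res σ • 1 = 1`.  The component of `t` at `i₀`: `sg i` has the component `1` (that is `ofAdd 0`) at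
`i₀` unless `i = i₀`, and `blk (res σ • x) = i₀` iff `res σ • x = 1` (`blk` is injective) iff `x = 1`.
So `t i₀ = ofAdd (κ σ 1 : ZMod 3)`, `κ σ 1 ≡ (toAdd (t i₀)).val mod 3`, and
`σ θ = z ^ κ σ 1 * β (res σ • 1) = z ^ κ σ 1 * θ`, `z ^ 3 = 1`.
-/

open scoped NumberField Pointwise
open H38.ML H38.TD

noncomputable section

namespace H36.QA

variable {K Ω : Type} [Field K] [NumberField K] [Field Ω] [Algebra K Ω] [IsAlgClosure K Ω]
  {m : ℕ} {H : Subgroup (Equiv.Perm (Fin m))} {Gp : Type} [Group Gp] (gd : GD m H Gp)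
  (M₀ : IntermediateField K Ω) [FiniteDimensional K M₀] [IsGalois K M₀] [NumberField M₀]
  (e₀ : Gal(M₀/K) →* H)

/-- `blk x = i₀` iff `x` is the trivial coset. -/
theorem l1b_blk_eq {M₁ : Type} [Field M₁] [Algebra K M₁] (e₁ : Gal(M₁/K) →* H)
    (x : Gal(M₁/K) ⧸ D0 gd e₁) :
    blk gd e₁ x = gd.i₀ ↔ x = ((1 : Gal(M₁/K)) : Gal(M₁/K) ⧸ D0 gd e₁) := by
  induction x using QuotientGroup.induction_on with
  | H g =>
    rw [blk_mk, eq_comm (a := (g : Gal(M₁/K) ⧸ D0 gd e₁)), QuotientGroup.eq, inv_one, one_mul,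
      mem_D0]

theorem l1b_pow_val {F : Type} [Field F] (z : F) (hz : z ^ 3 = 1) (k : ℕ) :
    z ^ k = z ^ ((k : ZMod 3)).val := by
  rw [ZMod.val_natCast]
  conv_lhs => rw [← Nat.div_add_mod k 3]
  rw [pow_add, pow_mul, hz, one_pow, one_mul]

theorem l1_theta (ζ : K) (hζ : IsPrimitiveRoot ζ 3) (a : 𝓞 (E0 gd e₀))
    (O : O1 gd M₀ e₀ ζ a) : ∃ θ : Ω, θ ^ 3 = (((a : E0 gd e₀) : M₀) : Ω) ∧
      ∀ (σ : Gal(Ω/K)) (t : Fin m → Multiplicative (ZMod 3)) (h : H),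
        O.ρ σ = gd.c t * gd.hb h → (h : Equiv.Perm (Fin m)) gd.i₀ = gd.i₀ →
          σ θ = algebraMap K Ω ζ ^ (Multiplicative.toAdd (t gd.i₀)).val * θ := by
  set o : Gal(M₀/K) ⧸ D0 gd e₀ := ((1 : Gal(M₀/K)) : Gal(M₀/K) ⧸ D0 gd e₀) with ho
  refine ⟨O.β o, ?_, ?_⟩
  · rw [O.hβ, ho, al_mk, one_smul]
    rfl
  · intro σ t h hσ hh
    have h1 : gd.c (∏ x, a1 gd e₀ (res M₀ σ • x) ^ O.κ σ x) * gd.hb (e₀ (res M₀ σ)) =
        gd.c t * gd.hb h := by
      rw [← hσ, O.hρ]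
      rfl
    obtain ⟨h2, h3⟩ := gd.form_uniq h1
    have h4 : res M₀ σ ∈ D0 gd e₀ := by
      rw [mem_D0, h3]
      exact hh
    have h5 : res M₀ σ • o = o := by
      have h6 : res M₀ σ • o = ((res M₀ σ * 1 : Gal(M₀/K)) : Gal(M₀/K) ⧸ D0 gd e₀) := rfl
      rw [h6, ho, mul_one, eq_comm, QuotientGroup.eq, inv_one, one_mul]
      exact h4
    have h6 : t gd.i₀ = Multiplicative.ofAdd ((O.κ σ o : ℕ) : ZMod 3) := by
      rw [← h2, Finset.prod_apply, Finset.prod_eq_single o]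
      · rw [h5, Pi.pow_apply]
        have h7 : a1 gd e₀ o gd.i₀ = Multiplicative.ofAdd (1 : ZMod 3) := by
          have h8 : blk gd e₀ o = gd.i₀ := (l1b_blk_eq gd e₀ o).mpr ho
          rw [a1, sg, h8, Pi.mulSingle_eq_same]
        rw [h7, ← ofAdd_nsmul, nsmul_eq_mul, mul_one]
      · intro x _ hx
        rw [Pi.pow_apply]
        have h7 : a1 gd e₀ (res M₀ σ • x) gd.i₀ = 1 := by
          rw [a1, sg]
          refine Pi.mulSingle_eq_of_ne ?_ _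
          intro h8
          have h9 : res M₀ σ • x = o := (l1b_blk_eq gd e₀ _).mp h8.symm
          apply hx
          rw [← h5] at h9
          exact MulAction.injective _ h9
        rw [h7, one_pow]
      · intro h7
        exact absurd (Finset.mem_univ _) h7
    rw [O.hκ σ o, h5, h6, toAdd_ofAdd]
    congr 1
    apply l1b_pow_val
    rw [← map_pow, hζ.pow_eq_one, map_one]

end H36.QA
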