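import Pool.Agent.H36.QA.FDefs
import Pool.Agent.H36.QA.Ktu
import Pool.Agent.H36.QA.Kts
import Pool.Agent.H36.QA.Unr

/-!
# [H36 QA L2A] The second layer: existence and surjectivity (three theorems, 90-140 lines)

`l2_exists`: `exists_kumOut` with `q = 2`, `ζ = -1`; `α (g • y) = g (α y)`: `al_coe_smul`;
`a2 (g • y) = e g * a2 y * (e g)⁻¹`: `a2_mk`.
`l2_mod`: `O.hρ` and `d.R σ = d.e (res d.M σ)`.
`l2_surj`: `kts` with `q = 2`: `closure (range a2) = ⊤` by `gd.genV` (every `c t * hb h` is some `e g`: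
`erange`); `hW x₀`: take `v ∈ T₂`, its `V₀`, and `ktu_all` (`Unr`: `l1d_unr`).  So every `v ∈ V` is
`O.ρ σ` for some `σ ∈ M.fixingSubgroup`.  Let `g = v * u` (`gd.gen`), `u = e g'`, `g' = res M σ`
(`res` is surjective): `O.ρ σ = v' * u` with `v' ∈ V`; multiply with `σ'`, `O.ρ σ' = v * v'⁻¹`.
-/

open scoped NumberField Pointwise
open H38.ML H38.TD

noncomputable section

namespace H36.QA

variable {K Ω : Type} [Field K] [NumberField K] [Field Ω] [Algebra K Ω] [IsAlgClosure K Ω]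
  {m : ℕ} {H : Subgroup (Equiv.Perm (Fin m))} {Gp : Type} [Group Gp] {gd : GD m H Gp} {ζ : K}
  {E : Type} [Field E] [NumberField E] [Algebra K E] {Sb T : Set (Ideal (𝓞 K))} {a : 𝓞 E}

theorem l2a_root (K : Type) [Field K] [NumberField K] : IsPrimitiveRoot (-1 : K) 2 := by
  refine IsPrimitiveRoot.neg_one 0 ?_
  norm_num

theorem l2a_V2 (gd : GD m H Gp) (t : gd.V) : t ^ 2 = 1 :=
  Subtype.ext (gd.V2 t.1 t.2)

theorem l2a_smul (d : L1D K Ω gd ζ E Sb T a) (g : Gal(d.M/K)) (x : Gal(d.M/K) ⧸ d.D) :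
    gd.V.subtype (d.a2 (g • x)) = d.e g * gd.V.subtype (d.a2 x) * (d.e g)⁻¹ := by
  induction x using QuotientGroup.induction_on with
  | H h =>
    change (d.a2 ((g * h : Gal(d.M/K)) : Gal(d.M/K) ⧸ d.D) : Gp) =
      d.e g * (d.a2 ((h : Gal(d.M/K)) : Gal(d.M/K) ⧸ d.D) : Gp) * (d.e g)⁻¹
    rw [d.a2_mk, d.a2_mk, map_mul]
    group

theorem l2a_gen (d : L1D K Ω gd ζ E Sb T a) : Subgroup.closure (Set.range d.a2) = ⊤ := by
  rw [eq_top_iff]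
  intro v _
  have h1 := gd.genV v.2
  have h2 : {x | ∃ t h, x = (gd.c t * gd.hb h) * gd.d₀ * (gd.c t * gd.hb h)⁻¹} =
      gd.V.subtype '' (Set.range d.a2) := by
    ext y
    constructor
    · rintro ⟨t, h, rfl⟩
      obtain ⟨g, hg⟩ := (d.erange (gd.c t * gd.hb h)).mpr ⟨t, h, rfl⟩
      refine ⟨d.a2 (g : Gal(d.M/K) ⧸ d.D), ⟨_, rfl⟩, ?_⟩
      change (d.a2 (g : Gal(d.M/K) ⧸ d.D) : Gp) = _
      rw [d.a2_mk, hg]
    · rintro ⟨_, ⟨x, rfl⟩, rfl⟩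
      induction x using QuotientGroup.induction_on with
      | H g =>
        obtain ⟨t, h, hth⟩ := (d.erange (d.e g)).mp ⟨g, rfl⟩
        refine ⟨t, h, ?_⟩
        change (d.a2 (g : Gal(d.M/K) ⧸ d.D) : Gp) = _
        rw [d.a2_mk, hth]
  rw [h2, ← MonoidHom.map_closure] at h1
  obtain ⟨w, hw, hwv⟩ := h1
  have h3 : w = v := Subtype.ext hwv
  rw [← h3]
  exact hw

theorem l2_exists (d : L1D K Ω gd ζ E Sb T a) (x : 𝓞 d.F) (hx : x ≠ 0) : Nonempty (d.O2 x) := by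
  refine exists_kumOut d.M d.e gd.V.subtype 2 (by norm_num) (-1) (l2a_root K) (l2a_V2 gd) d.a2
    (fun y => ((al d.D x y : 𝓞 d.M) : d.M)) ?_ ?_ ?_
  · intro y h0
    exact al_ne d.D x hx y (NumberField.RingOfIntegers.ext (by rw [h0]; rfl))
  · intro g y
    exact al_coe_smul d.D x g y
  · exact l2a_smul d

theorem l2_mod (d : L1D K Ω gd ζ E Sb T a) (x : 𝓞 d.F) (O : d.O2 x) (σ : Gal(Ω/K)) :
    ∃ v ∈ gd.V, O.ρ σ = v * d.R σ := by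
  exact ⟨_, SetLike.coe_mem _, O.hρ σ⟩

theorem l2_surj [Finite Gp] (d : L1D K Ω gd ζ E Sb T a) (x : 𝓞 d.F) (T₂ : Set (Ideal (𝓞 K)))
    (hx : AOK d.F (∅ : Set (Ideal (𝓞 K))) T₂ 2 x) (hT₂ : T₂.Nonempty)
    (hd : ∀ v ∈ T₂, v ∉ Sb ∧ v ∉ T) (O : d.O2 x) : Function.Surjective O.ρ := by
  obtain ⟨hx0, -, hx2⟩ := hx
  obtain ⟨v, hv⟩ := hT₂
  obtain ⟨hvp, hv0, -, V₀, hV₀, hV₀v, hdeg, hnd, hoth⟩ := hx2 v hv
  have hV0 : V₀ ≠ ⊥ := by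
    rintro rfl
    apply hv0
    rw [← hV₀v]
    exact Ideal.under_bot _ _
  have hfin : Finite gd.V := inferInstance
  have key : ∀ t : gd.V, ∃ σ ∈ d.M.fixingSubgroup, O.ρ σ = gd.V.subtype t := by
    intro t
    refine kts d.M d.e gd.V.subtype 2 Nat.prime_two (-1) (l2a_root K) (l2a_V2 gd) d.a2
      (l2a_gen d) (al d.D x) (al_ne d.D x hx0) O ?_ t
    intro x₀
    obtain ⟨Q, hQ, hQ0, -, hQ1, hQ2⟩ := ktu_all d.D x hx0 2 V₀ hV₀ hV0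
      (by rw [hV₀v]; exact l1d_unr d v hvp hv0 (hd v hv).1 (hd v hv).2)
      (by rw [hV₀v]; exact hdeg) (by rw [hV₀v]; exact hoth) x₀
    exact ⟨Q, hQ, hQ0, by rw [hQ1]; exact hnd, hQ2⟩
  intro g
  obtain ⟨v₁, hv₁, t, h, rfl⟩ := gd.gen g
  obtain ⟨g', hg'⟩ := (d.erange (gd.c t * gd.hb h)).mpr ⟨t, h, rfl⟩
  obtain ⟨σ, hσ⟩ : ∃ σ : Gal(Ω/K), res d.M σ = g' :=
    AlgEquiv.restrictNormalHom_surjective Ω g'
  obtain ⟨v₂, hv₂, hρ⟩ := l2_mod d x O σ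
  have hR : d.R σ = gd.c t * gd.hb h := by
    change d.e (res d.M σ) = _
    rw [hσ, hg']
  obtain ⟨σ', -, hσ'⟩ := key ⟨v₁ * v₂⁻¹, gd.V.mul_mem hv₁ (gd.V.inv_mem hv₂)⟩
  refine ⟨σ' * σ, ?_⟩
  rw [map_mul, hσ', hρ, hR]
  change v₁ * v₂⁻¹ * (v₂ * (gd.c t * gd.hb h)) = _
  group

end H36.QA
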