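import Pool.Agent.H36.QA.FDefs
import Pool.Agent.H36.QA.Ktu
import Pool.Agent.H36.QA.Kti
import Pool.Agent.H36.QA.Unr

/-!
# [H36 QA L2B] The second layer: inertia (two theorems, 60-100 lines)

`l2_I0`: `O.ρ τ = j (..) * e (res M τ)` (`O.hρ`) is in `V`, so `e (res M τ) ∈ V`; it is `c t * hb h`
(`erange`), so it is `1` (`gd.uniq`) and `res M τ = 1` (`einj`).  `kti` with `B = ⊥`: by `ktu_zero` all
orders are even at `Q = 𝔓.under (𝓞 M)` (`T₂` does not contain the prime `Q.under (𝓞 K)`, and the first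
set of primes in `AOK` is empty).
`l2_I2`: `res M τ = 1` (`d.I1`).  `ktu_exists` for `Q = 𝔓.under (𝓞 M)` and the `V₀` of
`Q.under (𝓞 K) ∈ T₂` (`l1d_unr`) gives `x₀ = g D`; `kti` with `B = zpowers (a2 x₀)`, and `a2 x₀ = u d₀ u⁻¹`
with `u = e g` (`a2_mk`).
-/

open scoped NumberField Pointwise
open H38.ML H38.TD

noncomputable section

namespace H36.QA

variable {K Ω : Type} [Field K] [NumberField K] [Field Ω] [Algebra K Ω] [IsAlgClosure K Ω]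
  {m : ℕ} {H : Subgroup (Equiv.Perm (Fin m))} {Gp : Type} [Group Gp] {gd : GD m H Gp} {ζ : K}
  {E : Type} [Field E] [NumberField E] [Algebra K E] {Sb T : Set (Ideal (𝓞 K))} {a : 𝓞 E}

theorem l2b_root : IsPrimitiveRoot (-1 : K) 2 := IsPrimitiveRoot.neg_one 0 (by norm_num)

theorem l2b_pow (t : gd.V) : t ^ 2 = 1 := Subtype.ext (gd.V2 t.1 t.2)

/-- a power of the fixed conjugate -/
theorem l2b_kti (d : L1D K Ω gd ζ E Sb T a) (x : 𝓞 d.F) (hx0 : x ≠ 0) (O : d.O2 x)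
    (𝔓 : Ideal (𝓞 Ω)) (h𝔓 : 𝔓.IsPrime) (h0 : 𝔓.under (𝓞 K) ≠ ⊥)
    (h2 : ((2 : ℕ) : 𝓞 K) ∉ 𝔓.under (𝓞 K)) (B : Subgroup gd.V)
    (hB : ∀ y, ¬ 2 ∣ ordAt (𝔓.under (𝓞 d.M)) (al d.D x y) → d.a2 y ∈ B)
    (τ : Gal(Ω/K)) (hτ : τ ∈ 𝔓.inertia Gal(Ω/K)) (hres : res d.M τ = 1) :
    O.ρ τ ∈ B.map gd.V.subtype :=
  kti d.M d.e gd.V.subtype 2 two_pos (-1 : K) l2b_root l2b_pow d.a2 (al d.D x)
    (fun y => al_ne d.D x hx0 y) O 𝔓 h𝔓 h0 h2 B hB τ hτ hres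

theorem l2b_under (d : L1D K Ω gd ζ E Sb T a) (𝔓 : Ideal (𝓞 Ω)) :
    (𝔓.under (𝓞 d.M)).under (𝓞 K) = 𝔓.under (𝓞 K) := by
  rw [Ideal.under_under]

theorem l2b_ne_bot (d : L1D K Ω gd ζ E Sb T a) (𝔓 : Ideal (𝓞 Ω)) (h0 : 𝔓.under (𝓞 K) ≠ ⊥) :
    𝔓.under (𝓞 d.M) ≠ ⊥ := by
  intro h
  apply h0
  rw [← l2b_under d 𝔓, h]
  exact Ideal.comap_bot_of_injective _ (FaithfulSMul.algebraMap_injective (𝓞 K) (𝓞 d.M))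

theorem l2_I0 (d : L1D K Ω gd ζ E Sb T a) (x : 𝓞 d.F) (T₂ : Set (Ideal (𝓞 K)))
    (hx : AOK d.F (∅ : Set (Ideal (𝓞 K))) T₂ 2 x) (O : d.O2 x) (𝔓 : Ideal (𝓞 Ω))
    (h𝔓 : 𝔓.IsPrime) (h0 : 𝔓.under (𝓞 K) ≠ ⊥) (h2 : ((2 : ℕ) : 𝓞 K) ∉ 𝔓.under (𝓞 K))
    (hT₂ : 𝔓.under (𝓞 K) ∉ T₂) (τ : Gal(Ω/K)) (hτ : τ ∈ 𝔓.inertia Gal(Ω/K))
    (hV : O.ρ τ ∈ gd.V) : O.ρ τ = 1 := by
  have he : d.e (res d.M τ) ∈ gd.V := by
    have h1 := O.hρ τ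
    have h3 : d.e (res d.M τ) =
        (gd.V.subtype (∏ y, d.a2 (res d.M τ • y) ^ O.κ τ y))⁻¹ * O.ρ τ := by
      rw [h1]
      group
    rw [h3]
    exact gd.V.mul_mem (gd.V.inv_mem (Subtype.mem _)) hV
  have hres : res d.M τ = 1 := by
    obtain ⟨t, h, hth⟩ := (d.erange _).mp ⟨res d.M τ, rfl⟩
    rw [hth] at he
    obtain ⟨ht, hh⟩ := gd.uniq t h he
    apply d.einj
    rw [hth, ht, hh, map_one, map_one, map_one, one_mul]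
  have h4 := l2b_kti d x hx.1 O 𝔓 h𝔓 h0 h2 ⊥ (fun y hy => by
    exfalso
    apply hy
    refine ktu_zero d.D x hx.1 2 _ inferInstance (l2b_ne_bot d 𝔓 h0) ?_ y
    intro V hV hVK
    have hVK' : V.under (𝓞 K) = 𝔓.under (𝓞 K) := by rw [hVK, l2b_under]
    refine hx.2.1 V hV ?_ (Set.notMem_empty _) (by rw [hVK']; exact hT₂)
    rintro rfl
    apply h0
    rw [← hVK']
    exact Ideal.under_bot _ _) τ hτ hres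
  rw [Subgroup.map_bot, Subgroup.mem_bot] at h4
  exact h4

theorem l2_I2 (d : L1D K Ω gd ζ E Sb T a) (x : 𝓞 d.F) (T₂ : Set (Ideal (𝓞 K)))
    (hx : AOK d.F (∅ : Set (Ideal (𝓞 K))) T₂ 2 x) (O : d.O2 x) (𝔓 : Ideal (𝓞 Ω))
    (h𝔓 : 𝔓.IsPrime) (h2 : ((2 : ℕ) : 𝓞 K) ∉ 𝔓.under (𝓞 K)) (hT₂ : 𝔓.under (𝓞 K) ∈ T₂)
    (hSb : 𝔓.under (𝓞 K) ∉ Sb) (hT : 𝔓.under (𝓞 K) ∉ T) :
    ∃ u, gd.InU u ∧ ∀ τ ∈ 𝔓.inertia Gal(Ω/K), O.ρ τ ∈ Subgroup.zpowers (u * gd.d₀ * u⁻¹) := by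
  obtain ⟨hvp, hv0, -, V₀, hV₀p, hV₀v, hV₀n, -, hV₀u⟩ := hx.2.2 _ hT₂
  have hQK := l2b_under d 𝔓
  obtain ⟨x₀, -, hx₀⟩ := ktu_exists d.D x hx.1 2 (𝔓.under (𝓞 d.M)) inferInstance
    (l2b_ne_bot d 𝔓 hv0) (by rw [hQK]; exact l1d_unr d _ hvp hv0 hSb hT) V₀ hV₀p
    (by rw [hQK]; exact hV₀v) (by rw [hQK]; exact hV₀n) (by rw [hQK]; exact hV₀u)
  induction x₀ using QuotientGroup.induction_on with
  | H g =>
    refine ⟨d.e g, (d.erange _).mp ⟨g, rfl⟩, fun τ hτ => ?_⟩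
    have hres : res d.M τ = 1 := d.I1 𝔓 h𝔓 hv0 hSb hT τ hτ
    have h4 := l2b_kti d x hx.1 O 𝔓 h𝔓 hv0 h2 (Subgroup.zpowers (d.a2 (g : Gal(d.M/K) ⧸ d.D)))
      (fun y hy => by
        have hy1 : y = (g : Gal(d.M/K) ⧸ d.D) := by
          by_contra hne
          exact hy (hx₀ y hne)
        rw [hy1]
        exact Subgroup.mem_zpowers _) τ hτ hres
    rw [MonoidHom.map_zpowers] at h4
    exact h4

end H36.QA
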