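import Pool.Agent.H36.QA.L2a
import Pool.Agent.H36.QA.L2b
import Pool.Agent.H38.ML.Final2

/-!
# [H36 QA L2C] The relative discriminant (one theorem, 100-160 lines)

As `one_tuple` in `Pool/Agent/H38/ML/Final2.lean`.  `ρ = φ ∘ O.ρ` is surjective of finite type;
`small_field` and `disc_bound QBar n Sb` with the set `T ∪ T₂` of primes of `K`, `w = 2`.
* `v ∈ T₂`: choose `𝔓` above `v` (`exists_over`); `l2_I2`: the image of inertia is contained in
`zpowers (φ (u d₀ u⁻¹))`, `ind (φ (u d₀ u⁻¹)) = ind (φ d₀) = 2` (`orbs_conj`), and a smaller group has more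
orbits (`orbs` is antitone), so `n ≤ 2 + orbs`.
* `v ∈ T` (`v ∉ T₂`): `J` = image of inertia under `O.ρ`.  `J ∩ V = 1` (`l2_I0`), and by `l2_mod` and
`d.I2` every element of `J` is `v * (u c₀ u⁻¹)^k`.  `orbs_of_inertia` for `G`, `N = V.map φ`,
`g = φ c₀` (order 3, prime to the order of `V`, which is a power of 2: `V2`), `y = φ u`.
* other `v ∉ Sb`: for `τ` in the inertia group `d.R τ = 1` (`d.I1`), so `O.ρ τ ∈ V` (`l2_mod`) and
`O.ρ τ = 1` (`l2_I0`): `n ≤ orbs ⊥`.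
The two sets are disjoint, so the product over `T ∪ T₂` is the product of the products.
-/

open scoped NumberField Pointwise
open H38.ML H38.TD

noncomputable section

namespace H36.QA

/-- a smaller group has more orbits -/
theorem l2c_orbs_anti {n : ℕ} {A B : Subgroup (Equiv.Perm (Fin n))} (h : A ≤ B) :
    orbs B ≤ orbs A := by
  unfold orbs
  refine Nat.card_le_card_of_surjective
    (Quotient.map' (s₁ := MulAction.orbitRel A (Fin n)) (s₂ := MulAction.orbitRel B (Fin n)) id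
      ?_) ?_
  · intro i j hij
    obtain ⟨⟨g, hg⟩, hgi⟩ := MulAction.mem_orbit_iff.1 hij
    exact MulAction.mem_orbit_iff.2 ⟨⟨g, h hg⟩, hgi⟩
  · intro q
    induction q using Quotient.inductionOn' with
    | h i => exact ⟨Quotient.mk'' i, rfl⟩

theorem l2c_three : (Multiplicative.ofAdd (1 : ZMod 3)) ^ 3 = 1 := by decide

theorem l2c_order {m : ℕ} {H : Subgroup (Equiv.Perm (Fin m))} {Gp : Type} [Group Gp]
    (gd : GD m H Gp) : orderOf gd.c₀ = 3 := by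
  have : Fact (Nat.Prime 3) := ⟨Nat.prime_three⟩
  refine orderOf_eq_prime ?_ ?_
  · unfold GD.c₀ sg
    rw [← map_pow, ← Pi.mulSingle_pow]
    rw [l2c_three, Pi.mulSingle_one, map_one]
  · intro h
    have h1 : gd.c (sg gd.i₀) * gd.hb 1 ∈ gd.V := by
      have h2 : gd.c (sg gd.i₀) * gd.hb 1 = 1 := by
        rw [map_one, mul_one]
        exact h
      rw [h2]
      exact gd.V.one_mem
    have h3 := congrFun (gd.uniq _ _ h1).1 gd.i₀
    unfold sg at h3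
    rw [Pi.mulSingle_eq_same, Pi.one_apply] at h3
    exact absurd h3 (by decide)

theorem l2c_card {m : ℕ} {H : Subgroup (Equiv.Perm (Fin m))} {Gp : Type} [Group Gp] [Finite Gp]
    (gd : GD m H Gp) {Q : Type} [Group Q] (φ : Gp →* Q) :
    Nat.Coprime 3 (Nat.card (gd.V.map φ)) := by
  have : Fact (Nat.Prime 2) := ⟨Nat.prime_two⟩
  have h1 : IsPGroup 2 (gd.V.map φ) := by
    rintro ⟨x, y, hy, rfl⟩
    refine ⟨1, Subtype.ext ?_⟩
    change φ y ^ (2 ^ 1) = 1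
    rw [← map_pow, pow_one, gd.V2 y hy, map_one]
  have : Finite (gd.V.map φ) := by
    have h2 : ((gd.V.map φ : Subgroup Q) : Set Q).Finite := by
      rw [Subgroup.coe_map]
      exact (Set.toFinite _).image _
    exact h2
  obtain ⟨k, hk⟩ := IsPGroup.iff_card.1 h1
  rw [hk]
  exact Nat.Coprime.pow_right k (by norm_num)

theorem l2_disc {n : ℕ} (G : Subgroup (Equiv.Perm (Fin n)))
    (hG : MulAction.IsPretransitive G (Fin n)) (i : Fin n) (K : IntermediateField ℚ QBar)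
    [FiniteDimensional ℚ K] [NumberField K] {m : ℕ} {H : Subgroup (Equiv.Perm (Fin m))}
    {Gp : Type} [Group Gp] [Finite Gp] (gd : GD m H Gp) (φ : Gp ≃* G) (hind : indG G = 2)
    (hc : ind ((φ gd.c₀ : G) : Equiv.Perm (Fin n)) = 2)
    (hd : ind ((φ gd.d₀ : G) : Equiv.Perm (Fin n)) = 2) (ζ : K)
    (E : Type) [Field E] [NumberField E] [Algebra K E] (Sb : Set (Ideal (𝓞 K)))
    (hSbf : Sb.Finite)
    (hSb : ∀ v : Ideal (𝓞 K), v.IsPrime → v ≠ ⊥ → v ∉ Sb →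
      ((2 : ℕ) : 𝓞 K) ∉ v ∧ ((n.factorial : ℕ) : 𝓞 K) ∉ v) :
    ∃ C : ℕ, 0 < C ∧ ∀ (T T₂ : Finset (Ideal (𝓞 K))) (a : 𝓞 E)
      (d : L1D K QBar gd ζ E Sb (T : Set (Ideal (𝓞 K))) a) (x : 𝓞 d.F),
      AOK d.F (∅ : Set (Ideal (𝓞 K))) (T₂ : Set (Ideal (𝓞 K))) 2 x →
      (∀ v ∈ T₂, v ∉ Sb ∧ v ∉ T) → (∀ v ∈ T, v.IsPrime ∧ v ≠ ⊥ ∧ v ∉ Sb) →
      ∀ O : d.O2 x, Function.Surjective O.ρ →
        relDisc K (fieldOf i (φ.toMonoidHom.comp O.ρ)) ≤
          C * ((∏ v ∈ T, Ideal.absNorm v) * ∏ v ∈ T₂, Ideal.absNorm v) ^ 2 := by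
  classical
  obtain ⟨C, hC0, hC⟩ := disc_bound (K := K) QBar n Sb hSbf
    (fun v hv h0 hS => (hSb v hv h0 hS).2)
  refine ⟨C, hC0, ?_⟩
  intro T T₂ a d x hx hT₂ hT O hsurj
  set ρ' : Gal(QBar/K) →* G := φ.toMonoidHom.comp O.ρ with hρ'
  have hρs : Function.Surjective ρ' := φ.surjective.comp hsurj
  obtain ⟨hfin, hrank, hsmall, horb⟩ := small_field G hG K i ρ' hρs (ft_comp _ O.ρ O.ft)
  have := hfin
  have : NumberField (fieldOf i ρ') := NumberField.of_module_finite K _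
  have hdisc : relDisc K (fieldOf i ρ') =
      Ideal.absNorm (differentIdeal (𝓞 K) (𝓞 (fieldOf i ρ'))) := by
    rw [relDisc, dif_pos (show NumberField (fieldOf i ρ') from inferInstance)]
  have hdj : Disjoint T T₂ := by
    rw [Finset.disjoint_left]
    intro v hv hv2
    exact (hT₂ v hv2).2 hv
  rw [hdisc, ← Finset.prod_union hdj]
  have hTp : ∀ v ∈ T ∪ T₂, v.IsPrime ∧ v ≠ ⊥ := by
    intro v hv
    rcases Finset.mem_union.1 hv with h | h
    · exact ⟨(hT v h).1, (hT v h).2.1⟩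
    · have h1 := hx.2.2 v (Finset.mem_coe.2 h)
      exact ⟨h1.1, h1.2.1⟩
  refine hC _ hfin inferInstance hrank (T ∪ T₂) 2 hTp ?_ ?_
  · intro v hv
    obtain ⟨hvp, hv0⟩ := hTp v hv
    obtain ⟨𝔓, h𝔓, h𝔓v⟩ := exists_over (Ω := QBar) v hvp
    refine ⟨𝔓, h𝔓, h𝔓v, ?_⟩
    rw [horb]
    by_cases hv2 : v ∈ T₂
    · obtain ⟨u, -, hu⟩ := l2_I2 d x (T₂ : Set (Ideal (𝓞 K))) hx O 𝔓 h𝔓
        (by rw [h𝔓v]; exact (hSb v hvp hv0 (hT₂ v hv2).1).1)
        (by rw [h𝔓v]; exact Finset.mem_coe.2 hv2) (by rw [h𝔓v]; exact (hT₂ v hv2).1)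
        (by rw [h𝔓v]; exact fun h => (hT₂ v hv2).2 (Finset.mem_coe.1 h))
      have h1 : ((𝔓.inertia Gal(QBar/K)).map ρ').map G.subtype ≤
          Subgroup.zpowers (((φ u : G) : Equiv.Perm (Fin n)) *
            ((φ gd.d₀ : G) : Equiv.Perm (Fin n)) * ((φ u : G) : Equiv.Perm (Fin n))⁻¹) := by
        rintro _ ⟨_, ⟨τ, hτ, rfl⟩, rfl⟩
        obtain ⟨k, hk⟩ := Subgroup.mem_zpowers_iff.1 (hu τ hτ)
        refine Subgroup.mem_zpowers_iff.2 ⟨k, ?_⟩
        have h2 : ρ' τ = φ (O.ρ τ) := rfl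
        rw [Subgroup.coe_subtype, h2, ← hk, map_zpow, map_mul, map_mul, map_inv]
        push_cast
        rfl
      have h2 := l2c_orbs_anti h1
      rw [orbs_conj] at h2
      unfold ind at hd
      omega
    · have hvT : v ∈ T := by
        rcases Finset.mem_union.1 hv with h | h
        · exact h
        · exact absurd h hv2
      have hvS : v ∉ Sb := (hT v hvT).2.2
      have hv2' : 𝔓.under (𝓞 K) ∉ (T₂ : Set (Ideal (𝓞 K))) := by
        rw [h𝔓v]
        exact fun h => hv2 (Finset.mem_coe.1 h)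
      have h2𝔓 : ((2 : ℕ) : 𝓞 K) ∉ 𝔓.under (𝓞 K) := by
        rw [h𝔓v]
        exact (hSb v hvp hv0 hvS).1
      obtain ⟨u, -, hu⟩ := d.I2 𝔓 h𝔓 (by rw [h𝔓v]; exact Finset.mem_coe.2 hvT)
      have := gd.Vn
      have hNn : (gd.V.map φ.toMonoidHom).Normal :=
        Subgroup.Normal.map gd.Vn _ φ.surjective
      have hord : orderOf (φ gd.c₀) = 3 := by
        rw [MulEquiv.orderOf_eq, l2c_order]
      have h3 := orbs_of_inertia G (gd.V.map φ.toMonoidHom) (φ gd.c₀) (by rw [hc, hind])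
        (by rw [hord]; exact Nat.prime_three) (by rw [hord]; exact l2c_card gd φ.toMonoidHom)
        ((𝔓.inertia Gal(QBar/K)).map ρ') ?_ ((φ u : G) : G ⧸ gd.V.map φ.toMonoidHom) ?_
      · rw [hind] at h3
        exact h3
      · rintro _ ⟨τ, hτ, rfl⟩ hN
        obtain ⟨w, hw, hwe⟩ := hN
        have h4 : O.ρ τ = w := φ.injective hwe.symm
        have h5 := l2_I0 d x (T₂ : Set (Ideal (𝓞 K))) hx O 𝔓 h𝔓 (by rw [h𝔓v]; exact hv0) h2𝔓
          hv2' τ hτ (by rw [h4]; exact hw)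
        change φ (O.ρ τ) = 1
        rw [h5, map_one]
      · rintro _ ⟨τ, hτ, rfl⟩
        obtain ⟨w, hw, hwe⟩ := l2_mod d x O τ
        obtain ⟨k, hk⟩ := Subgroup.mem_zpowers_iff.1 (hu τ hτ)
        refine Subgroup.mem_zpowers_iff.2 ⟨k, ?_⟩
        have h6 : ((ρ' τ : G) : G ⧸ gd.V.map φ.toMonoidHom) =
            ((φ (d.R τ) : G) : G ⧸ gd.V.map φ.toMonoidHom) := by
          have h7 : ρ' τ = φ w * φ (d.R τ) := by
            change φ (O.ρ τ) = _
            rw [hwe, map_mul]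
          have h8 : ((φ w : G) : G ⧸ gd.V.map φ.toMonoidHom) = 1 :=
            (QuotientGroup.eq_one_iff _).2 ⟨w, hw, rfl⟩
          rw [h7, QuotientGroup.mk_mul, h8, one_mul]
        have h9 : d.R τ = (u * gd.c₀ * u⁻¹) ^ k := hk.symm
        rw [h6, h9, map_zpow, map_mul, map_mul, map_inv, QuotientGroup.mk_zpow,
          QuotientGroup.mk_mul, QuotientGroup.mk_mul, QuotientGroup.mk_inv]
  · intro v hvp hv0 hvS hvT
    obtain ⟨𝔓, h𝔓, h𝔓v⟩ := exists_over (Ω := QBar) v hvp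
    refine ⟨𝔓, h𝔓, h𝔓v, ?_⟩
    rw [horb]
    have hv1 : v ∉ T := fun h => hvT (Finset.mem_union_left _ h)
    have hv2 : v ∉ T₂ := fun h => hvT (Finset.mem_union_right _ h)
    have h1 : (𝔓.inertia Gal(QBar/K)).map ρ' = ⊥ := by
      rw [eq_bot_iff]
      rintro _ ⟨τ, hτ, rfl⟩
      rw [Subgroup.mem_bot]
      have hR : res d.M τ = 1 := d.I1 𝔓 h𝔓 (by rw [h𝔓v]; exact hv0) (by rw [h𝔓v]; exact hvS)
        (by rw [h𝔓v]; exact fun h => hv1 (Finset.mem_coe.1 h)) τ hτ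
      obtain ⟨w, hw, hwe⟩ := l2_mod d x O τ
      have hR' : d.R τ = 1 := by
        change d.e (res d.M τ) = 1
        rw [hR, map_one]
      rw [hR', mul_one] at hwe
      have h5 := l2_I0 d x (T₂ : Set (Ideal (𝓞 K))) hx O 𝔓 h𝔓 (by rw [h𝔓v]; exact hv0)
        (by rw [h𝔓v]; exact (hSb v hvp hv0 hvS).1)
        (by rw [h𝔓v]; exact fun h => hv2 (Finset.mem_coe.1 h)) τ hτ (by rw [hwe]; exact hw)
      change φ (O.ρ τ) = 1
      rw [h5, map_one]
    rw [h1, Subgroup.map_bot, orbs_bot]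

end H36.QA
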