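import Pool.Agent.H36.QA.KDefs
import Pool.Agent.H36.QA.GDef

/-!
# The first and the second layer: definitions (complete)

`L1D`: the output of the first layer (the field `M` with group `C₃ ≀ H`, the cube root `θ`).
-/

open scoped NumberField Pointwise
open H38.ML

noncomputable section

namespace H36.QA

variable {K Ω : Type} [Field K] [NumberField K] [Field Ω] [Algebra K Ω] [IsAlgClosure K Ω]
  {m : ℕ} {H : Subgroup (Equiv.Perm (Fin m))} {Gp : Type} [Group Gp]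

section first

variable (gd : GD m H Gp) {M₀ : Type} [Field M₀] [Algebra K M₀] (e₀ : Gal(M₀/K) →* H)

/-- The stabilizer of the block `i₀`. -/
def D0 : Subgroup Gal(M₀/K) where
  carrier := {g | (e₀ g : Equiv.Perm (Fin m)) gd.i₀ = gd.i₀}
  mul_mem' := by
    intro a b ha hb
    simp only [Set.mem_setOf_eq] at *
    rw [map_mul, Subgroup.coe_mul, Equiv.Perm.mul_apply, hb, ha]
  one_mem' := by simp
  inv_mem' := by
    intro a ha
    simp only [Set.mem_setOf_eq] at *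
    rw [map_inv, Subgroup.coe_inv, Equiv.Perm.inv_eq_iff_eq, ha]

theorem mem_D0 (g : Gal(M₀/K)) :
    g ∈ D0 gd e₀ ↔ (e₀ g : Equiv.Perm (Fin m)) gd.i₀ = gd.i₀ := Iff.rfl

/-- The field `E`, the fixed field of the stabilizer of the block `i₀`. -/
abbrev E0 : IntermediateField K M₀ := IntermediateField.fixedField (D0 gd e₀)

/-- The block of a coset. -/
def blk : Gal(M₀/K) ⧸ D0 gd e₀ → Fin m := fun x =>
  Quotient.liftOn' x (fun g => (e₀ g : Equiv.Perm (Fin m)) gd.i₀) (by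
    intro g h hgh
    have h1 : g⁻¹ * h ∈ D0 gd e₀ := QuotientGroup.leftRel_apply.mp hgh
    have h3 : h = g * (g⁻¹ * h) := by group
    change (e₀ g : Equiv.Perm (Fin m)) gd.i₀ = (e₀ h : Equiv.Perm (Fin m)) gd.i₀
    rw [h3, map_mul, Subgroup.coe_mul, Equiv.Perm.mul_apply, (mem_D0 gd e₀ _).mp h1])

theorem blk_mk (g : Gal(M₀/K)) :
    blk gd e₀ (g : Gal(M₀/K) ⧸ D0 gd e₀) = (e₀ g : Equiv.Perm (Fin m)) gd.i₀ := rfl

/-- The values of the first layer. -/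
def a1 (x : Gal(M₀/K) ⧸ D0 gd e₀) : Fin m → Multiplicative (ZMod 3) := sg (blk gd e₀ x)

end first

/-- The output of the first layer: the extension `M/K` with group `C₃ ≀ H` attached to `a ∈ 𝓞 E`. -/
structure L1D (K Ω : Type) [Field K] [NumberField K] [Field Ω] [Algebra K Ω] [IsAlgClosure K Ω]
    {m : ℕ} {H : Subgroup (Equiv.Perm (Fin m))} {Gp : Type} [Group Gp] (gd : GD m H Gp) (ζ : K)
    (E : Type) [Field E] [NumberField E] [Algebra K E] (Sb : Set (Ideal (𝓞 K)))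
    (T : Set (Ideal (𝓞 K))) (a : 𝓞 E) where
  M : IntermediateField K Ω
  [fin : FiniteDimensional K M]
  [gal : IsGalois K M]
  e : Gal(M/K) →* Gp
  einj : Function.Injective e
  erange : ∀ u, (∃ g, e g = u) ↔ gd.InU u
  I1 : ∀ 𝔓 : Ideal (𝓞 Ω), 𝔓.IsPrime → 𝔓.under (𝓞 K) ≠ ⊥ → 𝔓.under (𝓞 K) ∉ Sb →
    𝔓.under (𝓞 K) ∉ T → ∀ τ ∈ 𝔓.inertia Gal(Ω/K), res M τ = 1
  I2 : ∀ 𝔓 : Ideal (𝓞 Ω), 𝔓.IsPrime → 𝔓.under (𝓞 K) ∈ T →
    ∃ u, gd.InU u ∧ ∀ τ ∈ 𝔓.inertia Gal(Ω/K), e (res M τ) ∈ Subgroup.zpowers (u * gd.c₀ * u⁻¹)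
  ι : E →ₐ[K] M
  hι : ∀ y : M, (∀ g : Gal(M/K), gd.Bk (e g) → g y = y) ↔ ∃ x, ι x = y
  θ : M
  hθ : θ ^ 3 = ι (a : E)
  hθ0 : ∀ g : Gal(M/K), e g * gd.d₀ * (e g)⁻¹ = gd.d₀ → g θ = θ
  hθ1 : ∀ g : Gal(M/K), e g = gd.c₀ → g θ = algebraMap K M ζ * θ

namespace L1D

variable {gd : GD m H Gp} {ζ : K} {E : Type} [Field E] [NumberField E] [Algebra K E]
  {Sb : Set (Ideal (𝓞 K))} {T : Set (Ideal (𝓞 K))} {a : 𝓞 E}

attribute [instance] L1D.fin L1D.gal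

instance (d : L1D K Ω gd ζ E Sb T a) : NumberField d.M := NumberField.of_module_finite K d.M

/-- The homomorphism from the absolute Galois group. -/
def R (d : L1D K Ω gd ζ E Sb T a) : Gal(Ω/K) →* Gp := d.e.comp (res d.M)

/-- The stabilizer of `d₀`. -/
def D (d : L1D K Ω gd ζ E Sb T a) : Subgroup Gal(d.M/K) :=
  (Subgroup.centralizer {gd.d₀}).comap d.e

theorem mem_D (d : L1D K Ω gd ζ E Sb T a) (g : Gal(d.M/K)) :
    g ∈ d.D ↔ d.e g * gd.d₀ * (d.e g)⁻¹ = gd.d₀ := by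
  rw [D, Subgroup.mem_comap, Subgroup.mem_centralizer_singleton_iff, mul_inv_eq_iff_eq_mul]

/-- The field `F`, of degree `3 m` over `K`. -/
abbrev F (d : L1D K Ω gd ζ E Sb T a) : IntermediateField K d.M :=
  IntermediateField.fixedField d.D

/-- The conjugates of `d₀`, indexed by the cosets. -/
def a2 (d : L1D K Ω gd ζ E Sb T a) : Gal(d.M/K) ⧸ d.D → gd.V := fun x =>
  Quotient.liftOn' x
    (fun g => ⟨d.e g * gd.d₀ * (d.e g)⁻¹, gd.Vn.conj_mem _ gd.dV _⟩) (by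
    intro g h hgh
    have h1 : g⁻¹ * h ∈ d.D := QuotientGroup.leftRel_apply.mp hgh
    rw [mem_D] at h1
    apply Subtype.ext
    change d.e g * gd.d₀ * (d.e g)⁻¹ = d.e h * gd.d₀ * (d.e h)⁻¹
    have h2 : d.e g * (d.e (g⁻¹ * h) * gd.d₀ * (d.e (g⁻¹ * h))⁻¹) * (d.e g)⁻¹ =
        d.e h * gd.d₀ * (d.e h)⁻¹ := by
      simp only [map_mul, map_inv]
      group
    rw [← h2, h1])

theorem a2_mk (d : L1D K Ω gd ζ E Sb T a) (g : Gal(d.M/K)) :
    (d.a2 (g : Gal(d.M/K) ⧸ d.D) : Gp) = d.e g * gd.d₀ * (d.e g)⁻¹ := rfl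

/-- The output of the Kummer construction of the second layer. -/
abbrev O2 (d : L1D K Ω gd ζ E Sb T a) (x : 𝓞 d.F) : Type :=
  KumOut d.M d.e gd.V.subtype 2 (-1 : K) d.a2 (fun y => ((al d.D x y : 𝓞 d.M) : d.M))

end L1D

end H36.QA
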