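import Pool.Agent.H36.QA.CR
import Pool.Agent.H36.QA.Cov

/-!
# [H36 QA LL] Lattice points in balanced boxes, uniformly in the field (two theorems, 100-170 lines)

Apply `cr_upper`, `cr_lower` to `V = mixedSpace F` and the data of `ideal_lattice`, with the number
`R ≥ 0`, `R^n = C₀ (dd F)^A₀ N(𝔞)` of `cov_radius` (`pow_le_pow_left`: `‖·‖ ^ n ≤ R ^ n → ‖·‖ ≤ R` for
`n > 0`).  If `s^n ≥ 16^n C₀ (dd F)^A₀ N(𝔞)` then `R ≤ s / 16`.

`ll_upper`: `S = PD 0 s` (all coordinates of absolute value `≤ s`), `S'' = PD 0 (2 s)`, volume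
`π^(n/2) (2s)^n` (there are `n / 2` places, `n` even: `NumberField.card_eq...`; or use
`∏ w, (2 s)^2` and `prod_sq_eq_norm`-type counting: `∑_w mult w = n`).  The points are the images of
`P` under `x ↦ mixedEmbedding x` (injective); the shifted lattice is `v + L`.
`volume D = N(𝔞) 2^(-n/2) √(dd F)`.
`ll_lower`: `S = {x | ∀ w, s/2 < ‖x.2 w‖ ≤ s}`, `S' = PD c (s/8)` where `c` has all complex coordinates
equal to `3 s / 4`.  The set of the lattice points in `S` is finite by `ll_upper`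
(a set all of whose finite subsets have bounded cardinality is finite).
`w (x : F) = ‖(mixedEmbedding F x).2 w‖` for complex `w` (all places are complex).
-/

open scoped NumberField nonZeroDivisors
open MeasureTheory NumberField

noncomputable section

namespace H36.QA

/-- powers and products over the places -/
theorem ll_prod (n : ℕ) (F : Type) [Field F] [NumberField F] (hF : TC F n) (c : ℝ) :
    ∏ _w : InfinitePlace F, c ^ 2 = c ^ n := by
  have := hF.1
  have h2 : ∀ w : InfinitePlace F, w.mult = 2 := fun w =>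
    InfinitePlace.mult_isComplex ⟨w, IsTotallyComplex.isComplex w⟩
  have h1 : ∏ w : InfinitePlace F, c ^ 2 = ∏ w : InfinitePlace F, c ^ w.mult := by
    apply Finset.prod_congr rfl
    intro w _
    rw [h2 w]
  rw [h1, Finset.prod_pow_eq_pow_sum, InfinitePlace.sum_mult_eq, hF.2]

open Classical in
theorem ll_R (n : ℕ) (hn : 0 < n) (F : Type) [Field F] [NumberField F] (𝔞 : Ideal (𝓞 F))
    (M s : ℝ) (hs : 0 < s) (h16 : 16 ^ n * M ≤ s ^ n)
    (hcov : ∀ x : mixedEmbedding.mixedSpace F, ∃ α ∈ 𝔞, ‖x - mixedEmbedding F (α : F)‖ ^ n ≤ M) :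
    ∀ x : mixedEmbedding.mixedSpace F, ∃ α ∈ 𝔞, ‖x - mixedEmbedding F (α : F)‖ ≤ s / 16 := by
  intro x
  obtain ⟨α, hα, hx⟩ := hcov x
  refine ⟨α, hα, ?_⟩
  have h1 : (16 * ‖x - mixedEmbedding F (α : F)‖) ^ n ≤ s ^ n := by
    rw [mul_pow]
    refine le_trans ?_ h16
    gcongr
  have h2 := (pow_le_pow_iff_left₀ (by positivity) hs.le (by omega)).1 h1
  linarith

theorem ll_place (n : ℕ) (F : Type) [Field F] [NumberField F] (hF : TC F n)
    (x : 𝓞 F) (w : {w : InfinitePlace F // w.IsComplex}) :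
    ‖(mixedEmbedding F (x : F)).2 w‖ = w.1 (x : F) := by
  rw [← mixedEmbedding.normAtPlace_apply_of_isComplex w.2, mixedEmbedding.normAtPlace_apply]

theorem ll_pi (n : ℕ) : (1 : ℝ) ≤ (2 * Real.pi) ^ (n / 2) ∧ (2 * Real.pi) ^ (n / 2) ≤ 8 ^ n := by
  have h1 := Real.pi_gt_three
  have h2 := Real.pi_lt_four
  constructor
  · apply one_le_pow₀
    linarith
  · calc (2 * Real.pi) ^ (n / 2) ≤ 8 ^ (n / 2) := by
          gcongr
          linarith
      _ ≤ 8 ^ n := pow_le_pow_right₀ (by norm_num) (Nat.div_le_self n 2)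

theorem ll_upper (n : ℕ) (hn : 0 < n) : ∃ C : ℝ, 1 ≤ C ∧ ∃ A : ℕ,
    ∀ (F : Type) [Field F] [NumberField F], TC F n → ∀ 𝔞 : Ideal (𝓞 F), 𝔞 ≠ ⊥ →
      ∀ (v : 𝓞 F) (s : ℝ), 0 < s → C * dd F ^ A * Ideal.absNorm 𝔞 ≤ s ^ n →
        ∀ P : Finset (𝓞 F), (∀ x ∈ P, x - v ∈ 𝔞 ∧ ∀ w : InfinitePlace F, w (x : F) ≤ s) →
          (P.card : ℝ) * (Ideal.absNorm 𝔞 * Real.sqrt (dd F)) ≤ C * s ^ n := by
  classical
  obtain ⟨C₀, hC₀, A₀, hcov⟩ := cov_radius n
  have h16 : (1 : ℝ) ≤ 16 ^ n := one_le_pow₀ (by norm_num)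
  refine ⟨16 ^ n * C₀, one_le_mul_of_one_le_of_one_le h16 hC₀, A₀, ?_⟩
  intro F _ _ hF 𝔞 h𝔞 v s hs hsn P hP
  have hTC := hF.1
  obtain ⟨L, D, hLc, hD, hDvol, hL, -⟩ := ideal_lattice n F hF 𝔞 h𝔞
  have hR := ll_R n hn F 𝔞 (C₀ * dd F ^ A₀ * Ideal.absNorm 𝔞) s hs (by
    refine le_trans (le_of_eq ?_) hsn
    ring) (hcov F hF 𝔞 h𝔞)
  have hR' : ∀ x : mixedEmbedding.mixedSpace F, ∃ l ∈ L, ‖x - l‖ ≤ s / 16 := by
    intro x
    obtain ⟨α, hα, hx⟩ := hR x
    exact ⟨mixedEmbedding F (α : F), (hL _).2 ⟨α, hα, rfl⟩, hx⟩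
  obtain ⟨hmeas, hvol⟩ := polydisc_volume n F hF 0 (fun _ => 2 * s) (fun _ => by positivity)
  have hinj : Function.Injective (fun x : 𝓞 F => mixedEmbedding F (x : F)) := by
    intro x y hxy
    exact RingOfIntegers.ext (mixedEmbedding_injective F hxy)
  have key := cr_upper (volume : Measure (mixedEmbedding.mixedSpace F)) L D hD (s / 16) hR'
    (mixedEmbedding F (v : F)) {x | ∀ w : {w : InfinitePlace F // w.IsComplex}, ‖x.2 w‖ ≤ s}
    (PD F 0 (fun _ => 2 * s)) hmeas (by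
      intro x hx y hy w
      have h1 : ‖y.2 w‖ ≤ s / 16 := (norm_le_iff_tc n F hF y _ (by positivity)).1 hy w
      have h2 : ‖x.2 w‖ ≤ s := hx w
      have h3 : ‖(x + y).2 w - (0 : mixedEmbedding.mixedSpace F).2 w‖ ≤ ‖x.2 w‖ + ‖y.2 w‖ := by
        have : (x + y).2 w - (0 : mixedEmbedding.mixedSpace F).2 w = x.2 w + y.2 w := by
          simp
        rw [this]
        exact norm_add_le _ _
      linarith) (P.image (fun x : 𝓞 F => mixedEmbedding F (x : F))) (by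
      intro x hx
      rw [Finset.mem_image] at hx
      obtain ⟨z, hz, rfl⟩ := hx
      refine ⟨(hL _).2 ⟨z - v, (hP z hz).1, ?_⟩, fun w => ?_⟩
      · rw [← map_sub]
        simp
      · rw [ll_place n F hF]
        exact (hP z hz).2 w.1)
  rw [Finset.card_image_of_injective _ hinj, hDvol, hvol, ll_prod n F hF,
    ← ENNReal.ofReal_natCast, ← ENNReal.ofReal_mul (by positivity),
    ENNReal.ofReal_le_ofReal_iff (by positivity)] at key
  have h2 : (2 : ℝ) ^ (n / 2) * (1 / 2) ^ (n / 2) = 1 := by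
    rw [← mul_pow]
    norm_num
  calc (P.card : ℝ) * (Ideal.absNorm 𝔞 * Real.sqrt (dd F))
      = 2 ^ (n / 2) * ((P.card : ℝ) * (Ideal.absNorm 𝔞 * (1 / 2) ^ (n / 2) *
        Real.sqrt (dd F))) := by
        calc (P.card : ℝ) * (Ideal.absNorm 𝔞 * Real.sqrt (dd F))
            = (2 ^ (n / 2) * (1 / 2) ^ (n / 2)) *
              ((P.card : ℝ) * (Ideal.absNorm 𝔞 * Real.sqrt (dd F))) := by rw [h2, one_mul]
          _ = _ := by ring
    _ ≤ 2 ^ (n / 2) * (Real.pi ^ (n / 2) * (2 * s) ^ n) := by gcongr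
    _ = (2 * Real.pi) ^ (n / 2) * (2 ^ n * s ^ n) := by
        rw [mul_pow, mul_pow]
        ring
    _ ≤ 8 ^ n * (2 ^ n * s ^ n) := by
        gcongr
        exact (ll_pi n).2
    _ = 16 ^ n * 1 * s ^ n := by
        rw [mul_one, ← mul_assoc, ← mul_pow]
        norm_num
    _ ≤ 16 ^ n * C₀ * s ^ n := by gcongr

theorem ll_lower (n : ℕ) (hn : 0 < n) : ∃ c C : ℝ, 0 < c ∧ 1 ≤ C ∧ ∃ A : ℕ,
    ∀ (F : Type) [Field F] [NumberField F], TC F n → ∀ 𝔞 : Ideal (𝓞 F), 𝔞 ≠ ⊥ →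
      ∀ (v : 𝓞 F) (s : ℝ), 0 < s → C * dd F ^ A * Ideal.absNorm 𝔞 ≤ s ^ n →
        ∃ P : Finset (𝓞 F),
          (∀ x ∈ P, x - v ∈ 𝔞 ∧ ∀ w : InfinitePlace F, s / 2 < w (x : F) ∧ w (x : F) ≤ s) ∧
          c * s ^ n ≤ (P.card : ℝ) * (Ideal.absNorm 𝔞 * Real.sqrt (dd F)) := by
  classical
  obtain ⟨C₀, hC₀, A₀, hcov⟩ := cov_radius n
  have h16 : (1 : ℝ) ≤ 16 ^ n := one_le_pow₀ (by norm_num)
  refine ⟨(1 / 8) ^ n, 16 ^ n * C₀, by positivity,
    one_le_mul_of_one_le_of_one_le h16 hC₀, A₀, ?_⟩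
  intro F _ _ hF 𝔞 h𝔞 v s hs hsn
  have hTC := hF.1
  obtain ⟨L, D, hLc, hD, hDvol, hL, -⟩ := ideal_lattice n F hF 𝔞 h𝔞
  have hR := ll_R n hn F 𝔞 (C₀ * dd F ^ A₀ * Ideal.absNorm 𝔞) s hs (by
    refine le_trans (le_of_eq ?_) hsn
    ring) (hcov F hF 𝔞 h𝔞)
  have hR' : ∀ x : mixedEmbedding.mixedSpace F, ∃ l ∈ L, ‖x - l‖ ≤ s / 16 := by
    intro x
    obtain ⟨α, hα, hx⟩ := hR x
    exact ⟨mixedEmbedding F (α : F), (hL _).2 ⟨α, hα, rfl⟩, hx⟩
  set c : mixedEmbedding.mixedSpace F := (fun _ => 0, fun _ => ((3 * s / 4 : ℝ) : ℂ)) with hc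
  obtain ⟨hmeas, hvol⟩ := polydisc_volume n F hF c (fun _ => s / 8) (fun _ => by positivity)
  have hinj : Function.Injective (fun x : 𝓞 F => mixedEmbedding F (x : F)) := by
    intro x y hxy
    exact RingOfIntegers.ext (mixedEmbedding_injective F hxy)
  -- the set of algebraic integers in question
  set T : Set (𝓞 F) := {x | x - v ∈ 𝔞 ∧ ∀ w : InfinitePlace F, s / 2 < w (x : F) ∧ w (x : F) ≤ s}
    with hT
  have hTfin : T.Finite := by
    have h1 := Embeddings.finite_of_norm_le F ℂ s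
    apply Set.Finite.of_finite_image (f := fun x : 𝓞 F => (x : F))
    · apply h1.subset
      rintro _ ⟨x, hx, rfl⟩
      refine ⟨RingOfIntegers.isIntegral_coe x, fun φ => ?_⟩
      have := (hx.2 (InfinitePlace.mk φ)).2
      rwa [InfinitePlace.apply] at this
    · intro x _ y _ hxy
      exact RingOfIntegers.ext hxy
  set S : Set (mixedEmbedding.mixedSpace F) :=
    {x | ∀ w : {w : InfinitePlace F // w.IsComplex}, s / 2 < ‖x.2 w‖ ∧ ‖x.2 w‖ ≤ s} with hS
  have hset : {x : mixedEmbedding.mixedSpace F | x - mixedEmbedding F (v : F) ∈ L ∧ x ∈ S} =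
      (fun x : 𝓞 F => mixedEmbedding F (x : F)) '' T := by
    ext x
    constructor
    · rintro ⟨hx1, hx2⟩
      obtain ⟨α, hα, hαx⟩ := (hL _).1 hx1
      have hx : x = mixedEmbedding F ((v + α : 𝓞 F) : F) := by
        have : x = mixedEmbedding F (v : F) + mixedEmbedding F (α : F) := by
          rw [hαx]
          abel
        rw [this, ← map_add]
        simp
      refine ⟨v + α, ⟨?_, fun w => ?_⟩, hx.symm⟩
      · rw [add_sub_cancel_left]
        exact hα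
      · have h1 := hx2 ⟨w, IsTotallyComplex.isComplex w⟩
        rw [hx, ll_place n F hF] at h1
        exact h1
    · rintro ⟨z, hz, rfl⟩
      refine ⟨(hL _).2 ⟨z - v, hz.1, ?_⟩, fun w => ?_⟩
      · rw [← map_sub]
        simp
      · have := hz.2 w.1
        rw [ll_place n F hF]
        exact this
  have hfin : {x : mixedEmbedding.mixedSpace F | x - mixedEmbedding F (v : F) ∈ L ∧
      x ∈ S}.Finite := by
    rw [hset]
    exact hTfin.image _
  have hDfin : volume D ≠ ⊤ := by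
    rw [hDvol]
    exact ENNReal.ofReal_ne_top
  have key := cr_lower (volume : Measure (mixedEmbedding.mixedSpace F)) L D hD hDfin (s / 16) hR'
    (mixedEmbedding F (v : F)) S (PD F c (fun _ => s / 8)) hmeas (by
      intro x hx y hy w
      have h1 : ‖y.2 w‖ ≤ s / 16 := (norm_le_iff_tc n F hF y _ (by positivity)).1 hy w
      have h2 : ‖x.2 w - c.2 w‖ ≤ s / 8 := hx w
      have h3 : ‖c.2 w‖ = 3 * s / 4 := by
        rw [hc]
        show ‖((3 * s / 4 : ℝ) : ℂ)‖ = 3 * s / 4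
        rw [Complex.norm_real, Real.norm_eq_abs, abs_of_nonneg (by positivity)]
      have h4 : (x + y).2 w = c.2 w + ((x.2 w - c.2 w) + y.2 w) := by
        have : (x + y).2 w = x.2 w + y.2 w := rfl
        rw [this]
        ring
      have h5 : ‖(x.2 w - c.2 w) + y.2 w‖ ≤ s / 8 + s / 16 :=
        (norm_add_le _ _).trans (add_le_add h2 h1)
      rw [h4]
      constructor
      · have h6 : ‖c.2 w‖ - ‖(x.2 w - c.2 w) + y.2 w‖ ≤
            ‖c.2 w + ((x.2 w - c.2 w) + y.2 w)‖ := by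
          have := norm_sub_norm_le (c.2 w) (-((x.2 w - c.2 w) + y.2 w))
          rwa [norm_neg, sub_neg_eq_add] at this
        rw [h3] at h6
        linarith
      · have h6 := norm_add_le (c.2 w) ((x.2 w - c.2 w) + y.2 w)
        rw [h3] at h6
        linarith) hfin
  refine ⟨hTfin.toFinset, fun x hx => ?_, ?_⟩
  · rw [Set.Finite.mem_toFinset] at hx
    exact hx
  · rw [hset, Set.ncard_image_of_injective _ hinj, Set.ncard_eq_toFinset_card _ hTfin, hDvol, hvol,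
      ll_prod n F hF, ← ENNReal.ofReal_natCast, ← ENNReal.ofReal_mul (by positivity),
      ENNReal.ofReal_le_ofReal_iff (by positivity)] at key
    have h2 : (2 : ℝ) ^ (n / 2) * (1 / 2) ^ (n / 2) = 1 := by
      rw [← mul_pow]
      norm_num
    calc (1 / 8) ^ n * s ^ n = 1 * (s / 8) ^ n := by
          rw [one_mul, ← mul_pow]
          congr 1
          ring
      _ ≤ (2 * Real.pi) ^ (n / 2) * (s / 8) ^ n := by
          gcongr
          exact (ll_pi n).1
      _ = 2 ^ (n / 2) * (Real.pi ^ (n / 2) * (s / 8) ^ n) := by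
          rw [mul_pow]
          ring
      _ ≤ 2 ^ (n / 2) * ((hTfin.toFinset.card : ℝ) * (Ideal.absNorm 𝔞 * (1 / 2) ^ (n / 2) *
            Real.sqrt (dd F))) := by gcongr
      _ = (2 ^ (n / 2) * (1 / 2) ^ (n / 2)) *
            ((hTfin.toFinset.card : ℝ) * (Ideal.absNorm 𝔞 * Real.sqrt (dd F))) := by ring
      _ = (hTfin.toFinset.card : ℝ) * (Ideal.absNorm 𝔞 * Real.sqrt (dd F)) := by
          rw [h2, one_mul]

end H36.QA
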