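import Pool.Agent.H36.QA.FDefs
import Pool.Agent.H36.QA.Ktu
import Pool.Agent.H36.QA.Unr
import Pool.Agent.H38.ML.KumInj

/-!
# [H36 QA MULA] Equal homomorphisms: the ideals and the values (two theorems, 100-160 lines)

`mul_a`: it is enough that `ordAt V x ≡ ordAt V x'` mod 2 for all primes `V ≠ ⊥` of `F` (then `(x x')`
is the square of `∏ V^(..)`; e.g. via `normalizedFactors`).  By `kum_inj` (q = 2):
`∏_z a2 z ^ ordAt Q (al x z) = ∏_z a2 z ^ ordAt Q (al x' z)` for all primes `Q` of `M`.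
Let `v = V.under (𝓞 K)`.  If `v ∉ T₂` and `v ∉ T₂'` both orders are even.  If `v ∈ T₂` (or
symmetrically `v ∈ T₂'`): let `V₀` be its prime and `Q` a prime of `M` above `V₀`; `ktu_exists`
(`l1d_unr`): exactly one `z` has odd order for `x`, and it is the coset `1` because
`ordAt Q (al x 1) = ordAt V₀ x` (`ord_conj`, `g = 1`).  So the left side is `a2 1 = d₀ ≠ 1` (`V2`).  Hence the
right side is not `1`, so not all orders for `x'` at `Q` are even, `v ∈ T₂'` (`ktu_zero`), and there is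
exactly one `z'` with odd order for `x'`; `a2 z' = a2 1`, and `a2` is injective (`mem_D`), so
`z' = 1`: `ordAt Q (al x' 1) = ordAt V₀ x'` is odd, so `V₀' = V₀`.
`mul_b`: `gd.chi` gives `χ : V →* ℤˣ`, composed with `ℤˣ → Kˣ`.  For a coset `z = g D`,
`e g = c t * hb h` (`erange`), `χ (a2 z) = -1` iff `h i₀ = i₀` and `t i₀ ≠ 1` iff `z = g₁ D` or `z = g₂ D`
(`t i₀ ∈ {1, ofAdd 1, ofAdd 2}`, `form_uniq`, `stab`); the two cosets are different.  Let `m z = 1` for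
these two and `m z = 0` otherwise.  By `kum_inj_act` for `O` and `O'` (the values `∏ a2 z ^ κ σ z` agree
because `O.ρ σ = O'.ρ σ`, `res M σ = 1` and `j` is injective) `w = ∏ β z ^ m z * ∏ β' z ^ m z` is fixed by
all `σ ∈ M.fixingSubgroup`, so `w ∈ M`; `w² = ∏ (α z α' z)^(m z) = g₁ (x x') * g₂ (x x')`.
-/

open scoped NumberField Pointwise
open H38.ML H38.TD

noncomputable section

namespace H36.QA

variable {K Ω : Type} [Field K] [NumberField K] [Field Ω] [Algebra K Ω] [IsAlgClosure K Ω]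
  {m : ℕ} {H : Subgroup (Equiv.Perm (Fin m))} {Gp : Type} [Group Gp] {gd : GD m H Gp} {ζ : K}
  {E : Type} [Field E] [NumberField E] [Algebra K E] {Sb T : Set (Ideal (𝓞 K))} {a : 𝓞 E}

open UniqueFactorizationMonoid in
open Classical in
/-- an ideal with even exponents is a square -/
theorem mula_sq {F : Type} [Field F] [NumberField F] (I : Ideal (𝓞 F)) (hI : I ≠ ⊥)
    (h : ∀ V : Ideal (𝓞 F), V.IsPrime → V ≠ ⊥ →
      2 ∣ Multiset.count V (normalizedFactors I)) : ∃ 𝔟 : Ideal (𝓞 F), I = 𝔟 ^ 2 := by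
  obtain ⟨t, ht⟩ := Multiset.exists_smul_of_dvd_count (normalizedFactors I) (k := 2)
    fun V hV => by
      have h3 := prime_of_normalized_factor V hV
      exact h V (Ideal.isPrime_of_prime h3) h3.ne_zero
  refine ⟨t.prod, ?_⟩
  rw [← Multiset.prod_nsmul, ← ht, Ideal.prod_normalizedFactors_eq_self hI]

theorem mula_inj (d : L1D K Ω gd ζ E Sb T a) (z z' : Gal(d.M/K) ⧸ d.D)
    (h : d.a2 z = d.a2 z') : z = z' := by
  induction z using QuotientGroup.induction_on with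
  | H g =>
    induction z' using QuotientGroup.induction_on with
    | H g' =>
      rw [QuotientGroup.eq, d.mem_D]
      have h1 := congrArg (fun t : gd.V => (t : Gp)) h
      simp only [d.a2_mk] at h1
      rw [map_mul, map_inv]
      have h2 : (d.e g)⁻¹ * d.e g' * gd.d₀ * ((d.e g)⁻¹ * d.e g')⁻¹ =
          (d.e g)⁻¹ * (d.e g' * gd.d₀ * (d.e g')⁻¹) * d.e g := by group
      rw [h2, ← h1]
      group

theorem mula_one (d : L1D K Ω gd ζ E Sb T a) :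
    d.a2 ((1 : Gal(d.M/K)) : Gal(d.M/K) ⧸ d.D) ≠ 1 := by
  intro h
  have h1 := congrArg (fun t : gd.V => (t : Gp)) h
  simp only [d.a2_mk] at h1
  rw [map_one, one_mul, inv_one, mul_one] at h1
  exact gd.d1 h1

/-- the product over the cosets if there is only one odd exponent -/
theorem mula_prod (d : L1D K Ω gd ζ E Sb T a) (n : Gal(d.M/K) ⧸ d.D → ℕ)
    (z₀ : Gal(d.M/K) ⧸ d.D) (h0 : ¬ 2 ∣ n z₀) (h1 : ∀ z, z ≠ z₀ → 2 ∣ n z) :
    ∏ z, d.a2 z ^ n z = d.a2 z₀ := by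
  have hA : ∀ t : gd.V, t ^ 2 = 1 := fun t => Subtype.ext (gd.V2 t.1 t.2)
  rw [Finset.prod_eq_single z₀]
  · have h2 : n z₀ = 2 * (n z₀ / 2) + 1 := by omega
    rw [h2, pow_succ, pow_mul, hA, one_pow, one_mul]
  · intro z _ hz
    obtain ⟨k, hk⟩ := h1 z hz
    rw [hk, pow_mul, hA, one_pow]
  · intro h
    exact absurd (Finset.mem_univ _) h

theorem mula_key [Finite Gp] (d : L1D K Ω gd ζ E Sb T a) (x x' : 𝓞 d.F)
    (T₂ T₂' : Set (Ideal (𝓞 K)))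
    (hx : AOK d.F (∅ : Set (Ideal (𝓞 K))) T₂ 2 x)
    (hx' : AOK d.F (∅ : Set (Ideal (𝓞 K))) T₂' 2 x') (O : d.O2 x)
    (O' : d.O2 x') (hρ : ∀ σ, O.ρ σ = O'.ρ σ) (v : Ideal (𝓞 K)) (hv : v ∈ T₂) (hv1 : v ∉ Sb)
    (hv2 : v ∉ T) :
    v ∈ T₂' ∧ ∀ V : Ideal (𝓞 d.F), V.IsPrime → V.under (𝓞 K) = v →
      2 ∣ ordAt V x + ordAt V x' := by
  obtain ⟨hx0, -, hxT⟩ := hx
  obtain ⟨hx0', hxe', hxT'⟩ := hx'
  obtain ⟨hvp, hv0, -, V₀, hV₀, hV₀v, hdeg, hodd, heven⟩ := hxT v hv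
  obtain ⟨Q, hQ, hQV⟩ := ktu_over d.D V₀ hV₀
  have hQK : Q.under (𝓞 K) = v := by
    rw [← Ideal.under_under (A := 𝓞 K) (B := 𝓞 d.F) Q, hQV, hV₀v]
  have hQ0 : Q ≠ ⊥ := by
    rintro rfl
    apply hv0
    rw [← hQK]
    exact Ideal.under_bot _ _
  have hun : Unr K d.M (Q.under (𝓞 K)) := by
    rw [hQK]
    exact l1d_unr d v hvp hv0 hv1 hv2
  have h11 : ((1 : Gal(d.M/K))⁻¹ • Q).under (𝓞 d.F) = V₀ := by
    rw [inv_one, one_smul, hQV]
  obtain ⟨ha1, ha2⟩ := ktu_aux d.D x hx0 2 Q hQ hQ0 hun V₀ 1 h11 (by rw [hQK]; exact hdeg)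
    (by rw [hQK]; exact heven)
  have hA : ∀ t : gd.V, t ^ 2 = 1 := fun t => Subtype.ext (gd.V2 t.1 t.2)
  have hinj := kum_inj d.M d.e gd.V.subtype gd.V.subtype_injective 2 (by norm_num) (-1 : K)
    (IsPrimitiveRoot.neg_one 0 (by norm_num)) hA d.a2 (al d.D x) (al d.D x')
    (al_ne d.D x hx0) (al_ne d.D x' hx0') O O' hρ Q
  rw [mula_prod d (fun z => ordAt Q (al d.D x z)) _ (by rw [ha1]; exact hodd) ha2] at hinj
  have hT' : v ∈ T₂' := by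
    by_contra hnot
    apply mula_one d
    rw [hinj]
    refine Finset.prod_eq_one fun z _ => ?_
    have h1 := ktu_zero d.D x' hx0' 2 Q hQ hQ0 (fun V hV hVv => by
      rw [hQK] at hVv
      refine hxe' V hV ?_ (Set.notMem_empty _) (by rw [hVv]; exact hnot)
      rintro rfl
      apply hv0
      rw [← hVv]
      exact Ideal.under_bot _ _) z
    obtain ⟨k, hk⟩ := h1
    rw [hk, pow_mul, hA, one_pow]
  refine ⟨hT', ?_⟩
  obtain ⟨-, -, -, V₀', hV₀', hV₀v', hdeg', hodd', heven'⟩ := hxT' v hT'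
  obtain ⟨z', hz1, hz2⟩ := ktu_exists d.D x' hx0' 2 Q hQ hQ0 hun V₀' hV₀' (by rw [hQK, hV₀v'])
    (by rw [hQK]; exact hdeg') (by rw [hQK]; exact heven')
  rw [mula_prod d (fun z => ordAt Q (al d.D x' z)) z' (by rw [hz1]; exact hodd') hz2] at hinj
  have hz : z' = ((1 : Gal(d.M/K)) : Gal(d.M/K) ⧸ d.D) := (mula_inj d _ _ hinj).symm
  have hVV : V₀ = V₀' := by
    by_contra hne
    have h1 := heven' V₀ hV₀ hV₀v hne
    rw [hz, al_mk, ord_conj d.D Q hQ0 hun 1 x' hx0', h11] at hz1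
    rw [← hz1] at hodd'
    exact hodd' h1
  intro V hV hVv
  by_cases hVe : V = V₀
  · subst hVe
    rw [← hVV] at hodd'
    omega
  · have h1 := heven V hV hVv hVe
    have h2 := heven' V hV hVv (fun h => hVe (h.trans hVV.symm))
    omega

theorem mul_a [Finite Gp] (d : L1D K Ω gd ζ E Sb T a) (x x' : 𝓞 d.F)
    (T₂ T₂' : Set (Ideal (𝓞 K)))
    (hx : AOK d.F (∅ : Set (Ideal (𝓞 K))) T₂ 2 x)
    (hx' : AOK d.F (∅ : Set (Ideal (𝓞 K))) T₂' 2 x')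
    (h : ∀ v ∈ T₂, v ∉ Sb ∧ v ∉ T) (h' : ∀ v ∈ T₂', v ∉ Sb ∧ v ∉ T) (O : d.O2 x)
    (O' : d.O2 x') (hρ : ∀ σ, O.ρ σ = O'.ρ σ) :
    ∃ 𝔟 : Ideal (𝓞 d.F), Ideal.span {x * x'} = 𝔟 ^ 2 := by
  have hx0 := hx.1
  have hx0' := hx'.1
  have hne : Ideal.span {x * x'} ≠ (⊥ : Ideal (𝓞 d.F)) := by
    rw [Ne, Ideal.span_singleton_eq_bot]
    exact mul_ne_zero hx0 hx0'
  refine mula_sq _ hne fun V hV hV0 => ?_
  have h1 : 2 ∣ ordAt V (x * x') := by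
    rw [ordAt_mul V hx0 hx0']
    by_cases h2 : V.under (𝓞 K) ∈ T₂
    · exact (mula_key d x x' T₂ T₂' hx hx' O O' hρ _ h2 (h _ h2).1 (h _ h2).2).2 V hV rfl
    · by_cases h3 : V.under (𝓞 K) ∈ T₂'
      · rw [add_comm]
        exact (mula_key d x' x T₂' T₂ hx' hx O' O (fun σ => (hρ σ).symm) _ h3 (h' _ h3).1
          (h' _ h3).2).2 V hV rfl
      · exact Nat.dvd_add (hx.2.1 V hV hV0 (Set.notMem_empty _) h2)
          (hx'.2.1 V hV hV0 (Set.notMem_empty _) h3)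
  exact h1

omit [NumberField K] [IsAlgClosure K Ω] [NumberField E] in
theorem mulb_three (s : Multiplicative (ZMod 3)) :
    s ≠ 1 ↔ ((Multiplicative.ofAdd (1 : ZMod 3))⁻¹ * s = 1 ∨
      (Multiplicative.ofAdd (1 : ZMod 3) ^ 2)⁻¹ * s = 1) := by
  revert s
  decide

/-- the condition of equality with a coset of `c₀ ^ k` -/
theorem mulb_coset (d : L1D K Ω gd ζ E Sb T a) (k : ℕ) (g₁ g : Gal(d.M/K))
    (h₁ : d.e g₁ = gd.c₀ ^ k) (t : Fin m → Multiplicative (ZMod 3)) (h : H)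
    (hth : d.e g = gd.c t * gd.hb h) :
    ((g : Gal(d.M/K) ⧸ d.D) = g₁ ↔ (h : Equiv.Perm (Fin m)) gd.i₀ = gd.i₀ ∧
      (Multiplicative.ofAdd (1 : ZMod 3) ^ k)⁻¹ * t gd.i₀ = 1) := by
  rw [eq_comm, QuotientGroup.eq, d.mem_D]
  have h2 : d.e (g₁⁻¹ * g) = gd.c ((sg gd.i₀ ^ k)⁻¹ * t) * gd.hb h := by
    rw [map_mul, map_inv, h₁, hth, map_mul, map_inv, map_pow, mul_assoc]
    rfl
  rw [h2, gd.stab]
  have h3 : ((sg gd.i₀ ^ k)⁻¹ * t) gd.i₀ =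
      (Multiplicative.ofAdd (1 : ZMod 3) ^ k)⁻¹ * t gd.i₀ := by
    rw [Pi.mul_apply, Pi.inv_apply, Pi.pow_apply]
    unfold sg
    rw [Pi.mulSingle_eq_same]
  rw [h3]

theorem mul_b (d : L1D K Ω gd ζ E Sb T a) (x x' : 𝓞 d.F) (hx : x ≠ 0) (hx' : x' ≠ 0)
    (O : d.O2 x) (O' : d.O2 x') (hρ : ∀ σ, O.ρ σ = O'.ρ σ) (g₁ g₂ : Gal(d.M/K))
    (h₁ : d.e g₁ = gd.c₀) (h₂ : d.e g₂ = gd.c₀ ^ 2) :
    ∃ w : d.M, w ^ 2 = g₁ (((x * x' : 𝓞 d.F) : d.F) : d.M) *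
      g₂ (((x * x' : 𝓞 d.F) : d.F) : d.M) := by
  classical
  have hgal : IsGalois K Ω := IsAlgClosure.isGalois K Ω
  obtain ⟨χ, hχ⟩ := gd.chi
  have hkey : ∀ z : Gal(d.M/K) ⧸ d.D, χ (d.a2 z) = -1 ↔
      z = ((g₁ : Gal(d.M/K)) : Gal(d.M/K) ⧸ d.D) ∨ z = ((g₂ : Gal(d.M/K)) : Gal(d.M/K) ⧸ d.D) := by
    intro z
    induction z using QuotientGroup.induction_on with
    | H g =>
      obtain ⟨t, h, hth⟩ := (d.erange (d.e g)).1 ⟨g, rfl⟩
      have hmm : (gd.c t * gd.hb h) * gd.d₀ * (gd.c t * gd.hb h)⁻¹ ∈ gd.V :=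
        gd.Vn.conj_mem _ gd.dV _
      have h3 : d.a2 (g : Gal(d.M/K) ⧸ d.D) = ⟨_, hmm⟩ := by
        apply Subtype.ext
        rw [d.a2_mk, hth]
      rw [h3, hχ t h hmm, mulb_coset d 1 g₁ g (by rw [h₁, pow_one]) t h hth,
        mulb_coset d 2 g₂ g h₂ t h hth, pow_one, mulb_three]
      tauto
  have hne : ((g₁ : Gal(d.M/K)) : Gal(d.M/K) ⧸ d.D) ≠ ((g₂ : Gal(d.M/K)) : Gal(d.M/K) ⧸ d.D) := by
    have h3 : d.e g₁ = gd.c (sg gd.i₀) * gd.hb 1 := by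
      rw [h₁, map_one, mul_one]
      rfl
    intro h4
    have h5 := ((mulb_coset d 2 g₂ g₁ h₂ (sg gd.i₀) 1 h3).1 h4).2
    unfold sg at h5
    rw [Pi.mulSingle_eq_same] at h5
    revert h5
    decide
  obtain ⟨n, hn⟩ : ∃ n : Gal(d.M/K) ⧸ d.D → ℕ, ∀ z, n z = if χ (d.a2 z) = -1 then 1 else 0 :=
    ⟨_, fun _ => rfl⟩
  set χ' : gd.V →* Kˣ := (Units.map (Int.castRingHom K).toMonoidHom).comp χ with hχ'
  have hm : ∀ z, ((χ' (d.a2 z) : Kˣ) : K) = (-1 : K) ^ n z := by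
    intro z
    rw [hn, hχ', MonoidHom.comp_apply]
    rcases Int.units_eq_one_or (χ (d.a2 z)) with h3 | h3
    · rw [h3, if_neg (by decide)]
      simp
    · rw [h3, if_pos rfl]
      simp
  have hprod : ∀ f : Gal(d.M/K) ⧸ d.D → Ω, ∏ z, f z ^ n z = f g₁ * f g₂ := by
    intro f
    have h3 : ∀ z, f z ^ n z = if z ∈ ({((g₁ : Gal(d.M/K)) : Gal(d.M/K) ⧸ d.D),
        ((g₂ : Gal(d.M/K)) : Gal(d.M/K) ⧸ d.D)} : Finset (Gal(d.M/K) ⧸ d.D)) then f z else 1 := by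
      intro z
      rw [hn]
      by_cases h4 : χ (d.a2 z) = -1
      · rw [if_pos h4, if_pos (by simpa using (hkey z).1 h4), pow_one]
      · rw [if_neg h4, if_neg (fun h5 => h4 ((hkey z).2 (by simpa using h5))), pow_zero]
    rw [Finset.prod_congr rfl fun z _ => h3 z, Finset.prod_ite_mem, Finset.univ_inter,
      Finset.prod_pair hne]
  have hres : ∀ σ ∈ d.M.fixingSubgroup, res d.M σ = 1 := by
    intro σ hσ
    have h1 := IntermediateField.restrictNormalHom_ker d.M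
    rw [← h1] at hσ
    exact hσ
  have hκκ : ∀ σ ∈ d.M.fixingSubgroup, ∏ z, d.a2 z ^ O.κ σ z = ∏ z, d.a2 z ^ O'.κ σ z := by
    intro σ hσ
    have h1 := O.hρ σ
    have h2 := O'.hρ σ
    rw [hres σ hσ] at h1 h2
    rw [map_one, mul_one] at h1 h2
    simp only [one_smul] at h1 h2
    apply gd.V.subtype_injective
    rw [← h1, ← h2, hρ σ]
  set y : Ω := ∏ z, O.β z ^ n z with hy
  set y' : Ω := ∏ z, O'.β z ^ n z with hy'
  have hfix : ∀ σ ∈ d.M.fixingSubgroup, σ (y * y') = y * y' := by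
    intro σ hσ
    have h1 := kum_inj_act d.M d.e gd.V.subtype 2 (-1 : K) d.a2 _ O χ' n hm σ (hres σ hσ)
    have h2 := kum_inj_act d.M d.e gd.V.subtype 2 (-1 : K) d.a2 _ O' χ' n hm σ (hres σ hσ)
    rw [← hκκ σ hσ] at h2
    rw [← hy] at h1
    rw [← hy'] at h2
    rw [map_mul, h1, h2]
    set c : Ω := algebraMap K Ω ((χ' (∏ z, d.a2 z ^ O.κ σ z) : Kˣ) : K) with hc
    have hcq : c * c = 1 := by
      rw [hc, ← map_mul, ← Units.val_mul, ← map_mul, ← sq,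
        (Subtype.ext (gd.V2 _ (Subtype.property _)) : (∏ z, d.a2 z ^ O.κ σ z) ^ 2 = 1), map_one,
        Units.val_one, map_one]
    calc c * y * (c * y') = c * c * (y * y') := by ring
      _ = y * y' := by rw [hcq, one_mul]
  have hwM : y * y' ∈ d.M := by
    have h1 : y * y' ∈ IntermediateField.fixedField d.M.fixingSubgroup := by
      rw [IntermediateField.mem_fixedField_iff]
      exact hfix
    rwa [InfiniteGalois.fixedField_fixingSubgroup d.M] at h1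
  refine ⟨⟨y * y', hwM⟩, ?_⟩
  apply Subtype.ext
  have e1 : ∀ (u : 𝓞 d.F) (P : d.O2 u), (∏ z, P.β z ^ n z) ^ 2 =
      (((al d.D u g₁ : 𝓞 d.M) : d.M) : Ω) * (((al d.D u g₂ : 𝓞 d.M) : d.M) : Ω) := by
    intro u P
    rw [hprod, mul_pow, P.hβ, P.hβ]
  have e2 : (y * y') ^ 2 = ((((al d.D x g₁ : 𝓞 d.M) : d.M) : Ω) *
      (((al d.D x g₂ : 𝓞 d.M) : d.M) : Ω)) * ((((al d.D x' g₁ : 𝓞 d.M) : d.M) : Ω) *
      (((al d.D x' g₂ : 𝓞 d.M) : d.M) : Ω)) := by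
    rw [mul_pow, hy, hy', e1 x O, e1 x' O']
  have e3 : ∀ (u : 𝓞 d.F) (g : Gal(d.M/K)), (((al d.D u g : 𝓞 d.M) : d.M)) =
      g ((u : d.F) : d.M) := fun u g => rfl
  rw [e3, e3, e3, e3] at e2
  have e4 : (((x * x' : 𝓞 d.F) : d.F) : d.M) = ((x : d.F) : d.M) * ((x' : d.F) : d.M) := rfl
  rw [e4, map_mul, map_mul]
  push_cast
  rw [e2]
  ring

end H36.QA
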