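import Pool.Agent.H36.QA.LDefs
import Pool.Agent.H36.QA.BDefs
import Pool.Agent.H36.QA.ADefs
import Pool.Agent.H38.TD.NtDefs

/-!
# Arithmetic conditions on the Kummer elements (complete)
-/

open scoped NumberField Pointwise
open H38.ML H38.TD

noncomputable section

namespace H36.QA

/-- Outside `Sb` the order of `a` is divisible by `q` except at exactly one prime `V₀` above every
`v ∈ T`, which has the same norm as `v`. -/
def AOK {K : Type} [Field K] [NumberField K] (E : Type) [Field E] [NumberField E] [Algebra K E]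
    (Sb T : Set (Ideal (𝓞 K))) (q : ℕ) (a : 𝓞 E) : Prop :=
  a ≠ 0 ∧
  (∀ V : Ideal (𝓞 E), V.IsPrime → V ≠ ⊥ → V.under (𝓞 K) ∉ Sb → V.under (𝓞 K) ∉ T →
    q ∣ ordAt V a) ∧
  ∀ v ∈ T, v.IsPrime ∧ v ≠ ⊥ ∧ v ∉ Sb ∧ ∃ V₀ : Ideal (𝓞 E), V₀.IsPrime ∧
    V₀.under (𝓞 K) = v ∧ Ideal.absNorm V₀ = Ideal.absNorm v ∧ ¬ q ∣ ordAt V₀ a ∧
    ∀ V : Ideal (𝓞 E), V.IsPrime → V.under (𝓞 K) = v → V ≠ V₀ → q ∣ ordAt V a

/-- Generators for the places of prime norm of `E` outside `Sb`. -/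
structure BD (K E : Type) [Field K] [NumberField K] [Field E] [NumberField E] [Algebra K E]
    (Sb : Set (Ideal (𝓞 K))) where
  S : Set (Pl E)
  hS : S.Finite
  hSb : ∀ v : Pl E, v ∈ S ↔ v.asIdeal.under (𝓞 K) ∈ Sb
  π : {v : Pl E // v ∉ S ∧ (nv v).Prime} → 𝓞 E
  π0 : ∀ v, π v ≠ 0
  πv : ∀ v, ordAt v.1.asIdeal (π v) = 1
  πw : ∀ v, ∀ V : Ideal (𝓞 E), V.IsPrime → V ≠ ⊥ → V.under (𝓞 K) ∉ Sb → V ≠ v.1.asIdeal →
    ordAt V (π v) = 0

/-- The places of prime norm outside `S`. -/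
abbrev BD.Pt {K E : Type} [Field K] [NumberField K] [Field E] [NumberField E] [Algebra K E]
    {Sb : Set (Ideal (𝓞 K))} (b : BD K E Sb) : Type := {v : Pl E // v ∉ b.S ∧ (nv v).Prime}

/-- The element attached to `s`. -/
def BD.a {K E : Type} [Field K] [NumberField K] [Field E] [NumberField E] [Algebra K E]
    {Sb : Set (Ideal (𝓞 K))} (b : BD K E Sb) (s : b.Pt →₀ ZMod 3) : 𝓞 E :=
  ∏ v ∈ s.support, b.π v ^ (s v).val

open Classical in
/-- The primes of `K` below the support of `s`. -/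
def BD.T {K E : Type} [Field K] [NumberField K] [Field E] [NumberField E] [Algebra K E]
    {Sb : Set (Ideal (𝓞 K))} (b : BD K E Sb) (s : b.Pt →₀ ZMod 3) : Finset (Ideal (𝓞 K)) :=
  s.support.image fun v => v.1.asIdeal.under (𝓞 K)

/-- The conditions on the finite set `Sb` of primes of `K`: it contains the primes above 2 and 3 and
the primes ramified in `M₀`. -/
def SbOK {K M₀ : Type} [Field K] [NumberField K] [Field M₀] [Algebra K M₀]
    (Sb : Set (Ideal (𝓞 K))) : Prop :=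
  ∀ v : Ideal (𝓞 K), v.IsPrime → v ≠ ⊥ → v ∉ Sb →
    Unr K M₀ v ∧ ((2 : ℕ) : 𝓞 K) ∉ v ∧ ((3 : ℕ) : 𝓞 K) ∉ v

end H36.QA
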