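import Pool.Agent.H36.QA.LL
import Pool.Agent.H36.QA.IdCnt

/-!
# [H36 QA PAIRS] Many pairs (two theorems, 80-130 lines)

`pair_norm`: `N(β) = ∏ w(β)²` is in `(2^(-n) s^n, s^n]` (`prod_sq_eq_norm`; `∏_w s² = s^n`, there are
`n / 2` places and `n` is even: `InfinitePlace.card_add_two_mul_card_eq_rank`, or
`InfinitePlace.sum_mult_eq` with all `mult w = 2`), `N(I) = N(β)/N(𝔟)²`, `Z²/4 < N(𝔟)² ≤ Z²` and
`s^n = Z² Y / 4`.

`pairs_many`: for every `𝔟` in the set of `id_count` (`≥ κ Z / 4` of them) `ll_lower` for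
`𝔞 = (m) 𝔟²` (norm `m^n N(𝔟)²`, `Ideal.absNorm_span_natCast`-type lemma), `v = β₀ 𝔟`:
`≥ c₁ s^n / (m^n N(𝔟)² √d) ≥ c₁ Y / (4 m^n √d)` elements `β`; the condition is
`C₁ d^A m^n N(𝔟)² ≤ s^n = Z² Y / 4`, true if `Y ≥ 4 C₁ d^A m^n`.  `β ∈ 𝔟²` because `β₀ 𝔟 ∈ 𝔟²`, so
`span {β} = I * 𝔟²` for an ideal `I`.  The map `(𝔟, β) ↦ (β, I)` is injective: `I 𝔟² = I 𝔟'²` gives
`𝔟 = 𝔟'` (cancellation; in the monoid of ideals `x² = y² → x = y`).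
-/

open scoped NumberField nonZeroDivisors
open NumberField

noncomputable section

namespace H36.QA

/-- The pairs `(β, I)`: `β` in the balanced annulus, `(β) = I 𝔟²`, `Z/2 < N(𝔟) ≤ Z`,
`β ≡ β₀ 𝔟 mod m 𝔟²`. -/
def PairOK (F : Type) [Field F] [NumberField F] (β₀ : Ideal (𝓞 F) → 𝓞 F) (m : ℕ) (Z s : ℝ)
    (p : 𝓞 F × Ideal (𝓞 F)) : Prop :=
  p.1 ≠ 0 ∧ (∀ w : InfinitePlace F, s / 2 < w (p.1 : F) ∧ w (p.1 : F) ≤ s) ∧
    ∃ 𝔟 : Ideal (𝓞 F), Z / 2 < (Ideal.absNorm 𝔟 : ℝ) ∧ (Ideal.absNorm 𝔟 : ℝ) ≤ Z ∧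
      Ideal.span {p.1} = p.2 * 𝔟 ^ 2 ∧ p.1 - β₀ 𝔟 ∈ Ideal.span {((m : ℕ) : 𝓞 F)} * 𝔟 ^ 2

theorem pairs_card (n : ℕ) (F : Type) [Field F] [NumberField F] (hF : TC F n) :
    2 * Fintype.card (InfinitePlace F) = n := by
  have := hF.1
  have h1 := InfinitePlace.sum_mult_eq (K := F)
  have h2 : ∀ w : InfinitePlace F, w.mult = 2 := fun w =>
    InfinitePlace.mult_isComplex ⟨w, IsTotallyComplex.isComplex w⟩
  simp only [h2, Finset.sum_const, smul_eq_mul, Finset.card_univ] at h1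
  rw [hF.2] at h1
  omega

theorem pairs_span_norm (n : ℕ) (F : Type) [Field F] [NumberField F] (hF : TC F n) (x : 𝓞 F)
    (s : ℝ) (hs : 0 < s) (hx : ∀ w : InfinitePlace F, s / 2 < w (x : F) ∧ w (x : F) ≤ s) :
    s ^ n / 2 ^ n < (Ideal.absNorm (Ideal.span {x}) : ℝ) ∧
      (Ideal.absNorm (Ideal.span {x}) : ℝ) ≤ s ^ n := by
  have hcard := pairs_card n F hF
  rw [← prod_sq_eq_norm n F hF x]
  constructor
  · have h1 : s ^ n / 2 ^ n = ∏ _w : InfinitePlace F, (s / 2) ^ 2 := by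
      rw [Finset.prod_const, Finset.card_univ, ← pow_mul, hcard, div_pow]
    rw [h1]
    apply Finset.prod_lt_prod_of_nonempty
    · intro w _
      positivity
    · intro w _
      exact pow_lt_pow_left₀ (hx w).1 (by positivity) two_ne_zero
    · exact Finset.univ_nonempty
  · have h1 : s ^ n = ∏ _w : InfinitePlace F, s ^ 2 := by
      rw [Finset.prod_const, Finset.card_univ, ← pow_mul, hcard]
    rw [h1]
    apply Finset.prod_le_prod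
    · intro w _
      positivity
    · intro w _
      exact pow_le_pow_left₀ (apply_nonneg w _) (hx w).2 2

theorem pair_norm (n : ℕ) (F : Type) [Field F] [NumberField F] (hF : TC F n)
    (β₀ : Ideal (𝓞 F) → 𝓞 F) (m : ℕ) (Z s Y : ℝ) (hZ : 0 < Z) (hs : 0 < s)
    (hsY : 4 * s ^ n = Z ^ 2 * Y) (p : 𝓞 F × Ideal (𝓞 F)) (hp : PairOK F β₀ m Z s p) :
    Y / (4 * 2 ^ n) < (Ideal.absNorm p.2 : ℝ) ∧ (Ideal.absNorm p.2 : ℝ) ≤ Y := by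
  obtain ⟨hp0, hpw, 𝔟, hb1, hb2, hsp, -⟩ := hp
  obtain ⟨h1, h2⟩ := pairs_span_norm n F hF p.1 s hs hpw
  rw [hsp, map_mul, map_pow] at h1 h2
  push_cast at h1 h2
  have hI0 : (0 : ℝ) ≤ Ideal.absNorm p.2 := Nat.cast_nonneg _
  have hb3 : Z ^ 2 / 4 ≤ (Ideal.absNorm 𝔟 : ℝ) ^ 2 := by
    have := pow_le_pow_left₀ (by positivity) hb1.le 2
    calc Z ^ 2 / 4 = (Z / 2) ^ 2 := by ring
      _ ≤ _ := this
  have hb4 : (Ideal.absNorm 𝔟 : ℝ) ^ 2 ≤ Z ^ 2 := pow_le_pow_left₀ (Nat.cast_nonneg _) hb2 2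
  have hZ2 : 0 < Z ^ 2 := by positivity
  constructor
  · have h3 : s ^ n / 2 ^ n < (Ideal.absNorm p.2 : ℝ) * Z ^ 2 :=
      lt_of_lt_of_le h1 (mul_le_mul_of_nonneg_left hb4 hI0)
    have h4 : s ^ n / 2 ^ n = Y / (4 * 2 ^ n) * Z ^ 2 := by
      have h5 : s ^ n = Z ^ 2 * Y / 4 := by linarith
      rw [h5]
      field_simp
    rw [h4] at h3
    exact lt_of_mul_lt_mul_right h3 hZ2.le
  · have h3 : (Ideal.absNorm p.2 : ℝ) * (Z ^ 2 / 4) ≤ s ^ n :=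
      (mul_le_mul_of_nonneg_left hb3 hI0).trans h2
    have h4 : s ^ n = Y * (Z ^ 2 / 4) := by linarith
    rw [h4] at h3
    exact le_of_mul_le_mul_right h3 (by positivity)

theorem pairs_sq_inj {F : Type} [Field F] [NumberField F] {I J : Ideal (𝓞 F)} (hI : I ≠ ⊥)
    (hJ : J ≠ ⊥) (h : I ^ 2 = J ^ 2) : I = J := by
  classical
  have h1 : UniqueFactorizationMonoid.normalizedFactors I =
      UniqueFactorizationMonoid.normalizedFactors J := by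
    have h2 := congrArg UniqueFactorizationMonoid.normalizedFactors h
    rw [UniqueFactorizationMonoid.normalizedFactors_pow,
      UniqueFactorizationMonoid.normalizedFactors_pow] at h2
    ext a
    have h3 := congrArg (Multiset.count a) h2
    rw [Multiset.count_nsmul, Multiset.count_nsmul] at h3
    omega
  rw [← Ideal.prod_normalizedFactors_eq_self hI, h1, Ideal.prod_normalizedFactors_eq_self hJ]

theorem pairs_many (n : ℕ) (hn : 0 < n) : ∃ c C : ℝ, 0 < c ∧ 1 ≤ C ∧ ∃ A : ℕ,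
    ∀ (F : Type) [Field F] [NumberField F], TC F n → ∀ (m : ℕ), 0 < m →
      ∀ β₀ : Ideal (𝓞 F) → 𝓞 F, (∀ 𝔟, 𝔟 ≠ ⊥ → β₀ 𝔟 ∈ 𝔟 ^ 2) →
        ∃ Z₀ : ℝ, ∀ Z : ℝ, Z₀ ≤ Z → ∀ Y s : ℝ, 0 < s → C * dd F ^ A * (m : ℝ) ^ n ≤ Y →
          4 * s ^ n = Z ^ 2 * Y →
          ∃ P : Finset (𝓞 F × Ideal (𝓞 F)), (∀ p ∈ P, PairOK F β₀ m Z s p) ∧
            c * kap F * Z * Y ≤ (P.card : ℝ) * ((m : ℝ) ^ n * Real.sqrt (dd F)) := by
  classical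
  obtain ⟨c, C, hc, hC, A, hll⟩ := ll_lower n hn
  refine ⟨c / 16, 4 * C, by positivity, by linarith, A, ?_⟩
  intro F _ _ hF m hm β₀ hβ
  obtain ⟨Z₀, hZ₀, hid⟩ := id_count F
  refine ⟨Z₀, ?_⟩
  intro Z hZ Y s hs hY hsY
  have hZ1 : 1 ≤ Z := hZ₀.trans hZ
  have hZpos : 0 < Z := by linarith
  obtain ⟨-, T, hT, hTc⟩ := hid Z hZ
  have hdd := dd_pos F
  have hm' : (0 : ℝ) < m := by exact_mod_cast hm
  have hpos1 : 0 < 4 * C * dd F ^ A * (m : ℝ) ^ n := by positivity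
  have hYpos : 0 < Y := lt_of_lt_of_le hpos1 hY
  -- the ideals
  have hnorm : ∀ 𝔟 : Ideal (𝓞 F), ((Ideal.absNorm (Ideal.span {((m : ℕ) : 𝓞 F)} * 𝔟 ^ 2) : ℕ) : ℝ) =
      (m : ℝ) ^ n * (Ideal.absNorm 𝔟 : ℝ) ^ 2 := by
    intro 𝔟
    rw [map_mul, map_pow, Ideal.absNorm_span_natCast]
    have h1 : Module.finrank ℤ (𝓞 F) = n := by
      rw [RingOfIntegers.rank, hF.2]
    rw [h1]
    push_cast
    rfl
  have hex : ∀ 𝔟 : Ideal (𝓞 F), 𝔟 ∈ T → ∃ P : Finset (𝓞 F),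
      (∀ x ∈ P, x - β₀ 𝔟 ∈ Ideal.span {((m : ℕ) : 𝓞 F)} * 𝔟 ^ 2 ∧
        ∀ w : InfinitePlace F, s / 2 < w (x : F) ∧ w (x : F) ≤ s) ∧
      c / 4 * Y ≤ (P.card : ℝ) * ((m : ℝ) ^ n * Real.sqrt (dd F)) := by
    intro 𝔟 hb
    obtain ⟨hb0, hb1, hb2⟩ := hT 𝔟 hb
    have hne : Ideal.span {((m : ℕ) : 𝓞 F)} * 𝔟 ^ 2 ≠ ⊥ := by
      rw [Ne, ← Ideal.zero_eq_bot, mul_eq_zero, not_or]
      refine ⟨?_, pow_ne_zero 2 (by rw [Ideal.zero_eq_bot]; exact hb0)⟩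
      rw [Ideal.zero_eq_bot, Ideal.span_singleton_eq_bot]
      exact_mod_cast hm.ne'
    have hNb2 : (Ideal.absNorm 𝔟 : ℝ) ^ 2 ≤ Z ^ 2 := pow_le_pow_left₀ (Nat.cast_nonneg _) hb2 2
    have hNbpos : 0 < (Ideal.absNorm 𝔟 : ℝ) := lt_trans (by positivity) hb1
    have hcond : C * dd F ^ A * (Ideal.absNorm (Ideal.span {((m : ℕ) : 𝓞 F)} * 𝔟 ^ 2) : ℕ) ≤
        s ^ n := by
      rw [hnorm]
      have e1 : s ^ n = Z ^ 2 * Y / 4 := by linarith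
      rw [e1]
      have e2 : C * dd F ^ A * ((m : ℝ) ^ n * (Ideal.absNorm 𝔟 : ℝ) ^ 2) ≤
          C * dd F ^ A * ((m : ℝ) ^ n * Z ^ 2) := by
        apply mul_le_mul_of_nonneg_left _ (by positivity)
        exact mul_le_mul_of_nonneg_left hNb2 (by positivity)
      refine e2.trans ?_
      have e3 := mul_le_mul_of_nonneg_left hY (by positivity : (0 : ℝ) ≤ Z ^ 2)
      linarith
    obtain ⟨P, hP1, hP2⟩ := hll F hF _ hne (β₀ 𝔟) s hs hcond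
    refine ⟨P, hP1, ?_⟩
    rw [hnorm] at hP2
    have e1 : s ^ n = Z ^ 2 * Y / 4 := by linarith
    rw [e1] at hP2
    have e2 : (P.card : ℝ) * ((m : ℝ) ^ n * (Ideal.absNorm 𝔟 : ℝ) ^ 2 * Real.sqrt (dd F)) ≤
        (P.card : ℝ) * ((m : ℝ) ^ n * Z ^ 2 * Real.sqrt (dd F)) := by
      apply mul_le_mul_of_nonneg_left _ (Nat.cast_nonneg _)
      apply mul_le_mul_of_nonneg_right _ (Real.sqrt_nonneg _)
      exact mul_le_mul_of_nonneg_left hNb2 (by positivity)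
    have e3 := hP2.trans e2
    have e4 : c * (Z ^ 2 * Y / 4) = (c / 4 * Y) * Z ^ 2 := by ring
    have e5 : (P.card : ℝ) * ((m : ℝ) ^ n * Z ^ 2 * Real.sqrt (dd F)) =
        ((P.card : ℝ) * ((m : ℝ) ^ n * Real.sqrt (dd F))) * Z ^ 2 := by ring
    rw [e4, e5] at e3
    exact le_of_mul_le_mul_right e3 (by positivity)
  choose! P hP1 hP2 using hex
  -- the cofactor
  have hw : Nonempty (InfinitePlace F) := inferInstance
  have hx0 : ∀ 𝔟 ∈ T, ∀ x ∈ P 𝔟, x ≠ 0 := by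
    intro 𝔟 hb x hx hx0
    obtain ⟨w⟩ := hw
    have h1 := ((hP1 𝔟 hb x hx).2 w).1
    rw [hx0] at h1
    have h2 : w ((0 : 𝓞 F) : F) = 0 := by
      have h3 : ((0 : 𝓞 F) : F) = 0 := map_zero (algebraMap (𝓞 F) F)
      rw [h3, map_zero]
    rw [h2] at h1
    linarith
  have hcof : ∀ 𝔟 : Ideal (𝓞 F), ∀ x : 𝓞 F, ∃ I : Ideal (𝓞 F),
      𝔟 ∈ T → x ∈ P 𝔟 → Ideal.span {x} = I * 𝔟 ^ 2 := by
    intro 𝔟 x
    by_cases hb : 𝔟 ∈ T
    · by_cases hx : x ∈ P 𝔟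
      · have h1 := (hP1 𝔟 hb x hx).1
        have hle : Ideal.span {((m : ℕ) : 𝓞 F)} * 𝔟 ^ 2 ≤ 𝔟 ^ 2 := Ideal.mul_le_right
        have h2 : x - β₀ 𝔟 ∈ 𝔟 ^ 2 := hle h1
        have h3 : x ∈ 𝔟 ^ 2 := by
          have h4 := Ideal.add_mem _ h2 (hβ 𝔟 (hT 𝔟 hb).1)
          rwa [sub_add_cancel] at h4
        have h5 : 𝔟 ^ 2 ∣ Ideal.span {x} := Ideal.dvd_span_singleton.2 h3
        obtain ⟨I, hI⟩ := h5
        exact ⟨I, fun _ _ => by rw [hI, mul_comm]⟩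
      · exact ⟨⊥, fun _ h => absurd h hx⟩
    · exact ⟨⊥, fun h => absurd h hb⟩
  choose cof hcof using hcof
  refine ⟨(T.sigma fun 𝔟 => P 𝔟).image fun z => (z.2, cof z.1 z.2), ?_, ?_⟩
  · intro p hp
    rw [Finset.mem_image] at hp
    obtain ⟨⟨𝔟, x⟩, hz, rfl⟩ := hp
    rw [Finset.mem_sigma] at hz
    obtain ⟨hb, hx⟩ := hz
    simp only at hb hx
    exact ⟨hx0 𝔟 hb x hx, (hP1 𝔟 hb x hx).2, 𝔟, (hT 𝔟 hb).2.1, (hT 𝔟 hb).2.2,
      hcof 𝔟 x hb hx, (hP1 𝔟 hb x hx).1⟩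
  · rw [Finset.card_image_of_injOn, Finset.card_sigma]
    · push_cast
      rw [Finset.sum_mul]
      have h1 : ∑ 𝔟 ∈ T, c / 4 * Y ≤
          ∑ 𝔟 ∈ T, ((P 𝔟).card : ℝ) * ((m : ℝ) ^ n * Real.sqrt (dd F)) :=
        Finset.sum_le_sum fun 𝔟 hb => hP2 𝔟 hb
      refine le_trans ?_ h1
      rw [Finset.sum_const, nsmul_eq_mul]
      have h2 := mul_le_mul_of_nonneg_right hTc (by positivity : (0 : ℝ) ≤ c / 4 * Y)
      refine le_trans (le_of_eq ?_) h2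
      ring
    · rintro ⟨𝔟, x⟩ hz ⟨𝔟', x'⟩ hz' heq
      rw [Finset.mem_coe, Finset.mem_sigma] at hz hz'
      simp only [Prod.mk.injEq] at hz hz' heq
      obtain ⟨h1, h2⟩ := heq
      subst h1
      have e1 := hcof 𝔟 x hz.1 hz.2
      have e2 := hcof 𝔟' x hz'.1 hz'.2
      have hI0 : cof 𝔟 x ≠ 0 := by
        intro h0
        rw [h0, zero_mul, Ideal.zero_eq_bot, Ideal.span_singleton_eq_bot] at e1
        exact hx0 𝔟 hz.1 x hz.2 e1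
      rw [e1, ← h2] at e2
      have e3 := mul_left_cancel₀ hI0 e2
      have e4 := pairs_sq_inj (hT 𝔟 hz.1).1 (hT 𝔟' hz'.1).1 e3
      subst e4
      rfl

end H36.QA
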