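import Pool.Agent.H36.QA.BDefs

/-!
# [H36 QA RANK] Rankin's trick (one theorem, 50-90 lines, only Mathlib and BDefs)

`η = 1 / log z`.  For `T ∈ Ts`: `1 ≤ (∏ N v / z^b)^η`, `z^(-bη) = e^(-b)`.  So the sum is at most
`e^(-b) ∑_{T ⊆ P} ∏_{v ∈ T} y N(v)^η / N v = e^(-b) ∏_{v ∈ P} (1 + y N(v)^η / N v)`
(`Finset.prod_one_add` / `Finset.prod_add`: sum over the powerset).
`N(v)^η = exp(η log N v)` with `0 ≤ η log N v ≤ 1`, so `N(v)^η ≤ 1 + 2 η log N v`
(`exp t ≤ 1 + 2 t` for `0 ≤ t ≤ 1`, convexity or `Real.exp_bound`).  Hence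
`1 + y N(v)^η / N v ≤ (1 + y / N v) (1 + 2 y η log N v / N v) ≤ (1 + y / N v) exp(2 y η log N v / N v)`
and `∑_{v ∈ P} 2 y η log N v / N v ≤ 2 y C₀` (`h.lg`).  `C = exp (2 y C₀)`.
-/

noncomputable section

namespace H36.QA

theorem rankin {Pt : Type} {N : Pt → ℕ} (h : MP Pt N) (y : ℝ) (hy : 0 ≤ y) :
    ∃ C : ℝ, 1 ≤ C ∧ ∀ z : ℝ, 2 ≤ z → ∀ b : ℝ, 0 ≤ b → ∀ P : Finset Pt,
      (∀ v ∈ P, (N v : ℝ) ≤ z) → ∀ Ts : Finset (Finset Pt),
        (∀ T ∈ Ts, T ⊆ P ∧ z ^ b < ∏ v ∈ T, (N v : ℝ)) →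
          ∑ T ∈ Ts, ∏ v ∈ T, y / (N v : ℝ) ≤
            C * Real.exp (-b) * ∏ v ∈ P, (1 + y / (N v : ℝ)) := by
  classical
  obtain ⟨C₀, hC₀, hlg⟩ := h.lg
  refine ⟨Real.exp (2 * y * C₀), Real.one_le_exp (by positivity), ?_⟩
  intro z hz b hb P hP Ts hTs
  have hlz : 0 < Real.log z := Real.log_pos (by linarith)
  have hNpos : ∀ v, (0 : ℝ) < (N v : ℝ) := fun v => by
    have := h.two_le v
    exact_mod_cast (by omega : 0 < N v)
  have hN1 : ∀ v, (1 : ℝ) ≤ (N v : ℝ) := fun v => by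
    have := h.two_le v
    exact_mod_cast (by omega : 1 ≤ N v)
  set η : ℝ := 1 / Real.log z with hη
  have hη0 : 0 < η := by positivity
  set f : Pt → ℝ := fun v => y * Real.exp (η * Real.log (N v)) / (N v : ℝ) with hf
  have hf0 : ∀ v, 0 ≤ f v := fun v => by
    have := hNpos v
    simp only [hf]
    positivity
  have h1 : ∀ T ∈ Ts, ∏ v ∈ T, y / (N v : ℝ) ≤ Real.exp (-b) * ∏ v ∈ T, f v := by
    intro T hT
    have hTb := (hTs T hT).2
    have hprod : ∏ v ∈ T, f v =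
        (∏ v ∈ T, y / (N v : ℝ)) * Real.exp (η * ∑ v ∈ T, Real.log (N v)) := by
      rw [Finset.mul_sum, Real.exp_sum, ← Finset.prod_mul_distrib]
      refine Finset.prod_congr rfl fun v _ => ?_
      simp only [hf]
      ring
    have hlog : b * Real.log z ≤ ∑ v ∈ T, Real.log (N v) := by
      rw [← Real.log_prod (fun v _ => (hNpos v).ne')]
      rw [← Real.log_rpow (by linarith)]
      exact Real.log_le_log (Real.rpow_pos_of_pos (by linarith) _) hTb.le
    have hb' : b ≤ η * ∑ v ∈ T, Real.log (N v) := by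
      have := mul_le_mul_of_nonneg_left hlog hη0.le
      refine le_trans (le_of_eq ?_) this
      rw [hη]
      field_simp
    have h0 : 0 ≤ ∏ v ∈ T, y / (N v : ℝ) :=
      Finset.prod_nonneg fun v _ => div_nonneg hy (hNpos v).le
    rw [hprod]
    have hexp : 1 ≤ Real.exp (-b) * Real.exp (η * ∑ v ∈ T, Real.log (N v)) := by
      rw [← Real.exp_add]
      exact Real.one_le_exp (by linarith)
    calc ∏ v ∈ T, y / (N v : ℝ) = (∏ v ∈ T, y / (N v : ℝ)) * 1 := by ring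
      _ ≤ (∏ v ∈ T, y / (N v : ℝ)) *
          (Real.exp (-b) * Real.exp (η * ∑ v ∈ T, Real.log (N v))) := by gcongr
      _ = _ := by ring
  have h2 : ∑ T ∈ Ts, ∏ v ∈ T, y / (N v : ℝ) ≤ Real.exp (-b) * ∏ v ∈ P, (1 + f v) := by
    calc ∑ T ∈ Ts, ∏ v ∈ T, y / (N v : ℝ) ≤ ∑ T ∈ Ts, Real.exp (-b) * ∏ v ∈ T, f v :=
          Finset.sum_le_sum h1
      _ ≤ ∑ T ∈ P.powerset, Real.exp (-b) * ∏ v ∈ T, f v := by
          refine Finset.sum_le_sum_of_subset_of_nonneg (fun T hT => ?_) (fun T _ _ => ?_)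
          · exact Finset.mem_powerset.2 (hTs T hT).1
          · exact mul_nonneg (Real.exp_pos _).le (Finset.prod_nonneg fun v _ => hf0 v)
      _ = Real.exp (-b) * ∏ v ∈ P, (1 + f v) := by
          rw [← Finset.mul_sum, Finset.prod_one_add]
  have h3 : ∀ v ∈ P, 1 + f v ≤
      (1 + y / (N v : ℝ)) * Real.exp (2 * y * η * (Real.log (N v) / (N v : ℝ))) := by
    intro v hv
    have hNv := hNpos v
    have hlN : 0 ≤ Real.log (N v) := Real.log_nonneg (hN1 v)
    set t : ℝ := η * Real.log (N v) with ht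
    have ht0 : 0 ≤ t := by positivity
    have ht1 : t ≤ 1 := by
      have : Real.log (N v) ≤ Real.log z := Real.log_le_log hNv (hP v hv)
      rw [ht, hη, one_div_mul_eq_div]
      exact (div_le_one hlz).2 this
    have hexp : Real.exp t ≤ 1 + 2 * t := by
      have := Real.abs_exp_sub_one_sub_id_le (x := t) (by rw [abs_of_nonneg ht0]; exact ht1)
      have := (abs_le.1 this).2
      nlinarith
    have hx : 0 ≤ y / (N v : ℝ) := by positivity
    have h4 : 1 + f v ≤ (1 + y / (N v : ℝ)) * (1 + 2 * t * (y / (N v : ℝ))) := by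
      have : f v ≤ y / (N v : ℝ) * (1 + 2 * t) := by
        have : f v = y / (N v : ℝ) * Real.exp t := by simp only [hf, ht]; ring
        rw [this]
        gcongr
      nlinarith [mul_nonneg (mul_nonneg ht0 hx) hx]
    have h5 : 1 + 2 * t * (y / (N v : ℝ)) ≤
        Real.exp (2 * y * η * (Real.log (N v) / (N v : ℝ))) := by
      have e : 2 * y * η * (Real.log (N v) / (N v : ℝ)) = 2 * t * (y / (N v : ℝ)) := by
        rw [ht]; ring
      rw [e]
      linarith [Real.add_one_le_exp (2 * t * (y / (N v : ℝ)))]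
    exact h4.trans (mul_le_mul_of_nonneg_left h5 (by positivity))
  have h6 : ∏ v ∈ P, (1 + f v) ≤
      (∏ v ∈ P, (1 + y / (N v : ℝ))) * Real.exp (2 * y * C₀) := by
    calc ∏ v ∈ P, (1 + f v) ≤ ∏ v ∈ P, ((1 + y / (N v : ℝ)) *
          Real.exp (2 * y * η * (Real.log (N v) / (N v : ℝ)))) :=
          Finset.prod_le_prod (fun v _ => by linarith [hf0 v]) h3
      _ = (∏ v ∈ P, (1 + y / (N v : ℝ))) *
          Real.exp (2 * y * η * ∑ v ∈ P, Real.log (N v) / (N v : ℝ)) := by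
          rw [Finset.prod_mul_distrib, Finset.mul_sum, Real.exp_sum]
      _ ≤ _ := by
          have hs := hlg z hz P hP
          have : 2 * y * η * ∑ v ∈ P, Real.log (N v) / (N v : ℝ) ≤ 2 * y * C₀ := by
            calc 2 * y * η * ∑ v ∈ P, Real.log (N v) / (N v : ℝ)
                ≤ 2 * y * η * (C₀ * Real.log z) := by gcongr
              _ = 2 * y * C₀ := by rw [hη]; field_simp
          have hp : 0 ≤ ∏ v ∈ P, (1 + y / (N v : ℝ)) :=
            Finset.prod_nonneg fun v _ => by have := hNpos v; positivity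
          exact mul_le_mul_of_nonneg_left (Real.exp_le_exp.2 this) hp
  calc ∑ T ∈ Ts, ∏ v ∈ T, y / (N v : ℝ) ≤ Real.exp (-b) * ∏ v ∈ P, (1 + f v) := h2
    _ ≤ Real.exp (-b) * ((∏ v ∈ P, (1 + y / (N v : ℝ))) * Real.exp (2 * y * C₀)) := by gcongr
    _ = _ := by ring

end H36.QA
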