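import Pool.Agent.H36.QA.WDefs

/-!
# [H36 QA WTWO] The wreath product: double transpositions (five theorems, 90-140 lines, only Mathlib
and WDefs)

Conjugation: `(wc t * whb h) * wd i₀ * (wc t * whb h)⁻¹` is `bl 1 δ` with
`δ (h i₀) = c3 ^ k * dt * (c3 ^ k)⁻¹`, `k = (toAdd (t (h i₀))).val`, and `δ i = 1` for `i ≠ h i₀`.
`w_stab`: equality with `wd i₀ = bl 1 (update 1 i₀ dt)` (`bl_inj`) iff `h i₀ = i₀` (`dt ≠ 1`) and
`c3 ^ k * dt * (c3 ^ k)⁻¹ = dt`, iff `k = 0` (`decide`).
`w_genV`: an element `bl 1 v` of `wV H` is the product of the `bl 1 (update 1 i (v i))`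
(`Finset` induction or `Finset.noncommProd`; or induction over the number of `i` with `v i ≠ 1`); each
`v i ≠ 1` is `c3 ^ k * dt * (c3 ^ k)⁻¹` for some `k` (`decide`), and `i = h i₀` for some `h ∈ H` (`htr`).
`w_chi`: `χ (bl 1 v) = f (v i₀)` with `f : Perm (Fin 4) → ℤˣ`, `f x = 1` if `x = 1` or `x = dt` and
`f x = -1` otherwise; multiplicative on `IsV` (`decide`).  The value at `bl 1 δ` is `-1` iff
`h i₀ = i₀` and `k ≠ 0`.
-/

noncomputable section

namespace H36.QA

variable {m : ℕ} (H : Subgroup (Equiv.Perm (Fin m))) (i₀ : Fin m)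

/-- The conjugate of `wd`. -/
theorem w_conj (t : Fin m → Multiplicative (ZMod 3)) (h : H) :
    (((wc H t * whb H h) * wd H i₀ * (wc H t * whb H h)⁻¹ : WG H) :
      Equiv.Perm (Fin m × Fin 4)) =
    bl 1 (fun i => wt t i * (Function.update (1 : Fin m → Equiv.Perm (Fin 4)) i₀ dt)
      ((h : Equiv.Perm (Fin m))⁻¹ i) * (wt t i)⁻¹) := by
  have e1 : (((wc H t * whb H h) : WG H) : Equiv.Perm (Fin m × Fin 4)) =
      bl (h : Equiv.Perm (Fin m)) (fun i => wt t ((h : Equiv.Perm (Fin m)) i)) := by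
    change bl 1 (wt t) * bl (h : Equiv.Perm (Fin m)) 1 = _
    rw [bl_mul, one_mul]
    congr 1
  have e2 : ((wd H i₀ : WG H) : Equiv.Perm (Fin m × Fin 4)) =
      bl 1 (Function.update 1 i₀ dt) := rfl
  rw [Subgroup.coe_mul, Subgroup.coe_mul, Subgroup.coe_inv, e1, e2, bl_inv, bl_mul, bl_mul, mul_one,
    mul_inv_cancel]
  congr 1
  funext i
  simp

theorem w_dV : wd H i₀ ∈ wV H := by
  refine ⟨Function.update 1 i₀ dt, fun i => ?_, rfl⟩
  rcases eq_or_ne i i₀ with rfl | h
  · rw [Function.update_self]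
    exact Or.inr (Or.inl rfl)
  · rw [Function.update_of_ne h]
    exact isV_one

theorem w_dt1 : dt ≠ 1 := by decide

theorem w_d1 : wd H i₀ ≠ 1 := by
  intro h
  have h1 := congrArg (fun g : WG H => (g : Equiv.Perm (Fin m × Fin 4))) h
  have h2 : bl (1 : Equiv.Perm (Fin m)) (Function.update 1 i₀ dt) = bl 1 1 := by
    rw [bl_one]
    exact h1
  have h3 := congrFun (bl_inj h2).2 i₀
  rw [Function.update_self] at h3
  exact w_dt1 h3

theorem w_c3comm : ∀ k : ZMod 3, c3 ^ k.val * dt * (c3 ^ k.val)⁻¹ = dt ↔ k = 0 := by decide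

theorem w_stab (t : Fin m → Multiplicative (ZMod 3)) (h : H) :
    (wc H t * whb H h) * wd H i₀ * (wc H t * whb H h)⁻¹ = wd H i₀ ↔
      (h : Equiv.Perm (Fin m)) i₀ = i₀ ∧ t i₀ = 1 := by
  have hinv : (h : Equiv.Perm (Fin m))⁻¹ i₀ = i₀ ↔ (h : Equiv.Perm (Fin m)) i₀ = i₀ := by
    rw [Equiv.Perm.inv_eq_iff_eq]
    exact eq_comm
  constructor
  · intro e
    have e1 := congrArg (fun g : WG H => (g : Equiv.Perm (Fin m × Fin 4))) e
    have e2 : bl 1 (fun i => wt t i * (Function.update (1 : Fin m → Equiv.Perm (Fin 4)) i₀ dt)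
      ((h : Equiv.Perm (Fin m))⁻¹ i) * (wt t i)⁻¹) = bl 1 (Function.update 1 i₀ dt) := by
      rw [← w_conj]
      exact e1
    have e3 := congrFun (bl_inj e2).2 i₀
    rw [Function.update_self] at e3
    by_cases hh : (h : Equiv.Perm (Fin m))⁻¹ i₀ = i₀
    · refine ⟨hinv.1 hh, ?_⟩
      simp only [hh, Function.update_self] at e3
      exact Multiplicative.toAdd.injective ((w_c3comm _).1 e3)
    · exfalso
      simp only [Function.update_of_ne hh] at e3
      apply w_dt1
      rw [← e3]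
      simp
  · rintro ⟨h1, h2⟩
    apply Subtype.ext
    rw [w_conj]
    change _ = bl 1 (Function.update 1 i₀ dt)
    congr 1
    funext i
    rcases eq_or_ne i i₀ with rfl | hi
    · have h3 : wt t i = 1 := by
        rw [wt, h2]
        exact pow_zero c3
      rw [hinv.2 h1, Function.update_self, h3]
      simp
    · have h3 : (h : Equiv.Perm (Fin m))⁻¹ i ≠ i₀ := by
        intro h4
        apply hi
        rw [Equiv.Perm.inv_eq_iff_eq] at h4
        rw [h4, h1]
      rw [Function.update_of_ne h3, Function.update_of_ne hi]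
      simp

/-- The element of `wV` with given components. -/
def wel (v : Fin m → Equiv.Perm (Fin 4)) (hv : ∀ i, IsV (v i)) : WG H :=
  ⟨bl 1 v, 1, H.one_mem, v, fun i => isV_sign _ (hv i), rfl⟩

theorem wel_coe (v : Fin m → Equiv.Perm (Fin 4)) (hv : ∀ i, IsV (v i)) :
    ((wel H v hv : WG H) : Equiv.Perm (Fin m × Fin 4)) = bl 1 v := rfl

theorem w_isV_cases : ∀ x : Equiv.Perm (Fin 4), IsV x →
    x = 1 ∨ ∃ k : ZMod 3, x = c3 ^ k.val * dt * (c3 ^ k.val)⁻¹ := by
  unfold IsV
  rintro x (rfl | rfl | rfl | rfl)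
  · exact Or.inl rfl
  · exact Or.inr ⟨0, by decide⟩
  · exact Or.inr ⟨1, by decide⟩
  · exact Or.inr ⟨2, by decide⟩

theorem isV_update (a : Fin m) (x : Equiv.Perm (Fin 4)) (hx : IsV x) (i : Fin m) :
    IsV (Function.update (1 : Fin m → Equiv.Perm (Fin 4)) a x i) := by
  rcases eq_or_ne i a with rfl | h
  · rw [Function.update_self]
    exact hx
  · rw [Function.update_of_ne h]
    exact isV_one

theorem w_genV (htr : ∀ i, ∃ h : H, (h : Equiv.Perm (Fin m)) i₀ = i) :
    wV H ≤ Subgroup.closure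
      {x | ∃ t h, x = (wc H t * whb H h) * wd H i₀ * (wc H t * whb H h)⁻¹} := by
  classical
  set S : Set (WG H) := {x | ∃ t h, x = (wc H t * whb H h) * wd H i₀ * (wc H t * whb H h)⁻¹}
    with hS
  -- one component
  have h1 : ∀ (a : Fin m) (x : Equiv.Perm (Fin 4)) (hx : IsV x),
      wel H (Function.update 1 a x) (isV_update a x hx) ∈ Subgroup.closure S := by
    intro a x hx
    rcases w_isV_cases x hx with hx1 | ⟨k, hk⟩
    · have : wel H (Function.update 1 a x) (isV_update a x hx) = 1 := by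
        apply Subtype.ext
        change bl 1 (Function.update 1 a x) = 1
        rw [← bl_one]
        congr 1
        funext i
        rcases eq_or_ne i a with rfl | h
        · rw [Function.update_self, hx1]
          rfl
        · rw [Function.update_of_ne h]
      rw [this]
      exact one_mem _
    · obtain ⟨h, hh⟩ := htr a
      apply Subgroup.subset_closure
      refine ⟨fun _ => Multiplicative.ofAdd k, h, ?_⟩
      apply Subtype.ext
      rw [w_conj]
      change bl 1 (Function.update 1 a x) = _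
      congr 1
      funext i
      rcases eq_or_ne i a with rfl | hi
      · have h2 : (h : Equiv.Perm (Fin m))⁻¹ i = i₀ := by
          rw [Equiv.Perm.inv_eq_iff_eq, hh]
        rw [Function.update_self, h2, Function.update_self, hk]
        rfl
      · have h2 : (h : Equiv.Perm (Fin m))⁻¹ i ≠ i₀ := by
          intro h3
          rw [Equiv.Perm.inv_eq_iff_eq, hh] at h3
          exact hi h3
        rw [Function.update_of_ne hi, Function.update_of_ne h2]
        simp
  intro g hg
  obtain ⟨v, hv, hgv⟩ := (mem_wV H g).1 hg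
  have hvs : ∀ (s : Finset (Fin m)) (i : Fin m), IsV (if i ∈ s then v i else 1) := by
    intro s i
    split_ifs
    · exact hv i
    · exact isV_one
  have h2 : ∀ s : Finset (Fin m),
      wel H (fun i => if i ∈ s then v i else 1) (hvs s) ∈ Subgroup.closure S := by
    intro s
    induction s using Finset.induction_on with
    | empty =>
      have : wel H (fun i => if i ∈ (∅ : Finset (Fin m)) then v i else 1) (hvs ∅) = 1 := by
        apply Subtype.ext
        rw [wel_coe, Subgroup.coe_one, ← bl_one]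
        congr 1
      rw [this]
      exact one_mem _
    | insert a s ha ih =>
      have : wel H (fun i => if i ∈ insert a s then v i else 1) (hvs (insert a s)) =
          wel H (Function.update 1 a (v a)) (isV_update a (v a) (hv a)) *
            wel H (fun i => if i ∈ s then v i else 1) (hvs s) := by
        apply Subtype.ext
        rw [Subgroup.coe_mul, wel_coe, wel_coe, wel_coe, bl_mul, one_mul]
        congr 1
        funext i
        rcases eq_or_ne i a with rfl | hi
        · simp [ha]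
        · simp [hi]
      rw [this]
      exact mul_mem (h1 a (v a) (hv a)) ih
  have h3 : g = wel H (fun i => if i ∈ (Finset.univ : Finset (Fin m)) then v i else 1)
      (hvs Finset.univ) := by
    apply Subtype.ext
    rw [hgv, wel_coe]
    congr 1
    funext i
    simp
  rw [h3]
  exact h2 Finset.univ

/-- The character on the Klein group in terms of the image of `0`. -/
def wf (k : Fin 4) : ℤˣ := if k = 0 ∨ k = 1 then 1 else -1

theorem wf_mul : ∀ x y : Equiv.Perm (Fin 4), IsV x → IsV y → wf ((x * y) 0) = wf (x 0) * wf (y 0) := by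
  unfold IsV
  rintro x y (rfl | rfl | rfl | rfl) (rfl | rfl | rfl | rfl) <;> decide

theorem wf_conj : ∀ k : ZMod 3, wf ((c3 ^ k.val * dt * (c3 ^ k.val)⁻¹) 0) = -1 ↔ k ≠ 0 := by decide

theorem w_chi : ∃ χ : wV H →* ℤˣ, ∀ (t : Fin m → Multiplicative (ZMod 3)) (h : H)
    (hm : (wc H t * whb H h) * wd H i₀ * (wc H t * whb H h)⁻¹ ∈ wV H),
      χ ⟨(wc H t * whb H h) * wd H i₀ * (wc H t * whb H h)⁻¹, hm⟩ = -1 ↔
        (h : Equiv.Perm (Fin m)) i₀ = i₀ ∧ t i₀ ≠ 1 := by
  let χ : wV H →* ℤˣ :=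
    { toFun := fun g => wf (((g : WG H) : Equiv.Perm (Fin m × Fin 4)) (i₀, 0)).2
      map_one' := rfl
      map_mul' := by
        rintro ⟨g, hg⟩ ⟨g', hg'⟩
        obtain ⟨v, hv, hgv⟩ := (mem_wV H g).1 hg
        obtain ⟨v', hv', hgv'⟩ := (mem_wV H g').1 hg'
        change wf (((g : Equiv.Perm (Fin m × Fin 4)) * (g' : Equiv.Perm (Fin m × Fin 4))) (i₀, 0)).2 =
          wf ((g : Equiv.Perm (Fin m × Fin 4)) (i₀, 0)).2 *
            wf ((g' : Equiv.Perm (Fin m × Fin 4)) (i₀, 0)).2
        rw [hgv, hgv', bl_mul, bl_apply, bl_apply, bl_apply]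
        exact wf_mul _ _ (hv i₀) (hv' i₀) }
  refine ⟨χ, fun t h hm => ?_⟩
  have e1 : χ ⟨(wc H t * whb H h) * wd H i₀ * (wc H t * whb H h)⁻¹, hm⟩ =
      wf ((wt t i₀ * (Function.update (1 : Fin m → Equiv.Perm (Fin 4)) i₀ dt)
        ((h : Equiv.Perm (Fin m))⁻¹ i₀) * (wt t i₀)⁻¹) 0) := by
    change wf ((((wc H t * whb H h) * wd H i₀ * (wc H t * whb H h)⁻¹ : WG H) :
      Equiv.Perm (Fin m × Fin 4)) (i₀, 0)).2 = _
    rw [w_conj, bl_apply]
  rw [e1]
  have hinv : (h : Equiv.Perm (Fin m))⁻¹ i₀ = i₀ ↔ (h : Equiv.Perm (Fin m)) i₀ = i₀ := by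
    rw [Equiv.Perm.inv_eq_iff_eq]
    exact eq_comm
  by_cases hh : (h : Equiv.Perm (Fin m))⁻¹ i₀ = i₀
  · rw [hh, Function.update_self]
    have h2 := wf_conj (Multiplicative.toAdd (t i₀))
    constructor
    · intro h3
      refine ⟨hinv.1 hh, fun h4 => ?_⟩
      exact h2.1 h3 (by rw [h4]; rfl)
    · rintro ⟨-, h4⟩
      exact h2.2 (fun h5 => h4 (Multiplicative.toAdd.injective h5))
  · rw [Function.update_of_ne hh]
    constructor
    · intro h3
      exfalso
      have h4 : wf ((wt t i₀ * (1 : Fin m → Equiv.Perm (Fin 4)) ((h : Equiv.Perm (Fin m))⁻¹ i₀) *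
          (wt t i₀)⁻¹) 0) = 1 := by
        simp [wf]
      rw [h4] at h3
      exact absurd h3 (by decide)
    · rintro ⟨h3, -⟩
      exact absurd (hinv.2 h3) hh

end H36.QA
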