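import Pool.Agent.H36.QA.W1
import Pool.Agent.H36.QA.W2

/-!
# The group theoretic data of the wreath product (complete)
-/

noncomputable section

namespace H36.QA

variable {m : ℕ} (H : Subgroup (Equiv.Perm (Fin m))) (i₀ : Fin m)

/-- The group theoretic data of `A₄ ≀ H`. -/
def gdw (htr : ∀ i, ∃ h : H, (h : Equiv.Perm (Fin m)) i₀ = i) : GD m H (WG H) where
  hb := whb H
  c := wc H
  V := wV H
  i₀ := i₀
  d₀ := wd H i₀
  tr := htr
  cH := w_cH H
  Vn := w_Vn H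
  Vc := w_Vc H
  V2 := w_V2 H
  gen := w_gen H
  uniq := w_uniq H
  dV := w_dV H i₀
  d1 := w_d1 H i₀
  stab := w_stab H i₀
  genV := w_genV H i₀ htr
  chi := w_chi H i₀

theorem gdw_c₀ (htr : ∀ i, ∃ h : H, (h : Equiv.Perm (Fin m)) i₀ = i) :
    (gdw H i₀ htr).c₀ = wc H (sg i₀) := rfl

theorem gdw_d₀ (htr : ∀ i, ∃ h : H, (h : Equiv.Perm (Fin m)) i₀ = i) :
    (gdw H i₀ htr).d₀ = wd H i₀ := rfl

end H36.QA
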