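import Pool.Agent.H36.QA.WI2
import Pool.Agent.H38.ML.Spec

/-!
# [H36 QA WITHREE] At most three classes of elements of least index (50-90 lines)

`φ` from `wr_equiv`; the three representatives are `φ g_x`, `g_x = bl 1 (update 1 i₀ x)` (an element of
`WG H` for even `x`), `x ∈ {c3, c3⁻¹, dt}`.  Let `g ∈ G`, `g ≠ 1`, `ind g = indG G = 2` (`wr_indG`).  By
`wr_least` `φ⁻¹ g = bl 1 (update 1 i x)`, `x ≠ 1` even.  There is an even `y` with
`y * x * y⁻¹ ∈ {c3, c3⁻¹, dt}` (`decide`) and `h ∈ H` with `h i = i₀`; conjugation by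
`bl h (update 1 i y)` maps `bl 1 (update 1 i x)` to `bl 1 (update 1 i₀ (y x y⁻¹))`.
`KConj` holds with `σ = 1`, `a = 1`.  So every class of the `Quot` is one of at most three
(`Nat.card_le_card_of_surjective` from `Fin 3`, or `Finite`/`Nat.card_le...`; if a representative is used
it must be an element of the subtype: `wr_ind`).
`Spec.ind`, `Spec.indG` are by definition the same as `H38.ML.ind`, `H38.ML.indG`
(`rfl` / `change`; see `Pool/Agent/H38/ML/SpecBridge.lean`).
-/

open H38.ML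

namespace H36.QA

/-- The three representatives. -/
def wi3rep (j : Fin 3) : Equiv.Perm (Fin 4) :=
  if j = 0 then c3 else if j = 1 then c3⁻¹ else dt

theorem wi3_sign : ∀ j : Fin 3, Equiv.Perm.sign (wi3rep j) = 1 := by decide

theorem wi3_ne : ∀ j : Fin 3, wi3rep j ≠ 1 := by decide

set_option maxRecDepth 100000 in
theorem wi3_conj : ∀ x : Equiv.Perm (Fin 4), Equiv.Perm.sign x = 1 → x ≠ 1 →
    ∃ y : Equiv.Perm (Fin 4), Equiv.Perm.sign y = 1 ∧ ∃ j : Fin 3, y * x * y⁻¹ = wi3rep j := by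
  decide

theorem wi3_bl {m : ℕ} (h : Equiv.Perm (Fin m)) (i i₀ : Fin m) (hi : h i = i₀)
    (x y : Equiv.Perm (Fin 4)) :
    bl h (Function.update 1 i y) * bl 1 (Function.update 1 i x) =
      bl 1 (Function.update 1 i₀ (y * x * y⁻¹)) * bl h (Function.update 1 i y) := by
  rw [bl_mul, bl_mul, mul_one, one_mul]
  congr 1
  funext k
  rw [Equiv.Perm.one_apply]
  by_cases hk : k = i
  · subst hk
    rw [hi, Function.update_self, Function.update_self, Function.update_self,
      inv_mul_cancel_right]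
  · have hk' : h k ≠ i₀ := by
      intro h'
      rw [← hi] at h'
      exact hk (h.injective h')
    rw [Function.update_of_ne hk, Function.update_of_ne hk, Function.update_of_ne hk']
    rfl

theorem wi3_update_sign {m : ℕ} (i : Fin m) (y : Equiv.Perm (Fin 4))
    (hy : Equiv.Perm.sign y = 1) (k : Fin m) :
    Equiv.Perm.sign ((Function.update 1 i y : Fin m → Equiv.Perm (Fin 4)) k) = 1 := by
  by_cases hk : k = i
  · subst hk
    rw [Function.update_self, hy]
  · rw [Function.update_of_ne hk]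
    simp

theorem wi3_ne_one {m : ℕ} (i : Fin m) (y : Equiv.Perm (Fin 4)) (hy : y ≠ 1) :
    bl 1 (Function.update 1 i y) ≠ 1 := by
  intro h
  rw [← bl_one] at h
  have h1 := congrFun (bl_inj h).2 i
  rw [Function.update_self] at h1
  exact hy h1

theorem wr_beta {m n : ℕ} (e : Fin m × Fin 4 ≃ Fin n) (H : Subgroup (Equiv.Perm (Fin m)))
    (G : Subgroup (Equiv.Perm (Fin n))) (hm : 0 < m) (hG : WRep e H G)
    (htr : MulAction.IsPretransitive H (Fin m)) (K Ω : Type) [Field K] [Field Ω] [Algebra K Ω] :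
    Spec.betaAll K Ω G ≤ 3 := by
  obtain ⟨φ, hφ⟩ := wr_equiv e H G hG
  let i₀ : Fin m := ⟨0, hm⟩
  have hind2 : Spec.indG G = 2 := wr_indG e H G hm hG
  let w : Fin 3 → WG H := fun j =>
    ⟨bl 1 (Function.update 1 i₀ (wi3rep j)), 1, H.one_mem, _,
      wi3_update_sign i₀ _ (wi3_sign j), rfl⟩
  have hw : ∀ j, ((w j : WG H) : Equiv.Perm (Fin m × Fin 4)) =
      bl 1 (Function.update 1 i₀ (wi3rep j)) := fun j => rfl
  have hw1 : ∀ j, w j ≠ 1 := fun j hj =>
    wi3_ne_one i₀ _ (wi3_ne j) (congrArg Subtype.val hj)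
  let r : Fin 3 → {g : G // g ≠ 1 ∧ Spec.ind (g : Equiv.Perm (Fin n)) = Spec.indG G} := fun j =>
    ⟨φ (w j), by
      intro h
      exact hw1 j (φ.injective (h.trans (map_one φ).symm)), by
      rw [hind2]
      exact wr_ind e H G hG φ hφ (w j) i₀ (wi3rep j) (wi3_ne j) (hw j)⟩
  unfold Spec.betaAll
  have hsurj : Function.Surjective (fun j : Fin 3 => Quot.mk
      (fun g h : {g : G // g ≠ 1 ∧ Spec.ind (g : Equiv.Perm (Fin n)) = Spec.indG G} =>
        Spec.KConj K Ω G g.1 h.1) (r j)) := by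
    intro q
    obtain ⟨⟨g, hg1, hg2⟩, rfl⟩ := Quot.exists_rep q
    have hg3 : φ (φ.symm g) = g := φ.apply_symm_apply g
    have hne : φ.symm g ≠ 1 := by
      intro h
      rw [h, map_one] at hg3
      exact hg1 hg3.symm
    have hind : ind ((φ (φ.symm g) : G) : Equiv.Perm (Fin n)) = 2 := by
      rw [hg3]
      exact hg2.trans hind2
    obtain ⟨i, x, hx1, hxs, hx⟩ := wr_least e H G hG φ hφ (φ.symm g) hne hind
    obtain ⟨y, hys, j, hj⟩ := wi3_conj x hxs hx1
    obtain ⟨⟨h, hh⟩, hhi⟩ := htr.exists_smul_eq i i₀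
    have hhi' : h i = i₀ := hhi
    let u : WG H := ⟨bl h (Function.update 1 i y), h, hh, _, wi3_update_sign i _ hys, rfl⟩
    refine ⟨j, ?_⟩
    apply Eq.symm
    apply Quot.sound
    refine ⟨1, 1, φ u, fun ζ _ => by rw [pow_one]; rfl, ?_⟩
    have h1 : u * φ.symm g = w j * u := by
      apply Subtype.ext
      rw [Subgroup.coe_mul, Subgroup.coe_mul, hx, hw, ← hj]
      exact wi3_bl h i i₀ hhi' x y
    have h2 : w j = u * φ.symm g * u⁻¹ := by rw [h1, mul_inv_cancel_right]
    change φ (w j) = φ u * g ^ 1 * (φ u)⁻¹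
    rw [h2, map_mul, map_mul, map_inv, hg3, pow_one]
  have h3 := Nat.card_le_card_of_surjective _ hsurj
  have h4 : Nat.card (Fin 3) = 3 := by rw [Nat.card_eq_fintype_card, Fintype.card_fin]
  rwa [h4] at h3

end H36.QA
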