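import Pool.Agent.H36.QA.FinB
import Pool.Agent.H36.QA.W3
import Pool.Agent.H36.QA.WI3
import Pool.Agent.H38.ML.SpecBridge
import Pool.Agent.H36.RT.Final

/-!
# The lower bound for `A₄ ≀ H`: assembly
-/

open scoped NumberField Pointwise
open H38.ML

noncomputable section

namespace H36.QA

theorem a4_bound {m n : ℕ} (hm : 0 < m) (e : Fin m × Fin 4 ≃ Fin n)
    (H : Subgroup (Equiv.Perm (Fin m))) (hH : MulAction.IsPretransitive H (Fin m))
    (G : Subgroup (Equiv.Perm (Fin n))) (hG : WRep e H G) (K : IntermediateField ℚ QBar)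
    [FiniteDimensional ℚ K] [NumberField K] (ζ : K) (hζ : IsPrimitiveRoot ζ 3)
    (ρ₀ : Gal(QBar/K) →* H) (hρ₀ : Function.Surjective ρ₀) (hft : FT ρ₀) :
    ∃ c : ℝ, 0 < c ∧ ∃ B₀ : ℝ, ∀ B : ℝ, B₀ ≤ B →
      ((⌈c * B ^ (1 / (Spec.indG G : ℝ)) *
          Real.log B ^ (Spec.betaAll K QBar G - 1)⌉₊ : ℕ) : ℕ∞) ≤ nK G K B := by
  classical
  have i₀ : Fin m := ⟨0, hm⟩
  have htr : ∀ i, ∃ h : H, (h : Equiv.Perm (Fin m)) i₀ = i := fun i => by
    obtain ⟨h, hh⟩ := hH.exists_smul_eq i₀ i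
    exact ⟨h, hh⟩
  obtain ⟨φ, hφ⟩ := wr_equiv e H G hG
  have hGt : MulAction.IsPretransitive G (Fin n) := wr_trans e H G hG hH
  have hind : indG G = 2 := wr_indG e H G hm hG
  have hc3 : c3 ≠ 1 := by decide
  have hdt : dt ≠ 1 := by decide
  have hc : ind ((φ (gdw H i₀ htr).c₀ : G) : Equiv.Perm (Fin n)) = 2 := by
    refine wr_ind e H G hG φ hφ _ i₀ c3 hc3 ?_
    rw [gdw_c₀]
    change bl 1 (wt (sg i₀)) = _
    congr 1
    funext j
    rcases eq_or_ne j i₀ with rfl | hj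
    · rw [Function.update_self, wt, sg, Pi.mulSingle_eq_same]
      exact pow_one c3
    · rw [Function.update_of_ne hj, wt, sg, Pi.mulSingle_eq_of_ne hj]
      exact pow_zero c3
  have hd : ind ((φ (gdw H i₀ htr).d₀ : G) : Equiv.Perm (Fin n)) = 2 :=
    wr_ind e H G hG φ hφ _ i₀ dt hdt rfl
  have hn : 0 < n := by
    have := (e (i₀, 0)).pos
    exact this
  have i : Fin n := e (i₀, 0)
  obtain ⟨C, c, Y₀, hC, hcpos, hmain⟩ := main_count G hGt i K (gdw H i₀ htr) φ hind hc hd ζ hζ ρ₀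
    hρ₀ hft
  have hβ : Spec.betaAll K QBar G - 1 ≤ 2 := by
    have := wr_beta e H G hm hG hH K QBar
    omega
  have hCr : (0 : ℝ) < C := by exact_mod_cast hC
  have hD : (0 : ℝ) < ((Nat.card G ^ Nat.card G : ℕ) : ℝ) := by
    exact_mod_cast pow_pos (Nat.card_pos (α := G)) _
  obtain ⟨c', hc', B₀, hB⟩ := par_final c Y₀ C _ hcpos hCr hD (Spec.betaAll K QBar G - 1) hβ
  refine ⟨c', hc', B₀, fun B hBB => ?_⟩
  obtain ⟨Y, hY, hCY, hbound⟩ := hB B hBB
  obtain ⟨Rs, hRs, hcard⟩ := hmain Y hY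
  have hmany := many_classes G hGt K i B Rs (fun ρ hρ => by
    obtain ⟨h1, h2, h3⟩ := hRs ρ hρ
    exact ⟨h1, h2, h3.trans hCY⟩)
  cases hk : nK G K B using ENat.recTopCoe with
  | top => exact le_top
  | coe k =>
    rw [hk] at hmany
    have h1 : Rs.card ≤ Nat.card G ^ Nat.card G * k := by exact_mod_cast hmany
    have h2 : (Rs.card : ℝ) ≤ ((Nat.card G ^ Nat.card G : ℕ) : ℝ) * k := by exact_mod_cast h1
    have hs : Spec.indG G = 2 := hind
    have h3 : c' * B ^ (1 / (Spec.indG G : ℝ)) *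
        Real.log B ^ (Spec.betaAll K QBar G - 1) ≤ (k : ℝ) := by
      rw [hs]
      push_cast
      refine hbound.trans ?_
      rw [div_le_iff₀ hD]
      calc c * Y * Real.log Y ^ 2 ≤ Rs.card := hcard
        _ ≤ ((Nat.card G ^ Nat.card G : ℕ) : ℝ) * k := h2
        _ = k * ((Nat.card G ^ Nat.card G : ℕ) : ℝ) := mul_comm _ _
    have h4 : ⌈c' * B ^ (1 / (Spec.indG G : ℝ)) *
        Real.log B ^ (Spec.betaAll K QBar G - 1)⌉₊ ≤ k := Nat.ceil_le.mpr h3
    exact_mod_cast h4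

end H36.QA
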