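import Pool.Agent.H36.QA.Pairs
import Pool.Agent.H36.QA.Co

/-!
# [H36 QA SMALLG] Pairs with conductor divisible by an ideal of small norm (60-110 lines)

Sum over the `𝔟` with `Z/2 < N 𝔟 ≤ Z` (at most `2 κ Z` of them, `id_count`; every `p` chooses its `𝔟`,
and `p.2` is determined by `𝔟` and `p.1`).  For fixed `𝔟` fix one `β₁` in question; every other `β` has
`β - β₁ ∈ 𝔤 𝔟²` (both are in `I 𝔟² ⊆ 𝔤 𝔟²`) and `β - β₁ ∈ (m) 𝔟²`, so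
`β - β₁ ∈ 𝔤 (m) 𝔟²` (`co_inter`).  `ll_upper` for `𝔞 = 𝔤 (m) 𝔟²` (norm `N(𝔤) m^n N(𝔟)²`), `v = β₁`:
at most `C₁ s^n / (N(𝔤) m^n N(𝔟)² √d) ≤ C₁ Y / (N(𝔤) m^n √d)` (`s^n = Z² Y / 4`,
`N(𝔟)² ≥ Z²/4`); the condition `C₁ d^A N(𝔤) m^n N(𝔟)² ≤ Z² Y / 4` is true if
`Y ≥ 4 C₁ d^A m^n N(𝔤)`.
-/

open scoped NumberField nonZeroDivisors
open NumberField

noncomputable section

namespace H36.QA

theorem absNorm_nat (n : ℕ) (F : Type) [Field F] [NumberField F] (hF : TC F n) (m : ℕ) :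
    Ideal.absNorm (Ideal.span {((m : ℕ) : 𝓞 F)}) = m ^ n := by
  rw [Ideal.absNorm_span_singleton]
  have h1 : ((m : ℕ) : 𝓞 F) = algebraMap ℤ (𝓞 F) (m : ℤ) := by simp
  rw [h1, Algebra.norm_algebraMap, RingOfIntegers.rank, hF.2, Int.natAbs_pow, Int.natAbs_natCast]

theorem sg_mem {F : Type} [Field F] [NumberField F] {m : ℕ} {𝔟 𝔤 I I' : Ideal (𝓞 F)}
    (h𝔟 : 𝔟 ≠ ⊥) (h𝔤 : (Ideal.absNorm 𝔤).Coprime m) {β β' b : 𝓞 F}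
    (h1 : Ideal.span {β} = I * 𝔟 ^ 2) (h1' : Ideal.span {β'} = I' * 𝔟 ^ 2)
    (h2 : β - b ∈ Ideal.span {((m : ℕ) : 𝓞 F)} * 𝔟 ^ 2)
    (h2' : β' - b ∈ Ideal.span {((m : ℕ) : 𝓞 F)} * 𝔟 ^ 2)
    (h3 : 𝔤 ∣ I) (h3' : 𝔤 ∣ I') :
    β - β' ∈ 𝔤 * (Ideal.span {((m : ℕ) : 𝓞 F)} * 𝔟 ^ 2) := by
  have e : ∀ (x : 𝓞 F) (J : Ideal (𝓞 F)), Ideal.span {x} = J * 𝔟 ^ 2 → 𝔤 ∣ J →
      x ∈ 𝔤 * 𝔟 ^ 2 := by
    intro x J hx hJ
    have h4 : x ∈ J * 𝔟 ^ 2 := by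
      rw [← hx]
      exact Ideal.mem_span_singleton_self x
    exact Ideal.mul_mono_left (Ideal.dvd_iff_le.1 hJ) h4
  apply co_inter F m 𝔟 𝔤 h𝔟 h𝔤
  · exact Ideal.sub_mem _ (e β I h1 h3) (e β' I' h1' h3')
  · have h5 := Ideal.sub_mem _ h2 h2'
    have h6 : β - b - (β' - b) = β - β' := by ring
    rwa [h6] at h5

theorem small_g (n : ℕ) (hn : 0 < n) : ∃ C : ℝ, 1 ≤ C ∧ ∃ A : ℕ,
    ∀ (F : Type) [Field F] [NumberField F], TC F n → ∀ (m : ℕ), 0 < m →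
      ∀ β₀ : Ideal (𝓞 F) → 𝓞 F, ∃ Z₀ : ℝ, ∀ Z : ℝ, Z₀ ≤ Z → ∀ Y s : ℝ, 0 < s →
        4 * s ^ n = Z ^ 2 * Y → ∀ 𝔤 : Ideal (𝓞 F), 𝔤 ≠ ⊥ → (Ideal.absNorm 𝔤).Coprime m →
          C * dd F ^ A * (m : ℝ) ^ n * Ideal.absNorm 𝔤 ≤ Y →
          ∀ P : Finset (𝓞 F × Ideal (𝓞 F)), (∀ p ∈ P, PairOK F β₀ m Z s p ∧ 𝔤 ∣ p.2) →
            (P.card : ℝ) * (Ideal.absNorm 𝔤 * (m : ℝ) ^ n * Real.sqrt (dd F)) ≤
              C * kap F * Z * Y := by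
  obtain ⟨C₁, hC₁, A, hll⟩ := ll_upper n hn
  refine ⟨4 * C₁, by linarith, A, ?_⟩
  intro F _ _ hF m hm β₀
  obtain ⟨Z₀, hZ₀, hid⟩ := id_count F
  refine ⟨Z₀, ?_⟩
  intro Z hZ Y s hs hsY 𝔤 h𝔤 hcop hY P hP
  classical
  have hZ0 : 0 < Z := by linarith
  have hdd := dd_pos F
  have hsq : 0 < Real.sqrt (dd F) := Real.sqrt_pos.2 hdd
  have hm' : (0 : ℝ) < (m : ℝ) ^ n := by positivity
  have hNg : 0 < (Ideal.absNorm 𝔤 : ℝ) := by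
    have : Ideal.absNorm 𝔤 ≠ 0 := by rwa [Ne, Ideal.absNorm_eq_zero_iff]
    exact_mod_cast Nat.pos_of_ne_zero this
  have hY0 : 0 < Y := lt_of_lt_of_le (by positivity) hY
  set D : ℝ := Ideal.absNorm 𝔤 * (m : ℝ) ^ n * Real.sqrt (dd F) with hD
  have hD0 : 0 < D := by positivity
  -- the ideals
  have hch : ∀ p, p ∈ P → ∃ 𝔟 : Ideal (𝓞 F), Z / 2 < (Ideal.absNorm 𝔟 : ℝ) ∧
      (Ideal.absNorm 𝔟 : ℝ) ≤ Z ∧ Ideal.span {p.1} = p.2 * 𝔟 ^ 2 ∧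
      p.1 - β₀ 𝔟 ∈ Ideal.span {((m : ℕ) : 𝓞 F)} * 𝔟 ^ 2 := fun p hp => (hP p hp).1.2.2
  choose! 𝔟 hb1 hb2 hb3 hb4 using hch
  have hbne : ∀ p ∈ P, 𝔟 p ≠ ⊥ := by
    intro p hp h0
    have h1 := hb1 p hp
    rw [h0, Ideal.absNorm_bot] at h1
    push_cast at h1
    linarith
  have hT := (hid Z hZ).1 (P.image 𝔟) (by
    intro I hI
    rw [Finset.mem_image] at hI
    obtain ⟨p, hp, rfl⟩ := hI
    exact ⟨hbne p hp, hb2 p hp⟩)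
  -- the fibres
  have hfib : ∀ I ∈ P.image 𝔟, ((P.filter (fun p => 𝔟 p = I)).card : ℝ) * D ≤ C₁ * Y := by
    intro I hI
    rw [Finset.mem_image] at hI
    obtain ⟨p₁, hp₁, rfl⟩ := hI
    set b := 𝔟 p₁ with hb
    have hbz := hbne p₁ hp₁
    rw [← hb] at hbz
    have hb0 : b ≠ 0 := by rwa [Ideal.zero_eq_bot]
    have hm0 : ((m : ℕ) : 𝓞 F) ≠ 0 := by exact_mod_cast hm.ne'
    have hms : Ideal.span {((m : ℕ) : 𝓞 F)} ≠ 0 := by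
      rw [Ideal.zero_eq_bot, Ne, Ideal.span_singleton_eq_bot]
      exact hm0
    have hg0 : 𝔤 ≠ 0 := by rwa [Ideal.zero_eq_bot]
    set 𝔞 := 𝔤 * (Ideal.span {((m : ℕ) : 𝓞 F)} * b ^ 2) with ha
    have ha0 : 𝔞 ≠ ⊥ := by
      rw [← Ideal.zero_eq_bot, ha]
      exact mul_ne_zero hg0 (mul_ne_zero hms (pow_ne_zero 2 hb0))
    have hNa : (Ideal.absNorm 𝔞 : ℝ) =
        Ideal.absNorm 𝔤 * ((m : ℝ) ^ n * (Ideal.absNorm b : ℝ) ^ 2) := by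
      rw [ha, map_mul, map_mul, map_pow, absNorm_nat n F hF m]
      push_cast
      ring
    have hbZ := hb2 p₁ hp₁
    have hbZ' := hb1 p₁ hp₁
    rw [← hb] at hbZ hbZ'
    have hbsq : (Ideal.absNorm b : ℝ) ^ 2 ≤ Z ^ 2 := pow_le_pow_left₀ (Nat.cast_nonneg _) hbZ 2
    have hbsq' : Z ^ 2 / 4 ≤ (Ideal.absNorm b : ℝ) ^ 2 := by
      have := pow_le_pow_left₀ (by positivity) hbZ'.le 2
      nlinarith
    have hcond : C₁ * dd F ^ A * Ideal.absNorm 𝔞 ≤ s ^ n := by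
      have h1 : C₁ * dd F ^ A * Ideal.absNorm 𝔞 ≤
          C₁ * dd F ^ A * (Ideal.absNorm 𝔤 * ((m : ℝ) ^ n * Z ^ 2)) := by
        rw [hNa]; gcongr
      have h2 : 4 * (C₁ * dd F ^ A * (Ideal.absNorm 𝔤 * ((m : ℝ) ^ n * Z ^ 2))) ≤ Z ^ 2 * Y := by
        calc 4 * (C₁ * dd F ^ A * (Ideal.absNorm 𝔤 * ((m : ℝ) ^ n * Z ^ 2)))
            = Z ^ 2 * (4 * C₁ * dd F ^ A * (m : ℝ) ^ n * Ideal.absNorm 𝔤) := by ring
          _ ≤ Z ^ 2 * Y := by gcongr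
      linarith
    have hinj : Set.InjOn Prod.fst ((P.filter (fun p => 𝔟 p = b) : Finset _) :
        Set (𝓞 F × Ideal (𝓞 F))) := by
      intro p hp q hq hpq
      rw [Finset.mem_coe, Finset.mem_filter] at hp hq
      have h1 := hb3 p hp.1
      have h2 := hb3 q hq.1
      rw [hp.2] at h1
      rw [hq.2, ← hpq, h1] at h2
      exact Prod.ext hpq (mul_right_cancel₀ (pow_ne_zero 2 hb0) h2)
    have hmem : ∀ x ∈ (P.filter (fun p => 𝔟 p = b)).image Prod.fst,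
        x - p₁.1 ∈ 𝔞 ∧ ∀ w : InfinitePlace F, w (x : F) ≤ s := by
      intro x hx
      rw [Finset.mem_image] at hx
      obtain ⟨p, hp, rfl⟩ := hx
      rw [Finset.mem_filter] at hp
      have h1 := hb3 p hp.1
      have h2 := hb4 p hp.1
      rw [hp.2] at h1 h2
      refine ⟨?_, fun w => ((hP p hp.1).1.2.1 w).2⟩
      exact sg_mem hbz hcop h1 (hb3 p₁ hp₁) h2 (hb4 p₁ hp₁) (hP p hp.1).2 (hP p₁ hp₁).2
    have hmain := hll F hF 𝔞 ha0 p₁.1 s hs hcond _ hmem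
    rw [Finset.card_image_of_injOn hinj] at hmain
    set N := ((P.filter (fun p => 𝔟 p = b)).card : ℝ) with hN
    have h3 : N * D * (Z ^ 2 / 4) ≤ C₁ * Y * (Z ^ 2 / 4) := by
      calc N * D * (Z ^ 2 / 4) ≤ N * D * (Ideal.absNorm b : ℝ) ^ 2 := by gcongr
        _ = N * (Ideal.absNorm 𝔞 * Real.sqrt (dd F)) := by rw [hNa, hD]; ring
        _ ≤ C₁ * s ^ n := hmain
        _ = C₁ * (Z ^ 2 * Y) / 4 := by rw [← hsY]; ring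
        _ = _ := by ring
    exact le_of_mul_le_mul_right h3 (by positivity)
  have hcard : (P.card : ℝ) = ∑ I ∈ P.image 𝔟, ((P.filter (fun p => 𝔟 p = I)).card : ℝ) := by
    rw [← Nat.cast_sum]
    congr 1
    exact Finset.card_eq_sum_card_image 𝔟 P
  rw [hcard, Finset.sum_mul]
  calc ∑ I ∈ P.image 𝔟, ((P.filter (fun p => 𝔟 p = I)).card : ℝ) * D
      ≤ ∑ _I ∈ P.image 𝔟, C₁ * Y := Finset.sum_le_sum hfib
    _ = ((P.image 𝔟).card : ℝ) * (C₁ * Y) := by rw [Finset.sum_const, nsmul_eq_mul]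
    _ ≤ (2 * kap F * Z) * (C₁ * Y) := by gcongr
    _ ≤ 4 * C₁ * kap F * Z * Y := by
        have : 0 ≤ kap F * Z * (C₁ * Y) := by
          have := kap_pos F
          positivity
        nlinarith

end H36.QA
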