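import Pool.Agent.H36.QA.LL
import Pool.Agent.H36.QA.Ev
import Pool.Agent.H36.QA.IdCnt

/-!
# [H36 QA UB1] The number of ideals of norm `≤ u`, uniformly in the field (80-130 lines)

Claim: at most `C κ_F u` nonzero ideals of norm `≤ u` as soon as `u ≥ C |disc F|^A`.

Double counting.  `T` is a finite set of nonzero ideals of norm `≤ u`.  Let `Z` be large (depending on
everything).  For `I ∈ T` let `s_I > 0`, `s_I^n = Z N(I)`, and let `Δ_I` be the finite set of elements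
`δ ∈ I` with `s_I / √2 < w δ ≤ s_I` for all `w` given by `ev_lower` (shape `f = 1`, `t = s_I`, large
because `Z` is large): `c s_I^n ≤ #Δ_I N(I) √d`, i.e. `#Δ_I ≥ c Z / √d`.  For `δ ∈ Δ_I` put
`𝔟 = (δ) / I` (`I ∣ span {δ}` by `Ideal.dvd_span_singleton`): `span {δ} = I * 𝔟`,
`N(𝔟) = N(δ) / N(I)` is in `(2^(-n/2) Z, Z]` (`prod_sq_eq_norm`).
The map `(I, δ) ↦ (𝔟, δ)` is injective (`I = (δ)/𝔟`), and for the image `δ ∈ 𝔟`, `w δ ≤ s` for all
`w` with `s^n = Z u`.  For each `𝔟` with `N 𝔟 ≤ Z` the number of such `δ` is, by `ll_upper` (`𝔞 = 𝔟`,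
`v = 0`; the condition is `C₁ d^A N(𝔟) ≤ Z u`, true if `u ≥ C₁ d^A`), at most
`C₁ Z u / (N(𝔟) √d) ≤ C₁ 2^(n/2) u / √d`.  The number of `𝔟` is `≤ 2 κ Z` (`id_count`).  Together
`#T c Z / √d ≤ 2 κ Z C₁ 2^(n/2) u / √d`.
(`T = ∅` is trivial, so `u ≥ 1`.  The existence of `s > 0` with `s^n = y`: `y ^ (1/n : ℝ)`,
`Real.rpow_natCast`.)
-/

open scoped NumberField nonZeroDivisors
open NumberField

noncomputable section

namespace H36.QA

private theorem ub1_prod (F : Type) [Field F] [NumberField F] {n : ℕ}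
    (hn : Module.finrank ℚ F = n) (s : ℝ) :
    ∏ w : InfinitePlace F, s ^ w.mult = s ^ n := by
  rw [Finset.prod_pow_eq_pow_sum, InfinitePlace.sum_mult_eq, hn]

private theorem ub1_norm {F : Type} [Field F] [NumberField F] (x : 𝓞 F) :
    (Ideal.absNorm (Ideal.span {x}) : ℝ) = ∏ w : InfinitePlace F, w (x : F) ^ w.mult := by
  rw [InfinitePlace.prod_eq_abs_norm, Ideal.absNorm_span_singleton]
  have h : Algebra.norm ℚ (x : F) = ((Algebra.norm ℤ x : ℤ) : ℚ) :=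
    (Algebra.coe_norm_int x).symm
  rw [h, Nat.cast_natAbs]
  push_cast
  rfl

private theorem ub1_norm_le {F : Type} [Field F] [NumberField F] {n : ℕ}
    (hn : Module.finrank ℚ F = n) {x : 𝓞 F} {s : ℝ} (h : ∀ w : InfinitePlace F, w (x : F) ≤ s) :
    (Ideal.absNorm (Ideal.span {x}) : ℝ) ≤ s ^ n := by
  rw [ub1_norm, ← ub1_prod F hn s]
  exact Finset.prod_le_prod (fun w _ => pow_nonneg (apply_nonneg w _) _)
    (fun w _ => pow_le_pow_left₀ (apply_nonneg w _) (h w) _)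

private theorem ub1_le_norm {F : Type} [Field F] [NumberField F] {n : ℕ}
    (hn : Module.finrank ℚ F = n) {x : 𝓞 F} {s : ℝ} (hs : 0 ≤ s)
    (h : ∀ w : InfinitePlace F, s ≤ w (x : F)) :
    s ^ n ≤ (Ideal.absNorm (Ideal.span {x}) : ℝ) := by
  rw [ub1_norm, ← ub1_prod F hn s]
  exact Finset.prod_le_prod (fun w _ => pow_nonneg hs _)
    (fun w _ => pow_le_pow_left₀ hs (h w) _)

private theorem ub1_one_le {F : Type} [Field F] [NumberField F] {I : Ideal (𝓞 F)} (hI : I ≠ ⊥) :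
    (1 : ℝ) ≤ (Ideal.absNorm I : ℝ) := by
  have h1 : Ideal.absNorm I ≠ 0 := by
    rw [Ne, Ideal.absNorm_eq_zero_iff]
    exact hI
  exact_mod_cast Nat.one_le_iff_ne_zero.2 h1

theorem ub1 (n : ℕ) (hn : 0 < n) : ∃ C : ℝ, 1 ≤ C ∧ ∃ A : ℕ,
    ∀ (F : Type) [Field F] [NumberField F], TC F n → ∀ u : ℝ, C * dd F ^ A ≤ u →
      ∀ T : Finset (Ideal (𝓞 F)), (∀ I ∈ T, I ≠ ⊥ ∧ (Ideal.absNorm I : ℝ) ≤ u) →
        (T.card : ℝ) ≤ C * kap F * u := by
  classical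
  obtain ⟨c, hc, hev⟩ := ev_lower n hn
  obtain ⟨C₁, hC₁, A, hll⟩ := ll_upper n hn
  obtain ⟨r, hr⟩ : ∃ r : ℝ, r = Real.sqrt 2 ^ n := ⟨_, rfl⟩
  have hr1 : 1 ≤ r := by
    rw [hr]
    exact one_le_pow₀ (by rw [Real.one_le_sqrt]; norm_num)
  refine ⟨max C₁ (2 * C₁ * r / c), le_trans hC₁ (le_max_left _ _), A, ?_⟩
  intro F _ _ hTC u hu T hT
  have hdd := one_le_dd F
  have hC₁0 : 0 < C₁ := by linarith
  have hr0 : 0 < r := by linarith
  have hddA : 1 ≤ dd F ^ A := one_le_pow₀ hdd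
  have hu1 : C₁ * dd F ^ A ≤ u := (mul_le_mul_of_nonneg_right (le_max_left _ _) (by positivity)).trans hu
  have hu0 : 0 < u := lt_of_lt_of_le (by positivity) hu1
  have hn0 : n ≠ 0 := hn.ne'
  have hsd : 0 < Real.sqrt (dd F) := Real.sqrt_pos.2 (by linarith)
  obtain ⟨Z₀, hZ₀1, hZ₀⟩ := id_count F
  have h1 : ∀ I ∈ T, ∃ t₀ : ℝ, ∀ t : ℝ, t₀ ≤ t →
        ∃ P : Finset (𝓞 F),
          (∀ x ∈ P, x ∈ I ∧ ∀ w : InfinitePlace F,
            t * 1 / Real.sqrt 2 < w (x : F) ∧ w (x : F) ≤ t * 1) ∧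
          c * (t ^ n * ∏ w : InfinitePlace F, (1 : ℝ) ^ 2)
            ≤ (P.card : ℝ) * (Ideal.absNorm I * Real.sqrt (dd F)) := fun I hI =>
    hev F hTC I (hT I hI).1 (fun _ => 1) (fun _ => one_pos)
  choose! t₀ ht₀ using h1
  obtain ⟨Z, hZe⟩ : ∃ Z : ℝ, Z = Z₀ + ∑ I ∈ T, |t₀ I| ^ n := ⟨_, rfl⟩
  have hsum : 0 ≤ ∑ I ∈ T, |t₀ I| ^ n := Finset.sum_nonneg (fun I _ => by positivity)
  have hZ : Z₀ ≤ Z := by linarith
  have hZ0 : 0 < Z := by linarith
  have hZt : ∀ I ∈ T, |t₀ I| ^ n ≤ Z := by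
    intro I hI
    have h9 : |t₀ I| ^ n ≤ ∑ I ∈ T, |t₀ I| ^ n :=
      Finset.single_le_sum (f := fun I => |t₀ I| ^ n) (fun I _ => by positivity) hI
    linarith
  -- the side lengths
  obtain ⟨s, hs⟩ : ∃ s : ℝ → ℝ, s = fun y => (Z * y) ^ ((n : ℝ)⁻¹) := ⟨_, rfl⟩
  have hspow : ∀ y, 0 ≤ y → s y ^ n = Z * y := by
    intro y hy
    rw [hs]
    exact Real.rpow_inv_natCast_pow (by positivity) hn0
  have hs0 : ∀ y, 0 ≤ y → 0 ≤ s y := by
    intro y hy
    rw [hs]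
    exact Real.rpow_nonneg (by positivity) _
  have hsm : ∀ y y', 0 ≤ y → y ≤ y' → s y ≤ s y' := by
    intro y y' hy hyy
    rw [hs]
    exact Real.rpow_le_rpow (by positivity) (mul_le_mul_of_nonneg_left hyy hZ0.le) (by positivity)
  have hst : ∀ I ∈ T, t₀ I ≤ s (Ideal.absNorm I) := by
    intro I hI
    have hN := ub1_one_le (hT I hI).1
    refine (le_abs_self _).trans ?_
    refine le_of_pow_le_pow_left₀ hn0 (hs0 _ (by linarith)) ?_
    rw [hspow _ (by linarith)]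
    refine (hZt I hI).trans ?_
    nlinarith
  have h2 : ∀ I ∈ T, ∃ P : Finset (𝓞 F),
      (∀ x ∈ P, x ∈ I ∧ ∀ w : InfinitePlace F,
        s (Ideal.absNorm I) / Real.sqrt 2 ≤ w (x : F) ∧ w (x : F) ≤ s (Ideal.absNorm I)) ∧
      c * Z ≤ (P.card : ℝ) * Real.sqrt (dd F) := by
    intro I hI
    obtain ⟨P, hP1, hP2⟩ := ht₀ I hI _ (hst I hI)
    have hN := ub1_one_le (hT I hI).1
    refine ⟨P, fun x hx => ⟨(hP1 x hx).1, fun w => ?_⟩, ?_⟩
    · have h3 := (hP1 x hx).2 w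
      rw [mul_one] at h3
      exact ⟨h3.1.le, h3.2⟩
    · have h3 : ∏ w : InfinitePlace F, (1 : ℝ) ^ 2 = 1 := by simp
      rw [h3, mul_one, hspow _ (by linarith)] at hP2
      have hN0 : (0 : ℝ) < (Ideal.absNorm I : ℝ) := by linarith
      refine le_of_mul_le_mul_right ?_ hN0
      calc c * Z * (Ideal.absNorm I : ℝ) = c * (Z * (Ideal.absNorm I : ℝ)) := by ring
        _ ≤ _ := hP2
        _ = _ := by ring
  choose! Δ hΔ1 hΔ2 using h2
  obtain ⟨P, hP⟩ : ∃ P : Finset (Σ _ : Ideal (𝓞 F), 𝓞 F), P = T.sigma Δ := ⟨_, rfl⟩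
  have hPmem : ∀ q ∈ P, q.1 ∈ T ∧ q.2 ∈ Δ q.1 := by
    intro q hq
    rw [hP, Finset.mem_sigma] at hq
    exact hq
  have h3 : ∀ q ∈ P, ∃ b : Ideal (𝓞 F), Ideal.span {q.2} = q.1 * b := by
    intro q hq
    obtain ⟨hq1, hq2⟩ := hPmem q hq
    obtain ⟨b, hb⟩ := Ideal.dvd_span_singleton.2 (hΔ1 q.1 hq1 q.2 hq2).1
    exact ⟨b, hb⟩
  choose! b hb using h3
  -- norms of the ideals `b`
  have hbn : ∀ q ∈ P, (Ideal.absNorm (b q) : ℝ) ≤ Z ∧ Z ≤ r * (Ideal.absNorm (b q) : ℝ) := by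
    intro q hq
    obtain ⟨hq1, hq2⟩ := hPmem q hq
    have hN := ub1_one_le (hT q.1 hq1).1
    have hN0 : (0 : ℝ) < (Ideal.absNorm q.1 : ℝ) := by linarith
    have hw := (hΔ1 q.1 hq1 q.2 hq2).2
    have e1 : (Ideal.absNorm (Ideal.span {q.2}) : ℝ)
        = (Ideal.absNorm q.1 : ℝ) * (Ideal.absNorm (b q) : ℝ) := by
      rw [hb q hq, map_mul]
      push_cast
      rfl
    have u1 := ub1_norm_le hTC.2 (fun w => (hw w).2)
    have u2 := ub1_le_norm hTC.2 (div_nonneg (hs0 _ hN0.le) (Real.sqrt_nonneg 2))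
      (fun w => (hw w).1)
    rw [e1, hspow _ hN0.le] at u1
    rw [e1, div_pow, hspow _ hN0.le, ← hr, div_le_iff₀ (by linarith)] at u2
    constructor
    · refine le_of_mul_le_mul_left ?_ hN0
      linarith
    · refine le_of_mul_le_mul_left ?_ hN0
      linarith
  have hb0 : ∀ q ∈ P, b q ≠ ⊥ := by
    intro q hq h0
    have h4 := (hbn q hq).2
    rw [h0, Ideal.absNorm_bot, Nat.cast_zero, mul_zero] at h4
    linarith
  -- the number of the ideals `b`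
  have hB : ((P.image b).card : ℝ) ≤ 2 * kap F * Z := by
    refine (hZ₀ Z hZ).1 (P.image b) (fun J hJ => ?_)
    obtain ⟨q, hq, rfl⟩ := Finset.mem_image.1 hJ
    exact ⟨hb0 q hq, (hbn q hq).1⟩
  -- the fibres
  have hfib : ∀ J ∈ P.image b, ((P.filter (fun q => b q = J)).card : ℝ) * Real.sqrt (dd F)
      ≤ C₁ * u * r := by
    intro J hJ
    obtain ⟨q₀, hq₀, rfl⟩ := Finset.mem_image.1 hJ
    obtain ⟨Q, hQ⟩ : ∃ Q : Finset (𝓞 F),
      Q = (P.filter (fun q => b q = b q₀)).image (fun q => q.2) := ⟨_, rfl⟩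
    have hcard : Q.card = (P.filter (fun q => b q = b q₀)).card := by
      rw [hQ]
      refine Finset.card_image_of_injOn ?_
      intro q hq q' hq' hqq
      have hq1 := Finset.mem_filter.1 (Finset.mem_coe.1 hq)
      have hq1' := Finset.mem_filter.1 (Finset.mem_coe.1 hq')
      have e1 := hb q hq1.1
      have e2 := hb q' hq1'.1
      have hqq' : q.2 = q'.2 := hqq
      rw [hq1.2] at e1
      rw [hq1'.2] at e2
      rw [hqq', e2] at e1
      have e3 : q'.1 = q.1 := mul_right_cancel₀ (hb0 q₀ hq₀) e1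
      exact Sigma.ext e3.symm (heq_of_eq hqq')
    obtain ⟨hn1, hn2⟩ := hbn q₀ hq₀
    have hsu : s u ^ n = Z * u := hspow u hu0.le
    have hll1 := hll F hTC (b q₀) (hb0 q₀ hq₀) 0 (s u) ?_ ?_ Q ?_
    · rw [hsu] at hll1
      have hN0 : (0 : ℝ) ≤ (Ideal.absNorm (b q₀) : ℝ) := Nat.cast_nonneg _
      rw [← hcard]
      refine le_of_mul_le_mul_left ?_ hZ0
      calc Z * ((Q.card : ℝ) * Real.sqrt (dd F))
          ≤ (r * (Ideal.absNorm (b q₀) : ℝ)) * ((Q.card : ℝ) * Real.sqrt (dd F)) :=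
            mul_le_mul_of_nonneg_right hn2 (by positivity)
        _ = r * ((Q.card : ℝ) * ((Ideal.absNorm (b q₀) : ℝ) * Real.sqrt (dd F))) := by ring
        _ ≤ r * (C₁ * (Z * u)) := mul_le_mul_of_nonneg_left hll1 (by linarith)
        _ = Z * (C₁ * u * r) := by ring
    · rw [hs]
      exact Real.rpow_pos_of_pos (by positivity) _
    · rw [hsu]
      calc C₁ * dd F ^ A * (Ideal.absNorm (b q₀) : ℝ) ≤ u * Z :=
            mul_le_mul hu1 hn1 (Nat.cast_nonneg _) hu0.le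
        _ = Z * u := mul_comm _ _
    · intro x hx
      rw [hQ] at hx
      obtain ⟨q, hq, rfl⟩ := Finset.mem_image.1 hx
      obtain ⟨hqP, hqb⟩ := Finset.mem_filter.1 hq
      obtain ⟨hq1, hq2⟩ := hPmem q hqP
      constructor
      · rw [sub_zero]
        have h5 : q.2 ∈ Ideal.span {q.2} := Ideal.mem_span_singleton_self _
        rw [hb q hqP, hqb] at h5
        have h6 : q.1 * b q₀ ≤ b q₀ := Ideal.mul_le_right
        exact h6 h5
      · intro w
        exact ((hΔ1 q.1 hq1 q.2 hq2).2 w).2.trans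
          (hsm _ _ (Nat.cast_nonneg _) (hT q.1 hq1).2)
  -- double counting
  have hcP : (P.card : ℝ) = ∑ I ∈ T, ((Δ I).card : ℝ) := by
    rw [hP, Finset.card_sigma]
    push_cast
    rfl
  have hcB : (P.card : ℝ) = ∑ J ∈ P.image b, ((P.filter (fun q => b q = J)).card : ℝ) := by
    rw [Finset.card_eq_sum_card_image b P]
    push_cast
    rfl
  have hlow : (T.card : ℝ) * (c * Z) ≤ (P.card : ℝ) * Real.sqrt (dd F) := by
    rw [hcP, Finset.sum_mul, ← nsmul_eq_mul, ← Finset.sum_const]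
    exact Finset.sum_le_sum (fun I hI => hΔ2 I hI)
  have hup : (P.card : ℝ) * Real.sqrt (dd F) ≤ 2 * kap F * Z * (C₁ * u * r) := by
    calc (P.card : ℝ) * Real.sqrt (dd F)
        = ∑ J ∈ P.image b, ((P.filter (fun q => b q = J)).card : ℝ) * Real.sqrt (dd F) := by
          rw [hcB, Finset.sum_mul]
      _ ≤ ∑ J ∈ P.image b, C₁ * u * r := Finset.sum_le_sum hfib
      _ = ((P.image b).card : ℝ) * (C₁ * u * r) := by rw [Finset.sum_const, nsmul_eq_mul]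
      _ ≤ (2 * kap F * Z) * (C₁ * u * r) := mul_le_mul_of_nonneg_right hB (by positivity)
  have hk := kap_pos F
  have hfin : (T.card : ℝ) ≤ (2 * C₁ * r / c) * kap F * u := by
    have h6 : (T.card : ℝ) * (c * Z) ≤ ((2 * C₁ * r / c) * kap F * u) * (c * Z) := by
      refine (hlow.trans hup).trans (le_of_eq ?_)
      field_simp
    exact le_of_mul_le_mul_right h6 (by positivity)
  refine hfin.trans ?_
  exact mul_le_mul_of_nonneg_right (mul_le_mul_of_nonneg_right (le_max_right _ _) hk.le) hu0.le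

end H36.QA
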