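import Pool.Agent.H36.QA.WDefs

/-!
# [H36 QA WONE] The wreath product (six theorems, 70-120 lines, only Mathlib and WDefs)

`w_cH`: `bl_mul`, `bl_inv`, `(1 : Fin m → Perm (Fin 4)) i = 1`; `(whb h)⁻¹ = bl h⁻¹ 1`.
`w_Vn`: `bl h ε * bl 1 v * (bl h ε)⁻¹ = bl 1 (fun i => ε (h⁻¹ i) * v (h⁻¹ i) * (ε (h⁻¹ i))⁻¹)`, and `IsV` is
invariant under conjugation by even permutations of `Fin 4` (`decide` over `Equiv.Perm (Fin 4)`:
24 elements; or over all permutations).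
`w_Vc`, `w_V2`: `bl_mul` and the same statement for `IsV` (16 cases, `decide`).
`w_gen`: for every even `x : Perm (Fin 4)` there are `v` with `IsV v` and `k : ZMod 3` with
`x = v * c3 ^ k.val` (`decide`); `bl h ε = bl 1 v * (bl 1 (wt t) * bl h 1)` with
`v i * wt t i = ε (h⁻¹ i)`.
`w_uniq`: `bl 1 (wt t) * bl h 1 = bl 1 v` gives `h = 1` and `wt t = v` (`bl_inj`), and `IsV (c3 ^ k.val)`
only for `k = 0` (`decide`).
-/

noncomputable section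

namespace H36.QA

theorem isV_conj : ∀ g h : Equiv.Perm (Fin 4), IsV h → IsV (g * h * g⁻¹) := by
  unfold IsV
  intro g h
  rintro (rfl | rfl | rfl | rfl) <;> revert g <;> decide

theorem isV_comm : ∀ g h : Equiv.Perm (Fin 4), IsV g → IsV h → g * h = h * g := by
  unfold IsV
  rintro g h (rfl | rfl | rfl | rfl) (rfl | rfl | rfl | rfl) <;> decide

theorem isV_sq : ∀ g : Equiv.Perm (Fin 4), IsV g → g * g = 1 := by
  unfold IsV
  rintro g (rfl | rfl | rfl | rfl) <;> decide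

theorem w_gen4 : ∀ x : Equiv.Perm (Fin 4), Equiv.Perm.sign x = 1 →
    ∃ k : ZMod 3, IsV (x * (c3 ^ k.val)⁻¹) := by
  decide

theorem w_uniq4 : ∀ k : ZMod 3, IsV (c3 ^ k.val) → k = 0 := by
  decide

variable {m : ℕ} (H : Subgroup (Equiv.Perm (Fin m)))

theorem w_cH (h : H) (t : Fin m → Multiplicative (ZMod 3)) :
    whb H h * wc H t * (whb H h)⁻¹ = wc H (fun i => t ((h : Equiv.Perm (Fin m))⁻¹ i)) := by
  apply Subtype.ext
  change bl (h : Equiv.Perm (Fin m)) 1 * bl 1 (wt t) * (bl (h : Equiv.Perm (Fin m)) 1)⁻¹ =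
    bl 1 (wt (fun i => t ((h : Equiv.Perm (Fin m))⁻¹ i)))
  rw [bl_inv, bl_mul, bl_mul]
  congr 1
  rw [mul_one, mul_inv_cancel]

theorem w_Vn : (wV H).Normal := by
  constructor
  rintro n ⟨v, hv, hn⟩ ⟨g, h, hh, ε, hε, rfl⟩
  refine ⟨fun i => ε (h⁻¹ i) * v (h⁻¹ i) * (ε (h⁻¹ i))⁻¹, fun i => isV_conj _ _ (hv _), ?_⟩
  change bl h ε * (n : Equiv.Perm (Fin m × Fin 4)) * (bl h ε)⁻¹ = _
  rw [hn, bl_inv, bl_mul, bl_mul]
  congr 1
  rw [mul_one, mul_inv_cancel]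

theorem w_Vc : ∀ x ∈ wV H, ∀ y ∈ wV H, x * y = y * x := by
  rintro x ⟨v, hv, hx⟩ y ⟨w, hw, hy⟩
  apply Subtype.ext
  rw [Subgroup.coe_mul, Subgroup.coe_mul, hx, hy, bl_mul, bl_mul]
  congr 1
  funext i
  exact isV_comm _ _ (hv i) (hw i)

theorem w_V2 : ∀ x ∈ wV H, x ^ 2 = 1 := by
  rintro x ⟨v, hv, hx⟩
  apply Subtype.ext
  rw [pow_two, Subgroup.coe_mul, hx, bl_mul, Subgroup.coe_one, ← bl_one]
  congr 1
  funext i
  exact isV_sq _ (hv i)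

theorem w_gen : ∀ g : WG H, ∃ v ∈ wV H, ∃ t h, g = v * (wc H t * whb H h) := by
  rintro ⟨g, h, hh, ε, hε, rfl⟩
  have h1 : ∀ i, ∃ k : ZMod 3, IsV (ε (h⁻¹ i) * (c3 ^ k.val)⁻¹) := fun i => w_gen4 _ (hε _)
  choose k hk using h1
  refine ⟨⟨bl 1 (fun i => ε (h⁻¹ i) * (c3 ^ (k i).val)⁻¹), 1, H.one_mem, _,
    fun i => isV_sign _ (hk i), rfl⟩, ⟨_, hk, rfl⟩, fun i => Multiplicative.ofAdd (k i),
    ⟨h, hh⟩, ?_⟩
  apply Subtype.ext
  change bl h ε = bl 1 (fun i => ε (h⁻¹ i) * (c3 ^ (k i).val)⁻¹) *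
    (bl 1 (wt (fun i => Multiplicative.ofAdd (k i))) * bl h 1)
  rw [bl_mul, bl_mul]
  congr 1
  funext i
  simp [wt]

theorem w_uniq : ∀ t h, wc H t * whb H h ∈ wV H → t = 1 ∧ h = 1 := by
  rintro t h ⟨v, hv, hx⟩
  have h1 : bl 1 (wt t) * bl (h : Equiv.Perm (Fin m)) 1 = bl 1 v := hx
  rw [bl_mul] at h1
  obtain ⟨h2, h3⟩ := bl_inj h1
  rw [one_mul] at h2
  have h4 : h = 1 := Subtype.ext h2
  refine ⟨?_, h4⟩
  funext i
  have h5 := congrFun h3 i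
  simp only [h2, Equiv.Perm.coe_one, id_eq, Pi.one_apply, mul_one] at h5
  have h6 := hv i
  rw [← h5, wt] at h6
  have h7 := w_uniq4 _ h6
  rw [Pi.one_apply]
  exact h7

end H36.QA
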