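import Pool.Agent.H36.QA.GDef

/-!
# The wreath product `A₄ ≀ H` (complete)

`bl h ε` is the permutation `(i, k) ↦ (h i, ε i k)` of `Fin m × Fin 4`; `WG H` is the group of all `bl h ε`
with `h ∈ H`, `ε i ∈ A₄`.
-/

noncomputable section

namespace H36.QA

/-- The 3-cycle `(1 2 3)` of `Fin 4`. -/
def c3 : Equiv.Perm (Fin 4) := Equiv.swap 1 2 * Equiv.swap 2 3

/-- The double transpositions of `Fin 4`. -/
def dt : Equiv.Perm (Fin 4) := Equiv.swap 0 1 * Equiv.swap 2 3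

/-- Membership in the Klein four group. -/
def IsV (g : Equiv.Perm (Fin 4)) : Prop :=
  g = 1 ∨ g = Equiv.swap 0 1 * Equiv.swap 2 3 ∨ g = Equiv.swap 0 2 * Equiv.swap 1 3 ∨
    g = Equiv.swap 0 3 * Equiv.swap 1 2

instance : DecidablePred IsV := fun g => by unfold IsV; infer_instance

theorem isV_one : IsV 1 := Or.inl rfl

theorem isV_mul : ∀ g h : Equiv.Perm (Fin 4), IsV g → IsV h → IsV (g * h) := by
  unfold IsV
  rintro g h (rfl | rfl | rfl | rfl) (rfl | rfl | rfl | rfl) <;> decide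

theorem isV_inv : ∀ g : Equiv.Perm (Fin 4), IsV g → IsV g⁻¹ := by
  unfold IsV
  rintro g (rfl | rfl | rfl | rfl) <;> decide

theorem isV_sign : ∀ g : Equiv.Perm (Fin 4), IsV g → Equiv.Perm.sign g = 1 := by
  unfold IsV
  rintro g (rfl | rfl | rfl | rfl) <;> decide

theorem c3_pow_three : c3 ^ 3 = 1 := by decide

theorem c3_sign : Equiv.Perm.sign c3 = 1 := by decide

variable {m : ℕ}

/-- The permutation `(i, k) ↦ (h i, ε i k)`. -/
def bl (h : Equiv.Perm (Fin m)) (ε : Fin m → Equiv.Perm (Fin 4)) :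
    Equiv.Perm (Fin m × Fin 4) := Equiv.prodShear h ε

theorem bl_apply (h : Equiv.Perm (Fin m)) (ε : Fin m → Equiv.Perm (Fin 4)) (i : Fin m)
    (k : Fin 4) : bl h ε (i, k) = (h i, ε i k) := rfl

theorem bl_one : bl (1 : Equiv.Perm (Fin m)) 1 = 1 := by
  ext ⟨i, k⟩ <;> rfl

theorem bl_mul (h h' : Equiv.Perm (Fin m)) (ε ε' : Fin m → Equiv.Perm (Fin 4)) :
    bl h ε * bl h' ε' = bl (h * h') (fun i => ε (h' i) * ε' i) := by
  ext ⟨i, k⟩ <;> rfl

theorem bl_inv (h : Equiv.Perm (Fin m)) (ε : Fin m → Equiv.Perm (Fin 4)) :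
    (bl h ε)⁻¹ = bl h⁻¹ (fun i => (ε (h⁻¹ i))⁻¹) := by
  rw [inv_eq_iff_mul_eq_one, bl_mul, ← bl_one]
  congr 1
  · simp
  · funext i
    simp

theorem bl_inj {h h' : Equiv.Perm (Fin m)} {ε ε' : Fin m → Equiv.Perm (Fin 4)}
    (e : bl h ε = bl h' ε') : h = h' ∧ ε = ε' := by
  constructor
  · ext i
    have := congrArg Prod.fst (DFunLike.congr_fun e (i, 0))
    simpa [bl_apply] using congrArg Fin.val this
  · funext i
    ext k
    have := congrArg Prod.snd (DFunLike.congr_fun e (i, k))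
    simpa [bl_apply] using congrArg Fin.val this

/-- The wreath product `A₄ ≀ H`. -/
def WG (H : Subgroup (Equiv.Perm (Fin m))) : Subgroup (Equiv.Perm (Fin m × Fin 4)) where
  carrier := {g | ∃ h ∈ H, ∃ ε : Fin m → Equiv.Perm (Fin 4),
    (∀ i, Equiv.Perm.sign (ε i) = 1) ∧ g = bl h ε}
  mul_mem' := by
    rintro _ _ ⟨h, hh, ε, hε, rfl⟩ ⟨h', hh', ε', hε', rfl⟩
    exact ⟨h * h', H.mul_mem hh hh', _, fun i => by rw [map_mul, hε, hε', one_mul],
      bl_mul h h' ε ε'⟩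
  one_mem' := ⟨1, H.one_mem, 1, fun i => by simp, bl_one.symm⟩
  inv_mem' := by
    rintro _ ⟨h, hh, ε, hε, rfl⟩
    exact ⟨h⁻¹, H.inv_mem hh, _, fun i => by rw [map_inv, hε, inv_one], bl_inv h ε⟩

theorem mem_WG (H : Subgroup (Equiv.Perm (Fin m))) (g : Equiv.Perm (Fin m × Fin 4)) :
    g ∈ WG H ↔ ∃ h ∈ H, ∃ ε : Fin m → Equiv.Perm (Fin 4),
      (∀ i, Equiv.Perm.sign (ε i) = 1) ∧ g = bl h ε := Iff.rfl

variable (H : Subgroup (Equiv.Perm (Fin m)))

/-- The embedding of `H`. -/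
def whb : H →* WG H where
  toFun h := ⟨bl h 1, h, h.2, 1, fun i => by simp, rfl⟩
  map_one' := Subtype.ext bl_one
  map_mul' h h' := Subtype.ext (by
    change bl _ _ = bl _ _ * bl _ _
    rw [bl_mul]
    congr 1)

theorem c3_add (x y : ZMod 3) : c3 ^ (x + y).val = c3 ^ x.val * c3 ^ y.val := by
  rw [ZMod.val_add, ← pow_add, ← pow_mod_orderOf c3 (x.val + y.val)]
  have h1 : orderOf c3 = 3 := by
    apply orderOf_eq_prime c3_pow_three
    decide
  rw [h1]

/-- The element of the base group given by powers of the 3-cycle. -/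
def wt (t : Fin m → Multiplicative (ZMod 3)) : Fin m → Equiv.Perm (Fin 4) :=
  fun i => c3 ^ (Multiplicative.toAdd (t i)).val

theorem wt_one : wt (1 : Fin m → Multiplicative (ZMod 3)) = 1 := by
  funext i
  exact pow_zero c3

theorem wt_mul (t t' : Fin m → Multiplicative (ZMod 3)) :
    wt (t * t') = fun i => wt t i * wt t' i := by
  funext i
  exact c3_add _ _

theorem wt_sign (t : Fin m → Multiplicative (ZMod 3)) (i : Fin m) :
    Equiv.Perm.sign (wt t i) = 1 := by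
  rw [wt, map_pow, c3_sign, one_pow]

/-- The embedding of `C₃^m`. -/
def wc : (Fin m → Multiplicative (ZMod 3)) →* WG H where
  toFun t := ⟨bl 1 (wt t), 1, H.one_mem, _, wt_sign t, rfl⟩
  map_one' := Subtype.ext (by
    change bl 1 (wt 1) = 1
    rw [wt_one, bl_one])
  map_mul' t t' := Subtype.ext (by
    change bl 1 (wt (t * t')) = bl 1 (wt t) * bl 1 (wt t')
    rw [bl_mul, wt_mul, one_mul]
    congr 1)

/-- The subgroup `V₄^m`. -/
def wV : Subgroup (WG H) where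
  carrier := {g | ∃ ε : Fin m → Equiv.Perm (Fin 4), (∀ i, IsV (ε i)) ∧
    (g : Equiv.Perm (Fin m × Fin 4)) = bl 1 ε}
  mul_mem' := by
    rintro g g' ⟨ε, hε, h⟩ ⟨ε', hε', h'⟩
    refine ⟨fun i => ε i * ε' i, fun i => isV_mul _ _ (hε i) (hε' i), ?_⟩
    rw [Subgroup.coe_mul, h, h', bl_mul]
    congr 1
  one_mem' := ⟨1, fun i => isV_one, bl_one.symm⟩
  inv_mem' := by
    rintro g ⟨ε, hε, h⟩
    refine ⟨fun i => (ε i)⁻¹, fun i => isV_inv _ (hε i), ?_⟩
    rw [Subgroup.coe_inv, h, bl_inv]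
    congr 1

theorem mem_wV (g : WG H) : g ∈ wV H ↔ ∃ ε : Fin m → Equiv.Perm (Fin 4), (∀ i, IsV (ε i)) ∧
    (g : Equiv.Perm (Fin m × Fin 4)) = bl 1 ε := Iff.rfl

theorem dt_sign : Equiv.Perm.sign dt = 1 := by decide

/-- A double transposition in the block `i₀`. -/
def wd (i₀ : Fin m) : WG H :=
  ⟨bl 1 (Function.update 1 i₀ dt), 1, H.one_mem, _, fun i => by
    rcases eq_or_ne i i₀ with rfl | h
    · rw [Function.update_self, dt_sign]
    · rw [Function.update_of_ne h]; simp, rfl⟩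

end H36.QA
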