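import Pool.Agent.H38.ML.InertOrb

/-!
# [H36 QA WIONE] The index and the cycle type (four theorems, 70-120 lines)

`ind g = n - (number of orbits of zpowers g)`.  The orbits are the cycles of `g` (as many as
`g.cycleType` has elements; `Equiv.Perm.cycleFactorsFinset`, `SameCycle` classes) and the
`n - #support` fixed points, so `ind g + card cycleType = #support`.
(One way: the orbits with at least two elements are in bijection with `g.cycleFactorsFinset`: an orbit is
the support of exactly one cycle factor; `MulAction.orbitRel.Quotient (zpowers g)`;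
`mem_orbit_zpowers_iff` in InertOrb.lean; `Equiv.Perm.SameCycle`; `Equiv.Perm.cycleType_def`.)
`supp_le`: all parts of the cycle type are `≥ 2` and their sum is `#support`, so
`2 card ≤ #support`.
`two_le_ind`: if `ind g ≤ 1` and `g ≠ 1` then the sum of (part - 1) is `1`, so the cycle type is `{2}`,
`g` is a transposition and `sign g = -1`.
`ind_of_supp`: `#support ≤ 4`, `sign g = 1`: the sum of the parts is at most 4; `ind ≥ 2` and
`ind = #support - card`; `ind = 3` would need a 4-cycle, which is odd.
-/

open H38.ML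

namespace H36.QA

/-- labels of the orbits: the cycle through a moved point, or the fixed point -/
noncomputable def wi1F {n : ℕ} (g : Equiv.Perm (Fin n)) (x : Fin n) :
    Equiv.Perm (Fin n) ⊕ Fin n :=
  if g x = x then Sum.inr x else Sum.inl (g.cycleOf x)

theorem wi1F_fix {n : ℕ} {g : Equiv.Perm (Fin n)} {x : Fin n} (h : g x = x) :
    wi1F g x = Sum.inr x := by
  unfold wi1F; rw [if_pos h]

theorem wi1F_mov {n : ℕ} {g : Equiv.Perm (Fin n)} {x : Fin n} (h : g x ≠ x) :
    wi1F g x = Sum.inl (g.cycleOf x) := by
  unfold wi1F; rw [if_neg h]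

theorem wi1F_eq_iff {n : ℕ} (g : Equiv.Perm (Fin n)) (x y : Fin n) :
    wi1F g x = wi1F g y ↔ g.SameCycle y x := by
  constructor
  · intro h
    by_cases hx : g x = x
    · by_cases hy : g y = y
      · rw [wi1F_fix hx, wi1F_fix hy] at h
        rw [Sum.inr.inj h]
      · rw [wi1F_fix hx, wi1F_mov hy] at h
        exact absurd h (by simp)
    · by_cases hy : g y = y
      · rw [wi1F_mov hx, wi1F_fix hy] at h
        exact absurd h (by simp)
      · rw [wi1F_mov hx, wi1F_mov hy] at h
        refine (Equiv.Perm.sameCycle_iff_cycleOf_eq_of_mem_support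
          (Equiv.Perm.mem_support.2 hy) (Equiv.Perm.mem_support.2 hx)).2 (Sum.inl.inj h).symm
  · intro h
    by_cases hx : g x = x
    · have hy : y = x := by
        obtain ⟨k, hk⟩ := h.symm
        rw [← hk, Equiv.Perm.zpow_apply_eq_self_of_apply_eq_self hx]
      rw [hy]
    · have hy : g y ≠ y := by
        intro hy
        obtain ⟨k, hk⟩ := h
        rw [Equiv.Perm.zpow_apply_eq_self_of_apply_eq_self hy] at hk
        rw [hk] at hy
        exact hx hy
      rw [wi1F_mov hx, wi1F_mov hy, h.cycleOf_eq]

theorem wi1_image {n : ℕ} (g : Equiv.Perm (Fin n)) :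
    Finset.univ.image (wi1F g) = g.cycleFactorsFinset.disjSum g.supportᶜ := by
  ext z
  rw [Finset.mem_image]
  rcases z with p | x
  · rw [Finset.inl_mem_disjSum]
    constructor
    · rintro ⟨x, _, hx⟩
      by_cases h : g x = x
      · rw [wi1F_fix h] at hx
        exact absurd hx (by simp)
      · rw [wi1F_mov h] at hx
        rw [← Sum.inl.inj hx]
        exact Equiv.Perm.cycleOf_mem_cycleFactorsFinset_iff.2 (Equiv.Perm.mem_support.2 h)
    · intro hp
      have hc : p.IsCycle := (Equiv.Perm.mem_cycleFactorsFinset_iff.1 hp).1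
      obtain ⟨x, hx⟩ : ∃ x, x ∈ p.support := by
        obtain ⟨x, hx, _⟩ := hc
        exact ⟨x, Equiv.Perm.mem_support.2 hx⟩
      refine ⟨x, Finset.mem_univ x, ?_⟩
      have h1 : p = g.cycleOf x := Equiv.Perm.cycle_is_cycleOf hx hp
      have h2 : g x ≠ x :=
        Equiv.Perm.mem_support.1 (Equiv.Perm.mem_cycleFactorsFinset_support_le hp hx)
      rw [wi1F_mov h2, ← h1]
  · rw [Finset.inr_mem_disjSum, Finset.mem_compl, Equiv.Perm.mem_support, not_not]
    constructor
    · rintro ⟨y, _, hy⟩
      by_cases h : g y = y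
      · rw [wi1F_fix h] at hy
        rw [← Sum.inr.inj hy]
        exact h
      · rw [wi1F_mov h] at hy
        exact absurd hy (by simp)
    · intro h
      exact ⟨x, Finset.mem_univ x, wi1F_fix h⟩

theorem wi1_orbs {n : ℕ} (g : Equiv.Perm (Fin n)) :
    orbs (Subgroup.zpowers g) = g.cycleFactorsFinset.card + g.supportᶜ.card := by
  have hker : MulAction.orbitRel (Subgroup.zpowers g) (Fin n) = Setoid.ker (wi1F g) := by
    ext x y
    change x ∈ MulAction.orbit (Subgroup.zpowers g) y ↔ wi1F g x = wi1F g y
    rw [mem_orbit_zpowers_iff, wi1F_eq_iff]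
    rfl
  unfold orbs
  change Nat.card (Quotient (MulAction.orbitRel (Subgroup.zpowers g) (Fin n))) = _
  rw [hker, Nat.card_congr (Setoid.quotientKerEquivRange (wi1F g)), ← Finset.card_disjSum,
    ← wi1_image, Nat.card_coe_set_eq, ← Set.ncard_coe_finset]
  congr 1
  rw [Finset.coe_image, Finset.coe_univ, Set.image_univ]

theorem wi1_card {n : ℕ} (g : Equiv.Perm (Fin n)) :
    Multiset.card g.cycleType = g.cycleFactorsFinset.card := by
  rw [Equiv.Perm.cycleType_def, Multiset.card_map]
  rfl

theorem wi1_two {n : ℕ} (g : Equiv.Perm (Fin n)) :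
    2 * Multiset.card g.cycleType ≤ g.support.card := by
  rw [← Equiv.Perm.sum_cycleType]
  have h := Multiset.card_nsmul_le_sum (s := g.cycleType) (a := 2)
    fun x hx => Equiv.Perm.two_le_of_mem_cycleType hx
  rw [smul_eq_mul] at h
  omega

theorem ind_cycleType {n : ℕ} (g : Equiv.Perm (Fin n)) :
    ind g + Multiset.card g.cycleType = g.support.card := by
  have h1 := wi1_orbs g
  have h2 := wi1_two g
  have h3 := wi1_card g
  have h4 : g.supportᶜ.card = n - g.support.card := by
    rw [Finset.card_compl, Fintype.card_fin]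
  have h5 : g.support.card ≤ n := by
    have := Finset.card_le_univ g.support
    rwa [Fintype.card_fin] at this
  unfold ind
  omega

theorem supp_le {n : ℕ} (g : Equiv.Perm (Fin n)) : g.support.card ≤ 2 * ind g := by
  have h1 := ind_cycleType g
  have h2 := wi1_two g
  omega

theorem two_le_ind {n : ℕ} (g : Equiv.Perm (Fin n)) (hg : g ≠ 1)
    (hs : Equiv.Perm.sign g = 1) : 2 ≤ ind g := by
  by_contra hcon
  have h1 := supp_le g
  have h2 := Equiv.Perm.two_le_card_support_of_ne_one hg
  have h3 : g.support.card = 2 := by omega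
  have h4 := (Equiv.Perm.card_support_eq_two.1 h3).sign_eq
  rw [hs] at h4
  exact absurd h4 (by decide)

theorem ind_of_supp {n : ℕ} (g : Equiv.Perm (Fin n)) (hg : g ≠ 1)
    (hs : Equiv.Perm.sign g = 1) (h4 : g.support.card ≤ 4) : ind g = 2 := by
  have h1 := two_le_ind g hg hs
  have h2 := ind_cycleType g
  have h3 : Multiset.card g.cycleType ≠ 0 := by
    intro h
    rw [Multiset.card_eq_zero, Equiv.Perm.cycleType_eq_zero] at h
    exact hg h
  by_contra hne
  have h5 : Multiset.card g.cycleType = 1 := by omega
  have h6 : g.support.card = 4 := by omega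
  have h7 := (Equiv.Perm.card_cycleType_eq_one.1 h5).sign
  rw [h6, hs] at h7
  exact absurd h7 (by decide)

end H36.QA
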