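import Pool.Agent.H36.QA.WI1
import Pool.Agent.H36.QA.WDefs

/-!
# [H36 QA WITWO] The wreath product as a group of permutations of `Fin n` (six theorems, 110-170
lines)

`WRep e H G`: `G` is the group of all permutations `e (i, k) ↦ e (h i, ε i k)`.
`wr_equiv`: `g ↦ e.permCongr g` (`Equiv.permCongr`, `Equiv.permCongrHom`).
`wr_trans`: for `i, i'` there is `h ∈ H` with `h i = i'`, and `A₄` is transitive on `Fin 4` (`decide`).
`wr_sign`: `sign (bl h ε) = 1`: `bl h ε = bl h 1 * bl 1 ε`; `bl h 1` acts on four copies of `Fin m`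
(`sign = (sign h)^4`), `bl 1 ε` is a product of even permutations of the blocks
(`Equiv.Perm.sign_prodExtendRight`, `sign_prodCongrRight`, `sign_prodCongrLeft`); `sign` is invariant
under `permCongr` (`Equiv.Perm.sign_permCongr`).
`wr_ind_c`, `wr_ind_d`: the support of `bl 1 (update 1 i x)` is contained in `{i} × Fin 4`: at most 4
elements; `ind_of_supp`.
`wr_indG`: every `g ≠ 1` in `G` is even, so `ind g ≥ 2` (`two_le_ind`), and `wr_ind_d` gives the value 2.
`wr_least`: `ind (φ g) = 2`, `g = bl h ε`: `#support ≤ 4` (`supp_le`).  If `h ≠ 1` then `h` moves at least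
two blocks, and `g` moves all 8 points of two blocks: contradiction.  If `h = 1` and `ε i ≠ 1`,
`ε i' ≠ 1` for `i ≠ i'`: an even permutation `≠ 1` of `Fin 4` moves at least 3 points (`decide`), so
`g` moves at least 6 points: contradiction.  So exactly one `ε i ≠ 1` (`g ≠ 1`).
-/

open H38.ML

namespace H36.QA

/-- `G` is the group of all permutations `e (i, k) ↦ e (h i, ε i k)`, `h ∈ H`, `ε i ∈ A₄`. -/
def WRep {m n : ℕ} (e : Fin m × Fin 4 ≃ Fin n) (H : Subgroup (Equiv.Perm (Fin m)))
    (G : Subgroup (Equiv.Perm (Fin n))) : Prop :=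
  ∀ g : Equiv.Perm (Fin n), g ∈ G ↔ ∃ h ∈ H, ∃ ε : Fin m → Equiv.Perm (Fin 4),
    (∀ i, Equiv.Perm.sign (ε i) = 1) ∧ ∀ i k, g (e (i, k)) = e (h i, ε i k)

variable {m n : ℕ} (e : Fin m × Fin 4 ≃ Fin n) (H : Subgroup (Equiv.Perm (Fin m)))
  (G : Subgroup (Equiv.Perm (Fin n)))

theorem wi_even_trans : ∀ k k' : Fin 4, ∃ a : Equiv.Perm (Fin 4),
    Equiv.Perm.sign a = 1 ∧ a k = k' := by
  decide

theorem wi_three (x : Equiv.Perm (Fin 4)) (hx : x ≠ 1) (hs : Equiv.Perm.sign x = 1) :
    3 ≤ x.support.card := by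
  have h0 : x.support.card ≠ 0 := by
    intro h
    exact hx (Equiv.Perm.card_support_eq_zero.mp h)
  have h1 := Equiv.Perm.card_support_ne_one x
  have h2 : x.support.card ≠ 2 := by
    intro h
    have h3 := (Equiv.Perm.card_support_eq_two.mp h).sign_eq
    rw [hs] at h3
    exact absurd h3 (by decide)
  omega

theorem wi_sign (h : Equiv.Perm (Fin m)) (ε : Fin m → Equiv.Perm (Fin 4))
    (hε : ∀ i, Equiv.Perm.sign (ε i) = 1) : Equiv.Perm.sign (bl h ε) = 1 := by
  have h1 : bl h ε = Equiv.prodCongrLeft (fun _ : Fin 4 => h) * Equiv.prodCongrRight ε := by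
    ext ⟨i, k⟩ <;> rfl
  rw [h1, map_mul, Equiv.Perm.sign_prodCongrLeft, Equiv.Perm.sign_prodCongrRight]
  simp only [hε, Finset.prod_const_one, mul_one, Finset.prod_const, Finset.card_univ,
    Fintype.card_fin]
  rcases Int.units_eq_one_or (Equiv.Perm.sign h) with h2 | h2 <;> rw [h2] <;> decide

variable {H G}

theorem wi_form (g : Equiv.Perm (Fin n)) (b : Equiv.Perm (Fin m × Fin 4))
    (hg : ∀ q, g (e q) = e (b q)) : g = e.permCongr b := by
  ext x
  rw [Equiv.permCongr_apply, ← hg, Equiv.apply_symm_apply]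

theorem wi_mem (hG : WRep e H G) (b : Equiv.Perm (Fin m × Fin 4)) :
    e.permCongr b ∈ G ↔ b ∈ WG H := by
  rw [hG, mem_WG]
  constructor
  · rintro ⟨h, hh, ε, hε, hb⟩
    refine ⟨h, hh, ε, hε, ?_⟩
    apply Equiv.ext
    rintro ⟨i, k⟩
    apply e.injective
    rw [bl_apply, ← hb, Equiv.permCongr_apply, Equiv.symm_apply_apply]
  · rintro ⟨h, hh, ε, hε, rfl⟩
    refine ⟨h, hh, ε, hε, fun i k => ?_⟩
    rw [Equiv.permCongr_apply, Equiv.symm_apply_apply, bl_apply]

variable (H G)

theorem wr_equiv (hG : WRep e H G) : ∃ φ : WG H ≃* G, ∀ (g : WG H) (p : Fin m × Fin 4),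
    ((φ g : G) : Equiv.Perm (Fin n)) (e p) = e ((g : Equiv.Perm (Fin m × Fin 4)) p) := by
  refine ⟨{ toFun := fun g => ⟨e.permCongr g, (wi_mem e hG g).mpr g.2⟩
            invFun := fun g => ⟨e.symm.permCongr g, by
              rw [← wi_mem e hG]
              have h1 : e.permCongr (e.symm.permCongr (g : Equiv.Perm (Fin n))) = g := by
                ext x
                simp [Equiv.permCongr_apply]
              rw [h1]
              exact g.2⟩
            left_inv := fun g => by
              apply Subtype.ext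
              ext x <;> simp [Equiv.permCongr_apply]
            right_inv := fun g => by
              apply Subtype.ext
              ext x
              simp [Equiv.permCongr_apply]
            map_mul' := fun g g' => by
              apply Subtype.ext
              ext x
              simp [Equiv.permCongr_apply] }, ?_⟩
  intro g p
  change e.permCongr (g : Equiv.Perm (Fin m × Fin 4)) (e p) = _
  rw [Equiv.permCongr_apply, Equiv.symm_apply_apply]

theorem wr_trans (hG : WRep e H G) (htr : MulAction.IsPretransitive H (Fin m)) :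
    MulAction.IsPretransitive G (Fin n) := by
  refine ⟨fun x y => ?_⟩
  obtain ⟨h, hh⟩ := htr.exists_smul_eq (e.symm x).1 (e.symm y).1
  obtain ⟨a, ha, hak⟩ := wi_even_trans (e.symm x).2 (e.symm y).2
  refine ⟨⟨e.permCongr (bl (h : Equiv.Perm (Fin m)) (fun _ => a)), (wi_mem e hG _).mpr
    ⟨h, h.2, _, fun _ => ha, rfl⟩⟩, ?_⟩
  change e.permCongr (bl (h : Equiv.Perm (Fin m)) (fun _ => a)) x = y
  rw [Equiv.permCongr_apply]
  have h1 : bl (h : Equiv.Perm (Fin m)) (fun _ => a) (e.symm x) = e.symm y := by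
    have h2 : e.symm x = ((e.symm x).1, (e.symm x).2) := rfl
    rw [h2, bl_apply, hak]
    exact Prod.ext hh rfl
  rw [h1, Equiv.apply_symm_apply]

theorem wr_sign (hG : WRep e H G) (g : Equiv.Perm (Fin n)) (hg : g ∈ G) :
    Equiv.Perm.sign g = 1 := by
  obtain ⟨h, hh, ε, hε, hb⟩ := (hG g).mp hg
  have h1 : g = e.permCongr (bl h ε) := wi_form e g (bl h ε) (fun ⟨i, k⟩ => hb i k)
  rw [h1, Equiv.Perm.sign_permCongr, wi_sign h ε hε]

theorem wi_supp (b : Equiv.Perm (Fin m × Fin 4)) :
    (e.permCongr b).support.card = b.support.card := by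
  have h1 : (e.permCongr b).support = b.support.map e.toEmbedding := by
    ext x
    rw [Equiv.Perm.mem_support, Finset.mem_map, Equiv.permCongr_apply]
    constructor
    · intro h
      refine ⟨e.symm x, ?_, by simp⟩
      rw [Equiv.Perm.mem_support]
      intro h2
      apply h
      rw [h2, Equiv.apply_symm_apply]
    · rintro ⟨q, hq, rfl⟩
      rw [Equiv.Perm.mem_support] at hq
      intro h2
      apply hq
      have h3 : e (b q) = e q := by simpa using h2
      exact e.injective h3
  rw [h1, Finset.card_map]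

theorem wr_ind (hG : WRep e H G) (φ : WG H ≃* G) (hφ : ∀ (g : WG H) (p : Fin m × Fin 4),
    ((φ g : G) : Equiv.Perm (Fin n)) (e p) = e ((g : Equiv.Perm (Fin m × Fin 4)) p))
    (g : WG H) (i : Fin m) (x : Equiv.Perm (Fin 4)) (hx : x ≠ 1)
    (hg : (g : Equiv.Perm (Fin m × Fin 4)) = bl 1 (Function.update 1 i x)) :
    ind ((φ g : G) : Equiv.Perm (Fin n)) = 2 := by
  have h1 : ((φ g : G) : Equiv.Perm (Fin n)) = e.permCongr (g : Equiv.Perm (Fin m × Fin 4)) :=
    wi_form e _ _ (hφ g)
  have hg1 : g ≠ 1 := by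
    intro h
    rw [h] at hg
    have h2 : bl (1 : Equiv.Perm (Fin m)) 1 = bl 1 (Function.update 1 i x) := by
      rw [bl_one, ← hg]; rfl
    have h3 := congrFun (bl_inj h2).2 i
    rw [Function.update_self] at h3
    exact hx h3.symm
  refine ind_of_supp _ ?_ (wr_sign e H G hG _ (φ g).2) ?_
  · intro h
    apply hg1
    have h2 : φ g = 1 := Subtype.ext h
    exact (map_eq_one_iff φ φ.injective).mp h2
  · rw [h1, wi_supp, hg]
    have h3 : (bl 1 (Function.update 1 i x)).support ⊆
        (Finset.univ : Finset (Fin 4)).map ⟨fun k => (i, k), fun a b hab => (Prod.ext_iff.mp hab).2⟩ := by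
      rintro ⟨j, k⟩ hjk
      rw [Equiv.Perm.mem_support, bl_apply] at hjk
      rw [Finset.mem_map]
      refine ⟨k, Finset.mem_univ _, ?_⟩
      change (i, k) = (j, k)
      by_contra hne
      apply hjk
      have hji : j ≠ i := by
        rintro rfl
        exact hne rfl
      rw [Function.update_of_ne hji]
      rfl
    calc _ ≤ _ := Finset.card_le_card h3
      _ = 4 := by rw [Finset.card_map, Finset.card_univ, Fintype.card_fin]

theorem wr_indG (hm : 0 < m) (hG : WRep e H G) : indG G = 2 := by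
  obtain ⟨φ, hφ⟩ := wr_equiv e H G hG
  have hdt : dt ≠ 1 := by decide
  have h1 := wr_ind e H G hG φ hφ (wd H ⟨0, hm⟩) ⟨0, hm⟩ dt hdt rfl
  have hmem : 2 ∈ {k | ∃ g ∈ G, g ≠ 1 ∧ ind g = k} := by
    refine ⟨_, (φ (wd H ⟨0, hm⟩)).2, ?_, h1⟩
    intro h
    rw [h] at h1
    have h2 : ind (1 : Equiv.Perm (Fin n)) = 0 := by
      have h3 := ind_cycleType (1 : Equiv.Perm (Fin n))
      simpa using h3
    rw [h2] at h1
    exact absurd h1 (by norm_num)
  unfold indG
  refine le_antisymm (Nat.sInf_le hmem) ?_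
  refine le_csInf ⟨2, hmem⟩ ?_
  rintro k ⟨g, hg, hg1, rfl⟩
  exact two_le_ind g hg1 (wr_sign e H G hG g hg)

theorem wr_least (hG : WRep e H G) (φ : WG H ≃* G) (hφ : ∀ (g : WG H) (p : Fin m × Fin 4),
    ((φ g : G) : Equiv.Perm (Fin n)) (e p) = e ((g : Equiv.Perm (Fin m × Fin 4)) p))
    (g : WG H) (hg : g ≠ 1) (h2 : ind ((φ g : G) : Equiv.Perm (Fin n)) = 2) :
    ∃ (i : Fin m) (x : Equiv.Perm (Fin 4)), x ≠ 1 ∧ Equiv.Perm.sign x = 1 ∧
      (g : Equiv.Perm (Fin m × Fin 4)) = bl 1 (Function.update 1 i x) := by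
  classical
  have h1 : ((φ g : G) : Equiv.Perm (Fin n)) = e.permCongr (g : Equiv.Perm (Fin m × Fin 4)) :=
    wi_form e _ _ (hφ g)
  obtain ⟨h, hh, ε, hε, hb⟩ := g.2
  have hcard : (bl h ε).support.card ≤ 4 := by
    have h3 := supp_le ((φ g : G) : Equiv.Perm (Fin n))
    rw [h2, h1, wi_supp, hb] at h3
    exact h3
  have hsub : ∀ S : Finset (Fin m × Fin 4), (∀ q ∈ S, bl h ε q ≠ q) → S.card ≤ 4 := by
    intro S hS
    refine le_trans (Finset.card_le_card ?_) hcard
    intro q hq
    rw [Equiv.Perm.mem_support]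
    exact hS q hq
  have hh1 : h = 1 := by
    by_contra hne
    obtain ⟨i, hi⟩ : ∃ i, h i ≠ i := by
      by_contra hall
      push Not at hall
      exact hne (Equiv.ext hall)
    have hi' : h (h i) ≠ h i := fun h3 => hi (h.injective h3)
    have h3 := hsub (({i, h i} : Finset (Fin m)) ×ˢ (Finset.univ : Finset (Fin 4))) (by
      rintro ⟨j, k⟩ hq
      rw [Finset.mem_product, Finset.mem_insert, Finset.mem_singleton] at hq
      rw [bl_apply]
      intro h4
      have h5 : h j = j := (Prod.ext_iff.mp h4).1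
      rcases hq.1 with h6 | h6
      · change j = i at h6
        rw [h6] at h5; exact hi h5
      · change j = h i at h6
        rw [h6] at h5; exact hi' h5)
    rw [Finset.card_product, Finset.card_pair (Ne.symm hi), Finset.card_univ,
      Fintype.card_fin] at h3
    omega
  subst hh1
  obtain ⟨i, hi⟩ : ∃ i, ε i ≠ 1 := by
    by_contra hall
    push Not at hall
    apply hg
    apply Subtype.ext
    rw [hb]
    have h3 : ε = 1 := funext hall
    rw [h3, bl_one]
    rfl
  refine ⟨i, ε i, hi, hε i, ?_⟩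
  rw [hb]
  congr 1
  funext j
  by_cases hj : j = i
  · rw [hj, Function.update_self]
  · rw [Function.update_of_ne hj]
    by_contra hne
    have hne' : ε j ≠ 1 := hne
    have h3 := hsub ((ε i).support.map ⟨fun k => (i, k), fun a b hab => (Prod.ext_iff.mp hab).2⟩ ∪
      (ε j).support.map ⟨fun k => (j, k), fun a b hab => (Prod.ext_iff.mp hab).2⟩) (by
      intro q hq
      rw [Finset.mem_union, Finset.mem_map, Finset.mem_map] at hq
      rcases hq with ⟨k, hk, rfl⟩ | ⟨k, hk, rfl⟩
      · intro h4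
        rw [Equiv.Perm.mem_support] at hk
        exact hk (Prod.ext_iff.mp h4).2
      · intro h4
        rw [Equiv.Perm.mem_support] at hk
        exact hk (Prod.ext_iff.mp h4).2)
    rw [Finset.card_union_of_disjoint, Finset.card_map, Finset.card_map] at h3
    · have h4 := wi_three (ε i) hi (hε i)
      have h5 := wi_three (ε j) hne' (hε j)
      omega
    · rw [Finset.disjoint_left]
      intro q hq hq'
      obtain ⟨k, _, rfl⟩ := Finset.mem_map.mp hq
      obtain ⟨k', _, hk'⟩ := Finset.mem_map.mp hq'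
      exact hj (Prod.ext_iff.mp hk').1

end H36.QA
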